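import Pool.Agent.Helper590.ChFm

set_option autoImplicit false

namespace Pool.Agent.Helper590.Chain

set_option maxRecDepth 100000 in
theorem chkS : lS.all (chkStep f0 true lR) = true := by decide +kernel

set_option maxRecDepth 100000 in
theorem chkR : lR.all (chkStep f1 false lR) = true := by decide +kernel

set_option maxRecDepth 100000 in
theorem chkE : lR.all (chkStep f2 false lE) = true := by decide +kernel

set_option maxRecDepth 100000 in
theorem chkF : lE.all (chkEnd f3) = true := by decide +kernel

theorem paS : lS.all (fun e => e.s.wZ || Nat.ble 9 e.pa) = true := by decide +kernel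
theorem paR : lR.all (fun e => e.s.wZ || Nat.ble 9 e.pa) = true := by decide +kernel
theorem paE : lE.all (fun e => e.s.wZ || Nat.ble 9 e.pa) = true := by decide +kernel

end Pool.Agent.Helper590.Chain
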