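import Pool.Agent.Helper590.ChSem

set_option autoImplicit false
set_option linter.unusedSimpArgs false
set_option linter.unusedVariables false

namespace Pool.Agent.Helper590.Chain

open BA

section mx
variable (M : ℕ) (W T : Finset Vx) (i : ℕ) (hi : i ≤ M) (hTW : T ⊆ W)
  (hI : ∀ v ∈ T, ∃ u ∈ nb M v, pv M W T u v)

theorem pv_ud (u v : Vx) (hv : v ∉ T) (h : pv M W T u v) : ud M W T u :=
  ⟨h.1, fun x hx hxT => hv (h.2 x hx hxT ▸ hxT)⟩

theorem int_right (x v u : Vx) (hx : x = (i, Ty.F) ∨ x = (i, Ty.U))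
    (hv : v = (i+1, Ty.G) ∨ v = (i+1, Ty.P)) (h1 : u ∈ nb M x) (h2 : u ∈ nb M v) :
    u = (i+1, Ty.Z) := by
  obtain ⟨j, t⟩ := u
  rcases hx with rfl | rfl <;> rcases hv with rfl | rfl <;> cases t <;> simp [nb] at h1 h2 ⊢ <;> omega

theorem int_left (x v u : Vx) (hx : x = (i+1, Ty.G) ∨ x = (i+1, Ty.P))
    (hv : v = (i, Ty.F) ∨ v = (i, Ty.U)) (h1 : u ∈ nb M x) (h2 : u ∈ nb M v) :
    u = (i+1, Ty.Z) := by
  obtain ⟨j, t⟩ := u
  rcases hx with rfl | rfl <;> rcases hv with rfl | rfl <;> cases t <;> simp [nb] at h1 h2 ⊢ <;> omega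

include hI

theorem kill_right (x : Vx) (hiM : i < M) (hx : x = (i, Ty.F) ∨ x = (i, Ty.U)) (τ : Ty)
    (hτ : τ = Ty.G ∨ (τ = Ty.P ∧ i + 1 < M)) (hk : kl M W T x (i+1, τ)) :
    (cS M W T i).r = true := by
  obtain ⟨hv, hk⟩ := hk
  have hvv : ((i+1, τ) : Vx) = (i+1, Ty.G) ∨ ((i+1, τ) : Vx) = (i+1, Ty.P) := by
    rcases hτ with rfl | ⟨rfl, _⟩ <;> simp
  obtain ⟨u0, hu0, hp0⟩ := hI _ hv
  have hu1 : u0 = (i+1, Ty.Z) := int_right M i x _ u0 hx hvv (hk u0 hu0 hp0) hu0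
  have hzW : (i+1, Ty.Z) ∈ W := hu1 ▸ hp0.1
  have hzT : (i+1, Ty.Z) ∉ T := by
    intro hz
    have := hp0.2 (i+1, Ty.Z) (by rw [hu1]; exact nb_self _ _) hz
    rcases hτ with rfl | ⟨rfl, _⟩ <;> simp at this
  exact cS_r M W T i hiM hzW hzT τ hτ hv
    (fun u hu hp => int_right M i x _ u hx hvv (hk u hu hp) hu)

theorem kill_left (x : Vx) (hiM : i < M) (hx : x = (i+1, Ty.G) ∨ x = (i+1, Ty.P)) (τ : Ty)
    (hτ : τ = Ty.F ∨ (τ = Ty.U ∧ i + 1 < M)) (hk : kl M W T x (i, τ)) :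
    (sS M W T (i+1)).e = true := by
  obtain ⟨hv, hk⟩ := hk
  have hvv : ((i, τ) : Vx) = (i, Ty.F) ∨ ((i, τ) : Vx) = (i, Ty.U) := by
    rcases hτ with rfl | ⟨rfl, _⟩ <;> simp
  obtain ⟨u0, hu0, hp0⟩ := hI _ hv
  have hu1 : u0 = (i+1, Ty.Z) := int_left M i x _ u0 hx hvv (hk u0 hu0 hp0) hu0
  have hzW : (i+1, Ty.Z) ∈ W := hu1 ▸ hp0.1
  have hzT : (i+1, Ty.Z) ∉ T := by
    intro hz
    have := hp0.2 (i+1, Ty.Z) (by rw [hu1]; exact nb_self _ _) hz
    rcases hτ with rfl | ⟨rfl, _⟩ <;> simp at this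
  exact sS_e M W T i hiM hzW hzT τ hτ hv
    (fun u hu hp => int_left M i x _ u hx hvv (hk u hu hp) hu)

variable (hM : ∀ x ∈ W, x ∉ T → (∃ u ∈ nb M x, ud M W T u) → ∃ v, kl M W T x v)
include hi hTW hM

theorem mF_ok : mF (fl M i) (sS M W T i) (kS W T i) (cS M W T i) = true := by
  have aQG := QG_iff M W T i hi
  have aZG := ZG_iff M W T i hi
  have aQP := QP_iff M W T i hi
  have aZP := ZP_iff M W T i hi
  have aZZ := ZZ_iff M W T i hi
  have aQQ := QQ_iff M W T i hi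
  have aUQ := UQ_iff M W T i hi
  have aUU := UU_iff M W T i hi
  have aQU := QU_iff M W T i hi
  have aYU := YU_iff M W T i hi
  have aUY := UY_iff M W T i hi
  have auF := uF_iff M W T i hi
  have auG := uG_iff M W T i hi
  have auP := uP_iff M W T i hi
  have auY := uY_iff M W T i hi
  have h1 := sS_tZ M W T i hi
  have h2 := sS_u M W T i hi
  have h3 := sS_wZ M W T i hi
  have b1 := cS_b M W T i hi hTW
  by_cases hw : (i, Ty.F) ∈ W
  swap
  · simp [mF, mx, dj, kS, hw, h3]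
  by_cases ht : (i, Ty.F) ∈ T
  · simp [mF, mx, dj, kS, ht, h1]
  by_cases ho : ∃ u ∈ nb M (i, Ty.F), ud M W T u
  swap
  · clear hM hI
    have hz1 : (i, Ty.Z) ∉ T → pv M W T (i-1, Ty.F) (i, Ty.Z) → ud M W T (i-1, Ty.F) := pv_ud M W T _ _
    have hz2 : (i, Ty.Z) ∉ T → pv M W T (i-1, Ty.U) (i, Ty.Z) → ud M W T (i-1, Ty.U) := pv_ud M W T _ _
    simp only [mF, mx, dj, gd, an_bool, orr_bool, nt_bool, cs_bool, fl]
    simp only [nb, List.mem_cons, List.mem_append, List.mem_ite_nil_right, List.not_mem_nil, or_false] at ho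
    simp [fl] at *
    grind
  obtain ⟨v, hv, hk⟩ := hM _ hw ht ho
  obtain ⟨u0, hu0, hp0⟩ := hI v hv
  have hx := hk u0 hu0 hp0
  rw [nb_symm] at hu0
  clear ho
  simp only [nb, List.mem_cons, List.mem_append, List.mem_ite_nil_right, List.not_mem_nil, or_false] at hx
  rcases hx with rfl | rfl | rfl | ⟨hq0, rfl⟩ <;> simp only [nb, List.mem_cons, List.mem_append, List.mem_ite_nil_right, List.not_mem_nil, or_false] at hu0
  · rcases hu0 with rfl | rfl | rfl | ⟨hq, rfl⟩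
    · exact absurd hv ht
    · have k0 : pv M W T (i, Ty.G) (i, Ty.G) → (i, Ty.G) ∈ nb M (i, Ty.F) := hk _ (by simp [nb])
      have k1 : pv M W T (i, Ty.F) (i, Ty.G) → (i, Ty.F) ∈ nb M (i, Ty.F) := hk _ (by simp [nb])
      have k2 : pv M W T (i, Ty.Q) (i, Ty.G) → (i, Ty.Q) ∈ nb M (i, Ty.F) := hk _ (by simp [nb])
      have k3 : (0 < i) → pv M W T (i, Ty.Z) (i, Ty.G) → (i, Ty.Z) ∈ nb M (i, Ty.F) := fun hc => hk _ (by simp [nb]; omega)
      clear hk hp0 hM hI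
      simp [nb] at k0 k1 k2 k3
      simp only [mF, mx, dj, cj, gd, gi, an_bool, orr_bool, nt_bool, cs_bool, fl]
      simp only [fl] at *
      grind [kS, cS, tYS]
    · have k0 : pv M W T (i, Ty.P) (i, Ty.P) → (i, Ty.P) ∈ nb M (i, Ty.F) := hk _ (by simp [nb])
      have k1 : pv M W T (i, Ty.F) (i, Ty.P) → (i, Ty.F) ∈ nb M (i, Ty.F) := hk _ (by simp [nb])
      have k2 : (i < M) → pv M W T (i, Ty.Q) (i, Ty.P) → (i, Ty.Q) ∈ nb M (i, Ty.F) := fun hc => hk _ (by simp [nb]; omega)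
      have k3 : (i < M) → pv M W T (i, Ty.Z) (i, Ty.P) → (i, Ty.Z) ∈ nb M (i, Ty.F) := fun hc => hk _ (by simp [nb]; omega)
      clear hk hp0 hM hI
      simp [nb] at k0 k1 k2 k3
      simp only [mF, mx, dj, cj, gd, gi, an_bool, orr_bool, nt_bool, cs_bool, fl]
      simp only [fl] at *
      grind [kS, cS, tYS]
    · have k0 : pv M W T (i+1, Ty.Z) (i+1, Ty.Z) → (i+1, Ty.Z) ∈ nb M (i, Ty.F) := hk _ (by simp [nb])
      have k1 : pv M W T (i+1, Ty.G) (i+1, Ty.Z) → (i+1, Ty.G) ∈ nb M (i, Ty.F) := hk _ (by simp [nb])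
      have k2 : (i + 1 < M) → pv M W T (i+1, Ty.P) (i+1, Ty.Z) → (i+1, Ty.P) ∈ nb M (i, Ty.F) := fun hc => hk _ (by simp [nb]; omega)
      have k3 : (i < M) → pv M W T (i, Ty.F) (i+1, Ty.Z) → (i, Ty.F) ∈ nb M (i, Ty.F) := fun hc => hk _ (by simp [nb]; omega)
      have k4 : (i + 1 < M) → pv M W T (i, Ty.U) (i+1, Ty.Z) → (i, Ty.U) ∈ nb M (i, Ty.F) := fun hc => hk _ (by simp [nb]; omega)
      clear hk hp0 hM hI
      simp [nb] at k0 k1 k2 k3 k4
      simp only [mF, mx, dj, cj, gd, gi, an_bool, orr_bool, nt_bool, cs_bool, fl]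
      simp only [fl] at *
      grind [kS, cS, tYS]
  · rcases hu0 with rfl | rfl | rfl | ⟨hq, rfl⟩
    · have k0 : pv M W T (i, Ty.G) (i, Ty.G) → (i, Ty.G) ∈ nb M (i, Ty.F) := hk _ (by simp [nb])
      have k1 : pv M W T (i, Ty.F) (i, Ty.G) → (i, Ty.F) ∈ nb M (i, Ty.F) := hk _ (by simp [nb])
      have k2 : pv M W T (i, Ty.Q) (i, Ty.G) → (i, Ty.Q) ∈ nb M (i, Ty.F) := hk _ (by simp [nb])
      have k3 : (0 < i) → pv M W T (i, Ty.Z) (i, Ty.G) → (i, Ty.Z) ∈ nb M (i, Ty.F) := fun hc => hk _ (by simp [nb]; omega)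
      clear hk hp0 hM hI
      simp [nb] at k0 k1 k2 k3
      simp only [mF, mx, dj, cj, gd, gi, an_bool, orr_bool, nt_bool, cs_bool, fl]
      simp only [fl] at *
      grind [kS, cS, tYS]
    · exact absurd hv ht
    · have k0 : pv M W T (i, Ty.Q) (i, Ty.Q) → (i, Ty.Q) ∈ nb M (i, Ty.F) := hk _ (by simp [nb])
      have k1 : pv M W T (i, Ty.G) (i, Ty.Q) → (i, Ty.G) ∈ nb M (i, Ty.F) := hk _ (by simp [nb])
      have k2 : pv M W T (i, Ty.U) (i, Ty.Q) → (i, Ty.U) ∈ nb M (i, Ty.F) := hk _ (by simp [nb])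
      have k3 : (i < M) → pv M W T (i, Ty.P) (i, Ty.Q) → (i, Ty.P) ∈ nb M (i, Ty.F) := fun hc => hk _ (by simp [nb]; omega)
      clear hk hp0 hM hI
      simp [nb] at k0 k1 k2 k3
      simp only [mF, mx, dj, cj, gd, gi, an_bool, orr_bool, nt_bool, cs_bool, fl]
      simp only [fl] at *
      grind [kS, cS, tYS]
    · have k0 : pv M W T (i, Ty.Z) (i, Ty.Z) → (i, Ty.Z) ∈ nb M (i, Ty.F) := hk _ (by simp [nb])
      have k1 : (0 < i) → pv M W T (i, Ty.G) (i, Ty.Z) → (i, Ty.G) ∈ nb M (i, Ty.F) := fun hc => hk _ (by simp [nb]; omega)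
      have k2 : (i < M) → pv M W T (i, Ty.P) (i, Ty.Z) → (i, Ty.P) ∈ nb M (i, Ty.F) := fun hc => hk _ (by simp [nb]; omega)
      have k3 : (0 < i) → pv M W T (i-1, Ty.F) (i, Ty.Z) → (i-1, Ty.F) ∈ nb M (i, Ty.F) := fun hc => hk _ (by simp [nb]; omega)
      have k4 : (0 < i ∧ i < M) → pv M W T (i-1, Ty.U) (i, Ty.Z) → (i-1, Ty.U) ∈ nb M (i, Ty.F) := fun hc => hk _ (by simp [nb]; omega)
      clear hk hp0 hM hI
      simp [nb] at k0 k1 k2 k3 k4
      simp only [mF, mx, dj, cj, gd, gi, an_bool, orr_bool, nt_bool, cs_bool, fl]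
      simp only [fl] at *
      grind [kS, cS, tYS]
  · rcases hu0 with rfl | rfl | ⟨hq, rfl | rfl⟩
    · have k0 : pv M W T (i, Ty.P) (i, Ty.P) → (i, Ty.P) ∈ nb M (i, Ty.F) := hk _ (by simp [nb])
      have k1 : pv M W T (i, Ty.F) (i, Ty.P) → (i, Ty.F) ∈ nb M (i, Ty.F) := hk _ (by simp [nb])
      have k2 : (i < M) → pv M W T (i, Ty.Q) (i, Ty.P) → (i, Ty.Q) ∈ nb M (i, Ty.F) := fun hc => hk _ (by simp [nb]; omega)
      have k3 : (i < M) → pv M W T (i, Ty.Z) (i, Ty.P) → (i, Ty.Z) ∈ nb M (i, Ty.F) := fun hc => hk _ (by simp [nb]; omega)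
      clear hk hp0 hM hI
      simp [nb] at k0 k1 k2 k3
      simp only [mF, mx, dj, cj, gd, gi, an_bool, orr_bool, nt_bool, cs_bool, fl]
      simp only [fl] at *
      grind [kS, cS, tYS]
    · exact absurd hv ht
    · have k0 : pv M W T (i, Ty.Q) (i, Ty.Q) → (i, Ty.Q) ∈ nb M (i, Ty.F) := hk _ (by simp [nb])
      have k1 : pv M W T (i, Ty.G) (i, Ty.Q) → (i, Ty.G) ∈ nb M (i, Ty.F) := hk _ (by simp [nb])
      have k2 : pv M W T (i, Ty.U) (i, Ty.Q) → (i, Ty.U) ∈ nb M (i, Ty.F) := hk _ (by simp [nb])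
      have k3 : (i < M) → pv M W T (i, Ty.P) (i, Ty.Q) → (i, Ty.P) ∈ nb M (i, Ty.F) := fun hc => hk _ (by simp [nb]; omega)
      clear hk hp0 hM hI
      simp [nb] at k0 k1 k2 k3
      simp only [mF, mx, dj, cj, gd, gi, an_bool, orr_bool, nt_bool, cs_bool, fl]
      simp only [fl] at *
      grind [kS, cS, tYS]
    · have k0 : pv M W T (i, Ty.Z) (i, Ty.Z) → (i, Ty.Z) ∈ nb M (i, Ty.F) := hk _ (by simp [nb])
      have k1 : (0 < i) → pv M W T (i, Ty.G) (i, Ty.Z) → (i, Ty.G) ∈ nb M (i, Ty.F) := fun hc => hk _ (by simp [nb]; omega)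
      have k2 : (i < M) → pv M W T (i, Ty.P) (i, Ty.Z) → (i, Ty.P) ∈ nb M (i, Ty.F) := fun hc => hk _ (by simp [nb]; omega)
      have k3 : (0 < i) → pv M W T (i-1, Ty.F) (i, Ty.Z) → (i-1, Ty.F) ∈ nb M (i, Ty.F) := fun hc => hk _ (by simp [nb]; omega)
      have k4 : (0 < i ∧ i < M) → pv M W T (i-1, Ty.U) (i, Ty.Z) → (i-1, Ty.U) ∈ nb M (i, Ty.F) := fun hc => hk _ (by simp [nb]; omega)
      clear hk hp0 hM hI
      simp [nb] at k0 k1 k2 k3 k4
      simp only [mF, mx, dj, cj, gd, gi, an_bool, orr_bool, nt_bool, cs_bool, fl]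
      simp only [fl] at *
      grind [kS, cS, tYS]
  · rcases hu0 with rfl | ⟨hq, rfl⟩ | ⟨hq, rfl⟩ | ⟨hq, rfl⟩ | ⟨hq, rfl⟩
    · have k0 : pv M W T (i+1, Ty.Z) (i+1, Ty.Z) → (i+1, Ty.Z) ∈ nb M (i, Ty.F) := hk _ (by simp [nb])
      have k1 : pv M W T (i+1, Ty.G) (i+1, Ty.Z) → (i+1, Ty.G) ∈ nb M (i, Ty.F) := hk _ (by simp [nb])
      have k2 : (i + 1 < M) → pv M W T (i+1, Ty.P) (i+1, Ty.Z) → (i+1, Ty.P) ∈ nb M (i, Ty.F) := fun hc => hk _ (by simp [nb]; omega)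
      have k3 : (i < M) → pv M W T (i, Ty.F) (i+1, Ty.Z) → (i, Ty.F) ∈ nb M (i, Ty.F) := fun hc => hk _ (by simp [nb]; omega)
      have k4 : (i + 1 < M) → pv M W T (i, Ty.U) (i+1, Ty.Z) → (i, Ty.U) ∈ nb M (i, Ty.F) := fun hc => hk _ (by simp [nb]; omega)
      clear hk hp0 hM hI
      simp [nb] at k0 k1 k2 k3 k4
      simp only [mF, mx, dj, cj, gd, gi, an_bool, orr_bool, nt_bool, cs_bool, fl]
      simp only [fl] at *
      grind [kS, cS, tYS]
    · have hr := kill_right M W T i hI _ (by omega) (Or.inl rfl) Ty.G (Or.inl rfl) ⟨hv, hk⟩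
      clear hk hp0; simp [mF, mx, dj, cj, gd, gi, fl, *]
    · have hr := kill_right M W T i hI _ (by omega) (Or.inl rfl) Ty.P (Or.inr ⟨rfl, by omega⟩) ⟨hv, hk⟩
      clear hk hp0; simp [mF, mx, dj, cj, gd, gi, fl, *]
    · exact absurd hv ht
    · have k0 : pv M W T (i, Ty.U) (i, Ty.U) → (i, Ty.U) ∈ nb M (i, Ty.F) := hk _ (by simp [nb])
      have k1 : pv M W T (i, Ty.Q) (i, Ty.U) → (i, Ty.Q) ∈ nb M (i, Ty.F) := hk _ (by simp [nb])
      have k2 : (i + 1 < M) → pv M W T (i+1, Ty.Z) (i, Ty.U) → (i+1, Ty.Z) ∈ nb M (i, Ty.F) := fun hc => hk _ (by simp [nb]; omega)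
      clear hk hp0 hM hI
      simp [nb] at k0 k1 k2
      simp only [mF, mx, dj, cj, gd, gi, an_bool, orr_bool, nt_bool, cs_bool, fl]
      simp only [fl] at *
      grind [kS, cS, tYS]

theorem mG_ok : mG (fl M i) (sS M W T i) (kS W T i) (cS M W T i) = true := by
  have aPF := PF_iff M W T i hi
  have aYF := YF_iff M W T i hi
  have aPP := PP_iff M W T i hi
  have aZP := ZP_iff M W T i hi
  have aPQ := PQ_iff M W T i hi
  have aUQ := UQ_iff M W T i hi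
  have aUU := UU_iff M W T i hi
  have aYU := YU_iff M W T i hi
  have aPZ := PZ_iff M W T i hi
  have aZZ := ZZ_iff M W T i hi
  have aYY := YY_iff M W T i hi
  have aUY := UY_iff M W T i hi
  have auG := uG_iff M W T i hi
  have auF := uF_iff M W T i hi
  have auQ := uQ_iff M W T i hi
  have auZ := uZ_iff M W T i hi
  have h1 := sS_tZ M W T i hi
  have h2 := sS_u M W T i hi
  have h3 := sS_wZ M W T i hi
  have b1 := cS_b M W T i hi hTW
  by_cases hw : (i, Ty.G) ∈ W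
  swap
  · simp [mG, mx, dj, kS, hw, h3]
  by_cases ht : (i, Ty.G) ∈ T
  · simp [mG, mx, dj, kS, ht, h1]
  by_cases ho : ∃ u ∈ nb M (i, Ty.G), ud M W T u
  swap
  · clear hM hI
    have hz1 : (i, Ty.Z) ∉ T → pv M W T (i-1, Ty.F) (i, Ty.Z) → ud M W T (i-1, Ty.F) := pv_ud M W T _ _
    have hz2 : (i, Ty.Z) ∉ T → pv M W T (i-1, Ty.U) (i, Ty.Z) → ud M W T (i-1, Ty.U) := pv_ud M W T _ _
    simp only [mG, mx, dj, gd, an_bool, orr_bool, nt_bool, cs_bool, fl]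
    simp only [nb, List.mem_cons, List.mem_append, List.mem_ite_nil_right, List.not_mem_nil, or_false] at ho
    simp [fl] at *
    grind
  obtain ⟨v, hv, hk⟩ := hM _ hw ht ho
  obtain ⟨u0, hu0, hp0⟩ := hI v hv
  have hx := hk u0 hu0 hp0
  rw [nb_symm] at hu0
  clear ho
  simp only [nb, List.mem_cons, List.mem_append, List.mem_ite_nil_right, List.not_mem_nil, or_false] at hx
  rcases hx with rfl | rfl | rfl | ⟨hq0, rfl⟩ <;> simp only [nb, List.mem_cons, List.mem_append, List.mem_ite_nil_right, List.not_mem_nil, or_false] at hu0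
  · rcases hu0 with rfl | rfl | rfl | ⟨hq, rfl⟩
    · exact absurd hv ht
    · have k0 : pv M W T (i, Ty.F) (i, Ty.F) → (i, Ty.F) ∈ nb M (i, Ty.G) := hk _ (by simp [nb])
      have k1 : pv M W T (i, Ty.G) (i, Ty.F) → (i, Ty.G) ∈ nb M (i, Ty.G) := hk _ (by simp [nb])
      have k2 : pv M W T (i, Ty.P) (i, Ty.F) → (i, Ty.P) ∈ nb M (i, Ty.G) := hk _ (by simp [nb])
      have k3 : (i < M) → pv M W T (i+1, Ty.Z) (i, Ty.F) → (i+1, Ty.Z) ∈ nb M (i, Ty.G) := fun hc => hk _ (by simp [nb]; omega)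
      clear hk hp0 hM hI
      simp [nb] at k0 k1 k2 k3
      simp only [mG, mx, dj, cj, gd, gi, an_bool, orr_bool, nt_bool, cs_bool, fl]
      simp only [fl] at *
      grind [kS, cS, tYS]
    · have k0 : pv M W T (i, Ty.Q) (i, Ty.Q) → (i, Ty.Q) ∈ nb M (i, Ty.G) := hk _ (by simp [nb])
      have k1 : pv M W T (i, Ty.G) (i, Ty.Q) → (i, Ty.G) ∈ nb M (i, Ty.G) := hk _ (by simp [nb])
      have k2 : pv M W T (i, Ty.U) (i, Ty.Q) → (i, Ty.U) ∈ nb M (i, Ty.G) := hk _ (by simp [nb])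
      have k3 : (i < M) → pv M W T (i, Ty.P) (i, Ty.Q) → (i, Ty.P) ∈ nb M (i, Ty.G) := fun hc => hk _ (by simp [nb]; omega)
      clear hk hp0 hM hI
      simp [nb] at k0 k1 k2 k3
      simp only [mG, mx, dj, cj, gd, gi, an_bool, orr_bool, nt_bool, cs_bool, fl]
      simp only [fl] at *
      grind [kS, cS, tYS]
    · have k0 : pv M W T (i, Ty.Z) (i, Ty.Z) → (i, Ty.Z) ∈ nb M (i, Ty.G) := hk _ (by simp [nb])
      have k1 : (0 < i) → pv M W T (i, Ty.G) (i, Ty.Z) → (i, Ty.G) ∈ nb M (i, Ty.G) := fun hc => hk _ (by simp [nb]; omega)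
      have k2 : (i < M) → pv M W T (i, Ty.P) (i, Ty.Z) → (i, Ty.P) ∈ nb M (i, Ty.G) := fun hc => hk _ (by simp [nb]; omega)
      have k3 : (0 < i) → pv M W T (i-1, Ty.F) (i, Ty.Z) → (i-1, Ty.F) ∈ nb M (i, Ty.G) := fun hc => hk _ (by simp [nb]; omega)
      have k4 : (0 < i ∧ i < M) → pv M W T (i-1, Ty.U) (i, Ty.Z) → (i-1, Ty.U) ∈ nb M (i, Ty.G) := fun hc => hk _ (by simp [nb]; omega)
      clear hk hp0 hM hI
      simp [nb] at k0 k1 k2 k3 k4
      simp only [mG, mx, dj, cj, gd, gi, an_bool, orr_bool, nt_bool, cs_bool, fl]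
      simp only [fl] at *
      grind [kS, cS, tYS]
  · rcases hu0 with rfl | rfl | rfl | ⟨hq, rfl⟩
    · have k0 : pv M W T (i, Ty.F) (i, Ty.F) → (i, Ty.F) ∈ nb M (i, Ty.G) := hk _ (by simp [nb])
      have k1 : pv M W T (i, Ty.G) (i, Ty.F) → (i, Ty.G) ∈ nb M (i, Ty.G) := hk _ (by simp [nb])
      have k2 : pv M W T (i, Ty.P) (i, Ty.F) → (i, Ty.P) ∈ nb M (i, Ty.G) := hk _ (by simp [nb])
      have k3 : (i < M) → pv M W T (i+1, Ty.Z) (i, Ty.F) → (i+1, Ty.Z) ∈ nb M (i, Ty.G) := fun hc => hk _ (by simp [nb]; omega)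
      clear hk hp0 hM hI
      simp [nb] at k0 k1 k2 k3
      simp only [mG, mx, dj, cj, gd, gi, an_bool, orr_bool, nt_bool, cs_bool, fl]
      simp only [fl] at *
      grind [kS, cS, tYS]
    · exact absurd hv ht
    · have k0 : pv M W T (i, Ty.P) (i, Ty.P) → (i, Ty.P) ∈ nb M (i, Ty.G) := hk _ (by simp [nb])
      have k1 : pv M W T (i, Ty.F) (i, Ty.P) → (i, Ty.F) ∈ nb M (i, Ty.G) := hk _ (by simp [nb])
      have k2 : (i < M) → pv M W T (i, Ty.Q) (i, Ty.P) → (i, Ty.Q) ∈ nb M (i, Ty.G) := fun hc => hk _ (by simp [nb]; omega)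
      have k3 : (i < M) → pv M W T (i, Ty.Z) (i, Ty.P) → (i, Ty.Z) ∈ nb M (i, Ty.G) := fun hc => hk _ (by simp [nb]; omega)
      clear hk hp0 hM hI
      simp [nb] at k0 k1 k2 k3
      simp only [mG, mx, dj, cj, gd, gi, an_bool, orr_bool, nt_bool, cs_bool, fl]
      simp only [fl] at *
      grind [kS, cS, tYS]
    · have k0 : pv M W T (i+1, Ty.Z) (i+1, Ty.Z) → (i+1, Ty.Z) ∈ nb M (i, Ty.G) := hk _ (by simp [nb])
      have k1 : pv M W T (i+1, Ty.G) (i+1, Ty.Z) → (i+1, Ty.G) ∈ nb M (i, Ty.G) := hk _ (by simp [nb])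
      have k2 : (i + 1 < M) → pv M W T (i+1, Ty.P) (i+1, Ty.Z) → (i+1, Ty.P) ∈ nb M (i, Ty.G) := fun hc => hk _ (by simp [nb]; omega)
      have k3 : (i < M) → pv M W T (i, Ty.F) (i+1, Ty.Z) → (i, Ty.F) ∈ nb M (i, Ty.G) := fun hc => hk _ (by simp [nb]; omega)
      have k4 : (i + 1 < M) → pv M W T (i, Ty.U) (i+1, Ty.Z) → (i, Ty.U) ∈ nb M (i, Ty.G) := fun hc => hk _ (by simp [nb]; omega)
      clear hk hp0 hM hI
      simp [nb] at k0 k1 k2 k3 k4
      simp only [mG, mx, dj, cj, gd, gi, an_bool, orr_bool, nt_bool, cs_bool, fl]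
      simp only [fl] at *
      grind [kS, cS, tYS]
  · rcases hu0 with rfl | rfl | rfl | ⟨hq, rfl⟩
    · have k0 : pv M W T (i, Ty.Q) (i, Ty.Q) → (i, Ty.Q) ∈ nb M (i, Ty.G) := hk _ (by simp [nb])
      have k1 : pv M W T (i, Ty.G) (i, Ty.Q) → (i, Ty.G) ∈ nb M (i, Ty.G) := hk _ (by simp [nb])
      have k2 : pv M W T (i, Ty.U) (i, Ty.Q) → (i, Ty.U) ∈ nb M (i, Ty.G) := hk _ (by simp [nb])
      have k3 : (i < M) → pv M W T (i, Ty.P) (i, Ty.Q) → (i, Ty.P) ∈ nb M (i, Ty.G) := fun hc => hk _ (by simp [nb]; omega)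
      clear hk hp0 hM hI
      simp [nb] at k0 k1 k2 k3
      simp only [mG, mx, dj, cj, gd, gi, an_bool, orr_bool, nt_bool, cs_bool, fl]
      simp only [fl] at *
      grind [kS, cS, tYS]
    · exact absurd hv ht
    · have k0 : pv M W T (i, Ty.U) (i, Ty.U) → (i, Ty.U) ∈ nb M (i, Ty.G) := hk _ (by simp [nb])
      have k1 : pv M W T (i, Ty.Q) (i, Ty.U) → (i, Ty.Q) ∈ nb M (i, Ty.G) := hk _ (by simp [nb])
      have k2 : (i + 1 < M) → pv M W T (i+1, Ty.Z) (i, Ty.U) → (i+1, Ty.Z) ∈ nb M (i, Ty.G) := fun hc => hk _ (by simp [nb]; omega)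
      clear hk hp0 hM hI
      simp [nb] at k0 k1 k2
      simp only [mG, mx, dj, cj, gd, gi, an_bool, orr_bool, nt_bool, cs_bool, fl]
      simp only [fl] at *
      grind [kS, cS, tYS]
    · have k0 : pv M W T (i, Ty.P) (i, Ty.P) → (i, Ty.P) ∈ nb M (i, Ty.G) := hk _ (by simp [nb])
      have k1 : pv M W T (i, Ty.F) (i, Ty.P) → (i, Ty.F) ∈ nb M (i, Ty.G) := hk _ (by simp [nb])
      have k2 : (i < M) → pv M W T (i, Ty.Q) (i, Ty.P) → (i, Ty.Q) ∈ nb M (i, Ty.G) := fun hc => hk _ (by simp [nb]; omega)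
      have k3 : (i < M) → pv M W T (i, Ty.Z) (i, Ty.P) → (i, Ty.Z) ∈ nb M (i, Ty.G) := fun hc => hk _ (by simp [nb]; omega)
      clear hk hp0 hM hI
      simp [nb] at k0 k1 k2 k3
      simp only [mG, mx, dj, cj, gd, gi, an_bool, orr_bool, nt_bool, cs_bool, fl]
      simp only [fl] at *
      grind [kS, cS, tYS]
  · rcases hu0 with rfl | ⟨hq, rfl⟩ | ⟨hq, rfl⟩ | ⟨hq, rfl⟩ | ⟨hq, rfl⟩
    · have k0 : pv M W T (i, Ty.Z) (i, Ty.Z) → (i, Ty.Z) ∈ nb M (i, Ty.G) := hk _ (by simp [nb])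
      have k1 : (0 < i) → pv M W T (i, Ty.G) (i, Ty.Z) → (i, Ty.G) ∈ nb M (i, Ty.G) := fun hc => hk _ (by simp [nb]; omega)
      have k2 : (i < M) → pv M W T (i, Ty.P) (i, Ty.Z) → (i, Ty.P) ∈ nb M (i, Ty.G) := fun hc => hk _ (by simp [nb]; omega)
      have k3 : (0 < i) → pv M W T (i-1, Ty.F) (i, Ty.Z) → (i-1, Ty.F) ∈ nb M (i, Ty.G) := fun hc => hk _ (by simp [nb]; omega)
      have k4 : (0 < i ∧ i < M) → pv M W T (i-1, Ty.U) (i, Ty.Z) → (i-1, Ty.U) ∈ nb M (i, Ty.G) := fun hc => hk _ (by simp [nb]; omega)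
      clear hk hp0 hM hI
      simp [nb] at k0 k1 k2 k3 k4
      simp only [mG, mx, dj, cj, gd, gi, an_bool, orr_bool, nt_bool, cs_bool, fl]
      simp only [fl] at *
      grind [kS, cS, tYS]
    · exact absurd hv ht
    · have k0 : pv M W T (i, Ty.P) (i, Ty.P) → (i, Ty.P) ∈ nb M (i, Ty.G) := hk _ (by simp [nb])
      have k1 : pv M W T (i, Ty.F) (i, Ty.P) → (i, Ty.F) ∈ nb M (i, Ty.G) := hk _ (by simp [nb])
      have k2 : (i < M) → pv M W T (i, Ty.Q) (i, Ty.P) → (i, Ty.Q) ∈ nb M (i, Ty.G) := fun hc => hk _ (by simp [nb]; omega)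
      have k3 : (i < M) → pv M W T (i, Ty.Z) (i, Ty.P) → (i, Ty.Z) ∈ nb M (i, Ty.G) := fun hc => hk _ (by simp [nb]; omega)
      clear hk hp0 hM hI
      simp [nb] at k0 k1 k2 k3
      simp only [mG, mx, dj, cj, gd, gi, an_bool, orr_bool, nt_bool, cs_bool, fl]
      simp only [fl] at *
      grind [kS, cS, tYS]
    · obtain ⟨j, rfl⟩ : ∃ j, i = j + 1 := ⟨i - 1, by omega⟩
      simp only [Nat.add_sub_cancel] at hv hk
      have he := kill_left M W T j hI _ (by omega) (Or.inl rfl) Ty.F (Or.inl rfl) ⟨hv, hk⟩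
      clear hk hp0; simp [mG, mx, dj, cj, gd, gi, fl, he]; try omega
    · obtain ⟨j, rfl⟩ : ∃ j, i = j + 1 := ⟨i - 1, by omega⟩
      simp only [Nat.add_sub_cancel] at hv hk
      have he := kill_left M W T j hI _ (by omega) (Or.inl rfl) Ty.U (Or.inr ⟨rfl, by omega⟩) ⟨hv, hk⟩
      clear hk hp0; simp [mG, mx, dj, cj, gd, gi, fl, he]; try omega

theorem mP_ok : mP (fl M i) (sS M W T i) (kS W T i) (cS M W T i) = true := by
  have aGF := GF_iff M W T i hi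
  have aYF := YF_iff M W T i hi
  have aGG := GG_iff M W T i hi
  have aQG := QG_iff M W T i hi
  have aZG := ZG_iff M W T i hi
  have aGQ := GQ_iff M W T i hi
  have aUQ := UQ_iff M W T i hi
  have aQQ := QQ_iff M W T i hi
  have aUU := UU_iff M W T i hi
  have aYU := YU_iff M W T i hi
  have aQU := QU_iff M W T i hi
  have aGZ := GZ_iff M W T i hi
  have aZZ := ZZ_iff M W T i hi
  have aYY := YY_iff M W T i hi
  have aUY := UY_iff M W T i hi
  have auP := uP_iff M W T i hi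
  have auF := uF_iff M W T i hi
  have auQ := uQ_iff M W T i hi
  have auZ := uZ_iff M W T i hi
  have h1 := sS_tZ M W T i hi
  have h2 := sS_u M W T i hi
  have h3 := sS_wZ M W T i hi
  have b1 := cS_b M W T i hi hTW
  by_cases hw : (i, Ty.P) ∈ W
  swap
  · simp [mP, mx, dj, kS, hw, h3]
  by_cases ht : (i, Ty.P) ∈ T
  · simp [mP, mx, dj, kS, ht, h1]
  by_cases ho : ∃ u ∈ nb M (i, Ty.P), ud M W T u
  swap
  · clear hM hI
    have hz1 : (i, Ty.Z) ∉ T → pv M W T (i-1, Ty.F) (i, Ty.Z) → ud M W T (i-1, Ty.F) := pv_ud M W T _ _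
    have hz2 : (i, Ty.Z) ∉ T → pv M W T (i-1, Ty.U) (i, Ty.Z) → ud M W T (i-1, Ty.U) := pv_ud M W T _ _
    simp only [mP, mx, dj, gd, an_bool, orr_bool, nt_bool, cs_bool, fl]
    simp only [nb, List.mem_cons, List.mem_append, List.mem_ite_nil_right, List.not_mem_nil, or_false] at ho
    simp [fl] at *
    grind
  obtain ⟨v, hv, hk⟩ := hM _ hw ht ho
  obtain ⟨u0, hu0, hp0⟩ := hI v hv
  have hx := hk u0 hu0 hp0
  rw [nb_symm] at hu0
  clear ho
  simp only [nb, List.mem_cons, List.mem_append, List.mem_ite_nil_right, List.not_mem_nil, or_false] at hx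
  rcases hx with rfl | rfl | ⟨hq0, rfl | rfl⟩ <;> simp only [nb, List.mem_cons, List.mem_append, List.mem_ite_nil_right, List.not_mem_nil, or_false] at hu0
  · rcases hu0 with rfl | rfl | ⟨hq, rfl | rfl⟩
    · exact absurd hv ht
    · have k0 : pv M W T (i, Ty.F) (i, Ty.F) → (i, Ty.F) ∈ nb M (i, Ty.P) := hk _ (by simp [nb])
      have k1 : pv M W T (i, Ty.G) (i, Ty.F) → (i, Ty.G) ∈ nb M (i, Ty.P) := hk _ (by simp [nb])
      have k2 : pv M W T (i, Ty.P) (i, Ty.F) → (i, Ty.P) ∈ nb M (i, Ty.P) := hk _ (by simp [nb])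
      have k3 : (i < M) → pv M W T (i+1, Ty.Z) (i, Ty.F) → (i+1, Ty.Z) ∈ nb M (i, Ty.P) := fun hc => hk _ (by simp [nb]; omega)
      clear hk hp0 hM hI
      simp [nb] at k0 k1 k2 k3
      simp only [mP, mx, dj, cj, gd, gi, an_bool, orr_bool, nt_bool, cs_bool, fl]
      simp only [fl] at *
      grind [kS, cS, tYS]
    · have k0 : pv M W T (i, Ty.Q) (i, Ty.Q) → (i, Ty.Q) ∈ nb M (i, Ty.P) := hk _ (by simp [nb])
      have k1 : pv M W T (i, Ty.G) (i, Ty.Q) → (i, Ty.G) ∈ nb M (i, Ty.P) := hk _ (by simp [nb])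
      have k2 : pv M W T (i, Ty.U) (i, Ty.Q) → (i, Ty.U) ∈ nb M (i, Ty.P) := hk _ (by simp [nb])
      have k3 : (i < M) → pv M W T (i, Ty.P) (i, Ty.Q) → (i, Ty.P) ∈ nb M (i, Ty.P) := fun hc => hk _ (by simp [nb]; omega)
      clear hk hp0 hM hI
      simp [nb] at k0 k1 k2 k3
      simp only [mP, mx, dj, cj, gd, gi, an_bool, orr_bool, nt_bool, cs_bool, fl]
      simp only [fl] at *
      grind [kS, cS, tYS]
    · have k0 : pv M W T (i, Ty.Z) (i, Ty.Z) → (i, Ty.Z) ∈ nb M (i, Ty.P) := hk _ (by simp [nb])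
      have k1 : (0 < i) → pv M W T (i, Ty.G) (i, Ty.Z) → (i, Ty.G) ∈ nb M (i, Ty.P) := fun hc => hk _ (by simp [nb]; omega)
      have k2 : (i < M) → pv M W T (i, Ty.P) (i, Ty.Z) → (i, Ty.P) ∈ nb M (i, Ty.P) := fun hc => hk _ (by simp [nb]; omega)
      have k3 : (0 < i) → pv M W T (i-1, Ty.F) (i, Ty.Z) → (i-1, Ty.F) ∈ nb M (i, Ty.P) := fun hc => hk _ (by simp [nb]; omega)
      have k4 : (0 < i ∧ i < M) → pv M W T (i-1, Ty.U) (i, Ty.Z) → (i-1, Ty.U) ∈ nb M (i, Ty.P) := fun hc => hk _ (by simp [nb]; omega)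
      clear hk hp0 hM hI
      simp [nb] at k0 k1 k2 k3 k4
      simp only [mP, mx, dj, cj, gd, gi, an_bool, orr_bool, nt_bool, cs_bool, fl]
      simp only [fl] at *
      grind [kS, cS, tYS]
  · rcases hu0 with rfl | rfl | rfl | ⟨hq, rfl⟩
    · have k0 : pv M W T (i, Ty.F) (i, Ty.F) → (i, Ty.F) ∈ nb M (i, Ty.P) := hk _ (by simp [nb])
      have k1 : pv M W T (i, Ty.G) (i, Ty.F) → (i, Ty.G) ∈ nb M (i, Ty.P) := hk _ (by simp [nb])
      have k2 : pv M W T (i, Ty.P) (i, Ty.F) → (i, Ty.P) ∈ nb M (i, Ty.P) := hk _ (by simp [nb])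
      have k3 : (i < M) → pv M W T (i+1, Ty.Z) (i, Ty.F) → (i+1, Ty.Z) ∈ nb M (i, Ty.P) := fun hc => hk _ (by simp [nb]; omega)
      clear hk hp0 hM hI
      simp [nb] at k0 k1 k2 k3
      simp only [mP, mx, dj, cj, gd, gi, an_bool, orr_bool, nt_bool, cs_bool, fl]
      simp only [fl] at *
      grind [kS, cS, tYS]
    · have k0 : pv M W T (i, Ty.G) (i, Ty.G) → (i, Ty.G) ∈ nb M (i, Ty.P) := hk _ (by simp [nb])
      have k1 : pv M W T (i, Ty.F) (i, Ty.G) → (i, Ty.F) ∈ nb M (i, Ty.P) := hk _ (by simp [nb])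
      have k2 : pv M W T (i, Ty.Q) (i, Ty.G) → (i, Ty.Q) ∈ nb M (i, Ty.P) := hk _ (by simp [nb])
      have k3 : (0 < i) → pv M W T (i, Ty.Z) (i, Ty.G) → (i, Ty.Z) ∈ nb M (i, Ty.P) := fun hc => hk _ (by simp [nb]; omega)
      clear hk hp0 hM hI
      simp [nb] at k0 k1 k2 k3
      simp only [mP, mx, dj, cj, gd, gi, an_bool, orr_bool, nt_bool, cs_bool, fl]
      simp only [fl] at *
      grind [kS, cS, tYS]
    · exact absurd hv ht
    · have k0 : pv M W T (i+1, Ty.Z) (i+1, Ty.Z) → (i+1, Ty.Z) ∈ nb M (i, Ty.P) := hk _ (by simp [nb])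
      have k1 : pv M W T (i+1, Ty.G) (i+1, Ty.Z) → (i+1, Ty.G) ∈ nb M (i, Ty.P) := hk _ (by simp [nb])
      have k2 : (i + 1 < M) → pv M W T (i+1, Ty.P) (i+1, Ty.Z) → (i+1, Ty.P) ∈ nb M (i, Ty.P) := fun hc => hk _ (by simp [nb]; omega)
      have k3 : (i < M) → pv M W T (i, Ty.F) (i+1, Ty.Z) → (i, Ty.F) ∈ nb M (i, Ty.P) := fun hc => hk _ (by simp [nb]; omega)
      have k4 : (i + 1 < M) → pv M W T (i, Ty.U) (i+1, Ty.Z) → (i, Ty.U) ∈ nb M (i, Ty.P) := fun hc => hk _ (by simp [nb]; omega)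
      clear hk hp0 hM hI
      simp [nb] at k0 k1 k2 k3 k4
      simp only [mP, mx, dj, cj, gd, gi, an_bool, orr_bool, nt_bool, cs_bool, fl]
      simp only [fl] at *
      grind [kS, cS, tYS]
  · rcases hu0 with rfl | rfl | rfl | ⟨hq, rfl⟩
    · have k0 : pv M W T (i, Ty.Q) (i, Ty.Q) → (i, Ty.Q) ∈ nb M (i, Ty.P) := hk _ (by simp [nb])
      have k1 : pv M W T (i, Ty.G) (i, Ty.Q) → (i, Ty.G) ∈ nb M (i, Ty.P) := hk _ (by simp [nb])
      have k2 : pv M W T (i, Ty.U) (i, Ty.Q) → (i, Ty.U) ∈ nb M (i, Ty.P) := hk _ (by simp [nb])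
      have k3 : (i < M) → pv M W T (i, Ty.P) (i, Ty.Q) → (i, Ty.P) ∈ nb M (i, Ty.P) := fun hc => hk _ (by simp [nb]; omega)
      clear hk hp0 hM hI
      simp [nb] at k0 k1 k2 k3
      simp only [mP, mx, dj, cj, gd, gi, an_bool, orr_bool, nt_bool, cs_bool, fl]
      simp only [fl] at *
      grind [kS, cS, tYS]
    · have k0 : pv M W T (i, Ty.G) (i, Ty.G) → (i, Ty.G) ∈ nb M (i, Ty.P) := hk _ (by simp [nb])
      have k1 : pv M W T (i, Ty.F) (i, Ty.G) → (i, Ty.F) ∈ nb M (i, Ty.P) := hk _ (by simp [nb])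
      have k2 : pv M W T (i, Ty.Q) (i, Ty.G) → (i, Ty.Q) ∈ nb M (i, Ty.P) := hk _ (by simp [nb])
      have k3 : (0 < i) → pv M W T (i, Ty.Z) (i, Ty.G) → (i, Ty.Z) ∈ nb M (i, Ty.P) := fun hc => hk _ (by simp [nb]; omega)
      clear hk hp0 hM hI
      simp [nb] at k0 k1 k2 k3
      simp only [mP, mx, dj, cj, gd, gi, an_bool, orr_bool, nt_bool, cs_bool, fl]
      simp only [fl] at *
      grind [kS, cS, tYS]
    · have k0 : pv M W T (i, Ty.U) (i, Ty.U) → (i, Ty.U) ∈ nb M (i, Ty.P) := hk _ (by simp [nb])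
      have k1 : pv M W T (i, Ty.Q) (i, Ty.U) → (i, Ty.Q) ∈ nb M (i, Ty.P) := hk _ (by simp [nb])
      have k2 : (i + 1 < M) → pv M W T (i+1, Ty.Z) (i, Ty.U) → (i+1, Ty.Z) ∈ nb M (i, Ty.P) := fun hc => hk _ (by simp [nb]; omega)
      clear hk hp0 hM hI
      simp [nb] at k0 k1 k2
      simp only [mP, mx, dj, cj, gd, gi, an_bool, orr_bool, nt_bool, cs_bool, fl]
      simp only [fl] at *
      grind [kS, cS, tYS]
    · exact absurd hv ht
  · rcases hu0 with rfl | ⟨hq, rfl⟩ | ⟨hq, rfl⟩ | ⟨hq, rfl⟩ | ⟨hq, rfl⟩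
    · have k0 : pv M W T (i, Ty.Z) (i, Ty.Z) → (i, Ty.Z) ∈ nb M (i, Ty.P) := hk _ (by simp [nb])
      have k1 : (0 < i) → pv M W T (i, Ty.G) (i, Ty.Z) → (i, Ty.G) ∈ nb M (i, Ty.P) := fun hc => hk _ (by simp [nb]; omega)
      have k2 : (i < M) → pv M W T (i, Ty.P) (i, Ty.Z) → (i, Ty.P) ∈ nb M (i, Ty.P) := fun hc => hk _ (by simp [nb]; omega)
      have k3 : (0 < i) → pv M W T (i-1, Ty.F) (i, Ty.Z) → (i-1, Ty.F) ∈ nb M (i, Ty.P) := fun hc => hk _ (by simp [nb]; omega)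
      have k4 : (0 < i ∧ i < M) → pv M W T (i-1, Ty.U) (i, Ty.Z) → (i-1, Ty.U) ∈ nb M (i, Ty.P) := fun hc => hk _ (by simp [nb]; omega)
      clear hk hp0 hM hI
      simp [nb] at k0 k1 k2 k3 k4
      simp only [mP, mx, dj, cj, gd, gi, an_bool, orr_bool, nt_bool, cs_bool, fl]
      simp only [fl] at *
      grind [kS, cS, tYS]
    · have k0 : pv M W T (i, Ty.G) (i, Ty.G) → (i, Ty.G) ∈ nb M (i, Ty.P) := hk _ (by simp [nb])
      have k1 : pv M W T (i, Ty.F) (i, Ty.G) → (i, Ty.F) ∈ nb M (i, Ty.P) := hk _ (by simp [nb])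
      have k2 : pv M W T (i, Ty.Q) (i, Ty.G) → (i, Ty.Q) ∈ nb M (i, Ty.P) := hk _ (by simp [nb])
      have k3 : (0 < i) → pv M W T (i, Ty.Z) (i, Ty.G) → (i, Ty.Z) ∈ nb M (i, Ty.P) := fun hc => hk _ (by simp [nb]; omega)
      clear hk hp0 hM hI
      simp [nb] at k0 k1 k2 k3
      simp only [mP, mx, dj, cj, gd, gi, an_bool, orr_bool, nt_bool, cs_bool, fl]
      simp only [fl] at *
      grind [kS, cS, tYS]
    · exact absurd hv ht
    · obtain ⟨j, rfl⟩ : ∃ j, i = j + 1 := ⟨i - 1, by omega⟩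
      simp only [Nat.add_sub_cancel] at hv hk
      have he := kill_left M W T j hI _ (by omega) (Or.inr rfl) Ty.F (Or.inl rfl) ⟨hv, hk⟩
      clear hk hp0; simp [mP, mx, dj, cj, gd, gi, fl, he]; try omega
    · obtain ⟨j, rfl⟩ : ∃ j, i = j + 1 := ⟨i - 1, by omega⟩
      simp only [Nat.add_sub_cancel] at hv hk
      have he := kill_left M W T j hI _ (by omega) (Or.inr rfl) Ty.U (Or.inr ⟨rfl, by omega⟩) ⟨hv, hk⟩
      clear hk hp0; simp [mP, mx, dj, cj, gd, gi, fl, he]; try omega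

theorem mQ_ok : mQ (fl M i) (sS M W T i) (kS W T i) (cS M W T i) = true := by
  have aFG := FG_iff M W T i hi
  have aZG := ZG_iff M W T i hi
  have aFP := FP_iff M W T i hi
  have aZP := ZP_iff M W T i hi
  have aPP := PP_iff M W T i hi
  have aFF := FF_iff M W T i hi
  have aYF := YF_iff M W T i hi
  have aPF := PF_iff M W T i hi
  have aZZ := ZZ_iff M W T i hi
  have aPZ := PZ_iff M W T i hi
  have aYU := YU_iff M W T i hi
  have aYY := YY_iff M W T i hi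
  have aFY := FY_iff M W T i hi
  have auQ := uQ_iff M W T i hi
  have auG := uG_iff M W T i hi
  have auP := uP_iff M W T i hi
  have auU := uU_iff M W T i hi
  have h1 := sS_tZ M W T i hi
  have h2 := sS_u M W T i hi
  have h3 := sS_wZ M W T i hi
  have b1 := cS_b M W T i hi hTW
  by_cases hw : (i, Ty.Q) ∈ W
  swap
  · simp [mQ, mx, dj, kS, hw, h3]
  by_cases ht : (i, Ty.Q) ∈ T
  · simp [mQ, mx, dj, kS, ht, h1]
  by_cases ho : ∃ u ∈ nb M (i, Ty.Q), ud M W T u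
  swap
  · clear hM hI
    have hz1 : (i, Ty.Z) ∉ T → pv M W T (i-1, Ty.F) (i, Ty.Z) → ud M W T (i-1, Ty.F) := pv_ud M W T _ _
    have hz2 : (i, Ty.Z) ∉ T → pv M W T (i-1, Ty.U) (i, Ty.Z) → ud M W T (i-1, Ty.U) := pv_ud M W T _ _
    simp only [mQ, mx, dj, gd, an_bool, orr_bool, nt_bool, cs_bool, fl]
    simp only [nb, List.mem_cons, List.mem_append, List.mem_ite_nil_right, List.not_mem_nil, or_false] at ho
    simp [fl] at *
    grind
  obtain ⟨v, hv, hk⟩ := hM _ hw ht ho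
  obtain ⟨u0, hu0, hp0⟩ := hI v hv
  have hx := hk u0 hu0 hp0
  rw [nb_symm] at hu0
  clear ho
  simp only [nb, List.mem_cons, List.mem_append, List.mem_ite_nil_right, List.not_mem_nil, or_false] at hx
  rcases hx with rfl | rfl | rfl | ⟨hq0, rfl⟩ <;> simp only [nb, List.mem_cons, List.mem_append, List.mem_ite_nil_right, List.not_mem_nil, or_false] at hu0
  · rcases hu0 with rfl | rfl | rfl | ⟨hq, rfl⟩
    · exact absurd hv ht
    · have k0 : pv M W T (i, Ty.G) (i, Ty.G) → (i, Ty.G) ∈ nb M (i, Ty.Q) := hk _ (by simp [nb])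
      have k1 : pv M W T (i, Ty.F) (i, Ty.G) → (i, Ty.F) ∈ nb M (i, Ty.Q) := hk _ (by simp [nb])
      have k2 : pv M W T (i, Ty.Q) (i, Ty.G) → (i, Ty.Q) ∈ nb M (i, Ty.Q) := hk _ (by simp [nb])
      have k3 : (0 < i) → pv M W T (i, Ty.Z) (i, Ty.G) → (i, Ty.Z) ∈ nb M (i, Ty.Q) := fun hc => hk _ (by simp [nb]; omega)
      clear hk hp0 hM hI
      simp [nb] at k0 k1 k2 k3
      simp only [mQ, mx, dj, cj, gd, gi, an_bool, orr_bool, nt_bool, cs_bool, fl]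
      simp only [fl] at *
      grind [kS, cS, tYS]
    · have k0 : pv M W T (i, Ty.U) (i, Ty.U) → (i, Ty.U) ∈ nb M (i, Ty.Q) := hk _ (by simp [nb])
      have k1 : pv M W T (i, Ty.Q) (i, Ty.U) → (i, Ty.Q) ∈ nb M (i, Ty.Q) := hk _ (by simp [nb])
      have k2 : (i + 1 < M) → pv M W T (i+1, Ty.Z) (i, Ty.U) → (i+1, Ty.Z) ∈ nb M (i, Ty.Q) := fun hc => hk _ (by simp [nb]; omega)
      clear hk hp0 hM hI
      simp [nb] at k0 k1 k2
      simp only [mQ, mx, dj, cj, gd, gi, an_bool, orr_bool, nt_bool, cs_bool, fl]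
      simp only [fl] at *
      grind [kS, cS, tYS]
    · have k0 : pv M W T (i, Ty.P) (i, Ty.P) → (i, Ty.P) ∈ nb M (i, Ty.Q) := hk _ (by simp [nb])
      have k1 : pv M W T (i, Ty.F) (i, Ty.P) → (i, Ty.F) ∈ nb M (i, Ty.Q) := hk _ (by simp [nb])
      have k2 : (i < M) → pv M W T (i, Ty.Q) (i, Ty.P) → (i, Ty.Q) ∈ nb M (i, Ty.Q) := fun hc => hk _ (by simp [nb]; omega)
      have k3 : (i < M) → pv M W T (i, Ty.Z) (i, Ty.P) → (i, Ty.Z) ∈ nb M (i, Ty.Q) := fun hc => hk _ (by simp [nb]; omega)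
      clear hk hp0 hM hI
      simp [nb] at k0 k1 k2 k3
      simp only [mQ, mx, dj, cj, gd, gi, an_bool, orr_bool, nt_bool, cs_bool, fl]
      simp only [fl] at *
      grind [kS, cS, tYS]
  · rcases hu0 with rfl | rfl | rfl | ⟨hq, rfl⟩
    · have k0 : pv M W T (i, Ty.G) (i, Ty.G) → (i, Ty.G) ∈ nb M (i, Ty.Q) := hk _ (by simp [nb])
      have k1 : pv M W T (i, Ty.F) (i, Ty.G) → (i, Ty.F) ∈ nb M (i, Ty.Q) := hk _ (by simp [nb])
      have k2 : pv M W T (i, Ty.Q) (i, Ty.G) → (i, Ty.Q) ∈ nb M (i, Ty.Q) := hk _ (by simp [nb])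
      have k3 : (0 < i) → pv M W T (i, Ty.Z) (i, Ty.G) → (i, Ty.Z) ∈ nb M (i, Ty.Q) := fun hc => hk _ (by simp [nb]; omega)
      clear hk hp0 hM hI
      simp [nb] at k0 k1 k2 k3
      simp only [mQ, mx, dj, cj, gd, gi, an_bool, orr_bool, nt_bool, cs_bool, fl]
      simp only [fl] at *
      grind [kS, cS, tYS]
    · have k0 : pv M W T (i, Ty.F) (i, Ty.F) → (i, Ty.F) ∈ nb M (i, Ty.Q) := hk _ (by simp [nb])
      have k1 : pv M W T (i, Ty.G) (i, Ty.F) → (i, Ty.G) ∈ nb M (i, Ty.Q) := hk _ (by simp [nb])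
      have k2 : pv M W T (i, Ty.P) (i, Ty.F) → (i, Ty.P) ∈ nb M (i, Ty.Q) := hk _ (by simp [nb])
      have k3 : (i < M) → pv M W T (i+1, Ty.Z) (i, Ty.F) → (i+1, Ty.Z) ∈ nb M (i, Ty.Q) := fun hc => hk _ (by simp [nb]; omega)
      clear hk hp0 hM hI
      simp [nb] at k0 k1 k2 k3
      simp only [mQ, mx, dj, cj, gd, gi, an_bool, orr_bool, nt_bool, cs_bool, fl]
      simp only [fl] at *
      grind [kS, cS, tYS]
    · exact absurd hv ht
    · have k0 : pv M W T (i, Ty.Z) (i, Ty.Z) → (i, Ty.Z) ∈ nb M (i, Ty.Q) := hk _ (by simp [nb])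
      have k1 : (0 < i) → pv M W T (i, Ty.G) (i, Ty.Z) → (i, Ty.G) ∈ nb M (i, Ty.Q) := fun hc => hk _ (by simp [nb]; omega)
      have k2 : (i < M) → pv M W T (i, Ty.P) (i, Ty.Z) → (i, Ty.P) ∈ nb M (i, Ty.Q) := fun hc => hk _ (by simp [nb]; omega)
      have k3 : (0 < i) → pv M W T (i-1, Ty.F) (i, Ty.Z) → (i-1, Ty.F) ∈ nb M (i, Ty.Q) := fun hc => hk _ (by simp [nb]; omega)
      have k4 : (0 < i ∧ i < M) → pv M W T (i-1, Ty.U) (i, Ty.Z) → (i-1, Ty.U) ∈ nb M (i, Ty.Q) := fun hc => hk _ (by simp [nb]; omega)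
      clear hk hp0 hM hI
      simp [nb] at k0 k1 k2 k3 k4
      simp only [mQ, mx, dj, cj, gd, gi, an_bool, orr_bool, nt_bool, cs_bool, fl]
      simp only [fl] at *
      grind [kS, cS, tYS]
  · rcases hu0 with rfl | rfl | ⟨hq, rfl⟩
    · have k0 : pv M W T (i, Ty.U) (i, Ty.U) → (i, Ty.U) ∈ nb M (i, Ty.Q) := hk _ (by simp [nb])
      have k1 : pv M W T (i, Ty.Q) (i, Ty.U) → (i, Ty.Q) ∈ nb M (i, Ty.Q) := hk _ (by simp [nb])
      have k2 : (i + 1 < M) → pv M W T (i+1, Ty.Z) (i, Ty.U) → (i+1, Ty.Z) ∈ nb M (i, Ty.Q) := fun hc => hk _ (by simp [nb]; omega)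
      clear hk hp0 hM hI
      simp [nb] at k0 k1 k2
      simp only [mQ, mx, dj, cj, gd, gi, an_bool, orr_bool, nt_bool, cs_bool, fl]
      simp only [fl] at *
      grind [kS, cS, tYS]
    · exact absurd hv ht
    · have k0 : pv M W T (i+1, Ty.Z) (i+1, Ty.Z) → (i+1, Ty.Z) ∈ nb M (i, Ty.Q) := hk _ (by simp [nb])
      have k1 : pv M W T (i+1, Ty.G) (i+1, Ty.Z) → (i+1, Ty.G) ∈ nb M (i, Ty.Q) := hk _ (by simp [nb])
      have k2 : (i + 1 < M) → pv M W T (i+1, Ty.P) (i+1, Ty.Z) → (i+1, Ty.P) ∈ nb M (i, Ty.Q) := fun hc => hk _ (by simp [nb]; omega)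
      have k3 : (i < M) → pv M W T (i, Ty.F) (i+1, Ty.Z) → (i, Ty.F) ∈ nb M (i, Ty.Q) := fun hc => hk _ (by simp [nb]; omega)
      have k4 : (i + 1 < M) → pv M W T (i, Ty.U) (i+1, Ty.Z) → (i, Ty.U) ∈ nb M (i, Ty.Q) := fun hc => hk _ (by simp [nb]; omega)
      clear hk hp0 hM hI
      simp [nb] at k0 k1 k2 k3 k4
      simp only [mQ, mx, dj, cj, gd, gi, an_bool, orr_bool, nt_bool, cs_bool, fl]
      simp only [fl] at *
      grind [kS, cS, tYS]
  · rcases hu0 with rfl | rfl | ⟨hq, rfl | rfl⟩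
    · have k0 : pv M W T (i, Ty.P) (i, Ty.P) → (i, Ty.P) ∈ nb M (i, Ty.Q) := hk _ (by simp [nb])
      have k1 : pv M W T (i, Ty.F) (i, Ty.P) → (i, Ty.F) ∈ nb M (i, Ty.Q) := hk _ (by simp [nb])
      have k2 : (i < M) → pv M W T (i, Ty.Q) (i, Ty.P) → (i, Ty.Q) ∈ nb M (i, Ty.Q) := fun hc => hk _ (by simp [nb]; omega)
      have k3 : (i < M) → pv M W T (i, Ty.Z) (i, Ty.P) → (i, Ty.Z) ∈ nb M (i, Ty.Q) := fun hc => hk _ (by simp [nb]; omega)
      clear hk hp0 hM hI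
      simp [nb] at k0 k1 k2 k3
      simp only [mQ, mx, dj, cj, gd, gi, an_bool, orr_bool, nt_bool, cs_bool, fl]
      simp only [fl] at *
      grind [kS, cS, tYS]
    · have k0 : pv M W T (i, Ty.F) (i, Ty.F) → (i, Ty.F) ∈ nb M (i, Ty.Q) := hk _ (by simp [nb])
      have k1 : pv M W T (i, Ty.G) (i, Ty.F) → (i, Ty.G) ∈ nb M (i, Ty.Q) := hk _ (by simp [nb])
      have k2 : pv M W T (i, Ty.P) (i, Ty.F) → (i, Ty.P) ∈ nb M (i, Ty.Q) := hk _ (by simp [nb])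
      have k3 : (i < M) → pv M W T (i+1, Ty.Z) (i, Ty.F) → (i+1, Ty.Z) ∈ nb M (i, Ty.Q) := fun hc => hk _ (by simp [nb]; omega)
      clear hk hp0 hM hI
      simp [nb] at k0 k1 k2 k3
      simp only [mQ, mx, dj, cj, gd, gi, an_bool, orr_bool, nt_bool, cs_bool, fl]
      simp only [fl] at *
      grind [kS, cS, tYS]
    · exact absurd hv ht
    · have k0 : pv M W T (i, Ty.Z) (i, Ty.Z) → (i, Ty.Z) ∈ nb M (i, Ty.Q) := hk _ (by simp [nb])
      have k1 : (0 < i) → pv M W T (i, Ty.G) (i, Ty.Z) → (i, Ty.G) ∈ nb M (i, Ty.Q) := fun hc => hk _ (by simp [nb]; omega)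
      have k2 : (i < M) → pv M W T (i, Ty.P) (i, Ty.Z) → (i, Ty.P) ∈ nb M (i, Ty.Q) := fun hc => hk _ (by simp [nb]; omega)
      have k3 : (0 < i) → pv M W T (i-1, Ty.F) (i, Ty.Z) → (i-1, Ty.F) ∈ nb M (i, Ty.Q) := fun hc => hk _ (by simp [nb]; omega)
      have k4 : (0 < i ∧ i < M) → pv M W T (i-1, Ty.U) (i, Ty.Z) → (i-1, Ty.U) ∈ nb M (i, Ty.Q) := fun hc => hk _ (by simp [nb]; omega)
      clear hk hp0 hM hI
      simp [nb] at k0 k1 k2 k3 k4
      simp only [mQ, mx, dj, cj, gd, gi, an_bool, orr_bool, nt_bool, cs_bool, fl]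
      simp only [fl] at *
      grind [kS, cS, tYS]

theorem mU_ok : mU (fl M i) (sS M W T i) (kS W T i) (cS M W T i) = true := by
  have aGQ := GQ_iff M W T i hi
  have aPQ := PQ_iff M W T i hi
  have aGG := GG_iff M W T i hi
  have aFG := FG_iff M W T i hi
  have aZG := ZG_iff M W T i hi
  have aPP := PP_iff M W T i hi
  have aFP := FP_iff M W T i hi
  have aZP := ZP_iff M W T i hi
  have aFY := FY_iff M W T i hi
  have aFF := FF_iff M W T i hi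
  have aGF := GF_iff M W T i hi
  have aPF := PF_iff M W T i hi
  have auU := uU_iff M W T i hi
  have auQ := uQ_iff M W T i hi
  have auY := uY_iff M W T i hi
  have h1 := sS_tZ M W T i hi
  have h2 := sS_u M W T i hi
  have h3 := sS_wZ M W T i hi
  have b1 := cS_b M W T i hi hTW
  by_cases hw : (i, Ty.U) ∈ W
  swap
  · simp [mU, mx, dj, kS, hw, h3]
  by_cases ht : (i, Ty.U) ∈ T
  · simp [mU, mx, dj, kS, ht, h1]
  by_cases ho : ∃ u ∈ nb M (i, Ty.U), ud M W T u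
  swap
  · clear hM hI
    have hz1 : (i, Ty.Z) ∉ T → pv M W T (i-1, Ty.F) (i, Ty.Z) → ud M W T (i-1, Ty.F) := pv_ud M W T _ _
    have hz2 : (i, Ty.Z) ∉ T → pv M W T (i-1, Ty.U) (i, Ty.Z) → ud M W T (i-1, Ty.U) := pv_ud M W T _ _
    simp only [mU, mx, dj, gd, an_bool, orr_bool, nt_bool, cs_bool, fl]
    simp only [nb, List.mem_cons, List.mem_append, List.mem_ite_nil_right, List.not_mem_nil, or_false] at ho
    simp [fl] at *
    grind
  obtain ⟨v, hv, hk⟩ := hM _ hw ht ho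
  obtain ⟨u0, hu0, hp0⟩ := hI v hv
  have hx := hk u0 hu0 hp0
  rw [nb_symm] at hu0
  clear ho
  simp only [nb, List.mem_cons, List.mem_append, List.mem_ite_nil_right, List.not_mem_nil, or_false] at hx
  rcases hx with rfl | rfl | ⟨hq0, rfl⟩ <;> simp only [nb, List.mem_cons, List.mem_append, List.mem_ite_nil_right, List.not_mem_nil, or_false] at hu0
  · rcases hu0 with rfl | rfl | ⟨hq, rfl⟩
    · exact absurd hv ht
    · have k0 : pv M W T (i, Ty.Q) (i, Ty.Q) → (i, Ty.Q) ∈ nb M (i, Ty.U) := hk _ (by simp [nb])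
      have k1 : pv M W T (i, Ty.G) (i, Ty.Q) → (i, Ty.G) ∈ nb M (i, Ty.U) := hk _ (by simp [nb])
      have k2 : pv M W T (i, Ty.U) (i, Ty.Q) → (i, Ty.U) ∈ nb M (i, Ty.U) := hk _ (by simp [nb])
      have k3 : (i < M) → pv M W T (i, Ty.P) (i, Ty.Q) → (i, Ty.P) ∈ nb M (i, Ty.U) := fun hc => hk _ (by simp [nb]; omega)
      clear hk hp0 hM hI
      simp [nb] at k0 k1 k2 k3
      simp only [mU, mx, dj, cj, gd, gi, an_bool, orr_bool, nt_bool, cs_bool, fl]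
      simp only [fl] at *
      grind [kS, cS, tYS]
    · have k0 : pv M W T (i+1, Ty.Z) (i+1, Ty.Z) → (i+1, Ty.Z) ∈ nb M (i, Ty.U) := hk _ (by simp [nb])
      have k1 : pv M W T (i+1, Ty.G) (i+1, Ty.Z) → (i+1, Ty.G) ∈ nb M (i, Ty.U) := hk _ (by simp [nb])
      have k2 : (i + 1 < M) → pv M W T (i+1, Ty.P) (i+1, Ty.Z) → (i+1, Ty.P) ∈ nb M (i, Ty.U) := fun hc => hk _ (by simp [nb]; omega)
      have k3 : (i < M) → pv M W T (i, Ty.F) (i+1, Ty.Z) → (i, Ty.F) ∈ nb M (i, Ty.U) := fun hc => hk _ (by simp [nb]; omega)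
      have k4 : (i + 1 < M) → pv M W T (i, Ty.U) (i+1, Ty.Z) → (i, Ty.U) ∈ nb M (i, Ty.U) := fun hc => hk _ (by simp [nb]; omega)
      clear hk hp0 hM hI
      simp [nb] at k0 k1 k2 k3 k4
      simp only [mU, mx, dj, cj, gd, gi, an_bool, orr_bool, nt_bool, cs_bool, fl]
      simp only [fl] at *
      grind [kS, cS, tYS]
  · rcases hu0 with rfl | rfl | rfl | ⟨hq, rfl⟩
    · have k0 : pv M W T (i, Ty.Q) (i, Ty.Q) → (i, Ty.Q) ∈ nb M (i, Ty.U) := hk _ (by simp [nb])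
      have k1 : pv M W T (i, Ty.G) (i, Ty.Q) → (i, Ty.G) ∈ nb M (i, Ty.U) := hk _ (by simp [nb])
      have k2 : pv M W T (i, Ty.U) (i, Ty.Q) → (i, Ty.U) ∈ nb M (i, Ty.U) := hk _ (by simp [nb])
      have k3 : (i < M) → pv M W T (i, Ty.P) (i, Ty.Q) → (i, Ty.P) ∈ nb M (i, Ty.U) := fun hc => hk _ (by simp [nb]; omega)
      clear hk hp0 hM hI
      simp [nb] at k0 k1 k2 k3
      simp only [mU, mx, dj, cj, gd, gi, an_bool, orr_bool, nt_bool, cs_bool, fl]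
      simp only [fl] at *
      grind [kS, cS, tYS]
    · have k0 : pv M W T (i, Ty.G) (i, Ty.G) → (i, Ty.G) ∈ nb M (i, Ty.U) := hk _ (by simp [nb])
      have k1 : pv M W T (i, Ty.F) (i, Ty.G) → (i, Ty.F) ∈ nb M (i, Ty.U) := hk _ (by simp [nb])
      have k2 : pv M W T (i, Ty.Q) (i, Ty.G) → (i, Ty.Q) ∈ nb M (i, Ty.U) := hk _ (by simp [nb])
      have k3 : (0 < i) → pv M W T (i, Ty.Z) (i, Ty.G) → (i, Ty.Z) ∈ nb M (i, Ty.U) := fun hc => hk _ (by simp [nb]; omega)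
      clear hk hp0 hM hI
      simp [nb] at k0 k1 k2 k3
      simp only [mU, mx, dj, cj, gd, gi, an_bool, orr_bool, nt_bool, cs_bool, fl]
      simp only [fl] at *
      grind [kS, cS, tYS]
    · exact absurd hv ht
    · have k0 : pv M W T (i, Ty.P) (i, Ty.P) → (i, Ty.P) ∈ nb M (i, Ty.U) := hk _ (by simp [nb])
      have k1 : pv M W T (i, Ty.F) (i, Ty.P) → (i, Ty.F) ∈ nb M (i, Ty.U) := hk _ (by simp [nb])
      have k2 : (i < M) → pv M W T (i, Ty.Q) (i, Ty.P) → (i, Ty.Q) ∈ nb M (i, Ty.U) := fun hc => hk _ (by simp [nb]; omega)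
      have k3 : (i < M) → pv M W T (i, Ty.Z) (i, Ty.P) → (i, Ty.Z) ∈ nb M (i, Ty.U) := fun hc => hk _ (by simp [nb]; omega)
      clear hk hp0 hM hI
      simp [nb] at k0 k1 k2 k3
      simp only [mU, mx, dj, cj, gd, gi, an_bool, orr_bool, nt_bool, cs_bool, fl]
      simp only [fl] at *
      grind [kS, cS, tYS]
  · rcases hu0 with rfl | ⟨hq, rfl⟩ | ⟨hq, rfl⟩ | ⟨hq, rfl⟩ | ⟨hq, rfl⟩
    · have k0 : pv M W T (i+1, Ty.Z) (i+1, Ty.Z) → (i+1, Ty.Z) ∈ nb M (i, Ty.U) := hk _ (by simp [nb])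
      have k1 : pv M W T (i+1, Ty.G) (i+1, Ty.Z) → (i+1, Ty.G) ∈ nb M (i, Ty.U) := hk _ (by simp [nb])
      have k2 : (i + 1 < M) → pv M W T (i+1, Ty.P) (i+1, Ty.Z) → (i+1, Ty.P) ∈ nb M (i, Ty.U) := fun hc => hk _ (by simp [nb]; omega)
      have k3 : (i < M) → pv M W T (i, Ty.F) (i+1, Ty.Z) → (i, Ty.F) ∈ nb M (i, Ty.U) := fun hc => hk _ (by simp [nb]; omega)
      have k4 : (i + 1 < M) → pv M W T (i, Ty.U) (i+1, Ty.Z) → (i, Ty.U) ∈ nb M (i, Ty.U) := fun hc => hk _ (by simp [nb]; omega)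
      clear hk hp0 hM hI
      simp [nb] at k0 k1 k2 k3 k4
      simp only [mU, mx, dj, cj, gd, gi, an_bool, orr_bool, nt_bool, cs_bool, fl]
      simp only [fl] at *
      grind [kS, cS, tYS]
    · have hr := kill_right M W T i hI _ (by omega) (Or.inr rfl) Ty.G (Or.inl rfl) ⟨hv, hk⟩
      clear hk hp0; simp [mU, mx, dj, cj, gd, gi, fl, *]
    · have hr := kill_right M W T i hI _ (by omega) (Or.inr rfl) Ty.P (Or.inr ⟨rfl, by omega⟩) ⟨hv, hk⟩
      clear hk hp0; simp [mU, mx, dj, cj, gd, gi, fl, *]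
    · have k0 : pv M W T (i, Ty.F) (i, Ty.F) → (i, Ty.F) ∈ nb M (i, Ty.U) := hk _ (by simp [nb])
      have k1 : pv M W T (i, Ty.G) (i, Ty.F) → (i, Ty.G) ∈ nb M (i, Ty.U) := hk _ (by simp [nb])
      have k2 : pv M W T (i, Ty.P) (i, Ty.F) → (i, Ty.P) ∈ nb M (i, Ty.U) := hk _ (by simp [nb])
      have k3 : (i < M) → pv M W T (i+1, Ty.Z) (i, Ty.F) → (i+1, Ty.Z) ∈ nb M (i, Ty.U) := fun hc => hk _ (by simp [nb]; omega)
      clear hk hp0 hM hI
      simp [nb] at k0 k1 k2 k3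
      simp only [mU, mx, dj, cj, gd, gi, an_bool, orr_bool, nt_bool, cs_bool, fl]
      simp only [fl] at *
      grind [kS, cS, tYS]
    · exact absurd hv ht

theorem mZ_ok : mZ (fl M i) (sS M W T i) (kS W T i) (cS M W T i) = true := by
  have aFG := FG_iff M W T i hi
  have aQG := QG_iff M W T i hi
  have aGG := GG_iff M W T i hi
  have aFP := FP_iff M W T i hi
  have aQP := QP_iff M W T i hi
  have aPP := PP_iff M W T i hi
  have aFF := FF_iff M W T i hi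
  have aYF := YF_iff M W T i hi
  have aGF := GF_iff M W T i hi
  have aPF := PF_iff M W T i hi
  have aQQ := QQ_iff M W T i hi
  have aUQ := UQ_iff M W T i hi
  have aGQ := GQ_iff M W T i hi
  have aPQ := PQ_iff M W T i hi
  have auZ := uZ_iff M W T i hi
  have auG := uG_iff M W T i hi
  have auP := uP_iff M W T i hi
  have h1 := sS_tZ M W T i hi
  have h2 := sS_u M W T i hi
  have h3 := sS_wZ M W T i hi
  have b1 := cS_b M W T i hi hTW
  by_cases hw : (i, Ty.Z) ∈ W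
  swap
  · simp [mZ, mx, dj, kS, hw, h3]
  by_cases ht : (i, Ty.Z) ∈ T
  · simp [mZ, mx, dj, kS, ht, h1]
  by_cases ho : ∃ u ∈ nb M (i, Ty.Z), ud M W T u
  swap
  · clear hM hI
    have hz1 : (i, Ty.Z) ∉ T → pv M W T (i-1, Ty.F) (i, Ty.Z) → ud M W T (i-1, Ty.F) := pv_ud M W T _ _
    have hz2 : (i, Ty.Z) ∉ T → pv M W T (i-1, Ty.U) (i, Ty.Z) → ud M W T (i-1, Ty.U) := pv_ud M W T _ _
    simp only [mZ, mx, dj, gd, an_bool, orr_bool, nt_bool, cs_bool, fl]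
    simp only [nb, List.mem_cons, List.mem_append, List.mem_ite_nil_right, List.not_mem_nil, or_false] at ho
    simp [fl] at *
    grind
  obtain ⟨v, hv, hk⟩ := hM _ hw ht ho
  obtain ⟨u0, hu0, hp0⟩ := hI v hv
  have hx := hk u0 hu0 hp0
  rw [nb_symm] at hu0
  clear ho
  simp only [nb, List.mem_cons, List.mem_append, List.mem_ite_nil_right, List.not_mem_nil, or_false] at hx
  rcases hx with rfl | ⟨hq0, rfl⟩ | ⟨hq0, rfl⟩ | ⟨hq0, rfl⟩ | ⟨hq0, rfl⟩ <;> simp only [nb, List.mem_cons, List.mem_append, List.mem_ite_nil_right, List.not_mem_nil, or_false] at hu0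
  · rcases hu0 with rfl | ⟨hq, rfl⟩ | ⟨hq, rfl⟩ | ⟨hq, rfl⟩ | ⟨hq, rfl⟩
    · exact absurd hv ht
    · have k0 : pv M W T (i, Ty.G) (i, Ty.G) → (i, Ty.G) ∈ nb M (i, Ty.Z) := hk _ (by simp [nb])
      have k1 : pv M W T (i, Ty.F) (i, Ty.G) → (i, Ty.F) ∈ nb M (i, Ty.Z) := hk _ (by simp [nb])
      have k2 : pv M W T (i, Ty.Q) (i, Ty.G) → (i, Ty.Q) ∈ nb M (i, Ty.Z) := hk _ (by simp [nb])
      have k3 : (0 < i) → pv M W T (i, Ty.Z) (i, Ty.G) → (i, Ty.Z) ∈ nb M (i, Ty.Z) := fun hc => hk _ (by simp [nb]; omega)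
      clear hk hp0 hM hI
      simp [nb] at k0 k1 k2 k3
      simp only [mZ, mx, dj, cj, gd, gi, an_bool, orr_bool, nt_bool, cs_bool, fl]
      simp only [fl] at *
      grind [kS, cS, tYS]
    · have k0 : pv M W T (i, Ty.P) (i, Ty.P) → (i, Ty.P) ∈ nb M (i, Ty.Z) := hk _ (by simp [nb])
      have k1 : pv M W T (i, Ty.F) (i, Ty.P) → (i, Ty.F) ∈ nb M (i, Ty.Z) := hk _ (by simp [nb])
      have k2 : (i < M) → pv M W T (i, Ty.Q) (i, Ty.P) → (i, Ty.Q) ∈ nb M (i, Ty.Z) := fun hc => hk _ (by simp [nb]; omega)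
      have k3 : (i < M) → pv M W T (i, Ty.Z) (i, Ty.P) → (i, Ty.Z) ∈ nb M (i, Ty.Z) := fun hc => hk _ (by simp [nb]; omega)
      clear hk hp0 hM hI
      simp [nb] at k0 k1 k2 k3
      simp only [mZ, mx, dj, cj, gd, gi, an_bool, orr_bool, nt_bool, cs_bool, fl]
      simp only [fl] at *
      grind [kS, cS, tYS]
    · obtain ⟨j, rfl⟩ : ∃ j, i = j + 1 := ⟨i - 1, by omega⟩
      simp only [Nat.add_sub_cancel] at hv hk
      have he := sS_k M W T j (by omega) hw ht Ty.F (by simp) ⟨hv, hk⟩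
      simp [mZ, mx, dj, cj, gd, gi, fl, he]
    · obtain ⟨j, rfl⟩ : ∃ j, i = j + 1 := ⟨i - 1, by omega⟩
      simp only [Nat.add_sub_cancel] at hv hk
      have he := sS_k M W T j (by omega) hw ht Ty.U (by simp) ⟨hv, hk⟩
      simp [mZ, mx, dj, cj, gd, gi, fl, he]
  · rcases hu0 with rfl | rfl | rfl | ⟨hq, rfl⟩
    · have k0 : pv M W T (i, Ty.G) (i, Ty.G) → (i, Ty.G) ∈ nb M (i, Ty.Z) := hk _ (by simp [nb])
      have k1 : pv M W T (i, Ty.F) (i, Ty.G) → (i, Ty.F) ∈ nb M (i, Ty.Z) := hk _ (by simp [nb])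
      have k2 : pv M W T (i, Ty.Q) (i, Ty.G) → (i, Ty.Q) ∈ nb M (i, Ty.Z) := hk _ (by simp [nb])
      have k3 : (0 < i) → pv M W T (i, Ty.Z) (i, Ty.G) → (i, Ty.Z) ∈ nb M (i, Ty.Z) := fun hc => hk _ (by simp [nb]; omega)
      clear hk hp0 hM hI
      simp [nb] at k0 k1 k2 k3
      simp only [mZ, mx, dj, cj, gd, gi, an_bool, orr_bool, nt_bool, cs_bool, fl]
      simp only [fl] at *
      grind [kS, cS, tYS]
    · have k0 : pv M W T (i, Ty.F) (i, Ty.F) → (i, Ty.F) ∈ nb M (i, Ty.Z) := hk _ (by simp [nb])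
      have k1 : pv M W T (i, Ty.G) (i, Ty.F) → (i, Ty.G) ∈ nb M (i, Ty.Z) := hk _ (by simp [nb])
      have k2 : pv M W T (i, Ty.P) (i, Ty.F) → (i, Ty.P) ∈ nb M (i, Ty.Z) := hk _ (by simp [nb])
      have k3 : (i < M) → pv M W T (i+1, Ty.Z) (i, Ty.F) → (i+1, Ty.Z) ∈ nb M (i, Ty.Z) := fun hc => hk _ (by simp [nb]; omega)
      clear hk hp0 hM hI
      simp [nb] at k0 k1 k2 k3
      simp only [mZ, mx, dj, cj, gd, gi, an_bool, orr_bool, nt_bool, cs_bool, fl]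
      simp only [fl] at *
      grind [kS, cS, tYS]
    · have k0 : pv M W T (i, Ty.Q) (i, Ty.Q) → (i, Ty.Q) ∈ nb M (i, Ty.Z) := hk _ (by simp [nb])
      have k1 : pv M W T (i, Ty.G) (i, Ty.Q) → (i, Ty.G) ∈ nb M (i, Ty.Z) := hk _ (by simp [nb])
      have k2 : pv M W T (i, Ty.U) (i, Ty.Q) → (i, Ty.U) ∈ nb M (i, Ty.Z) := hk _ (by simp [nb])
      have k3 : (i < M) → pv M W T (i, Ty.P) (i, Ty.Q) → (i, Ty.P) ∈ nb M (i, Ty.Z) := fun hc => hk _ (by simp [nb]; omega)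
      clear hk hp0 hM hI
      simp [nb] at k0 k1 k2 k3
      simp only [mZ, mx, dj, cj, gd, gi, an_bool, orr_bool, nt_bool, cs_bool, fl]
      simp only [fl] at *
      grind [kS, cS, tYS]
    · exact absurd hv ht
  · rcases hu0 with rfl | rfl | ⟨hq, rfl | rfl⟩
    · have k0 : pv M W T (i, Ty.P) (i, Ty.P) → (i, Ty.P) ∈ nb M (i, Ty.Z) := hk _ (by simp [nb])
      have k1 : pv M W T (i, Ty.F) (i, Ty.P) → (i, Ty.F) ∈ nb M (i, Ty.Z) := hk _ (by simp [nb])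
      have k2 : (i < M) → pv M W T (i, Ty.Q) (i, Ty.P) → (i, Ty.Q) ∈ nb M (i, Ty.Z) := fun hc => hk _ (by simp [nb]; omega)
      have k3 : (i < M) → pv M W T (i, Ty.Z) (i, Ty.P) → (i, Ty.Z) ∈ nb M (i, Ty.Z) := fun hc => hk _ (by simp [nb]; omega)
      clear hk hp0 hM hI
      simp [nb] at k0 k1 k2 k3
      simp only [mZ, mx, dj, cj, gd, gi, an_bool, orr_bool, nt_bool, cs_bool, fl]
      simp only [fl] at *
      grind [kS, cS, tYS]
    · have k0 : pv M W T (i, Ty.F) (i, Ty.F) → (i, Ty.F) ∈ nb M (i, Ty.Z) := hk _ (by simp [nb])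
      have k1 : pv M W T (i, Ty.G) (i, Ty.F) → (i, Ty.G) ∈ nb M (i, Ty.Z) := hk _ (by simp [nb])
      have k2 : pv M W T (i, Ty.P) (i, Ty.F) → (i, Ty.P) ∈ nb M (i, Ty.Z) := hk _ (by simp [nb])
      have k3 : (i < M) → pv M W T (i+1, Ty.Z) (i, Ty.F) → (i+1, Ty.Z) ∈ nb M (i, Ty.Z) := fun hc => hk _ (by simp [nb]; omega)
      clear hk hp0 hM hI
      simp [nb] at k0 k1 k2 k3
      simp only [mZ, mx, dj, cj, gd, gi, an_bool, orr_bool, nt_bool, cs_bool, fl]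
      simp only [fl] at *
      grind [kS, cS, tYS]
    · have k0 : pv M W T (i, Ty.Q) (i, Ty.Q) → (i, Ty.Q) ∈ nb M (i, Ty.Z) := hk _ (by simp [nb])
      have k1 : pv M W T (i, Ty.G) (i, Ty.Q) → (i, Ty.G) ∈ nb M (i, Ty.Z) := hk _ (by simp [nb])
      have k2 : pv M W T (i, Ty.U) (i, Ty.Q) → (i, Ty.U) ∈ nb M (i, Ty.Z) := hk _ (by simp [nb])
      have k3 : (i < M) → pv M W T (i, Ty.P) (i, Ty.Q) → (i, Ty.P) ∈ nb M (i, Ty.Z) := fun hc => hk _ (by simp [nb]; omega)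
      clear hk hp0 hM hI
      simp [nb] at k0 k1 k2 k3
      simp only [mZ, mx, dj, cj, gd, gi, an_bool, orr_bool, nt_bool, cs_bool, fl]
      simp only [fl] at *
      grind [kS, cS, tYS]
    · exact absurd hv ht
  · rcases hu0 with rfl | rfl | rfl | ⟨hq, rfl⟩
    · obtain ⟨j, rfl⟩ : ∃ j, i = j + 1 := ⟨i - 1, by omega⟩
      simp only [Nat.add_sub_cancel] at hv hk
      have he := sS_k M W T j (by omega) hw ht Ty.F (by simp) ⟨hv, hk⟩
      simp [mZ, mx, dj, cj, gd, gi, fl, he]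
    · obtain ⟨j, rfl⟩ : ∃ j, i = j + 1 := ⟨i - 1, by omega⟩
      simp only [Nat.add_sub_cancel] at hv hk
      have he := sS_k M W T j (by omega) hw ht Ty.G (by simp) ⟨hv, hk⟩
      simp [mZ, mx, dj, cj, gd, gi, fl, he]
    · obtain ⟨j, rfl⟩ : ∃ j, i = j + 1 := ⟨i - 1, by omega⟩
      simp only [Nat.add_sub_cancel] at hv hk
      have he := sS_k M W T j (by omega) hw ht Ty.P (by simp) ⟨hv, hk⟩
      simp [mZ, mx, dj, cj, gd, gi, fl, he]
    · exfalso; apply ht; have h5 : i - 1 + 1 = i := by omega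
      rwa [h5] at hv
  · rcases hu0 with rfl | rfl | ⟨hq, rfl⟩
    · obtain ⟨j, rfl⟩ : ∃ j, i = j + 1 := ⟨i - 1, by omega⟩
      simp only [Nat.add_sub_cancel] at hv hk
      have he := sS_k M W T j (by omega) hw ht Ty.U (by simp) ⟨hv, hk⟩
      simp [mZ, mx, dj, cj, gd, gi, fl, he]
    · obtain ⟨j, rfl⟩ : ∃ j, i = j + 1 := ⟨i - 1, by omega⟩
      simp only [Nat.add_sub_cancel] at hv hk
      have he := sS_k M W T j (by omega) hw ht Ty.Q (by simp) ⟨hv, hk⟩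
      simp [mZ, mx, dj, cj, gd, gi, fl, he]
    · exfalso; apply ht; have h5 : i - 1 + 1 = i := by omega
      rwa [h5] at hv


end mx

end Pool.Agent.Helper590.Chain
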