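import Pool.Agent.Helper590.ChTab
import Pool.Agent.Helper590.ChMx

set_option autoImplicit false
set_option linter.unusedSimpArgs false
set_option linter.unusedVariables false

namespace Pool.Agent.Helper590.Chain

open BA

theorem dj_ev (ρ : ℕ → Bool) (l : List Fm) (h : (dj l).ev ρ = true) : ∃ φ ∈ l, φ.ev ρ = true := by
  induction l with
  | nil => exact absurd h (by simp [dj, BA.cs, Fm.ev])
  | cons x l ih =>
    cases l with
    | nil => exact ⟨x, by simp, h⟩
    | cons y l =>
      have h2 : (x.ev ρ || (dj (y :: l)).ev ρ) = true := h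
      rw [Bool.or_eq_true] at h2
      rcases h2 with h2 | h2
      · exact ⟨x, by simp, h2⟩
      · obtain ⟨φ, h3, h4⟩ := ih h2
        exact ⟨φ, List.mem_cons_of_mem _ h3, h4⟩

theorem cj_ev (ρ : ℕ → Bool) (l : List Fm) (h : (cj l).ev ρ = true) : ∀ φ ∈ l, φ.ev ρ = true := by
  induction l with
  | nil => simp
  | cons x l ih =>
    cases l with
    | nil => intro φ hφ; rw [List.mem_singleton.1 hφ]; exact h
    | cons y l =>
      have h2 : (x.ev ρ && (cj (y :: l)).ev ρ) = true := h
      rw [Bool.and_eq_true] at h2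
      intro φ hφ
      rcases List.mem_cons.1 hφ with rfl | hφ
      · exact h2.1
      · exact ih h2.2 φ hφ

theorem ok_ex (f : Fl) (e : En) (X κ : ℕ) (ρ : ℕ → Bool) (h : (ok f e X κ).ev ρ = true)
    (hκ : ¬ 9 ≤ κ) : ∃ d ∈ dlts, base f e d < 9 ∧ (vld f X d).ev ρ = true ∧
      (thr (base f e d + pop d - κ - (bif e.s.tZ then 1 else 0))).ev ρ = true := by
  unfold ok at h
  have h1 : Nat.ble 9 κ = false := by
    cases hb : Nat.ble 9 κ with
    | false => rfl
    | true => exact absurd (Nat.le_of_ble_eq_true hb) hκ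
  rw [h1] at h
  obtain ⟨φ, hφ, h2⟩ := dj_ev _ _ h
  rw [List.mem_filterMap] at hφ
  obtain ⟨d, hd, h3⟩ := hφ
  refine ⟨d, hd, ?_⟩
  cases hb : Nat.ble 9 (base f e d) with
  | true => simp [hb] at h3
  | false =>
    simp only [hb, cond_false, Option.some.injEq] at h3
    subst h3
    have h4 : ((vld f X d).ev ρ && (thr (base f e d + pop d - κ -
      (bif e.s.tZ then 1 else 0))).ev ρ) = true := h2
    rw [Bool.and_eq_true] at h4
    refine ⟨?_, h4.1, h4.2⟩
    by_contra hcon
    rw [Nat.ble_eq_true_of_le (by omega)] at hb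
    exact absurd hb (by simp)

theorem vld_sem (f : Fl) (X d : ℕ) (ρ : ℕ → Bool) (h : (vld f X d).ev ρ = true) :
    (X = 1 → (dom f d).testBit 6 = true) ∧
    (∀ j < 6, 1 ≤ j → d.testBit j = true → ρ (2 * (j - 1)) = true) ∧
    (∀ j < 6, 1 ≤ j → (dom f d).testBit j = false →
      ¬ (X = 0 ∧ ((j = 1 ∧ f.p = true) ∨ (j = 5 ∧ f.q = true))) → ρ (2 * (j - 1)) = false) := by
  unfold vld at h
  by_cases hX : (Nat.beq X 1 && !(dom f d).testBit 6) = true
  · rw [hX] at h
    exact absurd h (by simp [Fm.ev])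
  · rw [Bool.not_eq_true] at hX
    rw [hX] at h
    have h2 := cj_ev _ _ h
    refine ⟨?_, ?_, ?_⟩
    · intro hX1
      subst hX1
      simpa using hX
    · intro j hj h1 hd
      exact h2 (wv j) (by
        rw [List.mem_append]; left
        rw [List.mem_map]
        refine ⟨j, ?_, rfl⟩
        rw [List.mem_filter]
        refine ⟨List.mem_range.2 hj, ?_⟩
        rw [Nat.ble_eq_true_of_le h1, hd]; rfl)
    · intro j hj h1 hd hn
      have h3 := h2 (Fm.no (wv j)) (by
        rw [List.mem_append]; right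
        rw [List.mem_map]
        refine ⟨j, ?_, rfl⟩
        rw [List.mem_filter]
        refine ⟨List.mem_range.2 hj, ?_⟩
        rw [Nat.ble_eq_true_of_le h1, hd]
        simp only [Bool.not_false, Bool.and_self, Bool.true_and]
        by_contra hc
        apply hn
        simp only [Bool.not_eq_true', Bool.and_eq_false_iff, not_or, Bool.not_eq_false,
          Bool.or_eq_true, Bool.and_eq_true, Nat.beq_eq] at hc
        exact hc)
      have h4 : (!(ρ (2 * (j - 1)))) = true := h3
      simpa using h4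

def ix : Ty → ℕ
  | .Z => 0 | .F => 1 | .G => 2 | .P => 3 | .Q => 4 | .U => 5

theorem ix_lt (τ : Ty) : ix τ < 6 := by cases τ <;> decide

def nbB (z p : Bool) : Ty → Ty → Bool
  | .Z, .Z => true | .Z, .G => z | .Z, .P => p
  | .F, .F => true | .F, .G => true | .F, .P => true
  | .G, .G => true | .G, .F => true | .G, .Q => true | .G, .Z => z
  | .P, .P => true | .P, .F => true | .P, .Q => p | .P, .Z => p
  | .Q, .Q => true | .Q, .G => true | .Q, .U => true | .Q, .P => p
  | .U, .U => true | .U, .Q => true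
  | _, _ => false

theorem nbm_nbB (z p q : Bool) (s t : Ty) :
    ((nbm ⟨z, p, q⟩).getD (ix s) 0).testBit (ix t) = nbB z p s t := by
  cases z <;> cases p <;> cases q <;> cases s <;> cases t <;> decide

theorem nbm_spec (M i : ℕ) (hi : i ≤ M) (s t : Ty) :
    (((nbm (fl M i)).getD (ix s) 0).testBit (ix t) = true) ↔ ((i, t) : Vx) ∈ nb M (i, s) := by
  unfold fl
  rw [nbm_nbB]
  cases s <;> cases t <;> simp [nbB, nb] <;> omega

def nbB6 (p q : Bool) : Ty → Bool
  | .F => p | .U => q | _ => false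

theorem nbm_nbB6 (z p q : Bool) (s : Ty) :
    ((nbm ⟨z, p, q⟩).getD (ix s) 0).testBit 6 = nbB6 p q s := by
  cases z <;> cases p <;> cases q <;> cases s <;> decide

theorem nbm_spec6 (M i : ℕ) (hi : i ≤ M) (s : Ty) :
    (((nbm (fl M i)).getD (ix s) 0).testBit 6 = true) ↔ ((i+1, Ty.Z) : Vx) ∈ nb M (i, s) := by
  unfold fl
  rw [nbm_nbB6]
  cases s <;> simp [nbB6, nb]

theorem dom_foldr (m : ℕ → ℕ) (d k : ℕ) (l : List ℕ) :
    (l.foldr (fun j acc => bif d.testBit j then Nat.lor (m j) acc else acc) 0).testBit k = true ↔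
      ∃ j ∈ l, d.testBit j = true ∧ (m j).testBit k = true := by
  induction l with
  | nil => simp
  | cons a l ih =>
    rw [List.foldr_cons]
    cases h : d.testBit a with
    | false =>
      simp only [cond_false, ih]
      constructor
      · rintro ⟨j, hj, h1⟩; exact ⟨j, List.mem_cons_of_mem _ hj, h1⟩
      · rintro ⟨j, hj, h1, h2⟩
        rcases List.mem_cons.1 hj with rfl | hj
        · rw [h] at h1; exact absurd h1 (by simp)
        · exact ⟨j, hj, h1, h2⟩
    | true =>
      have : (Nat.lor (m a) (l.foldr (fun j acc => bif d.testBit j then Nat.lor (m j) acc else acc)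
        0)).testBit k = ((m a).testBit k || (l.foldr (fun j acc => bif d.testBit j then
          Nat.lor (m j) acc else acc) 0).testBit k) := Nat.testBit_or _ _ _
      simp only [cond_true, this, Bool.or_eq_true, ih]
      constructor
      · rintro (h1 | ⟨j, hj, h1⟩)
        · exact ⟨a, by simp, h, h1⟩
        · exact ⟨j, List.mem_cons_of_mem _ hj, h1⟩
      · rintro ⟨j, hj, h1, h2⟩
        rcases List.mem_cons.1 hj with rfl | hj
        · left; exact h2
        · right; exact ⟨j, hj, h1, h2⟩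

theorem ix_surj (j : ℕ) (hj : j < 6) : ∃ τ, ix τ = j := by
  interval_cases j
  exacts [⟨.Z, rfl⟩, ⟨.F, rfl⟩, ⟨.G, rfl⟩, ⟨.P, rfl⟩, ⟨.Q, rfl⟩, ⟨.U, rfl⟩]

theorem dom_spec (M i : ℕ) (hi : i ≤ M) (d : ℕ) (t : Ty) :
    (dom (fl M i) d).testBit (ix t) = true ↔ ∃ s, d.testBit (ix s) = true ∧
      ((i, t) : Vx) ∈ nb M (i, s) := by
  unfold dom
  rw [dom_foldr (fun j => (nbm (fl M i)).getD j 0)]
  constructor
  · rintro ⟨j, hj, h1, h2⟩
    obtain ⟨s, rfl⟩ := ix_surj j (List.mem_range.1 hj)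
    exact ⟨s, h1, (nbm_spec M i hi s t).1 h2⟩
  · rintro ⟨s, h1, h2⟩
    exact ⟨ix s, List.mem_range.2 (ix_lt s), h1, (nbm_spec M i hi s t).2 h2⟩

theorem dom_spec6 (M i : ℕ) (hi : i ≤ M) (d : ℕ) :
    (dom (fl M i) d).testBit 6 = true ↔ ∃ s, d.testBit (ix s) = true ∧
      ((i+1, Ty.Z) : Vx) ∈ nb M (i, s) := by
  unfold dom
  rw [dom_foldr (fun j => (nbm (fl M i)).getD j 0)]
  constructor
  · rintro ⟨j, hj, h1, h2⟩
    obtain ⟨s, rfl⟩ := ix_surj j (List.mem_range.1 hj)
    exact ⟨s, h1, (nbm_spec6 M i hi s).1 h2⟩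
  · rintro ⟨s, h1, h2⟩
    exact ⟨ix s, List.mem_range.2 (ix_lt s), h1, (nbm_spec6 M i hi s).2 h2⟩

end Pool.Agent.Helper590.Chain
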