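import Pool.Agent.Helper590.ChDom

set_option autoImplicit false
set_option linter.unusedSimpArgs false
set_option linter.unusedVariables false

namespace Pool.Agent.Helper590.Chain

open BA

instance : Fintype Ty := ⟨{Ty.Z, Ty.F, Ty.G, Ty.P, Ty.Q, Ty.U}, by intro x; cases x <;> decide⟩

def emb (i : ℕ) : Ty ↪ Vx := ⟨fun τ => (i, τ), fun a b h => by simpa using h⟩

/-- the chosen vertices of block `i` -/
def loc (i d : ℕ) : Finset Vx := ((Finset.univ : Finset Ty).filter (fun τ => d.testBit (ix τ))).map (emb i)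

theorem mem_loc (i d : ℕ) (v : Vx) : v ∈ loc i d ↔ v.1 = i ∧ d.testBit (ix v.2) = true := by
  obtain ⟨j, t⟩ := v
  rw [loc, Finset.mem_map]
  constructor
  · rintro ⟨a, h1, h2⟩
    have h3 : (i, a) = (j, t) := h2
    rw [Prod.mk.injEq] at h3
    obtain ⟨h4, h5⟩ := h3
    subst h5
    exact ⟨h4.symm, (Finset.mem_filter.1 h1).2⟩
  · rintro ⟨h1, h2⟩
    have h3 : j = i := h1
    subst h3
    exact ⟨t, Finset.mem_filter.2 ⟨Finset.mem_univ _, h2⟩, rfl⟩

theorem pop_dlts : ∀ d ∈ dlts, ((Finset.univ : Finset Ty).filter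
    (fun τ => d.testBit (ix τ))).card = pop d := by
  decide +kernel

theorem loc_card (i d : ℕ) (hd : d ∈ dlts) : (loc i d).card = pop d := by
  rw [loc, Finset.card_map, pop_dlts d hd]

theorem filt_succ (T : Finset Vx) (i : ℕ) :
    (T.filter (fun v => v.1 < i + 1)).card = (T.filter (fun v => v.1 < i)).card +
      (T.filter (fun v => v.1 = i)).card := by
  rw [← Finset.card_union_of_disjoint]
  · congr 1
    ext v
    simp only [Finset.mem_filter, Finset.mem_union]
    constructor
    · rintro ⟨h1, h2⟩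
      rcases Nat.lt_succ_iff_lt_or_eq.1 h2 with h | h
      · exact Or.inl ⟨h1, h⟩
      · exact Or.inr ⟨h1, h⟩
    · rintro (⟨h1, h2⟩ | ⟨h1, h2⟩)
      · exact ⟨h1, by omega⟩
      · exact ⟨h1, by omega⟩
  · rw [Finset.disjoint_filter]
    intro v _ h1 h2
    omega

theorem filt_eq (T : Finset Vx) (i : ℕ) : (T.filter (fun v => v.1 = i)).card =
    (decide ((i, Ty.Z) ∈ T)).toNat + ((decide ((i, Ty.F) ∈ T)).toNat +
    (decide ((i, Ty.G) ∈ T)).toNat + (decide ((i, Ty.P) ∈ T)).toNat +
    (decide ((i, Ty.Q) ∈ T)).toNat + (decide ((i, Ty.U) ∈ T)).toNat) := by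
  have h1 : T.filter (fun v => v.1 = i) =
      ((Finset.univ : Finset Ty).filter (fun τ => (i, τ) ∈ T)).map (emb i) := by
    ext ⟨j, t⟩
    rw [Finset.mem_map, Finset.mem_filter]
    constructor
    · rintro ⟨h1, h2⟩
      have h3 : j = i := h2
      subst h3
      exact ⟨t, Finset.mem_filter.2 ⟨Finset.mem_univ _, h1⟩, rfl⟩
    · rintro ⟨a, h1, h2⟩
      have h3 : (i, a) = (j, t) := h2
      rw [Prod.mk.injEq] at h3
      obtain ⟨h4, h5⟩ := h3
      subst h4 h5
      exact ⟨(Finset.mem_filter.1 h1).2, rfl⟩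
  rw [h1, Finset.card_map, Finset.card_filter]
  have h2 : (Finset.univ : Finset Ty) = {Ty.Z, Ty.F, Ty.G, Ty.P, Ty.Q, Ty.U} := rfl
  rw [h2]
  rw [Finset.sum_insert (by decide), Finset.sum_insert (by decide), Finset.sum_insert (by decide),
    Finset.sum_insert (by decide), Finset.sum_insert (by decide), Finset.sum_singleton]
  have h3 : ∀ p : Prop, ∀ [Decidable p], (if p then 1 else 0) = (decide p).toNat := by
    intro p _; by_cases hp : p <;> simp [hp]
  simp only [h3]
  ring

section fin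
variable (M : ℕ) (W T : Finset Vx)

def Claim (i X κ : ℕ) : Prop := 9 ≤ κ ∨ ∃ D : Finset Vx, D ⊆ W ∧ (∀ v ∈ D, v.1 < i) ∧
  (∀ x ∈ W, x.1 < i → (∃ d ∈ D, x ∈ nb M d) ∨ (X = 0 ∧ x ∈ nb M (i, Ty.Z))) ∧
  (X = 1 → ∃ d ∈ D, ((i, Ty.Z) : Vx) ∈ nb M d) ∧
  D.card + 1 ≤ (T.filter (fun v => v.1 < i)).card + κ

/-- the assignment of block `i` -/
def aL (i : ℕ) : List Bool :=
  ext ([(kS W T i).wF, (kS W T i).tF] ++ ([(kS W T i).wG, (kS W T i).tG] ++
    ([(kS W T i).wP, (kS W T i).tP] ++ ([(kS W T i).wQ, (kS W T i).tQ] ++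
    ([(kS W T i).wU, (kS W T i).tU] ++ [(cS M W T i).wY, (cS M W T i).tY, (cS M W T i).a,
      (cS M W T i).b, (cS M W T i).r])))))

theorem rho_w (i : ℕ) (ρ : ℕ → Bool) (hρ : ∀ n < 20, ρ n = (aL M W T i).getD n false) (τ : Ty)
    (hτ : τ ≠ Ty.Z) : ρ (2 * (ix τ - 1)) = decide ((i, τ) ∈ W) := by
  cases τ
  · exact absurd rfl hτ
  all_goals
    simp only [ix]
    rw [hρ _ (by norm_num)]
    rfl

theorem thr_sem (i : ℕ) (ρ : ℕ → Bool) (hρ : ∀ n < 20, ρ n = (aL M W T i).getD n false) (m : ℕ)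
    (h : (thr m).ev ρ = true) : m ≤ cntT (aL M W T i) := by
  have hc : cntT (aL M W T i) = (kS W T i).tF.toNat + (kS W T i).tG.toNat + (kS W T i).tP.toNat +
    (kS W T i).tQ.toNat + (kS W T i).tU.toNat := rfl
  rcases m with _ | _ | _ | _ | _ | _ | m
  · omega
  · have h1 : ρ 15 = true := h
    rw [hρ _ (by norm_num)] at h1
    exact Nat.le_of_ble_eq_true h1
  · have h1 : ρ 16 = true := h
    rw [hρ _ (by norm_num)] at h1
    exact Nat.le_of_ble_eq_true h1
  · have h1 : ρ 17 = true := h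
    rw [hρ _ (by norm_num)] at h1
    exact Nat.le_of_ble_eq_true h1
  · have h1 : ρ 18 = true := h
    rw [hρ _ (by norm_num)] at h1
    exact Nat.le_of_ble_eq_true h1
  · have h1 : ρ 19 = true := h
    rw [hρ _ (by norm_num)] at h1
    exact Nat.le_of_ble_eq_true h1
  · exfalso
    have h5 : Nat.ble 5 (m + 5) = true := Nat.ble_eq_true_of_le (by omega)
    have h6 : (bif Nat.ble 5 (m + 5) then Fm.ct false else Fm.vr (15 + (m + 5))).ev ρ = true := h
    rw [h5] at h6
    exact absurd h6 (by simp [Fm.ev])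

theorem filt_cnt (i : ℕ) : (T.filter (fun v => v.1 = i)).card =
    (decide ((i, Ty.Z) ∈ T)).toNat + cntT (aL M W T i) := by
  rw [filt_eq]
  rfl

theorem extend (i : ℕ) (hi : i ≤ M) (e : En) (hes : e.s = sS M W T i)
    (he : e.s.wZ = false → 9 ≤ e.pa) (hA : Claim M W T i 0 e.pa) (hB : Claim M W T i 1 e.pb)
    (hC : Claim M W T i 2 e.pc) (X κ : ℕ) (ρ : ℕ → Bool)
    (hρ : ∀ n < 20, ρ n = (aL M W T i).getD n false) (hok : okP (fl M i) e X κ ρ) :
    Claim M W T (i+1) X κ := by
  rcases hok with hok | hok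
  · left; exact hok
  by_cases hκ : 9 ≤ κ
  · left; exact hκ
  right
  obtain ⟨d, hd, hb, hv, ht⟩ := ok_ex _ _ _ _ _ hok hκ
  obtain ⟨v1, v2, v3⟩ := vld_sem _ _ _ _ hv
  have htc := thr_sem M W T i ρ hρ _ ht
  have hwZ : e.s.wZ = decide ((i, Ty.Z) ∈ W) := by rw [hes]; exact sS_wZ M W T i hi
  have htZ : e.s.tZ = decide ((i, Ty.Z) ∈ T) := by rw [hes]; exact sS_tZ M W T i hi
  -- the left part
  have key : ∃ D : Finset Vx, D ⊆ W ∧ (∀ v ∈ D, v.1 < i) ∧
      (∀ x ∈ W, x.1 < i → (∃ d' ∈ D ∪ loc i d, x ∈ nb M d')) ∧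
      ((i, Ty.Z) ∈ W → ∃ d' ∈ D ∪ loc i d, ((i, Ty.Z) : Vx) ∈ nb M d') ∧
      (d.testBit 0 = true → (i, Ty.Z) ∈ W) ∧
      D.card + 1 ≤ (T.filter (fun v => v.1 < i)).card + base (fl M i) e d := by
    unfold base at hb ⊢
    cases h0 : d.testBit 0 with
    | true =>
      rw [h0] at hb
      simp only [cond_true] at hb ⊢
      have hZ : ((i, Ty.Z) : Vx) ∈ loc i d := by rw [mem_loc]; exact ⟨rfl, h0⟩
      rcases hA with hA | ⟨D, h1, h2, h3, _, h5⟩
      · omega
      refine ⟨D, h1, h2, ?_, ?_, ?_, h5⟩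
      · intro x hx hxi
        rcases h3 x hx hxi with ⟨d', h6, h7⟩ | ⟨_, h7⟩
        · exact ⟨d', Finset.mem_union_left _ h6, h7⟩
        · exact ⟨_, Finset.mem_union_right _ hZ, h7⟩
      · intro _
        exact ⟨_, Finset.mem_union_right _ hZ, nb_self _ _⟩
      · intro _
        by_contra hcon
        have : e.s.wZ = false := by rw [hwZ]; simpa using hcon
        have := he this
        omega
    | false =>
      rw [h0] at hb
      simp only [cond_false] at hb ⊢
      cases h1 : (dom (fl M i) d).testBit 0 with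
      | true =>
        rw [h1] at hb
        simp only [cond_true] at hb ⊢
        obtain ⟨s, hs1, hs2⟩ := (dom_spec M i hi d Ty.Z).1 h1
        rcases hC with hC | ⟨D, g1, g2, g3, _, g5⟩
        · omega
        refine ⟨D, g1, g2, ?_, ?_, by simp, g5⟩
        · intro x hx hxi
          rcases g3 x hx hxi with ⟨d', h6, h7⟩ | ⟨h7, _⟩
          · exact ⟨d', Finset.mem_union_left _ h6, h7⟩
          · omega
        · intro _
          exact ⟨(i, s), Finset.mem_union_right _ ((mem_loc _ _ _).2 ⟨rfl, hs1⟩), hs2⟩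
      | false =>
        rw [h1] at hb
        simp only [cond_false] at hb ⊢
        cases h2 : e.s.wZ with
        | true =>
          rw [h2] at hb
          simp only [cond_true] at hb ⊢
          rcases hB with hB | ⟨D, g1, g2, g3, g4, g5⟩
          · omega
          refine ⟨D, g1, g2, ?_, ?_, by simp, g5⟩
          · intro x hx hxi
            rcases g3 x hx hxi with ⟨d', h6, h7⟩ | ⟨h7, _⟩
            · exact ⟨d', Finset.mem_union_left _ h6, h7⟩
            · omega
          · intro _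
            obtain ⟨d', h6, h7⟩ := g4 rfl
            exact ⟨d', Finset.mem_union_left _ h6, h7⟩
        | false =>
          rw [h2] at hb
          simp only [cond_false] at hb ⊢
          rcases hC with hC | ⟨D, g1, g2, g3, _, g5⟩
          · omega
          refine ⟨D, g1, g2, ?_, ?_, by simp, g5⟩
          · intro x hx hxi
            rcases g3 x hx hxi with ⟨d', h6, h7⟩ | ⟨h7, _⟩
            · exact ⟨d', Finset.mem_union_left _ h6, h7⟩
            · omega
          · intro hZ
            rw [hwZ] at h2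
            simp [hZ] at h2
  obtain ⟨D, k1, k2, k3, k4, k5, k6⟩ := key
  refine ⟨D ∪ loc i d, ?_, ?_, ?_, ?_, ?_⟩
  · intro v hv
    rcases Finset.mem_union.1 hv with hv | hv
    · exact k1 hv
    · rw [mem_loc] at hv
      obtain ⟨j, t⟩ := v
      obtain ⟨rfl, hv2⟩ := hv
      by_cases hZ : t = Ty.Z
      · subst hZ; exact k5 hv2
      · have h1 := rho_w M W T j ρ hρ t hZ
        have h2 := v2 (ix t) (ix_lt t) (by cases t <;> simp [ix] at hZ ⊢) hv2
        rw [h1] at h2
        simpa using h2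
  · intro v hv
    rcases Finset.mem_union.1 hv with hv | hv
    · have := k2 v hv; omega
    · rw [mem_loc] at hv; omega
  · intro x hx hxi
    by_cases hlt : x.1 < i
    · left; exact k3 x hx hlt
    · obtain ⟨j, t⟩ := x
      have hj : j = i := by simp only at hlt hxi; omega
      subst hj
      by_cases hZ : t = Ty.Z
      · subst hZ; left; exact k4 hx
      · cases hdm : (dom (fl M j) d).testBit (ix t) with
        | true =>
          left
          obtain ⟨s, hs1, hs2⟩ := (dom_spec M j hi d t).1 hdm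
          exact ⟨(j, s), Finset.mem_union_right _ ((mem_loc _ _ _).2 ⟨rfl, hs1⟩), hs2⟩
        | false =>
          right
          by_contra hcon
          have h1 := rho_w M W T j ρ hρ t hZ
          have h2 := v3 (ix t) (ix_lt t) (by cases t <;> simp [ix] at hZ ⊢) hdm (by
            rintro ⟨hX, hh⟩
            apply hcon
            refine ⟨hX, ?_⟩
            cases t <;> simp [ix, fl] at hh hZ ⊢ <;> simp [nb] <;> omega)
          rw [h1] at h2
          simp [hx] at h2
  · intro hX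
    obtain ⟨s, hs1, hs2⟩ := (dom_spec6 M i hi d).1 (v1 hX)
    exact ⟨(i, s), Finset.mem_union_right _ ((mem_loc _ _ _).2 ⟨rfl, hs1⟩), hs2⟩
  · have hc1 := Finset.card_union_le D (loc i d)
    rw [loc_card i d hd] at hc1
    rw [filt_succ, filt_cnt M W T i]
    rw [htZ] at htc
    cases hz : decide ((i, Ty.Z) ∈ T) with
    | true =>
      rw [hz] at htc
      simp only [cond_true] at htc
      simp only [Bool.toNat_true]
      omega
    | false =>
      rw [hz] at htc
      simp only [cond_false] at htc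
      simp only [Bool.toNat_false]
      omega

end fin

end Pool.Agent.Helper590.Chain
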