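import Pool.Agent.Helper590.ChTop

set_option autoImplicit false
set_option linter.unusedSimpArgs false
set_option linter.unusedVariables false

namespace Pool.Agent.Helper590.Chain

open Pool.Agent.Helper590.IrGen

def ty : ℕ → Ty
  | 0 => .Z | 1 => .F | 2 => .G | 3 => .P | 4 => .Q | _ => .U

def dec (k : ℕ) : Vx := (k / 6, ty (k % 6))
def enc (v : Vx) : ℕ := 6 * v.1 + ix v.2

theorem ix_ty (r : ℕ) (h : r < 6) : ix (ty r) = r := by
  interval_cases r <;> rfl

theorem ty_ix (t : Ty) : ty (ix t) = t := by cases t <;> rfl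

theorem dec_enc (v : Vx) : dec (enc v) = v := by
  obtain ⟨i, t⟩ := v
  have h := ix_lt t
  have h1 : (6 * i + ix t) / 6 = i := by omega
  have h2 : (6 * i + ix t) % 6 = ix t := by omega
  simp only [dec, enc, h1, h2, ty_ix]

theorem enc_dec (k : ℕ) : enc (dec k) = k := by
  simp only [dec, enc]
  rw [ix_ty _ (Nat.mod_lt _ (by norm_num))]
  omega

theorem dec_inj (a b : ℕ) (h : dec a = dec b) : a = b := by
  rw [← enc_dec a, ← enc_dec b, h]

section
variable (M : ℕ)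

theorem dec_le (k : Fin (6 * (M + 1))) : (dec k.1).1 ≤ M := by
  have := k.2
  simp only [dec]
  omega

theorem enc_lt (v : Vx) (h : v.1 ≤ M) : enc v < 6 * (M + 1) := by
  have := ix_lt v.2
  simp only [enc]
  omega

def em : Fin (6 * (M + 1)) ↪ Vx := ⟨fun k => dec k.1, fun a b h => Fin.ext (dec_inj _ _ h)⟩

theorem em_surj (v : Vx) (h : v.1 ≤ M) : ∃ k, em M k = v :=
  ⟨⟨enc v, enc_lt M v h⟩, dec_enc v⟩

/-- the graph -/
def GM : SimpleGraph (Fin (6 * (M + 1))) where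
  Adj u v := u ≠ v ∧ em M u ∈ nb M (em M v)
  symm := ⟨fun u v h => ⟨h.1.symm, (nb_symm _ _ _).1 h.2⟩⟩
  loopless := ⟨fun u h => h.1 rfl⟩

theorem cl_iff (u w : Fin (6 * (M + 1))) : (u = w ∨ (GM M).Adj u w) ↔ em M u ∈ nb M (em M w) := by
  constructor
  · rintro (rfl | h)
    · exact nb_self _ _
    · exact h.2
  · intro h
    by_cases huw : u = w
    · exact Or.inl huw
    · exact Or.inr ⟨huw, h⟩

theorem mx_good (hM2 : 2 ≤ M) (U S : Finset (Fin (6 * (M + 1)))) (h : MX (GM M) U S)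
    (hU : U ≠ Finset.univ) : ∃ D, DM (GM M) U D ∧ D.card ≤ S.card := by
  obtain ⟨⟨hSU, hirr⟩, hmax⟩ := h
  have hTW : S.map (em M) ⊆ U.map (em M) := Finset.map_subset_map.2 hSU
  have hI : ∀ v ∈ S.map (em M), ∃ u ∈ nb M v, pv M (U.map (em M)) (S.map (em M)) u v := by
    intro v hv
    obtain ⟨v', hv', rfl⟩ := Finset.mem_map.1 hv
    obtain ⟨u, hu, hc, hp⟩ := hirr v' hv'
    refine ⟨em M u, (cl_iff M u v').1 hc, Finset.mem_map_of_mem _ hu, ?_⟩
    intro x hx hxT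
    obtain ⟨x', hx', rfl⟩ := Finset.mem_map.1 hxT
    by_contra hne
    refine hp x' hx' (fun h => hne (by rw [h])) ?_
    rw [cl_iff, nb_symm]
    exact hx
  have hMx : ∀ x ∈ U.map (em M), x ∉ S.map (em M) →
      (∃ u ∈ nb M x, ud M (U.map (em M)) (S.map (em M)) u) →
      ∃ v, kl M (U.map (em M)) (S.map (em M)) x v := by
    intro x hx hxT hown
    obtain ⟨x', hx', rfl⟩ := Finset.mem_map.1 hx
    have hxS : x' ∉ S := fun h => hxT (Finset.mem_map_of_mem _ h)
    have h1 := hmax x' hx' hxS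
    have h2 : ∃ v ∈ insert x' S, ∀ u ∈ U, (u = v ∨ (GM M).Adj u v) →
        ∃ w ∈ insert x' S, w ≠ v ∧ (u = w ∨ (GM M).Adj u w) := by
      by_contra hcon
      push Not at hcon
      apply h1
      refine ⟨Finset.insert_subset hx' hSU, ?_⟩
      intro v hv
      obtain ⟨u, hu, hc, hp⟩ := hcon v hv
      refine ⟨u, hu, hc, ?_⟩
      intro w hw hwv hcl
      have := hp w hw hwv
      rcases hcl with h | h
      · exact this.1 h
      · exact this.2 h
    obtain ⟨v, hv, h3⟩ := h2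
    rcases Finset.mem_insert.1 hv with rfl | hv
    · exfalso
      obtain ⟨u, hu, huU, hud⟩ := hown
      obtain ⟨u', hu', rfl⟩ := Finset.mem_map.1 huU
      obtain ⟨w, hw, hwv, hcl⟩ := h3 u' hu' ((cl_iff M _ _).2 hu)
      rcases Finset.mem_insert.1 hw with rfl | hw
      · exact hwv rfl
      · rw [cl_iff, nb_symm] at hcl
        exact hud _ hcl (Finset.mem_map_of_mem _ hw)
    · refine ⟨em M v, Finset.mem_map_of_mem _ hv, ?_⟩
      intro u hu hp
      obtain ⟨huU, hup⟩ := hp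
      obtain ⟨u', hu', rfl⟩ := Finset.mem_map.1 huU
      obtain ⟨w, hw, hwv, hcl⟩ := h3 u' hu' ((cl_iff M _ _).2 hu)
      rcases Finset.mem_insert.1 hw with rfl | hw
      · exact (cl_iff M _ _).1 hcl
      · exfalso
        rw [cl_iff, nb_symm] at hcl
        exact hwv ((em M).injective (hup _ hcl (Finset.mem_map_of_mem _ hw)))
  rcases good M _ _ hTW hI hMx hM2 (by
    intro v hv
    obtain ⟨v', _, rfl⟩ := Finset.mem_map.1 hv
    exact dec_le M v') with ⟨D, hD1, hD2, hD3⟩ | hfull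
  · refine ⟨U.filter (fun k => em M k ∈ D), ⟨Finset.filter_subset _ _, ?_⟩, ?_⟩
    · intro x hx
      obtain ⟨d, hd, hxd⟩ := hD2 (em M x) (Finset.mem_map_of_mem _ hx)
      obtain ⟨d', hd', rfl⟩ := Finset.mem_map.1 (hD1 hd)
      rcases (cl_iff M x d').2 hxd with h | h
      · left
        subst h
        exact Finset.mem_filter.2 ⟨hx, hd⟩
      · right
        exact ⟨d', Finset.mem_filter.2 ⟨hd', hd⟩, h⟩
    · rw [← Finset.card_map (em M)]
      refine le_trans (Finset.card_le_card ?_) (le_trans hD3 ?_)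
      · intro v hv
        obtain ⟨v', hv', rfl⟩ := Finset.mem_map.1 hv
        exact (Finset.mem_filter.1 hv').2
      · rw [Finset.card_map]
  · exfalso
    apply hU
    ext k
    simp only [Finset.mem_univ, iff_true]
    obtain ⟨k', hk', h⟩ := Finset.mem_map.1 (hfull (em M k) (dec_le M k))
    rw [← (em M).injective h]
    exact hk'

def T0 : Finset (Fin (6 * (M + 1))) := Finset.univ.filter (fun k => isT (em M k))

theorem T0_mx (hM : 1 ≤ M) : MX (GM M) Finset.univ (T0 M) := by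
  refine ⟨⟨Finset.subset_univ _, ?_⟩, ?_⟩
  · intro v hv
    obtain ⟨w, h1, h2, h3⟩ := T0_priv M (em M v) (dec_le M v) (Finset.mem_filter.1 hv).2
    obtain ⟨w', rfl⟩ := em_surj M w h1
    refine ⟨w', Finset.mem_univ _, (cl_iff M _ _).2 h2, ?_⟩
    intro u hu huv hcl
    exact huv ((em M).injective (h3 _ (Finset.mem_filter.1 hu).2 ((cl_iff M _ _).1 hcl)))
  · intro x _ hxT hI
    have hx : ¬ isT (em M x) := fun h => hxT (Finset.mem_filter.2 ⟨Finset.mem_univ _, h⟩)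
    obtain ⟨v, hv, h1⟩ := T0_max M (em M x) (dec_le M x) hM hx
    have hvM : v.1 ≤ M := by
      rcases hv with rfl | ⟨_, h⟩
      · exact dec_le M x
      · exact h
    obtain ⟨v', rfl⟩ := em_surj M v hvM
    have hv' : v' ∈ insert x (T0 M) := by
      rcases hv with h | ⟨h, _⟩
      · rw [(em M).injective h]; exact Finset.mem_insert_self _ _
      · exact Finset.mem_insert_of_mem (Finset.mem_filter.2 ⟨Finset.mem_univ _, h⟩)
    obtain ⟨w, _, hw, hp⟩ := hI.2 v' hv'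
    obtain ⟨u, hu, huv, hwu⟩ := h1 (em M w) ((cl_iff M _ _).1 hw)
    have huM : u.1 ≤ M := by
      rcases hu with rfl | ⟨_, h⟩
      · exact dec_le M x
      · exact h
    obtain ⟨u', rfl⟩ := em_surj M u huM
    have hu' : u' ∈ insert x (T0 M) := by
      rcases hu with h | ⟨h, _⟩
      · rw [(em M).injective h]; exact Finset.mem_insert_self _ _
      · exact Finset.mem_insert_of_mem (Finset.mem_filter.2 ⟨Finset.mem_univ _, h⟩)
    exact hp u' hu' (fun h => huv (by rw [h])) ((cl_iff M _ _).2 hwu)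

theorem T0_card : (T0 M).card ≤ 2 * (M + 1) := by
  rw [← Finset.card_map (em M)]
  have h : (T0 M).map (em M) ⊆ (Finset.range (M + 1)) ×ˢ ({Ty.F, Ty.G} : Finset Ty) := by
    intro v hv
    obtain ⟨v', hv', rfl⟩ := Finset.mem_map.1 hv
    rw [Finset.mem_product, Finset.mem_range]
    refine ⟨by have := dec_le M v'; exact Nat.lt_succ_of_le this, ?_⟩
    rcases (Finset.mem_filter.1 hv').2 with h | h
    · rw [h]; simp
    · rw [h]; simp
  refine (Finset.card_le_card h).trans ?_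
  rw [Finset.card_product, Finset.card_range]
  have : ({Ty.F, Ty.G} : Finset Ty).card = 2 := by decide
  rw [this]
  omega

theorem dm_lower (hM : 1 ≤ M) (D : Finset (Fin (6 * (M + 1)))) (h : DM (GM M) Finset.univ D) :
    2 * M + 3 ≤ D.card := by
  rw [← Finset.card_map (em M)]
  apply lower M hM
  · intro d hd
    obtain ⟨d', _, rfl⟩ := Finset.mem_map.1 hd
    exact dec_le M d'
  · intro x hx
    obtain ⟨x', rfl⟩ := em_surj M x hx
    obtain ⟨d, hd, hc⟩ := DM_cl _ h (Finset.mem_univ x')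
    exact ⟨em M d, Finset.mem_map_of_mem _ hd, (cl_iff M _ _).1 hc⟩

end

section frozen
variable {n : ℕ} (G : SimpleGraph (Fin n))

theorem fz_irr (U S : Finset (Fin n)) :
    (∀ v ∈ S, ∃ w ∈ U, (w = v ∨ G.Adj v w) ∧
                  ∀ u ∈ S, u ≠ v → ¬ (w = u ∨ G.Adj u w)) ↔
    (∀ v ∈ S, ∃ u ∈ U, (u = v ∨ G.Adj u v) ∧
      ∀ w ∈ S, w ≠ v → ¬ (u = w ∨ G.Adj u w)) := by
  constructor
  · intro h v hv
    obtain ⟨w, hw, h1, h2⟩ := h v hv
    refine ⟨w, hw, ?_, ?_⟩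
    · rcases h1 with h1 | h1
      · exact Or.inl h1
      · exact Or.inr h1.symm
    · intro u hu huv hc
      apply h2 u hu huv
      rcases hc with h1 | h1
      · exact Or.inl h1
      · exact Or.inr h1.symm
  · intro h v hv
    obtain ⟨w, hw, h1, h2⟩ := h v hv
    refine ⟨w, hw, ?_, ?_⟩
    · rcases h1 with h1 | h1
      · exact Or.inl h1
      · exact Or.inr h1.symm
    · intro u hu huv hc
      apply h2 u hu huv
      rcases hc with h1 | h1
      · exact Or.inl h1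
      · exact Or.inr h1.symm

theorem fz_set (U : Finset (Fin n)) :
    {k : ℕ | ∃ S : Finset (Fin n), S ⊆ U ∧
              (∀ v ∈ S, ∃ w ∈ U, (w = v ∨ G.Adj v w) ∧
                  ∀ u ∈ S, u ≠ v → ¬ (w = u ∨ G.Adj u w)) ∧
              (∀ x ∈ U, x ∉ S → ¬ ∀ v ∈ insert x S, ∃ w ∈ U, (w = v ∨ G.Adj v w) ∧
                  ∀ u ∈ insert x S, u ≠ v → ¬ (w = u ∨ G.Adj u w)) ∧
              S.card = k} = {k : ℕ | ∃ S : Finset (Fin n), MX G U S ∧ S.card = k} := by
  ext k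
  simp only [Set.mem_ofPred_eq]
  constructor
  · rintro ⟨S, h1, h2, h3, h4⟩
    refine ⟨S, ⟨⟨h1, (fz_irr G U S).1 h2⟩, ?_⟩, h4⟩
    intro x hx hxS hI
    exact h3 x hx hxS ((fz_irr G U _).2 hI.2)
  · rintro ⟨S, ⟨⟨h1, h2⟩, h3⟩, h4⟩
    refine ⟨S, h1, (fz_irr G U S).2 h2, ?_, h4⟩
    intro x hx hxS hI
    exact h3 x hx hxS ⟨Finset.insert_subset hx h1, (fz_irr G U _).1 hI⟩

theorem fz_dom (U : Finset (Fin n)) :
    {k : ℕ | ∃ S : Finset (Fin n), S ⊆ U ∧
              (∀ v ∈ U, v ∈ S ∨ ∃ s ∈ S, G.Adj s v) ∧ S.card = k} =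
    {k : ℕ | ∃ S : Finset (Fin n), DM G U S ∧ S.card = k} := by
  ext k
  simp only [Set.mem_ofPred_eq]
  constructor
  · rintro ⟨S, h1, h2, h3⟩
    refine ⟨S, ⟨h1, ?_⟩, h3⟩
    intro x hx
    rcases h2 x hx with h | ⟨s, hs, h⟩
    · exact Or.inl h
    · exact Or.inr ⟨s, hs, h.symm⟩
  · rintro ⟨S, ⟨h1, h2⟩, h3⟩
    refine ⟨S, h1, ?_, h3⟩
    intro x hx
    rcases h2 x hx with h | ⟨s, hs, h⟩
    · exact Or.inl h
    · exact Or.inr ⟨s, hs, h.symm⟩

theorem dom_min (U : Finset (Fin n)) : ∃ D, DM G U D ∧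
    D.card = sInf {k : ℕ | ∃ S : Finset (Fin n), DM G U S ∧ S.card = k} ∧
    ∀ D', DM G U D' → D.card ≤ D'.card := by
  have hne : {k : ℕ | ∃ S : Finset (Fin n), DM G U S ∧ S.card = k}.Nonempty :=
    ⟨U.card, U, ⟨Finset.Subset.refl U, fun x hx => Or.inl hx⟩, rfl⟩
  obtain ⟨D, hD, hc⟩ := Nat.sInf_mem hne
  refine ⟨D, hD, hc, ?_⟩
  intro D' hD'
  rw [hc]
  exact Nat.sInf_le ⟨D', hD', rfl⟩

theorem ir_le (U : Finset (Fin n)) :
    sInf {k : ℕ | ∃ S : Finset (Fin n), MX G U S ∧ S.card = k} ≤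
    sInf {k : ℕ | ∃ S : Finset (Fin n), DM G U S ∧ S.card = k} := by
  obtain ⟨D, hD, hc, hmin⟩ := dom_min G U
  rw [← hc]
  exact Nat.sInf_le ⟨D, MX_of_min G hD hmin, rfl⟩

theorem ir_att (U : Finset (Fin n)) : ∃ T, MX G U T ∧
    T.card = sInf {k : ℕ | ∃ S : Finset (Fin n), MX G U S ∧ S.card = k} := by
  obtain ⟨D, hD, hc, hmin⟩ := dom_min G U
  have hne : {k : ℕ | ∃ S : Finset (Fin n), MX G U S ∧ S.card = k}.Nonempty :=
    ⟨D.card, D, MX_of_min G hD hmin, rfl⟩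
  obtain ⟨T, hT, hc⟩ := Nat.sInf_mem hne
  exact ⟨T, hT, hc⟩

end frozen

end Pool.Agent.Helper590.Chain
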