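import Pool.Agent.Helper590.ChFin
import Pool.Agent.Helper590.ChChk

set_option autoImplicit false
set_option linter.unusedSimpArgs false
set_option linter.unusedVariables false

namespace Pool.Agent.Helper590.Chain

open BA

section good
variable (M : ℕ) (W T : Finset Vx)

theorem mem_sts (w t : Bool) (h : t = true → w = true) : [w, t] ∈ sts := by
  cases w <;> cases t <;> simp [sts] at h ⊢

theorem mem_asg (s1 s2 s3 s4 s5 c : List Bool) (h1 : s1 ∈ sts) (h2 : s2 ∈ sts) (h3 : s3 ∈ sts)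
    (h4 : s4 ∈ sts) (h5 : s5 ∈ sts) (hc : c ∈ cxs) :
    ext (s1 ++ (s2 ++ (s3 ++ (s4 ++ (s5 ++ c))))) ∈ asg := by
  unfold asg
  exact List.mem_flatMap.2 ⟨c, hc, List.mem_flatMap.2 ⟨s1, h1, List.mem_flatMap.2 ⟨s2, h2,
    List.mem_flatMap.2 ⟨s3, h3, List.mem_flatMap.2 ⟨s4, h4, List.mem_map.2 ⟨s5, h5, rfl⟩⟩⟩⟩⟩⟩

theorem cS_mem (i : ℕ) (hTW : T ⊆ W) : [(cS M W T i).wY, (cS M W T i).tY, (cS M W T i).a,
      (cS M W T i).b, (cS M W T i).r] ∈ cxs := by
  have h1 : (cS M W T i).tY = true → (cS M W T i).wY = true := by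
    simp only [cS, wYS, tYS, decide_eq_true_eq]
    rintro ⟨h, h2⟩
    exact ⟨h, hTW h2⟩
  have h2 : (cS M W T i).a = true → (cS M W T i).wY = true := by
    simp only [cS, rA, cj, an_bool, Bool.and_eq_true]
    exact fun h => h.1
  have h3 : (cS M W T i).b = true → (cS M W T i).tY = true := by
    simp only [cS, rB, cj, an_bool, Bool.and_eq_true]
    exact fun h => h.2.1
  have h4 : (cS M W T i).r = true → (cS M W T i).wY = true ∧ (cS M W T i).tY = false ∧
      (cS M W T i).a = true := by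
    simp only [cS, rR, rA, cj, dj, gd, an_bool, orr_bool, nt_bool, cs_bool, Bool.and_eq_true,
      Bool.or_eq_true]
    rintro ⟨g1, g2, g3⟩
    refine ⟨g1, by simpa using g2, g1, ?_⟩
    rcases g3 with g3 | g3
    · left
      cases hz : (fl M (i+1)).z with
      | true => rw [hz] at g3; simp only [cond_true, Bool.and_eq_true] at g3 ⊢; exact g3.1
      | false => rw [hz] at g3; simp at g3
    · right
      cases hz : (fl M (i+1)).p with
      | true => rw [hz] at g3; simp only [cond_true, Bool.and_eq_true] at g3 ⊢; exact g3.1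
      | false => rw [hz] at g3; simp at g3
  revert h1 h2 h3 h4
  generalize (cS M W T i).wY = wY
  generalize (cS M W T i).tY = tY
  generalize (cS M W T i).a = a
  generalize (cS M W T i).b = b
  generalize (cS M W T i).r = r
  revert wY tY a b r
  decide

theorem aL_mem (i : ℕ) (hTW : T ⊆ W) : aL M W T i ∈ asg := by
  have h : ∀ v : Vx, decide (v ∈ T) = true → decide (v ∈ W) = true := by
    intro v hv
    rw [decide_eq_true_eq] at hv ⊢
    exact hTW hv
  exact mem_asg _ _ _ _ _ _ (mem_sts _ _ (h _)) (mem_sts _ _ (h _)) (mem_sts _ _ (h _))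
    (mem_sts _ _ (h _)) (mem_sts _ _ (h _)) (cS_mem M W T i hTW)

variable (hTW : T ⊆ W) (hI : ∀ v ∈ T, ∃ u ∈ nb M v, pv M W T u v)
  (hM : ∀ x ∈ W, x ∉ T → (∃ u ∈ nb M x, ud M W T u) → ∃ v, kl M W T x v)
include hTW hI hM

theorem con_true (i : ℕ) (hi : i ≤ M) :
    con (fl M i) (sS M W T i) (kS W T i) (cS M W T i) = true := by
  have h1 := iZ_ok M W T i hi hTW hI
  have h2 := iF_ok M W T i hi hTW hI
  have h3 := iG_ok M W T i hi hTW hI
  have h4 := iP_ok M W T i hi hTW hI
  have h5 := iQ_ok M W T i hi hTW hI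
  have h6 := iU_ok M W T i hi hTW hI
  have h7 := mZ_ok M W T i hi hTW hI hM
  have h8 := mF_ok M W T i hi hTW hI hM
  have h9 := mG_ok M W T i hi hTW hI hM
  have h10 := mP_ok M W T i hi hTW hI hM
  have h11 := mQ_ok M W T i hi hTW hI hM
  have h12 := mU_ok M W T i hi hTW hI hM
  simp only [con, cj, an_bool, h1, h2, h3, h4, h5, h6, h7, h8, h9, h10, h11, h12, Bool.and_self]

omit hTW hI hM in
theorem conR_true (i : ℕ) :
    conR (fl M (i+1)) (sS M W T (i+1)) (kS W T (i+1)) (cS M W T (i+1)) = true := by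
  have h : ∀ x : Bool, (x && x || !x && !x) = true := by decide
  have h1 : (sS M W T (i+1)).a = rA (fl M (i+1)) (kS W T (i+1)) (sS M W T (i+1)).wZ := rfl
  have h2 : (sS M W T (i+1)).b = rB (fl M (i+1)) (kS W T (i+1)) (sS M W T (i+1)).wZ
    (sS M W T (i+1)).tZ := rfl
  have h3 : (sS M W T (i+1)).r = rR (fl M (i+1)) (kS W T (i+1)) (sS M W T (i+1)).wZ
    (sS M W T (i+1)).tZ (cS M W T (i+1)).tY := rfl
  simp only [conR, cj, iff', an_bool, orr_bool, nt_bool]
  rw [h1, h2, h3, h, h, h]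
  rfl

omit hI hM in
theorem exists_rho (i : ℕ) : ∃ j < 1944, (∀ n < 20, rho j n = (aL M W T i).getD n false) ∧
    bR (rho j) = kS W T i ∧ cR (rho j) = cS M W T i := by
  obtain ⟨j, hj, hr⟩ := asg_index _ (aL_mem M W T i hTW)
  have hr' : ∀ n < 20, rho j n = (aL M W T i).getD n false := hr
  refine ⟨j, hj, hr', ?_, ?_⟩
  · unfold bR
    rw [hr' 0 (by norm_num), hr' 1 (by norm_num), hr' 2 (by norm_num), hr' 3 (by norm_num),
      hr' 4 (by norm_num), hr' 5 (by norm_num), hr' 6 (by norm_num), hr' 7 (by norm_num),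
      hr' 8 (by norm_num), hr' 9 (by norm_num)]
    rfl
  · unfold cR
    rw [hr' 10 (by norm_num), hr' 11 (by norm_num), hr' 12 (by norm_num), hr' 13 (by norm_num),
      hr' 14 (by norm_num)]
    rfl

omit hTW hI hM in
def Inv (i : ℕ) (L : List En) : Prop := ∃ e ∈ L, e.s = sS M W T i ∧ Claim M W T i 0 e.pa ∧
  Claim M W T i 1 e.pb ∧ Claim M W T i 2 e.pc

theorem inv_step (i : ℕ) (hi : i < M) (first : Bool) (f : Fl) (hf : f = fl M i)
    (src tgt : List En) (hc : src.all (chkStep f first tgt) = true)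
    (hpa : src.all (fun e => e.s.wZ || Nat.ble 9 e.pa) = true)
    (hfst : first = false → 0 < i) (h : Inv M W T i src) : Inv M W T (i+1) tgt := by
  obtain ⟨e, he, hes, hA, hB, hC⟩ := h
  have hce := List.all_eq_true.1 hc e he
  have hpe := List.all_eq_true.1 hpa e he
  obtain ⟨j, hj, hr, hb, hcx⟩ := exists_rho M W T hTW i
  obtain ⟨e', he', hs', o1, o2, o3⟩ := step_sound f first tgt e hce j hj
    (by rw [hb, hcx, hf, hes]; exact con_true M W T hTW hI hM i hi.le)
    (by
      intro hf1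
      obtain ⟨i', rfl⟩ : ∃ i', i = i' + 1 := ⟨i - 1, by have := hfst hf1; omega⟩
      rw [hb, hcx, hf, hes]; exact conR_true M W T i')
  have hpa' : e.s.wZ = false → 9 ≤ e.pa := by
    intro hw
    simp only [hw, Bool.false_or] at hpe
    exact Nat.le_of_ble_eq_true hpe
  subst hf
  refine ⟨e', he', ?_, extend M W T i hi.le e hes hpa' hA hB hC _ _ _ hr o1,
    extend M W T i hi.le e hes hpa' hA hB hC _ _ _ hr o2,
    extend M W T i hi.le e hes hpa' hA hB hC _ _ _ hr o3⟩
  rw [hs', hb, hcx, hes]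
  have q : ∀ n, rho j n = rho j n := fun _ => rfl
  have c1 : rho j 10 = (cS M W T i).wY := by rw [← hcx]; rfl
  have c2 : rho j 11 = (cS M W T i).tY := by rw [← hcx]; rfl
  have c3 : rho j 12 = (cS M W T i).a := by rw [← hcx]; rfl
  have c4 : rho j 13 = (cS M W T i).b := by rw [← hcx]; rfl
  have c5 : rho j 14 = (cS M W T i).r := by rw [← hcx]; rfl
  rw [c1, c2, c3, c4, c5]
  rfl

omit hI hM in
theorem inv_zero : Inv M W T 0 lS := by
  have hcl : Claim M W T 0 0 1 := by
    right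
    refine ⟨∅, by simp, by simp, by simp, by simp, by simp⟩
  have hcl2 : Claim M W T 0 2 1 := by
    right
    refine ⟨∅, by simp, by simp, by simp, by simp, by simp⟩
  have h9 : ∀ X, Claim M W T 0 X 9 := fun X => Or.inl le_rfl
  by_cases hw : ((0, Ty.Z) : Vx) ∈ W
  · by_cases ht : ((0, Ty.Z) : Vx) ∈ T
    · refine ⟨mkEn (7, 1, 9, 1), by simp [lS], ?_, hcl, h9 _, hcl2⟩
      simp only [sS, hw, ht, decide_true]
      rfl
    · refine ⟨mkEn (3, 1, 9, 1), by simp [lS], ?_, hcl, h9 _, hcl2⟩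
      simp only [sS, hw, ht, decide_true, decide_false]
      rfl
  · have ht : ((0, Ty.Z) : Vx) ∉ T := fun h => hw (hTW h)
    refine ⟨mkEn (0, 9, 9, 1), by simp [lS], ?_, h9 _, h9 _, hcl2⟩
    simp only [sS, hw, ht, decide_false]
    rfl

theorem inv_mid (i : ℕ) (hM2 : 2 ≤ M) (hi : i + 2 ≤ M) : Inv M W T (i+1) lR := by
  induction i with
  | zero =>
    refine inv_step M W T hTW hI hM 0 (by omega) true f0 ?_ lS lR chkS paS (by simp)
      (inv_zero M W T hTW)
    unfold f0 fl
    simp only [Fl.mk.injEq]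
    refine ⟨by simp, ?_, ?_⟩
    · symm; rw [decide_eq_true_eq]; omega
    · symm; rw [decide_eq_true_eq]; omega
  | succ i ih =>
    refine inv_step M W T hTW hI hM (i+1) (by omega) false f1 ?_ lR lR chkR paR (by simp)
      (ih (by omega))
    unfold f1 fl
    simp only [Fl.mk.injEq]
    refine ⟨by simp, ?_, ?_⟩
    · symm; rw [decide_eq_true_eq]; omega
    · symm; rw [decide_eq_true_eq]; omega

theorem inv_last (hM2 : 2 ≤ M) : Inv M W T M lE := by
  obtain ⟨m, rfl⟩ : ∃ m, M = m + 2 := ⟨M - 2, by omega⟩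
  refine inv_step (m+2) W T hTW hI hM (m+1) (by omega) false f2 ?_ lR lE chkE paR (by simp)
    (inv_mid (m+2) W T hTW hI hM m hM2 (by omega))
  unfold f2 fl
  simp only [Fl.mk.injEq]
  refine ⟨by simp, by simp, by simp⟩

omit hTW hI hM in
theorem full_mem (i : ℕ) (hi : i ≤ M) (h : (sS M W T i).full = true) :
    (∀ v : Vx, v.1 < i → v ∈ W) ∧ ((i, Ty.Z) : Vx) ∈ W := by
  induction i with
  | zero => exact ⟨by simp, by simpa [sS] using h⟩
  | succ i ih =>
    have h1 : ((sS M W T i).full && ((kS W T i).wF && ((kS W T i).wG && ((kS W T i).wP &&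
      ((kS W T i).wQ && ((kS W T i).wU && (cS M W T i).wY)))))) = true := h
    simp only [Bool.and_eq_true, kS, cS, wYS, decide_eq_true_eq] at h1
    obtain ⟨g1, g2, g3, g4, g5, g6, g7, g8⟩ := h1
    obtain ⟨k1, k2⟩ := ih (by omega) g1
    refine ⟨?_, g8⟩
    rintro ⟨j, t⟩ hv
    by_cases hlt : j < i
    · exact k1 _ hlt
    · have hj : j = i := by simp only at hv; omega
      subst hj
      cases t <;> assumption

theorem good (hM2 : 2 ≤ M) (hWM : ∀ v ∈ W, v.1 ≤ M) :
    (∃ D : Finset Vx, D ⊆ W ∧ (∀ x ∈ W, ∃ d ∈ D, x ∈ nb M d) ∧ D.card ≤ T.card) ∨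
    (∀ v : Vx, v.1 ≤ M → v ∈ W) := by
  obtain ⟨e, he, hes, hA, hB, hC⟩ := inv_last M W T hTW hI hM hM2
  have hce := List.all_eq_true.1 chkF e he
  have hpe := List.all_eq_true.1 paE e he
  obtain ⟨j, hj, hr, hb, hcx⟩ := exists_rho M W T hTW M
  have hf : f3 = fl M M := by
    unfold f3 fl
    simp only [Fl.mk.injEq]
    refine ⟨?_, by simp, by simp⟩
    symm; rw [decide_eq_true_eq]; omega
  have hwY : rho j 10 = false := by
    have : rho j 10 = (cS M W T M).wY := by rw [← hcx]; rfl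
    rw [this]
    simp [cS, wYS]
  have hpa' : e.s.wZ = false → 9 ≤ e.pa := by
    intro hw
    simp only [hw, Bool.false_or] at hpe
    exact Nat.le_of_ble_eq_true hpe
  rcases end_sound f3 e hce j hj
    (by rw [hb, hcx, hf, hes]; exact con_true M W T hTW hI hM M le_rfl)
    (by
      obtain ⟨i', hi'⟩ : ∃ i', M = i' + 1 := ⟨M - 1, by omega⟩
      rw [hb, hcx, hf, hes]
      have := conR_true M W T i'
      rw [← hi'] at this
      exact this) hwY with h | ⟨g1, g2, g3, g4, g5, g6⟩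
  · left
    rw [hf] at h
    rcases extend M W T M le_rfl e hes hpa' hA hB hC 2 1 _ hr h with h9 | ⟨D, h1, h2, h3, _, h5⟩
    · omega
    · refine ⟨D, h1, ?_, ?_⟩
      · intro x hx
        rcases h3 x hx (by have := hWM x hx; omega) with h6 | ⟨h6, _⟩
        · exact h6
        · omega
      · have : (T.filter (fun v => v.1 < M + 1)).card ≤ T.card :=
          Finset.card_le_card (Finset.filter_subset _ _)
        omega
  · right
    rw [hes] at g1
    obtain ⟨k1, k2⟩ := full_mem M W T M le_rfl g1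
    have e1 : rho j 0 = (kS W T M).wF := by rw [← hb]; rfl
    have e2 : rho j 2 = (kS W T M).wG := by rw [← hb]; rfl
    have e3 : rho j 4 = (kS W T M).wP := by rw [← hb]; rfl
    have e4 : rho j 6 = (kS W T M).wQ := by rw [← hb]; rfl
    have e5 : rho j 8 = (kS W T M).wU := by rw [← hb]; rfl
    rw [e1] at g2; rw [e2] at g3; rw [e3] at g4; rw [e4] at g5; rw [e5] at g6
    simp only [kS, decide_eq_true_eq] at g2 g3 g4 g5 g6
    rintro ⟨i, t⟩ hi
    by_cases hlt : i < M
    · exact k1 _ hlt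
    · have hi' : i = M := by simp only at hi; omega
      subst hi'
      cases t <;> assumption

end good

end Pool.Agent.Helper590.Chain
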