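import Mathlib

set_option autoImplicit false

namespace Pool.Agent.Helper590.IrGen

variable {V : Type} [DecidableEq V] (G : SimpleGraph V)

/-- irredundance of `S` inside the induced subgraph on `W` -/
def IR (W S : Finset V) : Prop :=
  S ⊆ W ∧ ∀ v ∈ S, ∃ u ∈ W, (u = v ∨ G.Adj u v) ∧
    ∀ w ∈ S, w ≠ v → ¬ (u = w ∨ G.Adj u w)

/-- maximal irredundance -/
def MX (W S : Finset V) : Prop := IR G W S ∧ ∀ x ∈ W, x ∉ S → ¬ IR G W (insert x S)

/-- domination -/
def DM (W D : Finset V) : Prop := D ⊆ W ∧ ∀ x ∈ W, x ∈ D ∨ ∃ d ∈ D, G.Adj x d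

theorem DM_cl {W D : Finset V} (h : DM G W D) {x : V} (hx : x ∈ W) :
    ∃ d ∈ D, x = d ∨ G.Adj x d := by
  rcases h.2 x hx with h1 | ⟨d, hd, h2⟩
  · exact ⟨x, h1, Or.inl rfl⟩
  · exact ⟨d, hd, Or.inr h2⟩

/-- A dominating set of least size is a maximal irredundant set. -/
theorem MX_of_min {W D : Finset V} (hD : DM G W D)
    (hmin : ∀ D' : Finset V, DM G W D' → D.card ≤ D'.card) : MX G W D := by
  constructor
  · refine ⟨hD.1, ?_⟩
    intro v hv
    by_contra hcon
    push Not at hcon
    have hdom : DM G W (D.erase v) := by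
      refine ⟨(Finset.erase_subset v D).trans hD.1, ?_⟩
      intro x hx
      obtain ⟨d, hd, hxd⟩ := DM_cl G hD hx
      by_cases hdv : d = v
      · subst hdv
        obtain ⟨w, hw, hwv, hxw⟩ := hcon x hx hxd
        rcases hxw with h1 | h1
        · left
          rw [h1]; exact Finset.mem_erase.2 ⟨hwv, hw⟩
        · right
          exact ⟨w, Finset.mem_erase.2 ⟨hwv, hw⟩, h1⟩
      · rcases hxd with h1 | h1
        · left
          rw [h1]; exact Finset.mem_erase.2 ⟨hdv, hd⟩
        · right
          exact ⟨d, Finset.mem_erase.2 ⟨hdv, hd⟩, h1⟩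
    have := hmin _ hdom
    have h2 := Finset.card_erase_lt_of_mem hv
    omega
  · intro x hx hxD hI
    obtain ⟨u, hu, _, hpriv⟩ := hI.2 x (Finset.mem_insert_self x D)
    obtain ⟨d, hd, hud⟩ := DM_cl G hD hu
    have hdx : d ≠ x := fun h => hxD (h ▸ hd)
    exact hpriv d (Finset.mem_insert_of_mem hd) hdx hud

/-- Removing the closed neighbourhood of an element of `T` that has no neighbour in `T`. -/
theorem reduce {W T : Finset V} (hT : MX G W T) (t : V) (ht : t ∈ T)
    (hiso : ∀ s ∈ T, s ≠ t → ¬ G.Adj s t)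
    (hrec : ∀ W' : Finset V, MX G W' (T.erase t) → ∃ D, DM G W' D ∧ D.card ≤ (T.erase t).card) :
    ∃ D, DM G W D ∧ D.card ≤ T.card := by
  classical
  let W' : Finset V := W.filter (fun u => ¬ (u = t ∨ G.Adj u t))
  have hW' : ∀ u, u ∈ W' ↔ u ∈ W ∧ ¬ (u = t ∨ G.Adj u t) := by
    intro u; simp only [W', Finset.mem_filter]
  have hsub : T.erase t ⊆ W' := by
    intro s hs
    rw [Finset.mem_erase] at hs
    rw [hW']
    refine ⟨hT.1.1 hs.2, ?_⟩
    rintro (h | h)
    · exact hs.1 h
    · exact hiso s hs.2 hs.1 h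
  have hmx : MX G W' (T.erase t) := by
    constructor
    · refine ⟨hsub, ?_⟩
      intro v hv
      rw [Finset.mem_erase] at hv
      obtain ⟨u, hu, huv, hp⟩ := hT.1.2 v hv.2
      refine ⟨u, ?_, huv, ?_⟩
      · rw [hW']
        exact ⟨hu, hp t ht hv.1.symm⟩
      · intro w hw hwv
        exact hp w (Finset.mem_of_mem_erase hw) hwv
    · intro x hx hxT hI
      rw [hW'] at hx
      have hxt : x ≠ t := fun h => hx.2 (Or.inl h)
      have hxT' : x ∉ T := fun h => hxT (Finset.mem_erase.2 ⟨hxt, h⟩)
      apply hT.2 x hx.1 hxT'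
      refine ⟨Finset.insert_subset hx.1 hT.1.1, ?_⟩
      intro v hv
      by_cases hvt : v = t
      · subst hvt
        refine ⟨v, hT.1.1 ht, Or.inl rfl, ?_⟩
        intro w hw hwv
        rcases Finset.mem_insert.1 hw with h1 | h1
        · subst h1
          rintro (h | h)
          · exact hwv h.symm
          · exact hx.2 (Or.inr h.symm)
        · rintro (h | h)
          · exact hwv h.symm
          · exact hiso w h1 hwv h.symm
      · have hv' : v ∈ insert x (T.erase t) := by
          rcases Finset.mem_insert.1 hv with h1 | h1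
          · rw [h1]; exact Finset.mem_insert_self _ _
          · exact Finset.mem_insert_of_mem (Finset.mem_erase.2 ⟨hvt, h1⟩)
        obtain ⟨u, hu, huv, hp⟩ := hI.2 v hv'
        rw [hW'] at hu
        refine ⟨u, hu.1, huv, ?_⟩
        intro w hw hwv
        by_cases hwt : w = t
        · rw [hwt]; exact hu.2
        · apply hp w _ hwv
          rcases Finset.mem_insert.1 hw with h1 | h1
          · rw [h1]; exact Finset.mem_insert_self _ _
          · exact Finset.mem_insert_of_mem (Finset.mem_erase.2 ⟨hwt, h1⟩)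
  obtain ⟨D, hD, hcard⟩ := hrec W' hmx
  refine ⟨insert t D, ⟨?_, ?_⟩, ?_⟩
  · refine Finset.insert_subset (hT.1.1 ht) ?_
    exact hD.1.trans (Finset.filter_subset _ _)
  · intro x hx
    by_cases hxt : x = t ∨ G.Adj x t
    · rcases hxt with h | h
      · left; rw [h]; exact Finset.mem_insert_self _ _
      · right; exact ⟨t, Finset.mem_insert_self _ _, h⟩
    · have hxW' : x ∈ W' := (hW' x).2 ⟨hx, hxt⟩
      rcases hD.2 x hxW' with h | ⟨d, hd, h⟩
      · left; exact Finset.mem_insert_of_mem h
      · right; exact ⟨d, Finset.mem_insert_of_mem hd, h⟩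
  · have h1 := Finset.card_insert_le t D
    have h2 := Finset.card_erase_add_one ht
    omega

/-- If good for all `T` without isolated vertices then good for all `T`. -/
theorem good_of_noiso (K : ℕ)
    (h : ∀ T W : Finset V, MX G W T → (∀ t ∈ T, ∃ s ∈ T, s ≠ t ∧ G.Adj s t) → T.card ≤ K →
      ∃ D, DM G W D ∧ D.card ≤ T.card) :
    ∀ T W : Finset V, MX G W T → T.card ≤ K → ∃ D, DM G W D ∧ D.card ≤ T.card := by
  intro T
  induction hn : T.card using Nat.strong_induction_on generalizing T with
  | _ n ih =>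
    intro W hT hK
    by_cases hno : ∀ t ∈ T, ∃ s ∈ T, s ≠ t ∧ G.Adj s t
    · rw [← hn]
      exact h T W hT hno (by omega)
    · push Not at hno
      obtain ⟨t, ht, hiso⟩ := hno
      have hc := Finset.card_erase_add_one ht
      rw [← hn]
      apply reduce G hT t ht hiso
      intro W' hmx
      exact ih (T.erase t).card (by omega) (T.erase t) rfl W' hmx (by omega)

end Pool.Agent.Helper590.IrGen
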