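import Pool.Agent.Helper590.ChFm
import Pool.Agent.Helper590.IrGen

set_option autoImplicit false
set_option linter.unusedSimpArgs false
set_option linter.unusedVariables false

namespace Pool.Agent.Helper590.Chain

open BA

inductive Ty | Z | F | G | P | Q | U
deriving DecidableEq

abbrev Vx := ℕ × Ty

/-- closed neighbourhoods -/
def nb (M : ℕ) : Vx → List Vx
  | (i, .Z) => (i, .Z) :: ((if 0 < i then [(i, .G)] else []) ++
      ((if i < M then [(i, .P)] else []) ++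
      ((if 0 < i ∧ i ≤ M then [(i-1, .F)] else []) ++ (if 0 < i ∧ i < M then [(i-1, .U)] else []))))
  | (i, .F) => (i, .F) :: (i, .G) :: (i, .P) :: (if i < M then [(i+1, .Z)] else [])
  | (i, .G) => (i, .G) :: (i, .F) :: (i, .Q) :: (if 0 < i then [(i, .Z)] else [])
  | (i, .P) => (i, .P) :: (i, .F) :: (if i < M then [(i, .Q), (i, .Z)] else [])
  | (i, .Q) => (i, .Q) :: (i, .G) :: (i, .U) :: (if i < M then [(i, .P)] else [])
  | (i, .U) => (i, .U) :: (i, .Q) :: (if i + 1 < M then [(i+1, .Z)] else [])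

theorem nb_symm (M : ℕ) (u v : Vx) : u ∈ nb M v ↔ v ∈ nb M u := by
  obtain ⟨i, s⟩ := u
  obtain ⟨j, t⟩ := v
  cases s <;> cases t <;> simp [nb] <;> omega

theorem nb_self (M : ℕ) (v : Vx) : v ∈ nb M v := by
  obtain ⟨j, t⟩ := v
  cases t <;> simp [nb]

section sem
variable (M : ℕ) (W T : Finset Vx)

def pv (u v : Vx) : Prop := u ∈ W ∧ ∀ x ∈ nb M u, x ∈ T → x = v
def ud (u : Vx) : Prop := u ∈ W ∧ ∀ x ∈ nb M u, x ∉ T

def fl (i : ℕ) : Fl := ⟨decide (0 < i), decide (i < M), decide (i + 1 < M)⟩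

def kS (i : ℕ) : Blk Bool :=
  ⟨decide ((i, Ty.F) ∈ W), decide ((i, Ty.F) ∈ T), decide ((i, Ty.G) ∈ W), decide ((i, Ty.G) ∈ T),
   decide ((i, Ty.P) ∈ W), decide ((i, Ty.P) ∈ T), decide ((i, Ty.Q) ∈ W), decide ((i, Ty.Q) ∈ T),
   decide ((i, Ty.U) ∈ W), decide ((i, Ty.U) ∈ T)⟩

def wYS (i : ℕ) : Bool := decide (i < M ∧ (i + 1, Ty.Z) ∈ W)
def tYS (i : ℕ) : Bool := decide (i < M ∧ (i + 1, Ty.Z) ∈ T)

def cS (i : ℕ) : Cx Bool :=
  ⟨wYS M W i, tYS M T i, rA (fl M (i+1)) (kS W T (i+1)) (wYS M W i),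
   rB (fl M (i+1)) (kS W T (i+1)) (wYS M W i) (tYS M T i),
   rR (fl M (i+1)) (kS W T (i+1)) (wYS M W i) (tYS M T i) (tYS M T (i+1))⟩

def sS : ℕ → St Bool
  | 0 => ⟨decide ((0, Ty.Z) ∈ W), decide ((0, Ty.Z) ∈ W), decide ((0, Ty.Z) ∈ T), false, false,
      false, false, false, false, false⟩
  | i + 1 => ⟨nFull (sS i) (kS W T i) (cS M W T i), (cS M W T i).wY, (cS M W T i).tY,
      nN (fl M i) (kS W T i) (cS M W T i), nU (fl M i) (kS W T i) (cS M W T i),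
      nK (fl M i) (sS i) (kS W T i) (cS M W T i), nE (fl M i) (sS i) (kS W T i) (cS M W T i),
      (cS M W T i).a, (cS M W T i).b, (cS M W T i).r⟩

theorem sS_wZ (i : ℕ) (hi : i ≤ M) : (sS M W T i).wZ = decide ((i, Ty.Z) ∈ W) := by
  cases i with
  | zero => rfl
  | succ i => simp [sS, cS, wYS]; omega

theorem sS_tZ (i : ℕ) (hi : i ≤ M) : (sS M W T i).tZ = decide ((i, Ty.Z) ∈ T) := by
  cases i with
  | zero => rfl
  | succ i => simp [sS, cS, tYS]; omega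

@[simp] theorem an_bool (x y : Bool) : BA.an x y = (x && y) := rfl
@[simp] theorem orr_bool (x y : Bool) : BA.orr x y = (x || y) := rfl
@[simp] theorem nt_bool (x : Bool) : BA.nt x = !x := rfl
@[simp] theorem cs_bool (x : Bool) : BA.cs x = x := rfl

theorem sS_n (i : ℕ) (hi : i ≤ M) : (sS M W T i).n = true ↔
    ((i, Ty.Z) ∈ W ∧ 0 < i ∧ ((i-1, Ty.F) ∈ T ∨ (i < M ∧ (i-1, Ty.U) ∈ T))) := by
  cases i with
  | zero => simp [sS]
  | succ i => simp [sS, nN, cS, wYS, cj, dj, gd, kS, fl]; omega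

theorem sS_u (i : ℕ) (hi : i ≤ M) : (sS M W T i).u = true ↔
    ((i, Ty.Z) ∈ W ∧ 0 < i ∧ (pv M W T (i-1, Ty.F) (i, Ty.Z) ∨
      (i < M ∧ pv M W T (i-1, Ty.U) (i, Ty.Z)))) := by
  cases i with
  | zero => simp [sS]
  | succ i =>
    simp [sS, nU, cS, wYS, cj, dj, gd, kS, fl, pv, nb, pUY]
    grind

variable (i : ℕ) (hi : i ≤ M)
include hi

theorem ZZ_iff : pZZ (fl M i) (sS M W T i) (kS W T i) = true ↔ pv M W T (i, Ty.Z) (i, Ty.Z) := by
  have h1 := sS_wZ M W T i hi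
  have h2 := sS_n M W T i hi
  have h3 := sS_tZ M W T i hi
  simp [pZZ, cj, dj, gd, fl, kS, cS, rA, wYS, tYS, pv, nb, h1, h3, ← Bool.not_eq_true, h2]
  try grind

theorem ZG_iff : pZG (fl M i) (sS M W T i) (kS W T i) = true ↔ (0 < i ∧ pv M W T (i, Ty.Z) (i, Ty.G)) := by
  have h1 := sS_wZ M W T i hi
  have h2 := sS_n M W T i hi
  have h3 := sS_tZ M W T i hi
  simp [pZG, cj, dj, gd, fl, kS, cS, rA, wYS, tYS, pv, nb, h1, h3, ← Bool.not_eq_true, h2]
  try grind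

theorem ZP_iff : pZP (fl M i) (sS M W T i) (kS W T i) = true ↔ (i < M ∧ pv M W T (i, Ty.Z) (i, Ty.P)) := by
  have h1 := sS_wZ M W T i hi
  have h2 := sS_n M W T i hi
  have h3 := sS_tZ M W T i hi
  simp [pZP, cj, dj, gd, fl, kS, cS, rA, wYS, tYS, pv, nb, h1, h3, ← Bool.not_eq_true, h2]
  try grind

theorem FF_iff : pFF (fl M i) (kS W T i) (cS M W T i) = true ↔ pv M W T (i, Ty.F) (i, Ty.F) := by
  have h1 := sS_wZ M W T i hi
  have h2 := sS_n M W T i hi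
  have h3 := sS_tZ M W T i hi
  simp [pFF, cj, dj, gd, fl, kS, cS, rA, wYS, tYS, pv, nb, h1, h3, ← Bool.not_eq_true, h2]
  try grind

theorem FG_iff : pFG (fl M i) (kS W T i) (cS M W T i) = true ↔ pv M W T (i, Ty.F) (i, Ty.G) := by
  have h1 := sS_wZ M W T i hi
  have h2 := sS_n M W T i hi
  have h3 := sS_tZ M W T i hi
  simp [pFG, cj, dj, gd, fl, kS, cS, rA, wYS, tYS, pv, nb, h1, h3, ← Bool.not_eq_true, h2]
  try grind

theorem FP_iff : pFP (fl M i) (kS W T i) (cS M W T i) = true ↔ pv M W T (i, Ty.F) (i, Ty.P) := by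
  have h1 := sS_wZ M W T i hi
  have h2 := sS_n M W T i hi
  have h3 := sS_tZ M W T i hi
  simp [pFP, cj, dj, gd, fl, kS, cS, rA, wYS, tYS, pv, nb, h1, h3, ← Bool.not_eq_true, h2]
  try grind

theorem FY_iff : pFY (fl M i) (kS W T i) = true ↔ (i < M ∧ pv M W T (i, Ty.F) (i+1, Ty.Z)) := by
  have h1 := sS_wZ M W T i hi
  have h2 := sS_n M W T i hi
  have h3 := sS_tZ M W T i hi
  simp [pFY, cj, dj, gd, fl, kS, cS, rA, wYS, tYS, pv, nb, h1, h3, ← Bool.not_eq_true, h2]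
  try grind

theorem GG_iff : pGG (fl M i) (sS M W T i) (kS W T i) = true ↔ pv M W T (i, Ty.G) (i, Ty.G) := by
  have h1 := sS_wZ M W T i hi
  have h2 := sS_n M W T i hi
  have h3 := sS_tZ M W T i hi
  simp [pGG, cj, dj, gd, fl, kS, cS, rA, wYS, tYS, pv, nb, h1, h3, ← Bool.not_eq_true, h2]
  try grind

theorem GF_iff : pGF (fl M i) (sS M W T i) (kS W T i) = true ↔ pv M W T (i, Ty.G) (i, Ty.F) := by
  have h1 := sS_wZ M W T i hi
  have h2 := sS_n M W T i hi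
  have h3 := sS_tZ M W T i hi
  simp [pGF, cj, dj, gd, fl, kS, cS, rA, wYS, tYS, pv, nb, h1, h3, ← Bool.not_eq_true, h2]
  try grind

theorem GQ_iff : pGQ (fl M i) (sS M W T i) (kS W T i) = true ↔ pv M W T (i, Ty.G) (i, Ty.Q) := by
  have h1 := sS_wZ M W T i hi
  have h2 := sS_n M W T i hi
  have h3 := sS_tZ M W T i hi
  simp [pGQ, cj, dj, gd, fl, kS, cS, rA, wYS, tYS, pv, nb, h1, h3, ← Bool.not_eq_true, h2]
  try grind

theorem GZ_iff : pGZ (fl M i) (kS W T i) = true ↔ (0 < i ∧ pv M W T (i, Ty.G) (i, Ty.Z)) := by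
  have h1 := sS_wZ M W T i hi
  have h2 := sS_n M W T i hi
  have h3 := sS_tZ M W T i hi
  simp [pGZ, cj, dj, gd, fl, kS, cS, rA, wYS, tYS, pv, nb, h1, h3, ← Bool.not_eq_true, h2]
  try grind

theorem PP_iff : pPP (fl M i) (sS M W T i) (kS W T i) = true ↔ pv M W T (i, Ty.P) (i, Ty.P) := by
  have h1 := sS_wZ M W T i hi
  have h2 := sS_n M W T i hi
  have h3 := sS_tZ M W T i hi
  simp [pPP, cj, dj, gd, fl, kS, cS, rA, wYS, tYS, pv, nb, h1, h3, ← Bool.not_eq_true, h2]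
  try grind

theorem PF_iff : pPF (fl M i) (sS M W T i) (kS W T i) = true ↔ pv M W T (i, Ty.P) (i, Ty.F) := by
  have h1 := sS_wZ M W T i hi
  have h2 := sS_n M W T i hi
  have h3 := sS_tZ M W T i hi
  simp [pPF, cj, dj, gd, fl, kS, cS, rA, wYS, tYS, pv, nb, h1, h3, ← Bool.not_eq_true, h2]
  try grind

theorem PQ_iff : pPQ (fl M i) (sS M W T i) (kS W T i) = true ↔ (i < M ∧ pv M W T (i, Ty.P) (i, Ty.Q)) := by
  have h1 := sS_wZ M W T i hi
  have h2 := sS_n M W T i hi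
  have h3 := sS_tZ M W T i hi
  simp [pPQ, cj, dj, gd, fl, kS, cS, rA, wYS, tYS, pv, nb, h1, h3, ← Bool.not_eq_true, h2]
  try grind

theorem PZ_iff : pPZ (fl M i) (kS W T i) = true ↔ (i < M ∧ pv M W T (i, Ty.P) (i, Ty.Z)) := by
  have h1 := sS_wZ M W T i hi
  have h2 := sS_n M W T i hi
  have h3 := sS_tZ M W T i hi
  simp [pPZ, cj, dj, gd, fl, kS, cS, rA, wYS, tYS, pv, nb, h1, h3, ← Bool.not_eq_true, h2]
  try grind

theorem QQ_iff : pQQ (fl M i) (kS W T i) = true ↔ pv M W T (i, Ty.Q) (i, Ty.Q) := by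
  have h1 := sS_wZ M W T i hi
  have h2 := sS_n M W T i hi
  have h3 := sS_tZ M W T i hi
  simp [pQQ, cj, dj, gd, fl, kS, cS, rA, wYS, tYS, pv, nb, h1, h3, ← Bool.not_eq_true, h2]
  try grind

theorem QG_iff : pQG (fl M i) (kS W T i) = true ↔ pv M W T (i, Ty.Q) (i, Ty.G) := by
  have h1 := sS_wZ M W T i hi
  have h2 := sS_n M W T i hi
  have h3 := sS_tZ M W T i hi
  simp [pQG, cj, dj, gd, fl, kS, cS, rA, wYS, tYS, pv, nb, h1, h3, ← Bool.not_eq_true, h2]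
  try grind

theorem QP_iff : pQP (fl M i) (kS W T i) = true ↔ (i < M ∧ pv M W T (i, Ty.Q) (i, Ty.P)) := by
  have h1 := sS_wZ M W T i hi
  have h2 := sS_n M W T i hi
  have h3 := sS_tZ M W T i hi
  simp [pQP, cj, dj, gd, fl, kS, cS, rA, wYS, tYS, pv, nb, h1, h3, ← Bool.not_eq_true, h2]
  try grind

theorem QU_iff : pQU (fl M i) (kS W T i) = true ↔ pv M W T (i, Ty.Q) (i, Ty.U) := by
  have h1 := sS_wZ M W T i hi
  have h2 := sS_n M W T i hi
  have h3 := sS_tZ M W T i hi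
  simp [pQU, cj, dj, gd, fl, kS, cS, rA, wYS, tYS, pv, nb, h1, h3, ← Bool.not_eq_true, h2]
  try grind

theorem UU_iff : pUU (fl M i) (kS W T i) (cS M W T i) = true ↔ pv M W T (i, Ty.U) (i, Ty.U) := by
  have h1 := sS_wZ M W T i hi
  have h2 := sS_n M W T i hi
  have h3 := sS_tZ M W T i hi
  simp [pUU, cj, dj, gd, fl, kS, cS, rA, wYS, tYS, pv, nb, h1, h3, ← Bool.not_eq_true, h2]
  try grind

theorem UQ_iff : pUQ (fl M i) (kS W T i) (cS M W T i) = true ↔ pv M W T (i, Ty.U) (i, Ty.Q) := by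
  have h1 := sS_wZ M W T i hi
  have h2 := sS_n M W T i hi
  have h3 := sS_tZ M W T i hi
  simp [pUQ, cj, dj, gd, fl, kS, cS, rA, wYS, tYS, pv, nb, h1, h3, ← Bool.not_eq_true, h2]
  try grind

theorem UY_iff : pUY (fl M i) (kS W T i) = true ↔ (i + 1 < M ∧ pv M W T (i, Ty.U) (i+1, Ty.Z)) := by
  have h1 := sS_wZ M W T i hi
  have h2 := sS_n M W T i hi
  have h3 := sS_tZ M W T i hi
  simp [pUY, cj, dj, gd, fl, kS, cS, rA, wYS, tYS, pv, nb, h1, h3, ← Bool.not_eq_true, h2]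
  try grind

theorem YF_iff : pYF (fl M i) (kS W T i) (cS M W T i) = true ↔ (i < M ∧ pv M W T (i+1, Ty.Z) (i, Ty.F)) := by
  have h1 := sS_wZ M W T i hi
  have h2 := sS_n M W T i hi
  have h3 := sS_tZ M W T i hi
  simp [pYF, cj, dj, gd, fl, kS, cS, rA, wYS, tYS, pv, nb, h1, h3, ← Bool.not_eq_true, h2]
  try grind

theorem YU_iff : pYU (fl M i) (kS W T i) (cS M W T i) = true ↔ (i + 1 < M ∧ pv M W T (i+1, Ty.Z) (i, Ty.U)) := by
  have h1 := sS_wZ M W T i hi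
  have h2 := sS_n M W T i hi
  have h3 := sS_tZ M W T i hi
  simp [pYU, cj, dj, gd, fl, kS, cS, rA, wYS, tYS, pv, nb, h1, h3, ← Bool.not_eq_true, h2]
  try grind

theorem uZ_iff : uZ (fl M i) (sS M W T i) (kS W T i) = true ↔ ud M W T (i, Ty.Z) := by
  have h1 := sS_wZ M W T i hi
  have h2 := sS_n M W T i hi
  have h3 := sS_tZ M W T i hi
  simp [uZ, cj, dj, gd, fl, kS, cS, rA, wYS, tYS, ud, nb, h1, h3, ← Bool.not_eq_true, h2]
  try grind

theorem uF_iff : uF (fl M i) (kS W T i) (cS M W T i) = true ↔ ud M W T (i, Ty.F) := by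
  have h1 := sS_wZ M W T i hi
  have h2 := sS_n M W T i hi
  have h3 := sS_tZ M W T i hi
  simp [uF, cj, dj, gd, fl, kS, cS, rA, wYS, tYS, ud, nb, h1, h3, ← Bool.not_eq_true, h2]
  try grind

theorem uG_iff : uG (fl M i) (sS M W T i) (kS W T i) = true ↔ ud M W T (i, Ty.G) := by
  have h1 := sS_wZ M W T i hi
  have h2 := sS_n M W T i hi
  have h3 := sS_tZ M W T i hi
  simp [uG, cj, dj, gd, fl, kS, cS, rA, wYS, tYS, ud, nb, h1, h3, ← Bool.not_eq_true, h2]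
  try grind

theorem uP_iff : uP (fl M i) (sS M W T i) (kS W T i) = true ↔ ud M W T (i, Ty.P) := by
  have h1 := sS_wZ M W T i hi
  have h2 := sS_n M W T i hi
  have h3 := sS_tZ M W T i hi
  simp [uP, cj, dj, gd, fl, kS, cS, rA, wYS, tYS, ud, nb, h1, h3, ← Bool.not_eq_true, h2]
  try grind

theorem uQ_iff : uQ (fl M i) (kS W T i) = true ↔ ud M W T (i, Ty.Q) := by
  have h1 := sS_wZ M W T i hi
  have h2 := sS_n M W T i hi
  have h3 := sS_tZ M W T i hi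
  simp [uQ, cj, dj, gd, fl, kS, cS, rA, wYS, tYS, ud, nb, h1, h3, ← Bool.not_eq_true, h2]
  try grind

theorem uU_iff : uU (fl M i) (kS W T i) (cS M W T i) = true ↔ ud M W T (i, Ty.U) := by
  have h1 := sS_wZ M W T i hi
  have h2 := sS_n M W T i hi
  have h3 := sS_tZ M W T i hi
  simp [uU, cj, dj, gd, fl, kS, cS, rA, wYS, tYS, ud, nb, h1, h3, ← Bool.not_eq_true, h2]
  try grind

theorem uY_iff : uY (fl M i) (kS W T i) (cS M W T i) = true ↔ (i < M ∧ ud M W T (i+1, Ty.Z)) := by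
  have h1 := sS_wZ M W T i hi
  have h2 := sS_n M W T i hi
  have h3 := sS_tZ M W T i hi
  simp [uY, cj, dj, gd, fl, kS, cS, rA, wYS, tYS, ud, nb, h1, h3, ← Bool.not_eq_true, h2]
  try grind

theorem YY_iff : pYY (fl M i) (kS W T i) (cS M W T i) = true ↔ (i < M ∧ pv M W T (i+1, Ty.Z) (i+1, Ty.Z)) := by
  have h1 := sS_wZ M W T i hi
  have h2 := sS_n M W T i hi
  have h3 := sS_tZ M W T i hi
  simp [pYY, cj, dj, gd, fl, kS, cS, rA, wYS, tYS, pv, nb, h1, h3, ← Bool.not_eq_true, h2]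
  try grind

omit hi

def kl (x v : Vx) : Prop := v ∈ T ∧ (∀ u ∈ nb M v, pv M W T u v → u ∈ nb M x)

theorem sS_k (j : ℕ) (hj : j < M) (hw : (j+1, Ty.Z) ∈ W) (ht : (j+1, Ty.Z) ∉ T) (τ : Ty)
    (hτ : τ ≠ Ty.Z) (h : kl M W T (j+1, .Z) (j, τ)) : (sS M W T (j+1)).k = true := by
  have a1 := GF_iff M W T j hj.le
  have a2 := PF_iff M W T j hj.le
  have a3 := QU_iff M W T j hj.le
  have a4 := UU_iff M W T j hj.le
  have a5 := GG_iff M W T j hj.le
  have a6 := QG_iff M W T j hj.le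
  have a7 := ZG_iff M W T j hj.le
  have a8 := PP_iff M W T j hj.le
  have a9 := QP_iff M W T j hj.le
  have a10 := ZP_iff M W T j hj.le
  have a11 := QQ_iff M W T j hj.le
  have a12 := GQ_iff M W T j hj.le
  have a13 := PQ_iff M W T j hj.le
  have a14 := UQ_iff M W T j hj.le
  obtain ⟨h1, h2⟩ := h
  simp only [sS, nK, cj, dj, gi, an_bool, orr_bool, nt_bool, cs_bool]
  cases τ <;> simp [nb, kS, cS, wYS, tYS, fl, hj, hw, ht, hτ] at * <;> grind

theorem sS_e (j : ℕ) (hj : j < M) (hw : (j+1, Ty.Z) ∈ W) (ht : (j+1, Ty.Z) ∉ T) (τ : Ty)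
    (hτ : τ = Ty.F ∨ (τ = Ty.U ∧ j + 1 < M)) (h0 : (j, τ) ∈ T)
    (h : ∀ u ∈ nb M (j, τ), pv M W T u (j, τ) → u = (j+1, Ty.Z)) : (sS M W T (j+1)).e = true := by
  have aFF := FF_iff M W T j hj.le
  have aGF := GF_iff M W T j hj.le
  have aPF := PF_iff M W T j hj.le
  have aUU := UU_iff M W T j hj.le
  have aQU := QU_iff M W T j hj.le
  simp only [sS, nE, cj, dj, gd, an_bool, orr_bool, nt_bool, cs_bool]
  rcases hτ with rfl | ⟨rfl, hq⟩ <;> simp_all [nb, kS, cS, wYS, tYS, fl]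

theorem cS_b (hi : i ≤ M) (hTW : T ⊆ W) : (cS M W T i).b = true ↔ (i < M ∧ (i+1, Ty.Z) ∈ T ∧
    (pv M W T (i+1, .G) (i+1, .Z) ∨ (i + 1 < M ∧ pv M W T (i+1, .P) (i+1, .Z)))) := by
  by_cases hM : i < M
  · have b1 := GZ_iff M W T (i+1) hM
    have b2 := PZ_iff M W T (i+1) hM
    simp only [cS, rB, cj, dj, an_bool, orr_bool, nt_bool, cs_bool, wYS, tYS]
    simp only [Bool.and_eq_true, Bool.or_eq_true, b1, b2]
    have := @hTW (i+1, Ty.Z)
    grind
  · simp [cS, rB, cj, dj, wYS, tYS, hM]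

theorem cS_r (hi : i < M) (hw : (i+1, Ty.Z) ∈ W) (ht : (i+1, Ty.Z) ∉ T) (τ : Ty)
    (hτ : τ = Ty.G ∨ (τ = Ty.P ∧ i + 1 < M)) (h0 : (i+1, τ) ∈ T)
    (h : ∀ u ∈ nb M (i+1, τ), pv M W T u (i+1, τ) → u = (i+1, Ty.Z)) :
    (cS M W T i).r = true := by
  have b1 := GG_iff M W T (i+1) hi
  have b2 := FG_iff M W T (i+1) hi
  have b3 := QG_iff M W T (i+1) hi
  have b4 := PP_iff M W T (i+1) hi
  have b5 := FP_iff M W T (i+1) hi
  have b6 := QP_iff M W T (i+1) hi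
  have b7 := sS_tZ M W T (i+1) hi
  simp only [cS, rR, cj, dj, gd, an_bool, orr_bool, nt_bool, cs_bool]
  rcases hτ with rfl | ⟨rfl, hq⟩ <;>
    simp [nb, kS, wYS, tYS, fl, pGG, pFG, pPP, pFP, cj, gd, cS] at * <;> grind

variable (hTW : T ⊆ W) (hI : ∀ v ∈ T, ∃ u ∈ nb M v, pv M W T u v)
include hTW hI hi

theorem iZ_ok : iZ (fl M i) (sS M W T i) (kS W T i) = true := by
  have aZZ := ZZ_iff M W T i hi
  have aGZ := GZ_iff M W T i hi
  have aPZ := PZ_iff M W T i hi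
  have h0 := hI (i, Ty.Z)
  have h1 := sS_tZ M W T i hi
  have h2 := sS_u M W T i hi
  simp only [iZ, dj, an_bool, orr_bool, nt_bool, cs_bool]
  by_cases hT : (i, Ty.Z) ∈ T
  · obtain ⟨u, hu, hp⟩ := h0 hT
    have huW := hp.1
    have hvW := hTW hT
    simp [nb] at hu
    grind
  · simp_all [kS]

theorem iF_ok : iF (fl M i) (sS M W T i) (kS W T i) (cS M W T i) = true := by
  have aFF := FF_iff M W T i hi
  have aGF := GF_iff M W T i hi
  have aPF := PF_iff M W T i hi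
  have aYF := YF_iff M W T i hi
  have h0 := hI (i, Ty.F)
  have h1 := sS_tZ M W T i hi
  have h2 := sS_u M W T i hi
  simp only [iF, dj, an_bool, orr_bool, nt_bool, cs_bool]
  by_cases hT : (i, Ty.F) ∈ T
  · obtain ⟨u, hu, hp⟩ := h0 hT
    have huW := hp.1
    have hvW := hTW hT
    simp [nb] at hu
    grind
  · simp_all [kS]

theorem iG_ok : iG (fl M i) (sS M W T i) (kS W T i) (cS M W T i) = true := by
  have aGG := GG_iff M W T i hi
  have aFG := FG_iff M W T i hi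
  have aQG := QG_iff M W T i hi
  have aZG := ZG_iff M W T i hi
  have h0 := hI (i, Ty.G)
  have h1 := sS_tZ M W T i hi
  have h2 := sS_u M W T i hi
  simp only [iG, dj, an_bool, orr_bool, nt_bool, cs_bool]
  by_cases hT : (i, Ty.G) ∈ T
  · obtain ⟨u, hu, hp⟩ := h0 hT
    have huW := hp.1
    have hvW := hTW hT
    simp [nb] at hu
    grind
  · simp_all [kS]

theorem iP_ok : iP (fl M i) (sS M W T i) (kS W T i) (cS M W T i) = true := by
  have aPP := PP_iff M W T i hi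
  have aFP := FP_iff M W T i hi
  have aQP := QP_iff M W T i hi
  have aZP := ZP_iff M W T i hi
  have h0 := hI (i, Ty.P)
  have h1 := sS_tZ M W T i hi
  have h2 := sS_u M W T i hi
  simp only [iP, dj, an_bool, orr_bool, nt_bool, cs_bool]
  by_cases hT : (i, Ty.P) ∈ T
  · obtain ⟨u, hu, hp⟩ := h0 hT
    have huW := hp.1
    have hvW := hTW hT
    simp [nb] at hu
    grind
  · simp_all [kS]

theorem iQ_ok : iQ (fl M i) (sS M W T i) (kS W T i) (cS M W T i) = true := by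
  have aQQ := QQ_iff M W T i hi
  have aGQ := GQ_iff M W T i hi
  have aPQ := PQ_iff M W T i hi
  have aUQ := UQ_iff M W T i hi
  have h0 := hI (i, Ty.Q)
  have h1 := sS_tZ M W T i hi
  have h2 := sS_u M W T i hi
  simp only [iQ, dj, an_bool, orr_bool, nt_bool, cs_bool]
  by_cases hT : (i, Ty.Q) ∈ T
  · obtain ⟨u, hu, hp⟩ := h0 hT
    have huW := hp.1
    have hvW := hTW hT
    simp [nb] at hu
    grind
  · simp_all [kS]

theorem iU_ok : iU (fl M i) (kS W T i) (cS M W T i) = true := by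
  have aUU := UU_iff M W T i hi
  have aQU := QU_iff M W T i hi
  have aYU := YU_iff M W T i hi
  have h0 := hI (i, Ty.U)
  have h1 := sS_tZ M W T i hi
  have h2 := sS_u M W T i hi
  simp only [iU, dj, an_bool, orr_bool, nt_bool, cs_bool]
  by_cases hT : (i, Ty.U) ∈ T
  · obtain ⟨u, hu, hp⟩ := h0 hT
    have huW := hp.1
    have hvW := hTW hT
    simp [nb] at hu
    grind
  · simp_all [kS]

end sem

end Pool.Agent.Helper590.Chain
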