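import Pool.Agent.Helper590.ChFm

set_option autoImplicit false

namespace Pool.Agent.Helper590.Chain

open BA

theorem mk_testBit (l : List Bool) (j : ℕ) : (mk l).testBit j = l.getD j false := by
  induction l generalizing j with
  | nil => simp [mk]
  | cons b l ih =>
    have h : mk (b :: l) = 2 * mk l + (bif b then 1 else 0) := rfl
    cases j with
    | zero =>
      rw [h, Nat.testBit_zero]
      cases b <;> simp
    | succ j =>
      rw [h, Nat.testBit_succ, List.getD_cons_succ, ← ih]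
      congr 1
      cases b
      · simp
      · simp; omega

set_option maxRecDepth 100000 in
theorem pat_spec : ((List.range 20).all fun n =>
    Nat.beq (pat n) (mk (asg.map fun a => a.getD n false))) = true := by
  decide +kernel

set_option maxRecDepth 100000 in
theorem asg_len : asg.length = 1944 := by decide +kernel

theorem fullT_eq : fullT = 2 ^ 1944 - 1 := by decide +kernel

theorem full_testBit (j : ℕ) (hj : j < 1944) : fullT.testBit j = true := by
  rw [fullT_eq, Nat.testBit_two_pow_sub_one]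
  simpa using hj

theorem tb_testBit (φ : Fm) (j : ℕ) (hj : j < 1944) :
    φ.tb.testBit j = φ.ev (fun n => (pat n).testBit j) := by
  induction φ with
  | vr n => rfl
  | ct b => cases b <;> simp [Fm.tb, Fm.ev, full_testBit j hj]
  | no x ih =>
    show (fullT ^^^ x.tb).testBit j = _
    rw [Nat.testBit_xor, ih, full_testBit j hj]
    simp [Fm.ev]
  | aa x y ihx ihy =>
    show (x.tb &&& y.tb).testBit j = _
    rw [Nat.testBit_and, ihx, ihy]
    rfl
  | oo x y ihx ihy =>
    show (x.tb ||| y.tb).testBit j = _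
    rw [Nat.testBit_or, ihx, ihy]
    rfl

theorem asg_index (a : List Bool) (ha : a ∈ asg) : ∃ j < 1944, ∀ n < 20,
    (pat n).testBit j = a.getD n false := by
  obtain ⟨j, hj, hja⟩ := List.getElem_of_mem ha
  refine ⟨j, by rw [← asg_len]; exact hj, ?_⟩
  intro n hn
  have h1 := List.all_eq_true.1 pat_spec n (List.mem_range.2 hn)
  have h2 : pat n = mk (asg.map fun a => a.getD n false) := Nat.eq_of_beq_eq_true h1
  rw [h2, mk_testBit, List.getD_eq_getElem?_getD, List.getElem?_map, List.getElem?_eq_getElem hj, hja]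
  rfl

def bR (ρ : ℕ → Bool) : Blk Bool := ⟨ρ 0, ρ 1, ρ 2, ρ 3, ρ 4, ρ 5, ρ 6, ρ 7, ρ 8, ρ 9⟩
def cR (ρ : ℕ → Bool) : Cx Bool := ⟨ρ 10, ρ 11, ρ 12, ρ 13, ρ 14⟩

theorem con_ev (f : Fl) (s : St Bool) (ρ : ℕ → Bool) :
    (con f (cst s) bV cV).ev ρ = con f s (bR ρ) (cR ρ) := by
  obtain ⟨z, p, q⟩ := f
  cases z <;> cases p <;> cases q <;> rfl

theorem conR_ev (f : Fl) (s : St Bool) (ρ : ℕ → Bool) :
    (conR f (cst s) bV cV).ev ρ = conR f s (bR ρ) (cR ρ) := by
  obtain ⟨z, p, q⟩ := f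
  cases z <;> cases p <;> cases q <;> rfl

theorem nN_ev (f : Fl) (ρ : ℕ → Bool) : (nN f bV cV).ev ρ = nN f (bR ρ) (cR ρ) := by
  obtain ⟨z, p, q⟩ := f
  cases z <;> cases p <;> cases q <;> rfl

theorem nU_ev (f : Fl) (ρ : ℕ → Bool) : (nU f bV cV).ev ρ = nU f (bR ρ) (cR ρ) := by
  obtain ⟨z, p, q⟩ := f
  cases z <;> cases p <;> cases q <;> rfl

theorem nK_ev (f : Fl) (s : St Bool) (ρ : ℕ → Bool) :
    (nK f (cst s) bV cV).ev ρ = nK f s (bR ρ) (cR ρ) := by
  obtain ⟨z, p, q⟩ := f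
  cases z <;> cases p <;> cases q <;> rfl

theorem nE_ev (f : Fl) (s : St Bool) (ρ : ℕ → Bool) :
    (nE f (cst s) bV cV).ev ρ = nE f s (bR ρ) (cR ρ) := by
  obtain ⟨z, p, q⟩ := f
  cases z <;> cases p <;> cases q <;> rfl

theorem nFull_ev (s : St Bool) (ρ : ℕ → Bool) :
    (nFull (cst s) bV cV).ev ρ = nFull s (bR ρ) (cR ρ) := rfl

theorem lit_testBit (b : Bool) (x j : ℕ) (hj : j < 1944) (h : (lit b x).testBit j = true) :
    b = x.testBit j := by
  cases b with
  | true => exact h.symm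
  | false =>
    have h2 : (fullT ^^^ x).testBit j = true := h
    rw [Nat.testBit_xor, full_testBit j hj] at h2
    revert h2
    cases x.testBit j <;> simp

theorem and_testBit (x y j : ℕ) (h : (Nat.land x y).testBit j = true) :
    x.testBit j = true ∧ y.testBit j = true := by
  have h2 : (x &&& y).testBit j = true := h
  rw [Nat.testBit_and] at h2
  simpa using h2

theorem foldr_testBit {β : Type} (l : List β) (g : β → ℕ) (j : ℕ)
    (h : (l.foldr (fun e acc => Nat.lor (g e) acc) 0).testBit j = true) :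
    ∃ e ∈ l, (g e).testBit j = true := by
  induction l with
  | nil => simp at h
  | cons a l ih =>
    have h2 : ((g a) ||| (l.foldr (fun e acc => Nat.lor (g e) acc) 0)).testBit j = true := h
    rw [Nat.testBit_or, Bool.or_eq_true] at h2
    rcases h2 with h2 | h2
    · exact ⟨a, by simp, h2⟩
    · obtain ⟨e, he, h3⟩ := ih h2
      exact ⟨e, by simp [he], h3⟩

theorem beq0_testBit (x y j : ℕ) (hj : j < 1944)
    (h : Nat.beq 0 (Nat.land x (Nat.xor fullT y)) = true) (hx : x.testBit j = true) :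
    y.testBit j = true := by
  have h1 : (0 : ℕ) = x &&& (fullT ^^^ y) := Nat.eq_of_beq_eq_true h
  have h2 : (x &&& (fullT ^^^ y)).testBit j = false := by rw [← h1]; simp
  rw [Nat.testBit_and, Nat.testBit_xor, full_testBit j hj, hx] at h2
  revert h2
  cases y.testBit j <;> simp

/-- achieved target -/
def okP (f : Fl) (e : En) (X κ : ℕ) (ρ : ℕ → Bool) : Prop :=
  9 ≤ κ ∨ (ok f e X κ).ev ρ = true

theorem okN_testBit (f : Fl) (e : En) (X κ j : ℕ) (hj : j < 1944)
    (h : (okN f e X κ).testBit j = true) : okP f e X κ (fun n => (pat n).testBit j) := by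
  unfold okN at h
  split at h
  all_goals first
    | (left; omega)
    | (right; rw [← tb_testBit _ _ hj]; exact h)
    | simp at h

def rho (j : ℕ) : ℕ → Bool := fun n => (pat n).testBit j

theorem step_sound (f : Fl) (first : Bool) (tgt : List En) (e : En)
    (hc : chkStep f first tgt e = true) (j : ℕ) (hj : j < 1944)
    (h1 : con f e.s (bR (rho j)) (cR (rho j)) = true)
    (h2 : first = false → conR f e.s (bR (rho j)) (cR (rho j)) = true) :
    ∃ e' ∈ tgt, e'.s = ⟨nFull e.s (bR (rho j)) (cR (rho j)), rho j 10, rho j 11,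
      nN f (bR (rho j)) (cR (rho j)), nU f (bR (rho j)) (cR (rho j)),
      nK f e.s (bR (rho j)) (cR (rho j)), nE f e.s (bR (rho j)) (cR (rho j)),
      rho j 12, rho j 13, rho j 14⟩ ∧
      okP f e 0 e'.pa (rho j) ∧ okP f e 1 e'.pb (rho j) ∧ okP f e 2 e'.pc (rho j) := by
  have hx : (cj [con f (cst e.s) bV cV, bif first then .ct true else
      conR f (cst e.s) bV cV]).tb.testBit j = true := by
    rw [tb_testBit _ _ hj]
    show (_ && _) = true
    rw [Bool.and_eq_true]
    refine ⟨(con_ev _ _ _).trans h1, ?_⟩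
    cases first with
    | true => rfl
    | false => exact (conR_ev _ _ _).trans (h2 rfl)
  have hg := beq0_testBit _ _ j hj hc hx
  obtain ⟨e', he', hm⟩ := foldr_testBit _ _ _ hg
  refine ⟨e', he', ?_⟩
  unfold matchT at hm
  obtain ⟨g1, hm⟩ := and_testBit _ _ _ hm
  obtain ⟨g2, hm⟩ := and_testBit _ _ _ hm
  obtain ⟨g3, hm⟩ := and_testBit _ _ _ hm
  obtain ⟨g4, hm⟩ := and_testBit _ _ _ hm
  obtain ⟨g5, hm⟩ := and_testBit _ _ _ hm
  obtain ⟨g6, hm⟩ := and_testBit _ _ _ hm
  obtain ⟨g7, hm⟩ := and_testBit _ _ _ hm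
  obtain ⟨g8, hm⟩ := and_testBit _ _ _ hm
  obtain ⟨g9, hm⟩ := and_testBit _ _ _ hm
  obtain ⟨g10, hm⟩ := and_testBit _ _ _ hm
  obtain ⟨g11, hm⟩ := and_testBit _ _ _ hm
  obtain ⟨g12, g13⟩ := and_testBit _ _ _ hm
  refine ⟨?_, okN_testBit _ _ _ _ _ hj g11, okN_testBit _ _ _ _ _ hj g12,
    okN_testBit _ _ _ _ _ hj g13⟩
  have k1 := (lit_testBit _ _ _ hj g1).trans ((tb_testBit _ _ hj).trans (nFull_ev _ _))
  have k2 := lit_testBit _ _ _ hj g2
  have k3 := lit_testBit _ _ _ hj g3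
  have k4 := (lit_testBit _ _ _ hj g4).trans ((tb_testBit _ _ hj).trans (nN_ev _ _))
  have k5 := (lit_testBit _ _ _ hj g5).trans ((tb_testBit _ _ hj).trans (nU_ev _ _))
  have k6 := (lit_testBit _ _ _ hj g6).trans ((tb_testBit _ _ hj).trans (nK_ev _ _ _))
  have k7 := (lit_testBit _ _ _ hj g7).trans ((tb_testBit _ _ hj).trans (nE_ev _ _ _))
  have k8 := lit_testBit _ _ _ hj g8
  have k9 := lit_testBit _ _ _ hj g9
  have k10 := lit_testBit _ _ _ hj g10
  rcases e' with ⟨⟨a1, a2, a3, a4, a5, a6, a7, a8, a9, a10⟩, pa, pb, pc⟩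
  simp only at k1 k2 k3 k4 k5 k6 k7 k8 k9 k10
  simp only [St.mk.injEq]
  exact ⟨k1, k2, k3, k4, k5, k6, k7, k8, k9, k10⟩

theorem end_sound (f : Fl) (e : En)
    (hc : chkEnd f e = true) (j : ℕ) (hj : j < 1944)
    (h1 : con f e.s (bR (rho j)) (cR (rho j)) = true)
    (h2 : conR f e.s (bR (rho j)) (cR (rho j)) = true) (h3 : rho j 10 = false) :
    okP f e 2 1 (rho j) ∨ (e.s.full = true ∧ rho j 0 = true ∧ rho j 2 = true ∧ rho j 4 = true ∧
      rho j 6 = true ∧ rho j 8 = true) := by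
  have hx : (cj [con f (cst e.s) bV cV, conR f (cst e.s) bV cV, Fm.no (Fm.vr 10)]).tb.testBit j
      = true := by
    rw [tb_testBit _ _ hj]
    show (_ && (_ && _)) = true
    rw [Bool.and_eq_true, Bool.and_eq_true]
    refine ⟨(con_ev _ _ _).trans h1, (conR_ev _ _ _).trans h2, ?_⟩
    show (!(rho j 10)) = true
    rw [h3]; rfl
  have hg := beq0_testBit _ _ j hj hc hx
  have hg2 : ((ok f e 2 1).tb ||| (cj [Fm.ct e.s.full, Fm.vr 0, Fm.vr 2, Fm.vr 4, Fm.vr 6,
    Fm.vr 8]).tb).testBit j = true := hg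
  rw [Nat.testBit_or, Bool.or_eq_true] at hg2
  rcases hg2 with hg2 | hg2
  · left; right
    rw [tb_testBit _ _ hj] at hg2
    exact hg2
  · right
    rw [tb_testBit _ _ hj] at hg2
    have h4 : (e.s.full && (rho j 0 && (rho j 2 && (rho j 4 && (rho j 6 && rho j 8))))) = true := hg2
    simpa using h4

end Pool.Agent.Helper590.Chain
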