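import Pool.Agent.Helper590.ChGood

set_option autoImplicit false
set_option linter.unusedSimpArgs false
set_option linter.unusedVariables false

namespace Pool.Agent.Helper590.Chain

def isT (v : Vx) : Prop := v.2 = Ty.F ∨ v.2 = Ty.G

instance (v : Vx) : Decidable (isT v) := by unfold isT; infer_instance

theorem T0_priv (M : ℕ) (v : Vx) (h : v.1 ≤ M) (hT : isT v) :
    ∃ w : Vx, w.1 ≤ M ∧ w ∈ nb M v ∧ ∀ u : Vx, isT u → w ∈ nb M u → u = v := by
  obtain ⟨i, t⟩ := v
  rcases hT with ht | ht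
  · simp only at ht; subst ht
    refine ⟨(i, Ty.P), h, by simp [nb], ?_⟩
    rintro ⟨j, s⟩ hs hw
    rw [nb_symm] at hw
    rcases hs with hs | hs
    · simp only at hs; subst hs
      simp [nb] at hw; simp [hw]
    · simp only at hs; subst hs
      simp [nb] at hw
  · simp only at ht; subst ht
    refine ⟨(i, Ty.Q), h, by simp [nb], ?_⟩
    rintro ⟨j, s⟩ hs hw
    rw [nb_symm] at hw
    rcases hs with hs | hs
    · simp only at hs; subst hs
      simp [nb] at hw
    · simp only at hs; subst hs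
      simp [nb] at hw; simp [hw]

theorem T0_max (M : ℕ) (x : Vx) (hx : x.1 ≤ M) (hM : 1 ≤ M) (hT : ¬ isT x) :
    ∃ v : Vx, (v = x ∨ (isT v ∧ v.1 ≤ M)) ∧ ∀ w ∈ nb M v, ∃ u : Vx,
      (u = x ∨ (isT u ∧ u.1 ≤ M)) ∧ u ≠ v ∧ w ∈ nb M u := by
  obtain ⟨i, t⟩ := x
  simp only at hx
  have hF : ∀ x : Vx, ((i, Ty.P) : Vx) ∈ nb M x → x ≠ (i, Ty.F) →
      ∃ v : Vx, (v = x ∨ (isT v ∧ v.1 ≤ M)) ∧ ∀ w ∈ nb M v, ∃ u : Vx,
      (u = x ∨ (isT u ∧ u.1 ≤ M)) ∧ u ≠ v ∧ w ∈ nb M u := by
    intro x hx2 hxF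
    refine ⟨(i, Ty.F), Or.inr ⟨Or.inl rfl, hx⟩, ?_⟩
    intro w hw
    simp only [nb, List.mem_cons, List.mem_ite_nil_right, List.not_mem_nil, or_false] at hw
    rcases hw with rfl | rfl | rfl | ⟨hi, rfl⟩
    · exact ⟨(i, Ty.G), Or.inr ⟨Or.inr rfl, hx⟩, by simp, by simp [nb]⟩
    · exact ⟨(i, Ty.G), Or.inr ⟨Or.inr rfl, hx⟩, by simp, by simp [nb]⟩
    · exact ⟨x, Or.inl rfl, hxF, hx2⟩
    · exact ⟨(i+1, Ty.G), Or.inr ⟨Or.inr rfl, by simpa using hi⟩, by simp, by simp [nb]⟩
  have hG : ∀ x : Vx, ((i, Ty.Q) : Vx) ∈ nb M x → x ≠ (i, Ty.G) →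
      ∃ v : Vx, (v = x ∨ (isT v ∧ v.1 ≤ M)) ∧ ∀ w ∈ nb M v, ∃ u : Vx,
      (u = x ∨ (isT u ∧ u.1 ≤ M)) ∧ u ≠ v ∧ w ∈ nb M u := by
    intro x hx2 hxF
    refine ⟨(i, Ty.G), Or.inr ⟨Or.inr rfl, hx⟩, ?_⟩
    intro w hw
    simp only [nb, List.mem_cons, List.mem_ite_nil_right, List.not_mem_nil, or_false] at hw
    rcases hw with rfl | rfl | rfl | ⟨hi, rfl⟩
    · exact ⟨(i, Ty.F), Or.inr ⟨Or.inl rfl, hx⟩, by simp, by simp [nb]⟩
    · exact ⟨(i, Ty.F), Or.inr ⟨Or.inl rfl, hx⟩, by simp, by simp [nb]⟩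
    · exact ⟨x, Or.inl rfl, hxF, hx2⟩
    · refine ⟨(i-1, Ty.F), Or.inr ⟨Or.inl rfl, by simp only; omega⟩, by simp, ?_⟩
      simp [nb]; omega
  cases t
  · by_cases hi : i < M
    · exact hF _ (by simp [nb, hi]) (by simp)
    · have hi' : i = M := by omega
      subst hi'
      refine ⟨(i, Ty.Z), Or.inl rfl, ?_⟩
      intro w hw
      simp only [nb, List.mem_cons, List.mem_append, List.mem_ite_nil_right, List.not_mem_nil,
        or_false] at hw
      rcases hw with rfl | ⟨_, rfl⟩ | ⟨_, rfl⟩ | ⟨_, rfl⟩ | ⟨_, rfl⟩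
      · exact ⟨(i, Ty.G), Or.inr ⟨Or.inr rfl, hx⟩, by simp, by simp [nb]; omega⟩
      · exact ⟨(i, Ty.G), Or.inr ⟨Or.inr rfl, hx⟩, by simp, by simp [nb]⟩
      · omega
      · exact ⟨(i-1, Ty.F), Or.inr ⟨Or.inl rfl, by simp⟩, by simp, by simp [nb]⟩
      · omega
  · exact absurd (Or.inl rfl) hT
  · exact absurd (Or.inr rfl) hT
  · exact hF _ (nb_self _ _) (by simp)
  · exact hG _ (nb_self _ _) (by simp)
  · exact hG _ (by simp [nb]) (by simp)

/-- the counting step, Boolean part -/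
theorem cnt_step (l0 l1 ld z f g p q u y : Bool)
    (hZ : z = true ∨ ld = true ∨ (l0 = true ∧ g = true) ∨ p = true)
    (hF : f = true ∨ g = true ∨ p = true ∨ y = true)
    (hG : g = true ∨ f = true ∨ q = true ∨ (l0 = true ∧ z = true))
    (hP : p = true ∨ f = true ∨ q = true ∨ z = true)
    (hQ : q = true ∨ g = true ∨ p = true ∨ u = true)
    (hU : u = true ∨ q = true ∨ (l1 = true ∧ y = true)) :
    1 ≤ z.toNat + (f.toNat + g.toNat + p.toNat + q.toNat + u.toNat) ∧
    (2 ≤ z.toNat + (f.toNat + g.toNat + p.toNat + q.toNat + u.toNat) ∨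
      (y = true ∨ (f = false ∧ (l1 = true → u = false)))) ∧
    ((z = true ∨ ld = false) →
      2 ≤ z.toNat + (f.toNat + g.toNat + p.toNat + q.toNat + u.toNat) ∧
      (3 ≤ z.toNat + (f.toNat + g.toNat + p.toNat + q.toNat + u.toNat) ∨
        (y = true ∨ (f = false ∧ (l1 = true → u = false))))) := by
  cases z <;> cases f <;> cases g <;> cases q <;> cases p <;> cases u <;> cases y <;>
    simp at hZ hF hG hP hQ hU ⊢ <;> simp [*] at *

theorem lower (M : ℕ) (hM : 1 ≤ M) (E : Finset Vx) (hE : ∀ d ∈ E, d.1 ≤ M)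
    (hdom : ∀ x : Vx, x.1 ≤ M → ∃ d ∈ E, x ∈ nb M d) : 2 * M + 3 ≤ E.card := by
  have hd : ∀ x : Vx, x.1 ≤ M → ∃ d ∈ nb M x, d ∈ E := by
    intro x hx
    obtain ⟨d, h1, h2⟩ := hdom x hx
    exact ⟨d, (nb_symm M d x).2 h2, h1⟩
  have key : ∀ i ≤ M, 2 * i ≤ (E.filter (fun v => v.1 < i)).card ∧
      (2 * i + 1 ≤ (E.filter (fun v => v.1 < i)).card ∨ (i, Ty.Z) ∈ E ∨
        (0 < i → ((i-1, Ty.F) ∉ E ∧ (i < M → (i-1, Ty.U) ∉ E)))) := by
    intro i
    induction i with
    | zero => intro _; exact ⟨by omega, by simp⟩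
    | succ i ih =>
      intro hi
      obtain ⟨h1, h2⟩ := ih (by omega)
      have dZ := hd (i, Ty.Z) (by simp only; omega)
      have dF := hd (i, Ty.F) (by simp only; omega)
      have dG := hd (i, Ty.G) (by simp only; omega)
      have dP := hd (i, Ty.P) (by simp only; omega)
      have dQ := hd (i, Ty.Q) (by simp only; omega)
      have dU := hd (i, Ty.U) (by simp only; omega)
      have hiM : i < M := by omega
      have c := cnt_step (decide (0 < i)) (decide (i + 1 < M))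
        (decide (0 < i ∧ ((i-1, Ty.F) ∈ E ∨ (i-1, Ty.U) ∈ E))) (decide ((i, Ty.Z) ∈ E))
        (decide ((i, Ty.F) ∈ E)) (decide ((i, Ty.G) ∈ E)) (decide ((i, Ty.P) ∈ E))
        (decide ((i, Ty.Q) ∈ E)) (decide ((i, Ty.U) ∈ E)) (decide ((i+1, Ty.Z) ∈ E))
        (by
          obtain ⟨d, g1, g2⟩ := dZ
          simp only [nb, List.mem_cons, List.mem_append, List.mem_ite_nil_right, List.not_mem_nil,
            or_false] at g1
          simp only [decide_eq_true_eq]
          rcases g1 with rfl | ⟨g, rfl⟩ | ⟨g, rfl⟩ | ⟨g, rfl⟩ | ⟨g, rfl⟩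
          · exact Or.inl g2
          · exact Or.inr (Or.inr (Or.inl ⟨g, g2⟩))
          · exact Or.inr (Or.inr (Or.inr g2))
          · exact Or.inr (Or.inl ⟨g.1, Or.inl g2⟩)
          · exact Or.inr (Or.inl ⟨g.1, Or.inr g2⟩))
        (by
          obtain ⟨d, g1, g2⟩ := dF
          simp only [nb, List.mem_cons, List.mem_append, List.mem_ite_nil_right, List.not_mem_nil,
            or_false] at g1
          simp only [decide_eq_true_eq]
          rcases g1 with rfl | rfl | rfl | ⟨g, rfl⟩ <;> simp [g2])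
        (by
          obtain ⟨d, g1, g2⟩ := dG
          simp only [nb, List.mem_cons, List.mem_append, List.mem_ite_nil_right, List.not_mem_nil,
            or_false] at g1
          simp only [decide_eq_true_eq]
          rcases g1 with rfl | rfl | rfl | ⟨g, rfl⟩ <;> simp [g2]
          simp [g])
        (by
          obtain ⟨d, g1, g2⟩ := dP
          simp only [nb, List.mem_cons, List.mem_append, List.mem_ite_nil_right, List.not_mem_nil,
            or_false] at g1
          simp only [decide_eq_true_eq]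
          rcases g1 with rfl | rfl | ⟨g, rfl | rfl⟩ <;> simp [g2])
        (by
          obtain ⟨d, g1, g2⟩ := dQ
          simp only [nb, List.mem_cons, List.mem_append, List.mem_ite_nil_right, List.not_mem_nil,
            or_false] at g1
          simp only [decide_eq_true_eq]
          rcases g1 with rfl | rfl | rfl | ⟨g, rfl⟩ <;> simp [g2])
        (by
          obtain ⟨d, g1, g2⟩ := dU
          simp only [nb, List.mem_cons, List.mem_append, List.mem_ite_nil_right, List.not_mem_nil,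
            or_false] at g1
          simp only [decide_eq_true_eq]
          rcases g1 with rfl | rfl | ⟨g, rfl⟩ <;> simp [g2]
          simp [g])
      rw [filt_succ, filt_eq]
      obtain ⟨c1, c2, c3⟩ := c
      generalize (decide ((i, Ty.Z) ∈ E)).toNat + ((decide ((i, Ty.F) ∈ E)).toNat +
        (decide ((i, Ty.G) ∈ E)).toNat + (decide ((i, Ty.P) ∈ E)).toNat +
        (decide ((i, Ty.Q) ∈ E)).toNat + (decide ((i, Ty.U) ∈ E)).toNat) = B at c1 c2 c3 ⊢
      simp only [decide_eq_true_eq, decide_eq_false_iff_not] at c2 c3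
      have e1 : i + 1 - 1 = i := by omega
      rw [e1]
      by_cases hs : 2 * i + 1 ≤ (E.filter (fun v => v.1 < i)).card
      · refine ⟨by omega, ?_⟩
        rcases c2 with c2 | c2 | c2
        · left; omega
        · right; left; exact c2
        · right; right; intro _; exact c2
      · have h3 : (i, Ty.Z) ∈ E ∨ ¬ (0 < i ∧ ((i-1, Ty.F) ∈ E ∨ (i-1, Ty.U) ∈ E)) := by
          rcases h2 with h2 | h2 | h2
          · exact absurd h2 hs
          · exact Or.inl h2
          · right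
            rintro ⟨h4, h5⟩
            have := h2 h4
            rcases h5 with h5 | h5
            · exact this.1 h5
            · exact this.2 hiM h5
        obtain ⟨c4, c5⟩ := c3 h3
        refine ⟨by omega, ?_⟩
        rcases c5 with c5 | c5 | c5
        · left; omega
        · right; left; exact c5
        · right; right; intro _; exact c5
  obtain ⟨h1, h2⟩ := key M le_rfl
  have hc : (E.filter (fun v => v.1 < M + 1)).card ≤ E.card :=
    Finset.card_le_card (Finset.filter_subset _ _)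
  rw [filt_succ, filt_eq] at hc
  have dZ := hd (M, Ty.Z) le_rfl
  have dP := hd (M, Ty.P) le_rfl
  have dU := hd (M, Ty.U) le_rfl
  have gP : (M, Ty.P) ∈ E ∨ (M, Ty.F) ∈ E := by
    obtain ⟨d, g1, g2⟩ := dP
    simp only [nb, List.mem_cons, List.mem_append, List.mem_ite_nil_right, List.not_mem_nil,
      or_false] at g1
    rcases g1 with rfl | rfl | ⟨g, _⟩
    · exact Or.inl g2
    · exact Or.inr g2
    · omega
  have gU : (M, Ty.U) ∈ E ∨ (M, Ty.Q) ∈ E := by
    obtain ⟨d, g1, g2⟩ := dU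
    simp only [nb, List.mem_cons, List.mem_append, List.mem_ite_nil_right, List.not_mem_nil,
      or_false] at g1
    rcases g1 with rfl | rfl | ⟨g, _⟩
    · exact Or.inl g2
    · exact Or.inr g2
    · omega
  have gZ : (M, Ty.Z) ∈ E ∨ (M, Ty.G) ∈ E ∨ (M-1, Ty.F) ∈ E := by
    obtain ⟨d, g1, g2⟩ := dZ
    simp only [nb, List.mem_cons, List.mem_append, List.mem_ite_nil_right, List.not_mem_nil,
      or_false] at g1
    rcases g1 with rfl | ⟨_, rfl⟩ | ⟨_, rfl⟩ | ⟨_, rfl⟩ | ⟨_, rfl⟩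
    · exact Or.inl g2
    · exact Or.inr (Or.inl g2)
    · omega
    · exact Or.inr (Or.inr g2)
    · omega
  have k1 : 1 ≤ (decide ((M, Ty.P) ∈ E)).toNat + (decide ((M, Ty.F) ∈ E)).toNat := by
    rcases gP with h | h <;> simp [h]
  have k2 : 1 ≤ (decide ((M, Ty.U) ∈ E)).toNat + (decide ((M, Ty.Q) ∈ E)).toNat := by
    rcases gU with h | h <;> simp [h]
  rcases h2 with h2 | h2 | h2
  · omega
  · have k3 : (decide ((M, Ty.Z) ∈ E)).toNat = 1 := by simp [h2]
    omega
  · have h3 := (h2 (by omega)).1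
    have k3 : 1 ≤ (decide ((M, Ty.Z) ∈ E)).toNat + (decide ((M, Ty.G) ∈ E)).toNat := by
      rcases gZ with h | h | h
      · simp [h]
      · simp [h]
      · exact absurd h h3
    omega

end Pool.Agent.Helper590.Chain
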