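import Pool.Agent.Helper590.IrGen

set_option autoImplicit false

namespace Pool.Agent.Helper590.Irr17

open Pool.Agent.Helper590.IrGen

/-- certificate trees -/
inductive Tr
  | z : Tr
  | s (i : Nat) : Tr
  | p (i : Nat) : Tr
  | x (i : Nat) : Tr
  | d (D : Nat) : Tr
  | t (v : Nat) (a b : Tr) : Tr
  | w (v : Nat) (a b : Tr) : Tr

/-- closed neighbourhood masks -/
def nbm : List Nat :=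
  [98371, 131, 65804, 524, 1072, 34864, 24641, 130, 8452, 66056, 1040, 67616, 12288, 12608,
   16448, 32801, 68101]

def nb (i : Nat) : Nat := nbm.getD i 0

/-- closed neighbourhood lists -/
def nll : List (List Nat) :=
  [[0,1,6,15,16],[0,1,7],[2,3,8,16],[2,3,9],[4,5,10],[4,5,11,15],[0,6,13,14],[1,7],[2,8,13],
   [3,9,16],[4,10],[5,11,16],[12,13],[6,8,12,13],[6,14],[0,5,15],[0,2,9,11,16]]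

def nl (i : Nat) : List Nat := nll.getD i []

def sub (a b : Nat) : Bool := Nat.beq (a &&& b) a

def unionEx (Ti i : Nat) : Nat :=
  (List.range 17).foldr (fun j acc => if j != i && Ti.testBit j then nb j ||| acc else acc) 0

def pop (D : Nat) : Nat := (List.range 17).foldr (fun j acc => if D.testBit j then acc + 1 else acc) 0

def chk : Tr → Nat → Nat → Nat → Nat → Nat → Bool
  | .z, _, _, _, _, k => Nat.ble 6 k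
  | .s i, Ti, To, _, _, _ => Nat.blt i 17 && Ti.testBit i && sub (nb i) (To ||| 2 ^ i)
  | .p i, Ti, _, _, Wo, _ => Nat.blt i 17 && Ti.testBit i && sub (nb i) (Wo ||| unionEx Ti i)
  | .x i, _, To, Wi, _, _ => Nat.blt i 17 && Wi.testBit i && To.testBit i &&
      ((nl i).any fun u => Wi.testBit u && sub (nb u) To) &&
      ((List.range 17).all fun t => To.testBit t ||
        ((nl t).any fun q => Wi.testBit q && (!(nb i).testBit q) && sub (nb q) (To ||| 2 ^ t)))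
  | .d D, _, _, Wi, Wo, k => sub D Wi && Nat.ble (pop D) k &&
      ((List.range 17).all fun v => Wo.testBit v || !(Nat.beq (nb v &&& D) 0))
  | .t v a b, Ti, To, Wi, Wo, k => Nat.blt v 17 && (!Ti.testBit v) &&
      chk a (Ti ||| 2 ^ v) To (Wi ||| 2 ^ v) Wo (k + 1) && chk b Ti (To ||| 2 ^ v) Wi Wo k
  | .w v a b, Ti, To, Wi, Wo, k => Nat.blt v 17 &&
      chk a Ti To (Wi ||| 2 ^ v) Wo k && chk b Ti To Wi (Wo ||| 2 ^ v) k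

def c0 : Tr := .w 6 (.w 3 (.w 8 (.w 11 (.w 4 (.x 4) (.w 12 (.x 12) (.w 10 (.x 10) (.w 13 (.x 8) (.w 15 (.w 5
  (.x 15) (.w 14 (.x 6) (.d 65543))) (.w 9 (.w 5 (.x 5) (.d 65606)) (.d 2118))))))) (.w 9 (.w 4 (.x 4) (.w 5
  (.x 5) (.w 12 (.x 12) (.w 10 (.x 10) (.w 15 (.w 14 (.x 6) (.d 267)) (.d 78)))))) (.p 16))) (.w 11 (.w 4 (.x
  4) (.w 12 (.x 12) (.w 10 (.x 10) (.w 15 (.w 5 (.x 15) (.w 13 (.x 6) (.w 14 (.x 6) (.d 65543)))) (.d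
  2122))))) (.w 9 (.w 4 (.x 4) (.w 5 (.x 5) (.w 12 (.x 12) (.w 10 (.x 10) (.d 75))))) (.p 16)))) (.w 8 (.w 11
  (.w 4 (.x 4) (.w 12 (.x 12) (.w 10 (.x 10) (.w 15 (.w 5 (.x 15) (.w 14 (.x 6) (.d 65795))) (.w 9 (.w 5 (.x
  5) (.d 65606)) (.d 2118)))))) (.w 9 (.w 4 (.x 4) (.w 5 (.x 5) (.w 12 (.x 12) (.w 10 (.x 10) (.w 15 (.w 14
  (.x 6) (.d 771)) (.d 582)))))) (.p 16))) (.p 2))) (.w 15 (.w 3 (.w 8 (.w 11 (.w 4 (.x 4) (.w 12 (.x 12) (.w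
  10 (.x 10) (.w 13 (.x 8) (.w 14 (.x 14) (.d 98310)))))) (.w 9 (.w 4 (.x 4) (.w 12 (.x 12) (.w 10 (.x 10) (.w
  14 (.x 14) (.d 33538))))) (.p 16))) (.w 11 (.w 4 (.x 4) (.w 12 (.x 12) (.w 10 (.x 10) (.w 13 (.x 13) (.w 14
  (.x 14) (.d 98310)))))) (.w 9 (.w 4 (.x 4) (.w 12 (.x 12) (.w 10 (.x 10) (.w 13 (.x 13) (.w 14 (.x 14) (.d
  32782)))))) (.p 16)))) (.w 8 (.w 11 (.w 4 (.x 4) (.w 12 (.x 12) (.w 10 (.x 10) (.w 14 (.x 14) (.d 98562)))))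
  (.w 9 (.w 4 (.x 4) (.w 12 (.x 12) (.w 10 (.x 10) (.w 14 (.x 14) (.d 33538))))) (.p 16))) (.p 2))) (.p 0))

def c1 : Tr := .t 6 (.t 7 .z (.t 9 .z (.t 10 .z (.t 11 .z (.t 12 .z (.t 13 .z (.t 14 .z (.t 15 .z (.w 15 (.w 7
  (.w 13 (.w 3 (.w 11 (.w 4 (.x 4) (.w 10 (.x 10) (.w 14 (.w 12 (.x 12) (.d 98374)) (.d 106502)))) (.w 9 (.w 4
  (.x 4) (.w 10 (.x 10) (.w 14 (.w 12 (.x 12) (.d 32846)) (.d 40974)))) (.p 16))) (.w 8 (.w 11 (.w 4 (.x 4)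
  (.w 10 (.x 10) (.d 106562))) (.w 9 (.w 4 (.x 4) (.w 10 (.x 10) (.d 106562))) (.p 16))) (.p 2))) (.w 14 (.w 3
  (.w 11 (.w 4 (.x 4) (.w 10 (.x 10) (.w 12 (.x 12) (.d 98374)))) (.w 9 (.w 4 (.x 4) (.w 10 (.x 10) (.w 12 (.x
  12) (.d 32846)))) (.p 16))) (.w 8 (.w 11 (.w 4 (.x 4) (.w 10 (.x 10) (.w 12 (.x 12) (.d 98374)))) (.w 9 (.w
  4 (.x 4) (.w 10 (.x 10) (.w 12 (.x 12) (.d 33350)))) (.p 16))) (.p 2))) (.p 6))) (.p 1)) (.p 0)))))))))) (.t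
  7 (.p 1) (.t 9 (.p 9) (.t 10 (.s 10) (.t 11 (.t 12 .z (.t 13 .z (.t 14 .z (.t 15 .z (.w 5 (.w 9 (.w 7 (.w 6
  (.w 8 (.w 10 (.x 10) (.w 12 (.x 12) (.d 614))) (.w 3 (.w 10 (.x 10) (.w 12 (.x 12) (.d 110))) (.p 2))) (.w
  15 (.w 8 (.w 10 (.x 10) (.w 12 (.x 12) (.w 14 (.x 14) (.d 806)))) (.w 3 (.w 10 (.x 10) (.w 12 (.x 12) (.w 13
  (.x 13) (.w 14 (.x 14) (.d 46))))) (.p 2))) (.p 0))) (.p 1)) (.p 16)) (.p 11)))))) (.t 12 (.t 13 .z (.s 12))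
  (.t 13 (.s 13) (.t 14 (.s 14) (.t 15 (.w 5 (.w 6 (.w 7 (.w 3 (.w 8 (.w 9 (.w 10 (.x 10) (.w 12 (.x 12) (.d
  110))) (.w 11 (.w 10 (.x 10) (.w 12 (.x 12) (.d 102))) (.p 16))) (.w 9 (.w 10 (.x 10) (.w 12 (.x 12) (.d
  110))) (.w 11 (.w 10 (.x 10) (.w 12 (.x 12) (.d 102))) (.p 16)))) (.w 8 (.w 9 (.w 10 (.x 10) (.w 12 (.x 12)
  (.d 614))) (.w 11 (.w 10 (.x 10) (.w 12 (.x 12) (.d 102))) (.p 16))) (.p 2))) (.p 1)) (.p 0)) (.p 15)) (.w 7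
  c0 (.p 1))))))))))

def c2 : Tr := .t 8 (.t 4 (.t 5 .z (.t 10 .z (.s 4))) (.t 5 (.t 11 .z (.t 15 .z (.s 5))) (.t 6 (.p 8) (.t 7
  (.p 1) (.t 9 (.p 2) (.t 10 (.s 10) (.t 11 (.t 16 .z (.s 11)) (.t 12 (.p 8) (.t 13 (.p 8) (.t 14 (.s 14) (.t
  15 (.t 16 .z (.w 5 (.w 6 (.w 3 (.w 13 (.w 7 (.w 10 (.x 10) (.w 9 (.w 16 (.x 16) (.d 8298)) (.d 8294))) (.p
  1)) (.p 8)) (.p 2)) (.p 0)) (.p 15))) (.t 16 (.w 13 (.w 3 (.w 7 (.w 6 (.w 11 (.w 4 (.x 4) (.w 10 (.x 10) (.w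
  15 (.w 14 (.x 14) (.d 106502)) (.d 10314)))) (.w 9 (.w 4 (.x 4) (.w 5 (.x 5) (.w 10 (.x 10) (.d 8267)))) (.p
  16))) (.w 15 (.w 11 (.w 4 (.x 4) (.w 10 (.x 10) (.w 14 (.x 14) (.d 106502)))) (.w 9 (.w 4 (.x 4) (.w 10 (.x
  10) (.w 14 (.x 14) (.d 40974)))) (.p 16))) (.p 0))) (.p 1)) (.p 2)) (.p 8)) (.w 13 (.w 3 (.w 7 (.w 6 (.w 5
  (.x 5) (.w 4 (.x 4) (.w 11 (.x 11) (.w 10 (.x 10) (.w 14 (.w 15 (.x 14) (.w 9 (.w 16 (.x 16) (.d 8266)) (.d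
  8262))) (.d 8203)))))) (.w 15 (.w 4 (.x 4) (.w 11 (.x 11) (.w 10 (.x 10) (.w 14 (.x 14) (.w 9 (.w 16 (.x 16)
  (.d 40970)) (.d 40966)))))) (.p 0))) (.p 1)) (.p 2)) (.p 8)))))))))))))) (.t 16 (.t 4 (.t 5 .z (.t 10 .z (.s
  4))) (.t 5 (.t 11 .z (.t 15 .z (.s 5))) c1)) (.s 2))

def c3 : Tr := .t 16 (.w 15 (.w 7 (.w 14 (.w 2 (.w 9 (.w 11 (.w 8 (.w 4 (.x 4) (.w 3 (.x 3) (.w 10 (.x 10) (.d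
  106562)))) (.w 12 (.w 4 (.x 4) (.w 3 (.x 2) (.w 10 (.x 10) (.d 102466)))) (.p 13))) (.w 8 (.w 4 (.x 4) (.w 3
  (.x 9) (.w 10 (.x 10) (.d 106562)))) (.w 12 (.w 4 (.x 4) (.w 3 (.x 2) (.w 10 (.x 10) (.d 102466)))) (.p
  13)))) (.w 11 (.w 8 (.w 4 (.x 4) (.w 3 (.x 3) (.w 10 (.x 10) (.d 106562)))) (.w 12 (.w 4 (.x 4) (.w 3 (.x 2)
  (.w 10 (.x 10) (.d 102466)))) (.p 13))) (.w 8 (.w 4 (.x 4) (.w 10 (.x 10) (.d 41030))) (.w 12 (.w 4 (.x 4)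
  (.w 10 (.x 10) (.d 36934))) (.p 13))))) (.w 9 (.w 11 (.w 8 (.w 4 (.x 4) (.w 3 (.x 3) (.w 10 (.x 10) (.d
  106562)))) (.w 12 (.w 4 (.x 4) (.w 3 (.x 3) (.w 10 (.x 10) (.d 102466)))) (.p 13))) (.w 8 (.w 4 (.x 4) (.w
  10 (.x 10) (.d 41538))) (.w 12 (.w 4 (.x 4) (.w 10 (.x 10) (.d 37442))) (.p 13)))) (.w 11 (.w 8 (.w 4 (.x 4)
  (.w 3 (.x 3) (.w 10 (.x 10) (.d 10307)))) (.w 12 (.w 4 (.x 4) (.w 3 (.x 3) (.w 10 (.x 10) (.d 6211)))) (.p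
  13))) (.p 16)))) (.p 6)) (.p 1)) (.p 0)) (.w 7 (.w 14 (.w 16 (.w 8 (.w 5 (.x 5) (.w 3 (.x 3) (.w 4 (.x 4)
  (.w 10 (.x 10) (.w 15 (.w 2 (.x 16) (.w 9 (.x 9) (.w 11 (.x 11) (.d 8259)))) (.d 73794)))))) (.w 12 (.w 5
  (.x 5) (.w 3 (.x 3) (.w 4 (.x 4) (.w 10 (.x 10) (.w 15 (.w 2 (.x 2) (.w 9 (.x 9) (.w 11 (.x 11) (.d 4163))))
  (.d 69698)))))) (.p 13))) (.w 15 (.w 8 (.w 3 (.x 3) (.w 4 (.x 4) (.w 11 (.x 11) (.w 9 (.x 9) (.w 10 (.x 10)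
  (.w 12 (.w 2 (.x 2) (.d 41026)) (.d 33090))))))) (.w 12 (.w 3 (.x 3) (.w 4 (.x 4) (.w 11 (.x 11) (.w 2 (.x
  2) (.w 9 (.x 9) (.w 10 (.x 10) (.d 36930))))))) (.p 13))) (.p 0))) (.p 6)) (.p 1))

def c4 : Tr := .t 16 (.w 15 (.w 7 (.w 2 (.w 13 (.w 4 (.x 4) (.w 10 (.x 10) (.w 9 (.w 3 (.x 2) (.w 14 (.w 8 (.x
  2) (.w 12 (.x 12) (.d 98370))) (.d 106498))) (.w 11 (.w 3 (.x 2) (.w 14 (.w 5 (.x 11) (.w 8 (.x 2) (.w 12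
  (.x 12) (.d 65603)))) (.d 106498))) (.w 14 (.w 12 (.x 12) (.d 32838)) (.d 40966)))))) (.w 14 (.w 4 (.x 4)
  (.w 10 (.x 10) (.w 12 (.x 12) (.w 9 (.w 3 (.x 2) (.w 8 (.x 2) (.d 98370))) (.w 11 (.w 3 (.x 2) (.w 8 (.x 2)
  (.d 98370))) (.d 32838)))))) (.p 6))) (.w 13 (.w 9 (.w 4 (.x 4) (.w 10 (.x 10) (.w 11 (.w 3 (.x 3) (.w 14
  (.w 5 (.x 11) (.w 8 (.x 8) (.w 12 (.x 12) (.d 65603)))) (.d 106498))) (.w 14 (.w 8 (.x 8) (.w 12 (.x 12) (.d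
  33346))) (.d 41474))))) (.w 11 (.w 4 (.x 4) (.w 3 (.x 3) (.w 10 (.x 10) (.w 14 (.w 8 (.x 8) (.w 12 (.x 12)
  (.d 2115))) (.d 10243))))) (.p 16))) (.w 14 (.w 9 (.w 4 (.x 4) (.w 8 (.x 8) (.w 10 (.x 10) (.w 12 (.x 12)
  (.w 11 (.w 3 (.x 3) (.d 98370)) (.d 33346)))))) (.w 11 (.w 4 (.x 4) (.w 3 (.x 3) (.w 8 (.x 8) (.w 10 (.x 10)
  (.w 12 (.x 12) (.d 2115)))))) (.p 16))) (.p 6)))) (.p 1)) (.p 0)) (.w 7 (.w 16 (.w 13 (.w 5 (.x 5) (.w 3 (.x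
  3) (.w 4 (.x 4) (.w 10 (.x 10) (.w 14 (.w 8 (.x 8) (.w 12 (.x 12) (.w 15 (.w 2 (.x 2) (.w 9 (.x 9) (.w 11
  (.x 11) (.d 67)))) (.d 65602)))) (.w 15 (.w 2 (.x 2) (.w 9 (.x 9) (.w 11 (.x 11) (.d 8195)))) (.d
  73730))))))) (.w 14 (.w 5 (.x 5) (.w 3 (.x 3) (.w 4 (.x 4) (.w 8 (.x 8) (.w 10 (.x 10) (.w 12 (.x 12) (.w 15
  (.w 2 (.x 2) (.w 9 (.x 9) (.w 11 (.x 11) (.d 67)))) (.d 65602)))))))) (.p 6))) (.w 15 (.w 13 (.w 2 (.x 2)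
  (.w 4 (.x 4) (.w 3 (.x 3) (.w 11 (.x 11) (.w 9 (.x 9) (.w 10 (.x 10) (.w 14 (.w 8 (.x 8) (.w 12 (.x 12) (.d
  32834))) (.d 40962)))))))) (.w 14 (.w 2 (.x 2) (.w 4 (.x 4) (.w 3 (.x 3) (.w 11 (.x 11) (.w 8 (.x 8) (.w 9
  (.x 9) (.w 10 (.x 10) (.w 12 (.x 12) (.d 32834))))))))) (.p 6))) (.p 0))) (.p 1))

def c5 : Tr := .t 9 (.t 16 (.t 10 .z (.t 11 .z (.t 12 .z (.t 13 .z (.t 14 .z (.t 15 .z (.w 3 (.w 15 (.w 7 (.w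
  13 (.w 2 (.w 4 (.x 4) (.w 10 (.x 10) (.w 14 (.w 12 (.x 12) (.d 98374)) (.d 106502)))) (.w 11 (.w 4 (.x 4)
  (.w 10 (.x 10) (.w 14 (.w 5 (.d 8802) (.w 8 (.x 8) (.w 12 (.x 12) (.d 2123)))) (.d 10251)))) (.p 16))) (.w
  14 (.w 2 (.w 4 (.x 4) (.w 10 (.x 10) (.w 12 (.x 12) (.d 98374)))) (.w 11 (.w 4 (.x 4) (.w 8 (.x 8) (.w 10
  (.x 10) (.w 12 (.x 12) (.d 2123))))) (.p 16))) (.p 6))) (.p 1)) (.p 0)) (.p 9)))))))) (.s 9)) (.t 10 (.s 10)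
  (.t 11 (.t 16 (.t 12 .z (.t 13 .z (.t 14 .z (.t 15 .z (.w 5 (.w 7 (.w 15 (.w 2 (.w 13 (.w 10 (.x 10) (.w 9
  (.w 3 (.x 2) (.d 73826)) (.d 8294))) (.w 14 (.w 10 (.x 10) (.w 12 (.x 12) (.d 65638))) (.p 6))) (.w 9 (.w 13
  (.w 10 (.x 10) (.d 8802)) (.w 14 (.w 10 (.x 10) (.w 8 (.x 8) (.w 12 (.x 12) (.d 610)))) (.p 6))) (.p 16)))
  (.p 0)) (.p 1)) (.p 11)))))) (.s 11)) (.t 12 (.t 13 (.p 12) (.s 12)) (.t 13 (.t 14 (.p 6) (.t 15 (.t 16 .z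
  (.w 16 (.w 5 (.w 7 (.w 14 (.w 8 (.w 3 (.x 3) (.w 10 (.x 10) (.d 73826))) (.w 12 (.w 3 (.x 3) (.w 10 (.x 10)
  (.d 69730))) (.p 13))) (.p 6)) (.p 1)) (.p 15)) (.p 0))) c3)) (.t 14 (.p 14) (.t 15 (.t 16 (.p 0) (.w 16 (.w
  5 (.w 7 (.w 13 (.w 3 (.x 3) (.w 10 (.x 10) (.w 14 (.w 8 (.x 8) (.w 12 (.x 12) (.d 65634))) (.d 73762)))) (.w
  14 (.w 3 (.x 3) (.w 8 (.x 8) (.w 10 (.x 10) (.w 12 (.x 12) (.d 65634))))) (.p 6))) (.p 1)) (.p 15)) (.p 0)))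
  c4))))))

def c6 : Tr := .w 2 (.w 6 (.w 5 (.x 5) (.w 4 (.x 4) (.w 12 (.x 12) (.w 10 (.x 10) (.w 9 (.w 8 (.x 2) (.w 3 (.x
  2) (.w 15 (.w 13 (.x 6) (.w 14 (.x 6) (.d 65539))) (.d 65602)))) (.w 11 (.w 8 (.x 2) (.w 3 (.x 2) (.w 15 (.w
  13 (.x 6) (.w 14 (.x 6) (.d 65539))) (.d 65602)))) (.w 15 (.w 13 (.x 6) (.w 14 (.x 6) (.d 7))) (.d
  70)))))))) (.w 15 (.w 4 (.x 4) (.w 13 (.x 13) (.w 10 (.x 10) (.w 12 (.x 12) (.w 14 (.x 14) (.w 9 (.w 3 (.x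
  2) (.w 8 (.x 2) (.d 98306))) (.w 11 (.w 3 (.x 2) (.w 8 (.x 2) (.d 98306))) (.d 32774)))))))) (.p 0))) (.w 6
  (.w 9 (.w 5 (.x 5) (.w 4 (.x 4) (.w 8 (.x 8) (.w 12 (.x 12) (.w 10 (.x 10) (.w 11 (.w 3 (.x 3) (.w 15 (.w 13
  (.x 6) (.w 14 (.x 6) (.d 65539))) (.d 65602))) (.w 15 (.w 13 (.x 6) (.w 14 (.x 6) (.d 515))) (.d 578))))))))
  (.w 11 (.w 4 (.x 4) (.w 8 (.x 8) (.w 12 (.x 12) (.w 3 (.x 3) (.w 10 (.x 10) (.w 15 (.w 5 (.x 15) (.w 13 (.x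
  6) (.w 14 (.x 6) (.d 2051)))) (.d 2114))))))) (.p 16))) (.w 15 (.w 9 (.w 4 (.x 4) (.w 13 (.x 13) (.w 8 (.x
  8) (.w 10 (.x 10) (.w 12 (.x 12) (.w 14 (.x 14) (.w 11 (.w 3 (.x 3) (.d 98306)) (.d 33282)))))))) (.w 11 (.w
  4 (.x 4) (.w 13 (.x 13) (.w 3 (.x 3) (.w 8 (.x 8) (.w 10 (.x 10) (.w 12 (.x 12) (.w 14 (.x 14) (.d
  2051)))))))) (.p 16))) (.p 0)))

def c7 : Tr := .t 15 (.t 16 (.w 5 (.w 6 (.w 7 (.w 2 (.w 10 (.x 10) (.w 12 (.x 12) (.w 9 (.w 8 (.x 2) (.w 3 (.x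
  2) (.d 65634))) (.d 102)))) (.w 9 (.w 8 (.x 8) (.w 10 (.x 10) (.w 12 (.x 12) (.d 610)))) (.w 11 (.w 8 (.x 8)
  (.w 10 (.x 10) (.w 12 (.x 12) (.w 3 (.x 3) (.d 99))))) (.p 16)))) (.p 1)) (.p 0)) (.p 15)) (.w 5 (.w 7 (.w
  16 (.w 13 (.x 13) (.w 3 (.x 3) (.w 8 (.x 8) (.w 10 (.x 10) (.w 14 (.x 14) (.w 12 (.x 12) (.w 6 (.w 2 (.x 2)
  (.w 9 (.x 9) (.d 35))) (.d 65570)))))))) (.w 6 (.w 2 (.x 2) (.w 3 (.x 3) (.w 8 (.x 8) (.w 10 (.x 10) (.w 12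
  (.x 12) (.w 9 (.x 9) (.d 98))))))) (.p 0))) (.p 1)) (.p 15))) (.t 16 (.w 7 c6 (.p 1)) (.w 7 (.w 16 (.w 5 (.x
  5) (.w 13 (.x 13) (.w 3 (.x 3) (.w 4 (.x 4) (.w 8 (.x 8) (.w 14 (.x 14) (.w 10 (.x 10) (.w 12 (.x 12) (.w 6
  (.w 2 (.x 2) (.w 9 (.x 9) (.w 11 (.x 11) (.d 3)))) (.w 15 (.w 2 (.x 2) (.w 9 (.x 9) (.w 11 (.x 11) (.d 3))))
  (.d 65538))))))))))) (.w 6 (.w 5 (.x 5) (.w 2 (.x 2) (.w 3 (.x 3) (.w 4 (.x 4) (.w 8 (.x 8) (.w 12 (.x 12)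
  (.w 9 (.x 9) (.w 10 (.x 10) (.w 11 (.x 11) (.w 15 (.w 13 (.x 6) (.w 14 (.x 6) (.d 3))) (.d 66))))))))))) (.w
  15 (.w 2 (.x 2) (.w 4 (.x 4) (.w 13 (.x 13) (.w 3 (.x 3) (.w 11 (.x 11) (.w 8 (.x 8) (.w 9 (.x 9) (.w 10 (.x
  10) (.w 12 (.x 12) (.w 14 (.x 14) (.d 32770))))))))))) (.p 0)))) (.p 1)))

def c8 : Tr := .t 9 (.t 16 (.t 10 (.s 10) (.t 11 (.t 12 .z (.t 13 .z (.t 14 .z (.t 15 .z (.w 2 (.w 5 (.w 3 (.w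
  7 (.w 6 (.w 10 (.x 10) (.w 12 (.x 12) (.d 110))) (.w 15 (.w 13 (.x 13) (.w 10 (.x 10) (.w 12 (.x 12) (.w 14
  (.x 14) (.d 46))))) (.p 0))) (.p 1)) (.p 9)) (.p 11)) (.p 16)))))) (.t 12 (.t 13 .z (.s 12)) (.t 13 (.s 13)
  (.t 14 (.s 14) (.t 15 (.w 5 (.w 6 (.w 3 (.w 7 (.w 2 (.w 10 (.x 10) (.w 12 (.x 12) (.d 110))) (.w 11 (.w 8
  (.x 8) (.w 10 (.x 10) (.w 12 (.x 12) (.d 107)))) (.p 16))) (.p 1)) (.p 9)) (.p 0)) (.p 15)) (.w 3 (.w 7 (.w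
  6 (.w 2 (.w 5 (.x 5) (.w 4 (.x 4) (.w 12 (.x 12) (.w 10 (.x 10) (.w 15 (.w 13 (.x 6) (.w 14 (.x 6) (.d
  65543))) (.d 65606)))))) (.w 11 (.w 4 (.x 4) (.w 8 (.x 8) (.w 12 (.x 12) (.w 10 (.x 10) (.w 15 (.w 5 (.x 15)
  (.w 13 (.x 6) (.w 14 (.x 6) (.d 2059)))) (.d 2122)))))) (.p 16))) (.w 15 (.w 2 (.w 4 (.x 4) (.w 13 (.x 13)
  (.w 10 (.x 10) (.w 12 (.x 12) (.w 14 (.x 14) (.d 98310)))))) (.w 11 (.w 4 (.x 4) (.w 13 (.x 13) (.w 8 (.x 8)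
  (.w 10 (.x 10) (.w 12 (.x 12) (.w 14 (.x 14) (.d 2059))))))) (.p 16))) (.p 0))) (.p 1)) (.p 9)))))))) (.s
  9)) (.t 10 (.s 10) (.t 11 (.t 16 (.t 12 (.t 13 .z (.s 12)) (.t 13 (.s 13) (.t 14 (.s 14) (.t 15 (.p 11) (.w
  5 (.w 7 (.w 2 (.w 6 (.w 10 (.x 10) (.w 12 (.x 12) (.w 9 (.w 8 (.x 2) (.w 3 (.x 2) (.d 65634))) (.d 102))))
  (.w 15 (.w 13 (.x 13) (.w 10 (.x 10) (.w 12 (.x 12) (.w 14 (.x 14) (.d 65574))))) (.p 0))) (.w 9 (.w 6 (.w 8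
  (.x 8) (.w 10 (.x 10) (.w 12 (.x 12) (.d 610)))) (.w 15 (.w 13 (.x 13) (.w 10 (.x 10) (.w 8 (.x 8) (.w 12
  (.x 12) (.w 14 (.x 14) (.d 546)))))) (.p 0))) (.p 16))) (.p 1)) (.p 11)))))) (.s 11)) (.t 12 (.t 13 (.p 12)
  (.s 12)) (.t 13 (.s 13) (.t 14 (.s 14) c7)))))

def c9 : Tr := .t 4 (.t 5 (.t 6 (.t 7 .z (.t 8 .z (.t 9 .z (.t 10 .z (.t 11 .z (.t 12 .z (.t 13 .z (.t 14 .z
  (.t 15 .z (.t 16 .z (.w 16 (.w 7 (.w 10 (.w 11 (.w 13 (.w 3 (.x 3) (.w 14 (.w 8 (.x 8) (.w 12 (.x 12) (.d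
  65619))) (.d 73747))) (.w 14 (.w 3 (.x 3) (.w 8 (.x 8) (.w 12 (.x 12) (.d 65619)))) (.p 6))) (.p 5)) (.p 4))
  (.p 1)) (.p 0)))))))))))) (.t 7 (.p 1) (.t 8 (.t 13 .z (.s 8)) (.t 9 (.t 16 .z (.s 9)) (.t 10 (.p 4) (.t 11
  (.p 5) (.t 12 (.t 13 .z (.s 12)) (.t 13 (.s 13) (.t 14 (.s 14) (.t 15 (.p 15) (.t 16 (.p 5) (.w 11 (.w 7 (.w
  10 (.w 6 (.w 2 (.x 2) (.w 9 (.x 9) (.w 8 (.x 8) (.w 12 (.x 12) (.w 3 (.x 3) (.w 16 (.w 13 (.x 6) (.w 14 (.x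
  6) (.d 51))) (.d 114))))))) (.w 16 (.w 3 (.x 3) (.w 8 (.x 8) (.w 12 (.x 12) (.w 13 (.x 13) (.w 14 (.x 14)
  (.d 65555)))))) (.p 0))) (.p 4)) (.p 1)) (.p 5))))))))))))) (.t 10 (.p 10) (.s 4))) (.t 5 (.t 11 (.p 11) (.t
  15 (.p 15) (.s 5))) (.t 6 (.t 7 (.p 1) (.t 8 (.t 13 (.t 9 .z (.t 10 .z (.t 11 .z (.t 12 .z (.t 14 .z (.t 15
  .z (.t 16 .z (.w 2 (.w 7 (.w 12 (.w 14 (.w 16 (.w 5 (.x 5) (.w 4 (.x 4) (.w 10 (.x 10) (.w 15 (.w 3 (.w 11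
  (.x 11) (.d 8267)) (.d 73795)) (.d 69702))))) (.w 15 (.w 4 (.x 4) (.w 9 (.x 9) (.w 11 (.x 11) (.w 10 (.x 10)
  (.d 36934))))) (.p 0))) (.p 6)) (.p 13)) (.p 1)) (.p 8))))))))) (.s 8)) c5)) (.t 7 (.p 1) (.t 8 (.t 13 (.t 9
  (.t 16 .z (.s 9)) (.t 10 (.s 10) (.t 11 (.t 16 .z (.s 11)) (.t 12 (.p 12) (.t 14 (.s 14) (.t 15 (.t 16 .z
  (.w 16 (.w 5 (.w 2 (.w 7 (.w 12 (.w 10 (.x 10) (.w 14 (.x 14) (.d 73766))) (.p 13)) (.p 1)) (.p 8)) (.p 15))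
  (.p 0))) (.t 16 (.p 8) (.w 2 (.w 7 (.w 12 (.w 16 (.w 5 (.x 5) (.w 4 (.x 4) (.w 14 (.x 14) (.w 10 (.x 10) (.w
  15 (.w 3 (.w 11 (.x 11) (.d 8203)) (.d 73731)) (.d 73734)))))) (.w 15 (.w 4 (.x 4) (.w 9 (.x 9) (.w 11 (.x
  11) (.w 14 (.x 14) (.w 10 (.x 10) (.d 40966)))))) (.p 0))) (.p 13)) (.p 1)) (.p 8))))))))) (.s 8)) c8))))

def c10 : Tr := .w 13 (.w 1 (.w 3 (.w 11 (.w 4 (.x 4) (.w 10 (.x 10) (.w 15 (.w 5 (.x 15) (.w 7 (.x 1) (.w 14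
  (.w 12 (.x 12) (.d 65605)) (.d 73733)))) (.w 14 (.w 12 (.x 12) (.w 8 (.w 9 (.w 5 (.x 5) (.d 65606)) (.d
  2118)) (.d 2122))) (.d 10250))))) (.w 9 (.w 4 (.x 4) (.w 5 (.x 5) (.w 10 (.x 10) (.w 14 (.w 7 (.w 15 (.x 1)
  (.w 12 (.x 12) (.d 78))) (.d 8265)) (.d 8203))))) (.p 16))) (.w 8 (.w 11 (.w 4 (.x 4) (.w 10 (.x 10) (.w 15
  (.w 14 (.w 5 (.x 15) (.w 7 (.x 1) (.d 73793))) (.d 106498)) (.w 14 (.w 5 (.w 9 (.x 5) (.w 12 (.x 12) (.d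
  102))) (.d 73794)) (.d 75778))))) (.w 9 (.w 4 (.x 4) (.w 5 (.x 5) (.w 10 (.x 10) (.w 14 (.w 15 (.w 7 (.x 1)
  (.d 73793)) (.d 73794)) (.d 73731))))) (.p 16))) (.p 2))) (.w 15 (.w 3 (.w 11 (.w 4 (.x 4) (.w 7 (.x 7) (.w
  10 (.x 10) (.w 14 (.w 12 (.x 12) (.d 98372)) (.d 106500))))) (.w 9 (.w 4 (.x 4) (.w 7 (.x 7) (.w 10 (.x 10)
  (.w 14 (.w 12 (.x 12) (.d 32844)) (.d 40972))))) (.p 16))) (.w 8 (.w 11 (.w 4 (.x 4) (.w 7 (.x 7) (.w 10 (.x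
  10) (.d 106560)))) (.w 9 (.w 4 (.x 4) (.w 7 (.x 7) (.w 10 (.x 10) (.d 106560)))) (.p 16))) (.p 2))) (.p 0)))
  (.w 14 (.w 1 (.w 3 (.w 11 (.w 4 (.x 4) (.w 10 (.x 10) (.w 12 (.x 12) (.w 15 (.w 5 (.x 15) (.w 7 (.x 1) (.d
  65605))) (.w 8 (.w 9 (.w 5 (.x 5) (.d 65606)) (.d 2118)) (.d 2122)))))) (.w 9 (.w 4 (.x 4) (.w 5 (.x 5) (.w
  10 (.x 10) (.w 12 (.x 12) (.w 8 (.w 15 (.w 7 (.x 1) (.d 77)) (.d 78)) (.d 75)))))) (.p 16))) (.w 8 (.w 11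
  (.w 4 (.x 4) (.w 10 (.x 10) (.w 12 (.x 12) (.w 15 (.w 5 (.x 15) (.w 7 (.x 1) (.d 65605))) (.w 9 (.w 5 (.x 5)
  (.d 65606)) (.d 2118)))))) (.w 9 (.w 4 (.x 4) (.w 5 (.x 5) (.w 10 (.x 10) (.w 12 (.x 12) (.w 15 (.w 7 (.x 1)
  (.d 581)) (.d 582)))))) (.p 16))) (.p 2))) (.w 15 (.w 3 (.w 11 (.w 4 (.x 4) (.w 7 (.x 7) (.w 10 (.x 10) (.w
  12 (.x 12) (.d 98372))))) (.w 9 (.w 4 (.x 4) (.w 7 (.x 7) (.w 10 (.x 10) (.w 12 (.x 12) (.d 32844))))) (.p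
  16))) (.w 8 (.w 11 (.w 4 (.x 4) (.w 7 (.x 7) (.w 10 (.x 10) (.w 12 (.x 12) (.d 98372))))) (.w 9 (.w 4 (.x 4)
  (.w 7 (.x 7) (.w 10 (.x 10) (.w 12 (.x 12) (.d 33348))))) (.p 16))) (.p 2))) (.p 0))) (.p 6))

def c11 : Tr := .t 11 (.t 12 .z (.t 13 .z (.t 14 .z (.t 15 .z (.w 5 (.w 9 (.w 13 (.w 1 (.w 3 (.w 10 (.x 10)
  (.w 14 (.w 12 (.x 12) (.d 110)) (.d 8238))) (.w 8 (.w 10 (.x 10) (.d 73826)) (.p 2))) (.w 15 (.w 3 (.w 10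
  (.x 10) (.w 7 (.x 7) (.d 8300))) (.w 8 (.w 10 (.x 10) (.w 7 (.x 7) (.d 8804))) (.p 2))) (.p 0))) (.w 14 (.w
  1 (.w 3 (.w 10 (.x 10) (.w 12 (.x 12) (.d 110))) (.w 8 (.w 10 (.x 10) (.w 12 (.x 12) (.d 614))) (.p 2))) (.w
  15 (.w 3 (.w 10 (.x 10) (.w 7 (.x 7) (.w 12 (.x 12) (.d 108)))) (.w 8 (.w 10 (.x 10) (.w 7 (.x 7) (.w 12 (.x
  12) (.d 612)))) (.p 2))) (.p 0))) (.p 6))) (.p 16)) (.p 11)))))) (.t 12 (.t 13 .z (.s 12)) (.t 13 (.t 14 .z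
  (.t 15 .z (.w 3 (.w 12 (.w 14 (.w 1 (.w 11 (.w 4 (.x 4) (.w 10 (.x 10) (.w 15 (.w 7 (.x 1) (.d 10313)) (.d
  10314)))) (.w 9 (.w 4 (.x 4) (.w 5 (.x 5) (.w 10 (.x 10) (.d 8267)))) (.p 16))) (.w 15 (.w 11 (.w 4 (.x 4)
  (.w 7 (.x 7) (.w 10 (.x 10) (.d 102468)))) (.w 9 (.w 4 (.x 4) (.w 7 (.x 7) (.w 10 (.x 10) (.d 36940)))) (.p
  16))) (.p 0))) (.p 6)) (.p 13)) (.p 2)))) (.t 14 (.p 14) (.t 15 (.w 5 (.w 1 (.w 13 (.w 3 (.w 8 (.w 9 (.w 10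
  (.x 10) (.w 14 (.w 12 (.x 12) (.d 110)) (.d 8238))) (.w 11 (.w 10 (.x 10) (.d 8294)) (.p 16))) (.w 9 (.w 10
  (.x 10) (.w 14 (.w 12 (.x 12) (.d 110)) (.d 8238))) (.w 11 (.w 10 (.x 10) (.d 8294)) (.p 16)))) (.w 8 (.w 10
  (.w 9 (.x 10) (.w 11 (.x 10) (.p 16))) (.d 73826)) (.p 2))) (.w 14 (.w 3 (.w 8 (.w 9 (.w 10 (.x 10) (.w 12
  (.x 12) (.d 110))) (.w 11 (.w 10 (.x 10) (.w 12 (.x 12) (.d 102))) (.p 16))) (.w 9 (.w 10 (.x 10) (.w 12 (.x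
  12) (.d 110))) (.w 11 (.w 10 (.x 10) (.w 12 (.x 12) (.d 102))) (.p 16)))) (.w 8 (.w 9 (.w 10 (.x 10) (.w 12
  (.x 12) (.d 614))) (.w 11 (.w 10 (.x 10) (.w 12 (.x 12) (.d 102))) (.p 16))) (.p 2))) (.p 6))) (.p 0)) (.p
  15)) c10))))

def c12 : Tr := .t 3 (.t 4 (.t 5 .z (.t 10 .z (.s 4))) (.t 5 (.t 11 .z (.t 15 .z (.s 5))) (.t 7 (.s 7) (.t 8
  (.p 2) (.t 9 (.p 3) (.t 10 (.s 10) (.t 11 (.t 16 .z (.s 11)) (.t 12 (.t 13 .z (.s 12)) (.t 13 (.p 2) (.t 14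
  (.p 14) (.t 15 (.t 16 .z (.w 5 (.w 1 (.w 8 (.w 9 (.w 13 (.w 10 (.x 10) (.w 14 (.w 12 (.x 12) (.d 110)) (.d
  8235))) (.w 14 (.w 10 (.x 10) (.w 12 (.x 12) (.d 110))) (.p 6))) (.p 3)) (.p 2)) (.p 0)) (.p 15))) (.t 16
  (.p 3) (.w 8 (.w 9 (.w 1 (.w 13 (.w 5 (.x 5) (.w 4 (.x 4) (.w 11 (.x 11) (.w 10 (.x 10) (.w 14 (.w 7 (.w 15
  (.x 1) (.w 12 (.x 12) (.d 78))) (.d 8265)) (.d 8203)))))) (.w 14 (.w 5 (.x 5) (.w 4 (.x 4) (.w 11 (.x 11)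
  (.w 10 (.x 10) (.w 12 (.x 12) (.w 15 (.w 7 (.x 1) (.d 77)) (.d 78))))))) (.p 6))) (.w 15 (.w 13 (.w 4 (.x 4)
  (.w 11 (.x 11) (.w 7 (.x 7) (.w 10 (.x 10) (.w 14 (.w 12 (.x 12) (.d 32844)) (.d 40969)))))) (.w 14 (.w 4
  (.x 4) (.w 11 (.x 11) (.w 7 (.x 7) (.w 10 (.x 10) (.w 12 (.x 12) (.d 32844)))))) (.p 6))) (.p 0))) (.p 3))
  (.p 2)))))))))))))) (.t 8 (.p 8) (.t 16 (.t 4 (.t 5 .z (.t 10 .z (.s 4))) (.t 5 (.t 11 .z (.t 15 .z (.s 5)))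
  (.t 7 (.s 7) (.t 9 (.p 9) (.t 10 (.s 10) c11))))) (.s 2)))

def c13 : Tr := .w 1 (.w 2 (.w 11 (.w 15 (.w 8 (.w 4 (.x 4) (.w 5 (.x 5) (.w 7 (.x 1) (.w 10 (.x 10) (.d
  10313))))) (.w 12 (.w 4 (.x 4) (.w 5 (.x 5) (.w 7 (.x 1) (.w 10 (.x 10) (.d 6217))))) (.p 13))) (.w 8 (.w 4
  (.x 4) (.w 10 (.x 10) (.d 10314))) (.w 12 (.w 4 (.x 4) (.w 10 (.x 10) (.d 6218))) (.p 13)))) (.w 15 (.w 8
  (.w 4 (.x 4) (.w 5 (.x 5) (.w 10 (.x 10) (.d 8267)))) (.w 12 (.w 4 (.x 4) (.w 5 (.x 5) (.w 10 (.x 10) (.d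
  4171)))) (.p 13))) (.w 8 (.w 4 (.x 4) (.w 5 (.x 5) (.w 10 (.x 10) (.d 8270)))) (.w 12 (.w 4 (.x 4) (.w 5 (.x
  5) (.w 10 (.x 10) (.d 4174)))) (.p 13))))) (.w 11 (.w 15 (.w 8 (.w 4 (.x 4) (.w 5 (.x 15) (.w 7 (.x 1) (.w
  10 (.x 10) (.d 10313))))) (.w 12 (.w 4 (.x 4) (.w 5 (.x 15) (.w 7 (.x 1) (.w 10 (.x 10) (.d 6217))))) (.p
  13))) (.w 8 (.w 4 (.x 4) (.w 10 (.x 10) (.d 10314))) (.w 12 (.w 4 (.x 4) (.w 10 (.x 10) (.d 6218))) (.p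
  13)))) (.p 16))) (.w 15 (.w 2 (.w 11 (.w 8 (.w 4 (.x 4) (.w 5 (.x 11) (.w 7 (.x 7) (.w 10 (.x 10) (.d
  10313))))) (.w 12 (.w 4 (.x 4) (.w 5 (.x 11) (.w 7 (.x 7) (.w 10 (.x 10) (.d 6217))))) (.p 13))) (.w 8 (.w 4
  (.x 4) (.w 7 (.x 7) (.w 10 (.x 10) (.d 41036)))) (.w 12 (.w 4 (.x 4) (.w 7 (.x 7) (.w 10 (.x 10) (.d
  36940)))) (.p 13)))) (.w 11 (.w 8 (.w 4 (.x 4) (.w 7 (.x 7) (.w 10 (.x 10) (.d 10313)))) (.w 12 (.w 4 (.x 4)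
  (.w 7 (.x 7) (.w 10 (.x 10) (.d 6217)))) (.p 13))) (.p 16))) (.p 0))

def c14 : Tr := .t 15 (.w 5 (.w 1 (.w 3 (.w 13 (.w 2 (.w 10 (.x 10) (.w 14 (.w 12 (.x 12) (.d 110)) (.d
  8238))) (.w 11 (.w 10 (.x 10) (.d 8802)) (.p 16))) (.w 14 (.w 2 (.w 10 (.x 10) (.w 12 (.x 12) (.d 110))) (.w
  11 (.w 10 (.x 10) (.w 8 (.x 8) (.w 12 (.x 12) (.d 107)))) (.p 16))) (.p 6))) (.p 9)) (.p 0)) (.p 15)) (.w 3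
  (.w 13 (.w 1 (.w 2 (.w 5 (.x 5) (.w 4 (.x 4) (.w 10 (.x 10) (.w 11 (.w 14 (.w 8 (.x 8) (.w 12 (.x 12) (.w 15
  (.w 7 (.x 1) (.d 2121)) (.d 2122)))) (.w 15 (.w 7 (.x 1) (.d 10249)) (.d 10250))) (.w 14 (.w 7 (.w 15 (.x 1)
  (.w 12 (.x 12) (.d 78))) (.d 8265)) (.d 8203)))))) (.w 11 (.w 4 (.x 4) (.w 10 (.x 10) (.w 15 (.w 5 (.x 15)
  (.w 7 (.x 1) (.w 14 (.w 8 (.x 8) (.w 12 (.x 12) (.d 2121))) (.d 10249)))) (.w 14 (.w 8 (.x 8) (.w 12 (.x 12)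
  (.d 2122))) (.d 10250))))) (.p 16))) (.w 15 (.w 2 (.w 4 (.x 4) (.w 7 (.x 7) (.w 10 (.x 10) (.w 14 (.w 12 (.x
  12) (.d 98372)) (.d 106500))))) (.w 11 (.w 4 (.x 4) (.w 7 (.x 7) (.w 10 (.x 10) (.w 14 (.w 5 (.d 8800) (.w 8
  (.x 8) (.w 12 (.x 12) (.d 2121)))) (.d 10249))))) (.p 16))) (.p 0))) (.w 14 (.w 1 (.w 2 (.w 5 (.x 5) (.w 4
  (.x 4) (.w 10 (.x 10) (.w 12 (.x 12) (.w 15 (.w 7 (.x 1) (.d 65605)) (.d 65606)))))) (.w 11 (.w 4 (.x 4) (.w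
  8 (.x 8) (.w 10 (.x 10) (.w 12 (.x 12) (.w 15 (.w 7 (.x 1) (.d 2121)) (.d 2122)))))) (.p 16))) (.w 15 (.w 2
  (.w 4 (.x 4) (.w 7 (.x 7) (.w 10 (.x 10) (.w 12 (.x 12) (.d 98372))))) (.w 11 (.w 4 (.x 4) (.w 7 (.x 7) (.w
  8 (.x 8) (.w 10 (.x 10) (.w 12 (.x 12) (.d 2121)))))) (.p 16))) (.p 0))) (.p 6))) (.p 9))

def c15 : Tr := .t 13 (.t 14 .z (.t 15 .z (.w 5 (.w 14 (.w 2 (.w 1 (.w 9 (.w 8 (.w 10 (.x 10) (.w 3 (.x 9) (.d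
  73826))) (.w 12 (.w 10 (.x 10) (.w 3 (.x 2) (.d 69730))) (.p 13))) (.w 10 (.w 12 (.x 10) (.d 1126)) (.d
  8294))) (.w 15 (.w 9 (.w 8 (.w 10 (.x 10) (.w 7 (.x 7) (.d 8804))) (.w 12 (.w 10 (.x 10) (.w 7 (.x 7) (.d
  4708))) (.p 13))) (.w 8 (.w 10 (.x 10) (.w 7 (.x 7) (.d 8292))) (.w 12 (.w 10 (.x 10) (.w 7 (.x 7) (.d
  4196))) (.p 13)))) (.p 0))) (.w 9 (.w 1 (.w 10 (.w 8 (.x 10) (.w 12 (.x 10) (.p 13))) (.d 8802)) (.w 15 (.w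
  8 (.w 10 (.x 10) (.w 7 (.x 7) (.d 8800))) (.w 12 (.w 10 (.x 10) (.w 7 (.x 7) (.d 4704))) (.p 13))) (.p 0)))
  (.p 16))) (.p 6)) (.p 11)))) (.t 14 (.p 14) (.t 15 (.p 11) (.w 5 (.w 2 (.w 13 (.w 1 (.w 10 (.x 10) (.w 9 (.w
  3 (.x 2) (.w 14 (.w 8 (.x 2) (.w 12 (.x 12) (.d 65634))) (.d 73762))) (.w 14 (.w 12 (.x 12) (.d 102)) (.d
  8230)))) (.w 15 (.w 10 (.x 10) (.w 7 (.x 7) (.w 9 (.w 3 (.x 2) (.d 73824)) (.d 8292)))) (.p 0))) (.w 14 (.w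
  1 (.w 10 (.x 10) (.w 12 (.x 12) (.w 9 (.w 3 (.x 2) (.w 8 (.x 2) (.d 65634))) (.d 102)))) (.w 15 (.w 10 (.x
  10) (.w 7 (.x 7) (.w 12 (.x 12) (.d 65636)))) (.p 0))) (.p 6))) (.w 9 (.w 13 (.w 1 (.w 10 (.x 10) (.w 14 (.w
  8 (.x 8) (.w 12 (.x 12) (.d 610))) (.d 8738))) (.w 15 (.w 10 (.x 10) (.w 7 (.x 7) (.d 8800))) (.p 0))) (.w
  14 (.w 1 (.w 10 (.x 10) (.w 8 (.x 8) (.w 12 (.x 12) (.d 610)))) (.w 15 (.w 10 (.x 10) (.w 7 (.x 7) (.w 8 (.x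
  8) (.w 12 (.x 12) (.d 608))))) (.p 0))) (.p 6))) (.p 16))) (.p 11))))

def c16 : Tr := .w 9 (.w 11 (.w 15 (.w 8 (.w 4 (.x 4) (.w 3 (.x 3) (.w 5 (.x 5) (.w 7 (.x 1) (.w 10 (.x 10)
  (.d 73793)))))) (.w 12 (.w 4 (.x 4) (.w 3 (.x 2) (.w 5 (.x 5) (.w 7 (.x 1) (.w 10 (.x 10) (.d 69697))))))
  (.p 13))) (.w 8 (.w 4 (.x 4) (.w 3 (.x 3) (.w 5 (.x 5) (.w 10 (.x 10) (.d 73794))))) (.w 12 (.w 4 (.x 4) (.w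
  3 (.x 2) (.w 5 (.x 5) (.w 10 (.x 10) (.d 69698))))) (.p 13)))) (.w 15 (.w 8 (.w 4 (.x 4) (.w 3 (.x 9) (.w 5
  (.x 5) (.w 7 (.x 1) (.w 10 (.x 10) (.d 73793)))))) (.w 12 (.w 4 (.x 4) (.w 3 (.x 2) (.w 5 (.x 5) (.w 7 (.x
  1) (.w 10 (.x 10) (.d 69697)))))) (.p 13))) (.w 8 (.w 4 (.x 4) (.w 3 (.x 9) (.w 5 (.x 5) (.w 10 (.x 10) (.d
  73794))))) (.w 12 (.w 4 (.x 4) (.w 3 (.x 2) (.w 5 (.x 5) (.w 10 (.x 10) (.d 69698))))) (.p 13))))) (.w 11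
  (.w 15 (.w 8 (.w 4 (.x 4) (.w 3 (.x 3) (.w 5 (.x 5) (.w 7 (.x 1) (.w 10 (.x 10) (.d 73793)))))) (.w 12 (.w 4
  (.x 4) (.w 3 (.x 2) (.w 5 (.x 5) (.w 7 (.x 1) (.w 10 (.x 10) (.d 69697)))))) (.p 13))) (.w 8 (.w 4 (.x 4)
  (.w 3 (.x 3) (.w 5 (.x 5) (.w 10 (.x 10) (.d 73794))))) (.w 12 (.w 4 (.x 4) (.w 3 (.x 2) (.w 5 (.x 5) (.w 10
  (.x 10) (.d 69698))))) (.p 13)))) (.w 15 (.w 8 (.w 4 (.x 4) (.w 5 (.x 5) (.w 7 (.x 1) (.w 10 (.x 10) (.d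
  8261))))) (.w 12 (.w 4 (.x 4) (.w 5 (.x 5) (.w 7 (.x 1) (.w 10 (.x 10) (.d 4165))))) (.p 13))) (.w 8 (.w 4
  (.x 4) (.w 5 (.x 5) (.w 10 (.x 10) (.d 8262)))) (.w 12 (.w 4 (.x 4) (.w 5 (.x 5) (.w 10 (.x 10) (.d 4166))))
  (.p 13)))))

def c17 : Tr := .w 1 (.w 9 (.w 11 (.w 15 (.w 8 (.w 4 (.x 4) (.w 3 (.x 3) (.w 5 (.x 5) (.w 7 (.x 1) (.w 10 (.x
  10) (.d 73793)))))) (.w 12 (.w 4 (.x 4) (.w 3 (.x 3) (.w 5 (.x 5) (.w 7 (.x 1) (.w 10 (.x 10) (.d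
  69697)))))) (.p 13))) (.w 8 (.w 4 (.x 4) (.w 3 (.x 3) (.w 5 (.x 5) (.w 10 (.x 10) (.d 73794))))) (.w 12 (.w
  4 (.x 4) (.w 3 (.x 3) (.w 5 (.x 5) (.w 10 (.x 10) (.d 69698))))) (.p 13)))) (.w 15 (.w 8 (.w 4 (.x 4) (.w 5
  (.x 5) (.w 7 (.x 1) (.w 10 (.x 10) (.d 8769))))) (.w 12 (.w 4 (.x 4) (.w 5 (.x 5) (.w 7 (.x 1) (.w 10 (.x
  10) (.d 4673))))) (.p 13))) (.w 8 (.w 4 (.x 4) (.w 5 (.x 5) (.w 10 (.x 10) (.d 8770)))) (.w 12 (.w 4 (.x 4)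
  (.w 5 (.x 5) (.w 10 (.x 10) (.d 4674)))) (.p 13))))) (.w 11 (.w 15 (.w 8 (.w 4 (.x 4) (.w 3 (.x 3) (.w 5 (.x
  15) (.w 7 (.x 1) (.w 10 (.x 10) (.d 10305)))))) (.w 12 (.w 4 (.x 4) (.w 3 (.x 3) (.w 5 (.x 15) (.w 7 (.x 1)
  (.w 10 (.x 10) (.d 6209)))))) (.p 13))) (.w 8 (.w 4 (.x 4) (.w 3 (.x 3) (.w 10 (.x 10) (.d 10306)))) (.w 12
  (.w 4 (.x 4) (.w 3 (.x 3) (.w 10 (.x 10) (.d 6210)))) (.p 13)))) (.p 16))) (.w 15 (.w 9 (.w 11 (.w 8 (.w 4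
  (.x 4) (.w 3 (.x 3) (.w 5 (.x 11) (.w 7 (.x 7) (.w 10 (.x 10) (.d 73793)))))) (.w 12 (.w 4 (.x 4) (.w 3 (.x
  3) (.w 5 (.x 11) (.w 7 (.x 7) (.w 10 (.x 10) (.d 69697)))))) (.p 13))) (.w 8 (.w 4 (.x 4) (.w 7 (.x 7) (.w
  10 (.x 10) (.d 41536)))) (.w 12 (.w 4 (.x 4) (.w 7 (.x 7) (.w 10 (.x 10) (.d 37440)))) (.p 13)))) (.w 11 (.w
  8 (.w 4 (.x 4) (.w 3 (.x 3) (.w 7 (.x 7) (.w 10 (.x 10) (.d 10305))))) (.w 12 (.w 4 (.x 4) (.w 3 (.x 3) (.w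
  7 (.x 7) (.w 10 (.x 10) (.d 6209))))) (.p 13))) (.p 16))) (.p 0))

def c18 : Tr := .w 16 (.w 1 (.w 8 (.w 5 (.x 5) (.w 3 (.x 3) (.w 4 (.x 4) (.w 2 (.x 16) (.w 7 (.x 1) (.w 9 (.x
  9) (.w 10 (.x 10) (.w 11 (.x 11) (.d 8257))))))))) (.w 12 (.w 5 (.x 5) (.w 3 (.x 3) (.w 4 (.x 4) (.w 2 (.x
  2) (.w 7 (.x 1) (.w 9 (.x 9) (.w 10 (.x 10) (.w 11 (.x 11) (.d 4161))))))))) (.p 13))) (.w 8 (.w 5 (.x 5)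
  (.w 3 (.x 3) (.w 4 (.x 4) (.w 7 (.x 7) (.w 10 (.x 10) (.w 15 (.w 2 (.x 16) (.w 9 (.x 9) (.w 11 (.x 11) (.d
  8257)))) (.d 73792))))))) (.w 12 (.w 5 (.x 5) (.w 3 (.x 3) (.w 4 (.x 4) (.w 7 (.x 7) (.w 10 (.x 10) (.w 15
  (.w 2 (.x 2) (.w 9 (.x 9) (.w 11 (.x 11) (.d 4161)))) (.d 69696))))))) (.p 13)))) (.w 1 (.w 8 (.w 5 (.x 5)
  (.w 3 (.x 3) (.w 4 (.x 4) (.w 9 (.x 9) (.w 10 (.x 10) (.w 11 (.x 11) (.w 12 (.w 2 (.x 2) (.w 15 (.w 7 (.x 1)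
  (.d 8257)) (.d 8258))) (.w 15 (.w 7 (.x 1) (.d 321)) (.d 322))))))))) (.w 12 (.w 5 (.x 5) (.w 3 (.x 3) (.w 4
  (.x 4) (.w 2 (.x 2) (.w 9 (.x 9) (.w 10 (.x 10) (.w 11 (.x 11) (.w 15 (.w 7 (.x 1) (.d 4161)) (.d
  4162))))))))) (.p 13))) (.w 15 (.w 8 (.w 3 (.x 3) (.w 4 (.x 4) (.w 11 (.x 11) (.w 7 (.x 7) (.w 9 (.x 9) (.w
  10 (.x 10) (.w 12 (.w 2 (.x 2) (.d 41024)) (.d 33088)))))))) (.w 12 (.w 3 (.x 3) (.w 4 (.x 4) (.w 11 (.x 11)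
  (.w 2 (.x 2) (.w 7 (.x 7) (.w 9 (.x 9) (.w 10 (.x 10) (.d 36928)))))))) (.p 13))) (.p 0)))

def c19 : Tr := .t 15 (.t 16 (.w 5 (.w 1 (.w 14 (.w 2 (.w 9 (.w 8 (.w 10 (.x 10) (.w 3 (.x 9) (.d 73826))) (.w
  12 (.w 10 (.x 10) (.w 3 (.x 2) (.d 69730))) (.p 13))) (.w 10 (.w 12 (.x 10) (.d 1126)) (.d 8294))) (.w 9 (.w
  10 (.w 8 (.x 10) (.w 12 (.x 10) (.p 13))) (.d 8802)) (.w 11 (.w 8 (.w 10 (.x 10) (.w 3 (.x 3) (.d 8291)))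
  (.w 12 (.w 10 (.x 10) (.w 3 (.x 3) (.d 4195))) (.p 13))) (.p 16)))) (.p 6)) (.p 0)) (.p 15)) (.w 5 (.w 14
  (.w 16 (.w 1 (.w 8 (.w 3 (.x 3) (.w 10 (.x 10) (.w 2 (.x 16) (.w 7 (.x 1) (.w 9 (.x 9) (.d 8289)))))) (.w 12
  (.w 3 (.x 3) (.w 10 (.x 10) (.w 2 (.x 2) (.w 7 (.x 1) (.w 9 (.x 9) (.d 4193)))))) (.p 13))) (.w 8 (.w 3 (.x
  3) (.w 10 (.x 10) (.w 7 (.x 7) (.d 73824)))) (.w 12 (.w 3 (.x 3) (.w 10 (.x 10) (.w 7 (.x 7) (.d 69728))))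
  (.p 13)))) (.w 1 (.w 8 (.w 3 (.x 3) (.w 10 (.x 10) (.w 9 (.x 9) (.w 12 (.w 2 (.x 2) (.d 8290)) (.d 354)))))
  (.w 12 (.w 3 (.x 3) (.w 10 (.x 10) (.w 2 (.x 2) (.w 9 (.x 9) (.d 4194))))) (.p 13))) (.p 0))) (.p 6)) (.p
  15))) (.t 16 (.w 14 (.w 2 (.w 1 c16 (.w 15 (.w 9 (.w 11 (.w 8 (.w 4 (.x 4) (.w 3 (.x 3) (.w 5 (.x 11) (.w 7
  (.x 7) (.w 10 (.x 10) (.d 73793)))))) (.w 12 (.w 4 (.x 4) (.w 3 (.x 2) (.w 5 (.x 11) (.w 7 (.x 7) (.w 10 (.x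
  10) (.d 69697)))))) (.p 13))) (.w 8 (.w 4 (.x 4) (.w 3 (.x 9) (.w 7 (.x 7) (.w 10 (.x 10) (.d 106560)))))
  (.w 12 (.w 4 (.x 4) (.w 3 (.x 2) (.w 7 (.x 7) (.w 10 (.x 10) (.d 102464))))) (.p 13)))) (.w 11 (.w 8 (.w 4
  (.x 4) (.w 3 (.x 3) (.w 5 (.x 11) (.w 7 (.x 7) (.w 10 (.x 10) (.d 73793)))))) (.w 12 (.w 4 (.x 4) (.w 3 (.x
  2) (.w 5 (.x 11) (.w 7 (.x 7) (.w 10 (.x 10) (.d 69697)))))) (.p 13))) (.w 8 (.w 4 (.x 4) (.w 7 (.x 7) (.w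
  10 (.x 10) (.d 41028)))) (.w 12 (.w 4 (.x 4) (.w 7 (.x 7) (.w 10 (.x 10) (.d 36932)))) (.p 13))))) (.p 0)))
  c17) (.p 6)) (.w 14 c18 (.p 6)))

def c20 : Tr := .t 16 (.w 5 (.w 1 (.w 2 (.w 13 (.w 10 (.x 10) (.w 9 (.w 3 (.x 2) (.w 14 (.w 8 (.x 2) (.w 12
  (.x 12) (.d 65634))) (.d 73762))) (.w 14 (.w 12 (.x 12) (.d 102)) (.d 8230)))) (.w 14 (.w 10 (.x 10) (.w 12
  (.x 12) (.w 9 (.w 3 (.x 2) (.w 8 (.x 2) (.d 65634))) (.d 102)))) (.p 6))) (.w 13 (.w 9 (.w 10 (.x 10) (.w 14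
  (.w 8 (.x 8) (.w 12 (.x 12) (.d 610))) (.d 8738))) (.w 11 (.w 10 (.x 10) (.w 3 (.x 3) (.w 14 (.w 7 (.w 8 (.x
  8) (.w 12 (.x 12) (.d 99))) (.d 8289)) (.d 8227)))) (.p 16))) (.w 14 (.w 9 (.w 10 (.x 10) (.w 8 (.x 8) (.w
  12 (.x 12) (.d 610)))) (.w 11 (.w 10 (.x 10) (.w 3 (.x 3) (.w 8 (.x 8) (.w 12 (.x 12) (.d 99))))) (.p 16)))
  (.p 6)))) (.p 0)) (.p 15)) (.w 5 (.w 16 (.w 13 (.w 3 (.x 3) (.w 7 (.x 7) (.w 10 (.x 10) (.w 1 (.w 2 (.x 2)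
  (.w 9 (.x 9) (.w 14 (.w 8 (.x 8) (.w 12 (.x 12) (.d 97))) (.d 8225)))) (.w 14 (.w 8 (.x 8) (.w 12 (.x 12)
  (.d 65632))) (.d 73760)))))) (.w 14 (.w 3 (.x 3) (.w 7 (.x 7) (.w 8 (.x 8) (.w 10 (.x 10) (.w 12 (.x 12) (.w
  1 (.w 2 (.x 2) (.w 9 (.x 9) (.d 97))) (.d 65632))))))) (.p 6))) (.w 1 (.w 13 (.w 2 (.x 2) (.w 3 (.x 3) (.w
  10 (.x 10) (.w 9 (.x 9) (.w 14 (.w 8 (.x 8) (.w 12 (.x 12) (.d 98))) (.d 8226)))))) (.w 14 (.w 2 (.x 2) (.w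
  3 (.x 3) (.w 10 (.x 10) (.w 8 (.x 8) (.w 9 (.x 9) (.w 12 (.x 12) (.d 98))))))) (.p 6))) (.p 0))) (.p 15))

def c21 : Tr := .w 13 (.w 1 (.w 5 (.x 5) (.w 4 (.x 4) (.w 10 (.x 10) (.w 9 (.w 3 (.x 2) (.w 8 (.x 2) (.w 11
  (.w 14 (.w 12 (.x 12) (.w 15 (.w 7 (.x 1) (.d 65601)) (.d 65602))) (.w 15 (.w 7 (.x 1) (.d 73729)) (.d
  73730))) (.w 14 (.w 12 (.x 12) (.w 15 (.w 7 (.x 1) (.d 65601)) (.d 65602))) (.w 15 (.w 7 (.x 1) (.d 73729))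
  (.d 73730)))))) (.w 11 (.w 3 (.x 2) (.w 8 (.x 2) (.w 14 (.w 12 (.x 12) (.w 15 (.w 7 (.x 1) (.d 65601)) (.d
  65602))) (.w 15 (.w 7 (.x 1) (.d 73729)) (.d 73730))))) (.w 14 (.w 8 (.x 13) (.w 12 (.x 12) (.w 15 (.w 7 (.x
  1) (.d 69)) (.d 70)))) (.w 15 (.w 7 (.x 1) (.d 8197)) (.d 8198)))))))) (.w 15 (.w 4 (.x 4) (.w 7 (.x 7) (.w
  10 (.x 10) (.w 9 (.w 3 (.x 2) (.w 14 (.w 8 (.x 2) (.w 12 (.x 12) (.d 98368))) (.d 106496))) (.w 11 (.w 3 (.x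
  2) (.w 14 (.w 5 (.x 11) (.w 8 (.x 2) (.w 12 (.x 12) (.d 65601)))) (.d 106496))) (.w 14 (.w 12 (.x 12) (.d
  32836)) (.d 40964))))))) (.p 0))) (.w 14 (.w 1 (.w 5 (.x 5) (.w 4 (.x 4) (.w 10 (.x 10) (.w 12 (.x 12) (.w 9
  (.w 3 (.x 2) (.w 8 (.x 2) (.w 15 (.w 7 (.x 1) (.d 65601)) (.d 65602)))) (.w 11 (.w 3 (.x 2) (.w 8 (.x 2) (.w
  15 (.w 7 (.x 1) (.d 65601)) (.d 65602)))) (.w 15 (.w 7 (.x 1) (.d 69)) (.d 70)))))))) (.w 15 (.w 4 (.x 4)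
  (.w 7 (.x 7) (.w 10 (.x 10) (.w 12 (.x 12) (.w 9 (.w 3 (.x 2) (.w 8 (.x 2) (.d 98368))) (.w 11 (.w 3 (.x 2)
  (.w 8 (.x 2) (.d 98368))) (.d 32836))))))) (.p 0))) (.p 6))

def c22 : Tr := .w 13 (.w 1 (.w 9 (.w 5 (.x 5) (.w 4 (.x 4) (.w 10 (.x 10) (.w 11 (.w 3 (.x 3) (.w 14 (.w 8
  (.x 8) (.w 12 (.x 12) (.w 15 (.w 7 (.x 1) (.d 65601)) (.d 65602)))) (.w 15 (.w 7 (.x 1) (.d 73729)) (.d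
  73730)))) (.w 14 (.w 8 (.x 8) (.w 12 (.x 12) (.w 15 (.w 7 (.x 1) (.d 577)) (.d 578)))) (.w 15 (.w 7 (.x 1)
  (.d 8705)) (.d 8706))))))) (.w 11 (.w 4 (.x 4) (.w 3 (.x 3) (.w 10 (.x 10) (.w 15 (.w 5 (.x 15) (.w 7 (.x 1)
  (.w 14 (.w 8 (.x 8) (.w 12 (.x 12) (.d 2113))) (.d 10241)))) (.w 14 (.w 8 (.x 8) (.w 12 (.x 12) (.d 2114)))
  (.d 10242)))))) (.p 16))) (.w 15 (.w 9 (.w 4 (.x 4) (.w 7 (.x 7) (.w 10 (.x 10) (.w 11 (.w 3 (.x 3) (.w 14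
  (.w 5 (.x 11) (.w 8 (.x 8) (.w 12 (.x 12) (.d 65601)))) (.d 106496))) (.w 14 (.w 8 (.x 8) (.w 12 (.x 12) (.d
  33344))) (.d 41472)))))) (.w 11 (.w 4 (.x 4) (.w 3 (.x 3) (.w 7 (.x 7) (.w 10 (.x 10) (.w 14 (.w 8 (.x 8)
  (.w 12 (.x 12) (.d 2113))) (.d 10241)))))) (.p 16))) (.p 0))) (.w 14 (.w 1 (.w 9 (.w 5 (.x 5) (.w 4 (.x 4)
  (.w 8 (.x 8) (.w 10 (.x 10) (.w 12 (.x 12) (.w 11 (.w 3 (.x 3) (.w 15 (.w 7 (.x 1) (.d 65601)) (.d 65602)))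
  (.w 15 (.w 7 (.x 1) (.d 577)) (.d 578)))))))) (.w 11 (.w 4 (.x 4) (.w 3 (.x 3) (.w 8 (.x 8) (.w 10 (.x 10)
  (.w 12 (.x 12) (.w 15 (.w 7 (.x 1) (.d 2113)) (.d 2114))))))) (.p 16))) (.w 15 (.w 9 (.w 4 (.x 4) (.w 7 (.x
  7) (.w 8 (.x 8) (.w 10 (.x 10) (.w 12 (.x 12) (.w 11 (.w 3 (.x 3) (.d 98368)) (.d 33344))))))) (.w 11 (.w 4
  (.x 4) (.w 3 (.x 3) (.w 7 (.x 7) (.w 8 (.x 8) (.w 10 (.x 10) (.w 12 (.x 12) (.d 2113))))))) (.p 16))) (.p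
  0))) (.p 6))

def c23 : Tr := .w 16 (.w 13 (.w 5 (.x 5) (.w 3 (.x 3) (.w 4 (.x 4) (.w 7 (.x 7) (.w 10 (.x 10) (.w 1 (.w 2
  (.x 2) (.w 9 (.x 9) (.w 11 (.x 11) (.w 14 (.w 8 (.x 8) (.w 12 (.x 12) (.d 65))) (.d 8193))))) (.w 14 (.w 8
  (.x 8) (.w 12 (.x 12) (.w 15 (.w 2 (.x 2) (.w 9 (.x 9) (.w 11 (.x 11) (.d 65)))) (.d 65600)))) (.w 15 (.w 2
  (.x 2) (.w 9 (.x 9) (.w 11 (.x 11) (.d 8193)))) (.d 73728))))))))) (.w 14 (.w 5 (.x 5) (.w 3 (.x 3) (.w 4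
  (.x 4) (.w 7 (.x 7) (.w 8 (.x 8) (.w 10 (.x 10) (.w 12 (.x 12) (.w 1 (.w 2 (.x 2) (.w 9 (.x 9) (.w 11 (.x
  11) (.d 65)))) (.w 15 (.w 2 (.x 2) (.w 9 (.x 9) (.w 11 (.x 11) (.d 65)))) (.d 65600)))))))))) (.p 6))) (.w
  13 (.w 1 (.w 5 (.x 5) (.w 2 (.x 2) (.w 3 (.x 3) (.w 4 (.x 4) (.w 9 (.x 9) (.w 10 (.x 10) (.w 11 (.x 11) (.w
  14 (.w 8 (.x 8) (.w 12 (.x 12) (.w 15 (.w 7 (.x 1) (.d 65)) (.d 66)))) (.w 15 (.w 7 (.x 1) (.d 8193)) (.d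
  8194)))))))))) (.w 15 (.w 2 (.x 2) (.w 4 (.x 4) (.w 3 (.x 3) (.w 11 (.x 11) (.w 7 (.x 7) (.w 9 (.x 9) (.w 10
  (.x 10) (.w 14 (.w 8 (.x 8) (.w 12 (.x 12) (.d 32832))) (.d 40960))))))))) (.p 0))) (.w 14 (.w 1 (.w 5 (.x
  5) (.w 2 (.x 2) (.w 3 (.x 3) (.w 4 (.x 4) (.w 8 (.x 8) (.w 9 (.x 9) (.w 10 (.x 10) (.w 11 (.x 11) (.w 12 (.x
  12) (.w 15 (.w 7 (.x 1) (.d 65)) (.d 66))))))))))) (.w 15 (.w 2 (.x 2) (.w 4 (.x 4) (.w 3 (.x 3) (.w 11 (.x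
  11) (.w 7 (.x 7) (.w 8 (.x 8) (.w 9 (.x 9) (.w 10 (.x 10) (.w 12 (.x 12) (.d 32832)))))))))) (.p 0))) (.p
  6)))

def c24 : Tr := .t 8 (.t 13 (.t 9 (.t 16 .z (.s 9)) (.t 10 (.s 10) (.t 11 (.t 16 .z (.s 11)) (.t 12 (.p 12)
  (.t 14 (.p 6) (.t 15 (.t 16 .z (.w 2 (.w 5 (.w 12 (.w 14 (.w 16 (.w 7 (.x 7) (.w 10 (.x 10) (.w 3 (.d 8297)
  (.d 73825)))) (.w 1 (.w 9 (.x 9) (.w 10 (.x 10) (.d 4198))) (.p 0))) (.p 6)) (.p 13)) (.p 15)) (.p 8))) (.t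
  16 (.p 8) (.w 2 (.w 12 (.w 14 (.w 16 (.w 5 (.x 5) (.w 4 (.x 4) (.w 7 (.x 7) (.w 10 (.x 10) (.w 3 (.w 11 (.w
  1 (.x 11) (.w 15 (.x 11) (.d 69700))) (.d 8265)) (.d 73793)))))) (.w 1 (.w 5 (.x 5) (.w 4 (.x 4) (.w 9 (.x
  9) (.w 10 (.x 10) (.w 11 (.x 11) (.w 15 (.w 7 (.x 1) (.d 4165)) (.d 4166))))))) (.w 15 (.w 4 (.x 4) (.w 9
  (.x 9) (.w 11 (.x 11) (.w 7 (.x 7) (.w 10 (.x 10) (.d 36932)))))) (.p 0)))) (.p 6)) (.p 13)) (.p 8)))))))))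
  (.s 8)) (.t 9 (.t 16 (.t 10 (.s 10) (.t 11 (.t 12 .z (.t 13 .z (.t 14 .z (.t 15 .z (.w 2 (.w 5 (.w 3 (.w 13
  (.w 1 (.w 10 (.x 10) (.w 14 (.w 12 (.x 12) (.d 110)) (.d 8238))) (.w 15 (.w 10 (.x 10) (.w 7 (.x 7) (.d
  8300))) (.p 0))) (.w 14 (.w 1 (.w 10 (.x 10) (.w 12 (.x 12) (.d 110))) (.w 15 (.w 10 (.x 10) (.w 7 (.x 7)
  (.w 12 (.x 12) (.d 108)))) (.p 0))) (.p 6))) (.p 9)) (.p 11)) (.p 16)))))) (.t 12 (.t 13 .z (.s 12)) (.t 13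
  (.t 14 .z (.t 15 .z (.w 3 (.w 14 c13 (.p 6)) (.p 9)))) (.t 14 (.p 14) c14))))) (.s 9)) (.t 10 (.s 10) (.t 11
  (.t 16 (.t 12 (.t 13 .z (.s 12)) c15) (.s 11)) (.t 12 (.t 13 (.p 12) (.s 12)) (.t 13 (.t 14 (.p 6) c19) (.t
  14 (.p 14) (.t 15 c20 (.t 16 (.w 2 c21 c22) c23))))))))

def c25 : Tr := .t 4 (.t 5 (.t 7 (.s 7) (.t 8 (.t 13 .z (.s 8)) (.t 9 (.t 16 .z (.s 9)) (.t 10 (.p 4) (.t 11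
  (.p 5) (.t 12 (.t 13 .z (.s 12)) (.t 13 (.t 14 .z (.t 15 .z (.t 16 .z (.w 11 (.w 10 (.w 14 (.w 16 (.w 1 (.w
  8 (.w 3 (.x 3) (.w 7 (.x 1) (.d 73809))) (.w 12 (.w 3 (.x 3) (.w 7 (.x 1) (.d 69713))) (.p 13))) (.w 8 (.w 3
  (.x 3) (.w 7 (.x 7) (.d 73809))) (.w 12 (.w 3 (.x 3) (.w 7 (.x 7) (.d 69713))) (.p 13)))) (.w 1 (.w 8 (.w 3
  (.x 3) (.w 9 (.x 9) (.w 12 (.w 2 (.x 2) (.d 8306)) (.d 370)))) (.w 12 (.w 3 (.x 3) (.w 2 (.x 2) (.w 9 (.x 9)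
  (.d 4210)))) (.p 13))) (.p 0))) (.p 6)) (.p 4)) (.p 5))))) (.t 14 (.p 14) (.t 15 (.p 15) (.t 16 (.p 5) (.w
  11 (.w 10 (.w 13 (.w 16 (.w 3 (.x 3) (.w 7 (.x 7) (.w 14 (.w 8 (.x 8) (.w 12 (.x 12) (.d 65617))) (.d
  73745)))) (.w 1 (.w 2 (.x 2) (.w 3 (.x 3) (.w 9 (.x 9) (.w 14 (.w 8 (.x 8) (.w 12 (.x 12) (.d 114))) (.d
  8242))))) (.p 0))) (.w 14 (.w 16 (.w 3 (.x 3) (.w 7 (.x 7) (.w 8 (.x 8) (.w 12 (.x 12) (.d 65617))))) (.w 1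
  (.w 2 (.x 2) (.w 3 (.x 3) (.w 8 (.x 8) (.w 9 (.x 9) (.w 12 (.x 12) (.d 114)))))) (.p 0))) (.p 6))) (.p 4))
  (.p 5)))))))))))) (.t 10 (.p 10) (.s 4))) (.t 5 (.t 11 (.p 11) (.t 15 (.p 15) (.s 5))) (.t 7 (.s 7) c24))

def c26 : Tr := .w 6 (.w 1 (.w 3 (.w 8 (.w 9 (.w 10 (.x 10) (.w 12 (.x 12) (.w 7 (.x 1) (.w 14 (.x 6) (.d
  297))))) (.w 11 (.w 10 (.x 10) (.w 12 (.x 12) (.d 102))) (.p 16))) (.w 9 (.w 10 (.x 10) (.w 12 (.x 12) (.w 7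
  (.x 1) (.d 105)))) (.w 11 (.w 10 (.x 10) (.w 12 (.x 12) (.d 102))) (.p 16)))) (.w 8 (.w 9 (.w 10 (.x 10) (.w
  12 (.x 12) (.w 7 (.x 1) (.w 14 (.x 6) (.d 801))))) (.w 11 (.w 10 (.x 10) (.w 12 (.x 12) (.d 102))) (.p 16)))
  (.p 2))) (.w 3 (.w 8 (.w 9 (.w 10 (.x 10) (.w 12 (.x 12) (.w 7 (.x 7) (.d 108)))) (.w 11 (.w 10 (.x 10) (.w
  12 (.x 12) (.w 7 (.x 7) (.d 100)))) (.p 16))) (.w 9 (.w 10 (.x 10) (.w 12 (.x 12) (.w 7 (.x 7) (.d 108))))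
  (.w 11 (.w 10 (.x 10) (.w 12 (.x 12) (.w 7 (.x 7) (.d 100)))) (.p 16)))) (.w 8 (.w 9 (.w 10 (.x 10) (.w 12
  (.x 12) (.w 7 (.x 7) (.d 612)))) (.w 11 (.w 10 (.x 10) (.w 12 (.x 12) (.w 7 (.x 7) (.d 100)))) (.p 16))) (.p
  2)))) (.w 1 (.w 3 (.w 8 (.w 9 (.w 10 (.x 10) (.w 12 (.x 12) (.w 14 (.x 14) (.d 802)))) (.w 11 (.w 10 (.x 10)
  (.w 12 (.x 12) (.w 14 (.x 14) (.d 294)))) (.p 16))) (.w 9 (.w 10 (.x 10) (.w 12 (.x 12) (.w 13 (.x 13) (.w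
  14 (.x 14) (.d 46))))) (.w 11 (.w 10 (.x 10) (.w 12 (.x 12) (.w 13 (.x 13) (.w 14 (.x 14) (.d 38))))) (.p
  16)))) (.w 8 (.w 9 (.w 10 (.x 10) (.w 12 (.x 12) (.w 14 (.x 14) (.d 802)))) (.w 11 (.w 10 (.x 10) (.w 12 (.x
  12) (.w 14 (.x 14) (.d 291)))) (.p 16))) (.p 2))) (.p 0))

def c27 : Tr := .t 3 (.t 4 (.p 15) (.t 5 (.p 15) (.t 7 (.s 7) (.t 8 (.p 2) (.t 9 (.p 3) (.t 10 (.s 10) (.t 11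
  (.p 15) (.t 12 (.t 13 .z (.s 12)) (.t 13 (.p 2) (.t 14 (.s 14) (.t 16 (.p 3) (.w 5 (.w 8 (.w 9 (.w 6 (.w 7
  (.x 7) (.w 10 (.x 10) (.w 12 (.x 12) (.w 1 (.w 14 (.x 6) (.d 297)) (.d 108))))) (.w 1 (.w 10 (.x 10) (.w 12
  (.x 12) (.w 14 (.x 14) (.d 802)))) (.p 0))) (.p 3)) (.p 2)) (.p 15))))))))))))) (.t 8 (.t 4 (.p 15) (.t 5
  (.p 15) (.t 7 (.s 7) (.t 9 (.p 2) (.t 10 (.s 10) (.t 11 (.p 15) (.t 12 (.p 8) (.t 13 (.p 8) (.t 14 (.s 14)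
  (.t 16 (.w 5 (.w 13 (.w 3 (.w 1 (.w 6 (.w 9 (.w 10 (.x 10) (.w 7 (.x 1) (.d 8297))) (.w 11 (.w 10 (.x 10)
  (.d 8294)) (.p 16))) (.w 9 (.w 10 (.x 10) (.w 14 (.x 14) (.d 8238))) (.w 11 (.w 10 (.x 10) (.w 14 (.x 14)
  (.d 8230))) (.p 16)))) (.w 6 (.w 9 (.w 10 (.x 10) (.w 7 (.x 7) (.d 8300))) (.w 11 (.w 10 (.x 10) (.w 7 (.x
  7) (.d 8292))) (.p 16))) (.p 0))) (.p 2)) (.p 8)) (.p 15)) (.w 5 (.w 13 (.w 3 (.w 1 (.w 10 (.x 10) (.w 14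
  (.x 14) (.w 9 (.w 16 (.x 16) (.d 8234)) (.d 8230)))) (.w 6 (.w 10 (.x 10) (.w 7 (.x 7) (.w 9 (.w 16 (.x 16)
  (.d 8296)) (.d 8292)))) (.p 0))) (.p 2)) (.p 8)) (.p 15)))))))))))) (.t 16 (.t 4 (.p 15) (.t 5 (.p 15) (.t 7
  (.s 7) (.t 9 (.p 9) (.t 10 (.s 10) (.t 11 (.p 11) (.t 12 (.t 13 .z (.s 12)) (.t 13 (.s 13) (.t 14 (.s 14)
  (.w 5 c26 (.p 15))))))))))) (.s 2)))

def c28 : Tr := .t 16 (.w 5 (.w 2 (.w 6 (.w 7 (.x 7) (.w 10 (.x 10) (.w 12 (.x 12) (.w 9 (.w 8 (.x 2) (.w 3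
  (.x 2) (.w 1 (.w 13 (.x 6) (.w 14 (.x 6) (.d 65569))) (.d 65632)))) (.w 1 (.w 13 (.x 6) (.w 14 (.x 6) (.d
  37))) (.d 100)))))) (.w 1 (.w 13 (.x 13) (.w 10 (.x 10) (.w 12 (.x 12) (.w 14 (.x 14) (.w 9 (.w 3 (.x 2) (.w
  8 (.x 2) (.d 65570))) (.d 38)))))) (.p 0))) (.w 6 (.w 1 (.w 9 (.w 13 (.x 6) (.w 10 (.x 10) (.w 7 (.x 1) (.w
  8 (.x 8) (.w 12 (.x 12) (.w 14 (.x 6) (.d 545))))))) (.w 11 (.w 13 (.x 6) (.w 10 (.x 10) (.w 3 (.x 3) (.w 7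
  (.x 1) (.w 8 (.x 8) (.w 12 (.x 12) (.d 97))))))) (.p 16))) (.w 9 (.w 8 (.x 8) (.w 10 (.x 10) (.w 12 (.x 12)
  (.w 7 (.x 7) (.d 608))))) (.w 11 (.w 8 (.x 8) (.w 10 (.x 10) (.w 12 (.x 12) (.w 3 (.x 3) (.w 7 (.x 7) (.d
  97)))))) (.p 16)))) (.w 1 (.w 9 (.w 13 (.x 13) (.w 10 (.x 10) (.w 8 (.x 8) (.w 12 (.x 12) (.w 14 (.x 14) (.d
  546)))))) (.w 11 (.w 13 (.x 13) (.w 10 (.x 10) (.w 3 (.x 3) (.w 8 (.x 8) (.w 12 (.x 12) (.w 14 (.x 14) (.d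
  35))))))) (.p 16))) (.p 0)))) (.p 15)) (.w 5 (.w 16 (.w 13 (.x 13) (.w 3 (.x 3) (.w 7 (.x 7) (.w 8 (.x 8)
  (.w 10 (.x 10) (.w 14 (.x 14) (.w 12 (.x 12) (.w 1 (.w 2 (.x 2) (.w 9 (.x 9) (.d 33))) (.w 6 (.w 2 (.x 2)
  (.w 9 (.x 9) (.d 33))) (.d 65568)))))))))) (.w 6 (.w 2 (.x 2) (.w 3 (.x 3) (.w 7 (.x 7) (.w 8 (.x 8) (.w 10
  (.x 10) (.w 12 (.x 12) (.w 9 (.x 9) (.w 1 (.w 13 (.x 6) (.w 14 (.x 6) (.d 33))) (.d 96))))))))) (.w 1 (.w 2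
  (.x 2) (.w 13 (.x 13) (.w 3 (.x 3) (.w 10 (.x 10) (.w 8 (.x 8) (.w 9 (.x 9) (.w 12 (.x 12) (.w 14 (.x 14)
  (.d 34))))))))) (.p 0)))) (.p 15))

def c29 : Tr := .t 4 (.p 15) (.t 5 (.p 15) (.t 7 (.s 7) (.t 8 (.t 13 (.t 9 (.t 16 .z (.s 9)) (.t 10 (.s 10)
  (.t 11 (.p 15) (.t 12 (.p 12) (.t 14 (.s 14) (.t 16 (.p 8) (.w 2 (.w 5 (.w 12 (.w 16 (.w 7 (.x 7) (.w 10 (.x
  10) (.w 14 (.x 14) (.w 3 (.d 8233) (.d 73761))))) (.w 1 (.w 9 (.x 9) (.w 10 (.x 10) (.w 14 (.x 14) (.d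
  8230)))) (.p 0))) (.p 13)) (.p 15)) (.p 8)))))))) (.s 8)) (.t 9 (.t 16 (.t 10 (.s 10) (.t 11 (.p 11) (.t 12
  (.t 13 .z (.s 12)) (.t 13 (.s 13) (.t 14 (.s 14) (.w 5 (.w 3 (.w 6 (.w 1 (.w 2 (.w 13 (.x 6) (.w 10 (.x 10)
  (.w 7 (.x 1) (.w 12 (.x 12) (.w 14 (.x 6) (.d 45)))))) (.w 11 (.w 13 (.x 6) (.w 10 (.x 10) (.w 7 (.x 1) (.w
  8 (.x 8) (.w 12 (.x 12) (.d 105)))))) (.p 16))) (.w 2 (.w 10 (.x 10) (.w 12 (.x 12) (.w 7 (.x 7) (.d 108))))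
  (.w 11 (.w 8 (.x 8) (.w 10 (.x 10) (.w 12 (.x 12) (.w 7 (.x 7) (.d 105))))) (.p 16)))) (.w 1 (.w 2 (.w 13
  (.x 13) (.w 10 (.x 10) (.w 12 (.x 12) (.w 14 (.x 14) (.d 46))))) (.w 11 (.w 13 (.x 13) (.w 10 (.x 10) (.w 8
  (.x 8) (.w 12 (.x 12) (.w 14 (.x 14) (.d 43)))))) (.p 16))) (.p 0))) (.p 9)) (.p 15))))))) (.s 9)) (.t 10
  (.s 10) (.t 11 (.p 15) (.t 12 (.t 13 (.p 12) (.s 12)) (.t 13 (.s 13) (.t 14 (.s 14) c28)))))))))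

def c30 : Tr := .w 1 (.w 3 (.w 8 (.w 11 (.w 4 (.x 4) (.w 12 (.x 12) (.w 7 (.x 1) (.w 10 (.x 10) (.w 13 (.x 6)
  (.w 14 (.x 6) (.w 9 (.w 5 (.x 5) (.d 65541)) (.d 2053)))))))) (.w 9 (.w 4 (.x 4) (.w 5 (.x 5) (.w 12 (.x 12)
  (.w 7 (.x 1) (.w 10 (.x 10) (.w 14 (.x 6) (.d 265))))))) (.p 16))) (.w 11 (.w 4 (.x 4) (.w 12 (.x 12) (.w 7
  (.x 1) (.w 10 (.x 10) (.w 13 (.x 6) (.w 14 (.x 6) (.d 2057))))))) (.w 9 (.w 4 (.x 4) (.w 5 (.x 5) (.w 12 (.x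
  12) (.w 7 (.x 1) (.w 10 (.x 10) (.d 73)))))) (.p 16)))) (.w 8 (.w 11 (.w 4 (.x 4) (.w 12 (.x 12) (.w 7 (.x
  1) (.w 10 (.x 10) (.w 13 (.x 6) (.w 14 (.x 6) (.w 9 (.w 5 (.x 5) (.d 65541)) (.d 2053)))))))) (.w 9 (.w 4
  (.x 4) (.w 5 (.x 5) (.w 12 (.x 12) (.w 7 (.x 1) (.w 10 (.x 10) (.w 14 (.x 6) (.d 769))))))) (.p 16))) (.p
  2))) (.w 3 (.w 8 (.w 11 (.w 4 (.x 4) (.w 12 (.x 12) (.w 7 (.x 7) (.w 10 (.x 10) (.w 13 (.x 8) (.w 15 (.w 5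
  (.x 15) (.w 14 (.x 6) (.d 65541))) (.w 9 (.w 5 (.x 5) (.d 65604)) (.d 2116)))))))) (.w 9 (.w 4 (.x 4) (.w 5
  (.x 5) (.w 12 (.x 12) (.w 7 (.x 7) (.w 10 (.x 10) (.w 15 (.w 14 (.x 6) (.d 265)) (.d 76))))))) (.p 16))) (.w
  11 (.w 4 (.x 4) (.w 12 (.x 12) (.w 7 (.x 7) (.w 10 (.x 10) (.w 15 (.w 5 (.x 15) (.w 13 (.x 6) (.w 14 (.x 6)
  (.d 65541)))) (.d 2120)))))) (.w 9 (.w 4 (.x 4) (.w 5 (.x 5) (.w 12 (.x 12) (.w 7 (.x 7) (.w 10 (.x 10) (.d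
  73)))))) (.p 16)))) (.w 8 (.w 11 (.w 4 (.x 4) (.w 12 (.x 12) (.w 7 (.x 7) (.w 10 (.x 10) (.w 15 (.w 5 (.x
  15) (.w 14 (.x 6) (.d 65793))) (.w 9 (.w 5 (.x 5) (.d 65604)) (.d 2116))))))) (.w 9 (.w 4 (.x 4) (.w 5 (.x
  5) (.w 12 (.x 12) (.w 7 (.x 7) (.w 10 (.x 10) (.w 15 (.w 14 (.x 6) (.d 769)) (.d 580))))))) (.p 16))) (.p
  2)))

def c31 : Tr := .w 1 (.w 3 (.w 8 (.w 11 (.w 4 (.x 4) (.w 12 (.x 12) (.w 10 (.x 10) (.w 13 (.x 8) (.w 14 (.x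
  14) (.w 15 (.w 5 (.x 15) (.w 7 (.x 1) (.d 65541))) (.w 9 (.w 5 (.x 5) (.d 65542)) (.d 2054)))))))) (.w 9 (.w
  4 (.x 4) (.w 5 (.x 5) (.w 12 (.x 12) (.w 10 (.x 10) (.w 13 (.x 8) (.w 14 (.x 14) (.w 15 (.w 7 (.x 1) (.d
  13)) (.d 14)))))))) (.p 16))) (.w 11 (.w 4 (.x 4) (.w 12 (.x 12) (.w 10 (.x 10) (.w 13 (.x 13) (.w 14 (.x
  14) (.w 15 (.w 7 (.x 1) (.d 2057)) (.d 2058))))))) (.w 9 (.w 4 (.x 4) (.w 5 (.x 5) (.w 12 (.x 12) (.w 10 (.x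
  10) (.w 13 (.x 13) (.w 14 (.x 14) (.d 11))))))) (.p 16)))) (.w 8 (.w 11 (.w 4 (.x 4) (.w 12 (.x 12) (.w 10
  (.x 10) (.w 14 (.x 14) (.w 15 (.w 5 (.x 15) (.w 7 (.x 1) (.d 65793))) (.w 9 (.w 5 (.x 5) (.d 65794)) (.d
  2306))))))) (.w 9 (.w 4 (.x 4) (.w 5 (.x 5) (.w 12 (.x 12) (.w 10 (.x 10) (.w 14 (.x 14) (.w 15 (.w 7 (.x 1)
  (.d 769)) (.d 770))))))) (.p 16))) (.p 2))) (.w 15 (.w 3 (.w 8 (.w 11 (.w 4 (.x 4) (.w 12 (.x 12) (.w 7 (.x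
  7) (.w 10 (.x 10) (.w 13 (.x 8) (.w 14 (.x 14) (.d 98308))))))) (.w 9 (.w 4 (.x 4) (.w 12 (.x 12) (.w 7 (.x
  7) (.w 10 (.x 10) (.w 14 (.x 14) (.d 33536)))))) (.p 16))) (.w 11 (.w 4 (.x 4) (.w 12 (.x 12) (.w 7 (.x 7)
  (.w 10 (.x 10) (.w 13 (.x 13) (.w 14 (.x 14) (.d 98308))))))) (.w 9 (.w 4 (.x 4) (.w 12 (.x 12) (.w 7 (.x 7)
  (.w 10 (.x 10) (.w 13 (.x 13) (.w 14 (.x 14) (.d 32780))))))) (.p 16)))) (.w 8 (.w 11 (.w 4 (.x 4) (.w 12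
  (.x 12) (.w 7 (.x 7) (.w 10 (.x 10) (.w 14 (.x 14) (.d 98560)))))) (.w 9 (.w 4 (.x 4) (.w 12 (.x 12) (.w 7
  (.x 7) (.w 10 (.x 10) (.w 14 (.x 14) (.d 33536)))))) (.p 16))) (.p 2))) (.p 0))

def c32 : Tr := .t 8 (.t 9 (.p 2) (.t 10 (.s 10) (.t 11 (.t 12 .z (.t 13 .z (.t 14 .z (.w 5 (.w 13 (.w 3 (.w 9
  (.w 1 (.w 10 (.x 10) (.w 14 (.x 14) (.d 8238))) (.w 6 (.w 10 (.x 10) (.w 7 (.x 7) (.d 8300))) (.w 15 (.w 10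
  (.x 10) (.w 7 (.x 7) (.w 14 (.x 14) (.d 8237)))) (.p 0)))) (.p 16)) (.p 2)) (.p 8)) (.p 11))))) (.t 12 (.p
  8) (.t 13 (.p 8) (.t 14 (.s 14) (.w 13 (.w 3 (.w 1 (.w 6 (.w 11 (.w 4 (.x 4) (.w 7 (.x 1) (.w 10 (.x 10) (.w
  14 (.x 14) (.d 10249))))) (.w 9 (.w 4 (.x 4) (.w 5 (.x 5) (.w 7 (.x 1) (.w 10 (.x 10) (.d 8265))))) (.p
  16))) (.w 11 (.w 4 (.x 4) (.w 10 (.x 10) (.w 14 (.x 14) (.w 15 (.w 7 (.x 1) (.d 10249)) (.d 10250))))) (.w 9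
  (.w 4 (.x 4) (.w 5 (.x 5) (.w 10 (.x 10) (.w 14 (.x 14) (.d 8203))))) (.p 16)))) (.w 6 (.w 11 (.w 4 (.x 4)
  (.w 7 (.x 7) (.w 10 (.x 10) (.w 15 (.w 14 (.x 14) (.d 106500)) (.d 10312))))) (.w 9 (.w 4 (.x 4) (.w 5 (.x
  5) (.w 7 (.x 7) (.w 10 (.x 10) (.d 8265))))) (.p 16))) (.w 15 (.w 11 (.w 4 (.x 4) (.w 7 (.x 7) (.w 10 (.x
  10) (.w 14 (.x 14) (.d 106500))))) (.w 9 (.w 4 (.x 4) (.w 7 (.x 7) (.w 10 (.x 10) (.w 14 (.x 14) (.d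
  40972))))) (.p 16))) (.p 0)))) (.p 2)) (.p 8)))))))) (.t 9 (.p 9) (.t 10 (.s 10) (.t 11 (.t 12 (.t 13 .z (.s
  12)) (.t 13 (.s 13) (.t 14 (.s 14) (.w 5 (.w 9 (.w 6 (.w 1 (.w 8 (.w 10 (.x 10) (.w 12 (.x 12) (.w 7 (.x 1)
  (.w 14 (.x 6) (.d 801))))) (.w 3 (.w 10 (.x 10) (.w 12 (.x 12) (.w 7 (.x 1) (.d 105)))) (.p 2))) (.w 8 (.w
  10 (.x 10) (.w 12 (.x 12) (.w 7 (.x 7) (.d 612)))) (.w 3 (.w 10 (.x 10) (.w 12 (.x 12) (.w 7 (.x 7) (.d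
  108)))) (.p 2)))) (.w 1 (.w 8 (.w 10 (.x 10) (.w 12 (.x 12) (.w 14 (.x 14) (.d 802)))) (.w 3 (.w 10 (.x 10)
  (.w 12 (.x 12) (.w 13 (.x 13) (.w 14 (.x 14) (.d 46))))) (.p 2))) (.w 15 (.w 8 (.w 10 (.x 10) (.w 12 (.x 12)
  (.w 7 (.x 7) (.w 14 (.x 14) (.d 65828))))) (.w 3 (.w 10 (.x 10) (.w 12 (.x 12) (.w 7 (.x 7) (.w 13 (.x 13)
  (.w 14 (.x 14) (.d 45)))))) (.p 2))) (.p 0)))) (.p 16)) (.p 11))))) (.t 12 (.t 13 (.p 12) (.s 12)) (.t 13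
  (.s 13) (.t 14 (.s 14) (.w 6 c30 c31)))))))

def c33 : Tr := .t 13 (.s 13) (.t 14 (.s 14) (.w 3 (.w 6 (.w 1 (.w 2 (.w 5 (.x 5) (.w 13 (.x 6) (.w 4 (.x 4)
  (.w 7 (.x 1) (.w 10 (.x 10) (.w 12 (.x 12) (.w 14 (.x 6) (.d 65541)))))))) (.w 11 (.w 4 (.x 4) (.w 13 (.x 6)
  (.w 7 (.x 1) (.w 8 (.x 8) (.w 10 (.x 10) (.w 12 (.x 12) (.w 14 (.x 6) (.d 2057)))))))) (.p 16))) (.w 2 (.w 5
  (.x 5) (.w 4 (.x 4) (.w 12 (.x 12) (.w 7 (.x 7) (.w 10 (.x 10) (.w 15 (.w 13 (.x 6) (.w 14 (.x 6) (.d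
  65541))) (.d 65604))))))) (.w 11 (.w 4 (.x 4) (.w 8 (.x 8) (.w 12 (.x 12) (.w 7 (.x 7) (.w 10 (.x 10) (.w 15
  (.w 5 (.x 15) (.w 13 (.x 6) (.w 14 (.x 6) (.d 2057)))) (.d 2120))))))) (.p 16)))) (.w 1 (.w 2 (.w 5 (.x 5)
  (.w 13 (.x 13) (.w 4 (.x 4) (.w 10 (.x 10) (.w 12 (.x 12) (.w 14 (.x 14) (.w 15 (.w 7 (.x 1) (.d 65541)) (.d
  65542)))))))) (.w 11 (.w 4 (.x 4) (.w 13 (.x 13) (.w 8 (.x 8) (.w 10 (.x 10) (.w 12 (.x 12) (.w 14 (.x 14)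
  (.w 15 (.w 7 (.x 1) (.d 2057)) (.d 2058)))))))) (.p 16))) (.w 15 (.w 2 (.w 4 (.x 4) (.w 13 (.x 13) (.w 7 (.x
  7) (.w 10 (.x 10) (.w 12 (.x 12) (.w 14 (.x 14) (.d 98308))))))) (.w 11 (.w 4 (.x 4) (.w 13 (.x 13) (.w 7
  (.x 7) (.w 8 (.x 8) (.w 10 (.x 10) (.w 12 (.x 12) (.w 14 (.x 14) (.d 2057)))))))) (.p 16))) (.p 0)))) (.p
  9)))

def c34 : Tr := .w 6 (.w 1 (.w 9 (.w 5 (.x 5) (.w 13 (.x 6) (.w 4 (.x 4) (.w 7 (.x 1) (.w 8 (.x 8) (.w 10 (.x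
  10) (.w 12 (.x 12) (.w 14 (.x 6) (.w 11 (.w 3 (.x 3) (.d 65537)) (.d 513)))))))))) (.w 11 (.w 4 (.x 4) (.w
  13 (.x 6) (.w 3 (.x 3) (.w 7 (.x 1) (.w 8 (.x 8) (.w 10 (.x 10) (.w 12 (.x 12) (.w 14 (.x 6) (.d
  2049))))))))) (.p 16))) (.w 9 (.w 5 (.x 5) (.w 4 (.x 4) (.w 8 (.x 8) (.w 12 (.x 12) (.w 7 (.x 7) (.w 10 (.x
  10) (.w 11 (.w 3 (.x 3) (.w 15 (.w 13 (.x 6) (.w 14 (.x 6) (.d 65537))) (.d 65600))) (.w 15 (.w 13 (.x 6)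
  (.w 14 (.x 6) (.d 513))) (.d 576))))))))) (.w 11 (.w 4 (.x 4) (.w 8 (.x 8) (.w 12 (.x 12) (.w 3 (.x 3) (.w 7
  (.x 7) (.w 10 (.x 10) (.w 15 (.w 5 (.x 15) (.w 13 (.x 6) (.w 14 (.x 6) (.d 2049)))) (.d 2112)))))))) (.p
  16)))) (.w 1 (.w 9 (.w 5 (.x 5) (.w 13 (.x 13) (.w 4 (.x 4) (.w 8 (.x 8) (.w 10 (.x 10) (.w 12 (.x 12) (.w
  14 (.x 14) (.w 11 (.w 3 (.x 3) (.w 15 (.w 7 (.x 1) (.d 65537)) (.d 65538))) (.w 15 (.w 7 (.x 1) (.d 513))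
  (.d 514)))))))))) (.w 11 (.w 4 (.x 4) (.w 13 (.x 13) (.w 3 (.x 3) (.w 8 (.x 8) (.w 10 (.x 10) (.w 12 (.x 12)
  (.w 14 (.x 14) (.w 15 (.w 7 (.x 1) (.d 2049)) (.d 2050))))))))) (.p 16))) (.w 15 (.w 9 (.w 4 (.x 4) (.w 13
  (.x 13) (.w 7 (.x 7) (.w 8 (.x 8) (.w 10 (.x 10) (.w 12 (.x 12) (.w 14 (.x 14) (.w 11 (.w 3 (.x 3) (.d
  98304)) (.d 33280))))))))) (.w 11 (.w 4 (.x 4) (.w 13 (.x 13) (.w 3 (.x 3) (.w 7 (.x 7) (.w 8 (.x 8) (.w 10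
  (.x 10) (.w 12 (.x 12) (.w 14 (.x 14) (.d 2049))))))))) (.p 16))) (.p 0)))

def c35 : Tr := .t 11 (.t 12 (.t 13 (.p 12) (.s 12)) (.t 13 (.s 13) (.t 14 (.s 14) (.w 5 (.w 2 (.w 6 (.w 7 (.x
  7) (.w 10 (.x 10) (.w 12 (.x 12) (.w 9 (.w 8 (.x 2) (.w 3 (.x 2) (.w 1 (.w 13 (.x 6) (.w 14 (.x 6) (.d
  65569))) (.d 65632)))) (.w 1 (.w 13 (.x 6) (.w 14 (.x 6) (.d 37))) (.d 100)))))) (.w 1 (.w 13 (.x 13) (.w 10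
  (.x 10) (.w 12 (.x 12) (.w 14 (.x 14) (.w 9 (.w 3 (.x 2) (.w 8 (.x 2) (.d 65570))) (.d 38)))))) (.w 15 (.w
  13 (.x 13) (.w 10 (.x 10) (.w 7 (.x 7) (.w 12 (.x 12) (.w 14 (.x 14) (.d 65572)))))) (.p 0)))) (.w 9 (.w 6
  (.w 7 (.x 7) (.w 8 (.x 8) (.w 10 (.x 10) (.w 12 (.x 12) (.w 1 (.w 13 (.x 6) (.w 14 (.x 6) (.d 545))) (.d
  608)))))) (.w 1 (.w 13 (.x 13) (.w 10 (.x 10) (.w 8 (.x 8) (.w 12 (.x 12) (.w 14 (.x 14) (.d 546)))))) (.w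
  15 (.w 13 (.x 13) (.w 10 (.x 10) (.w 7 (.x 7) (.w 8 (.x 8) (.w 12 (.x 12) (.w 14 (.x 14) (.d 545))))))) (.p
  0)))) (.p 16))) (.p 11))))) (.t 12 (.t 13 (.p 12) (.s 12)) (.t 13 (.s 13) (.t 14 (.s 14) (.w 2 (.w 6 (.w 5
  (.x 5) (.w 4 (.x 4) (.w 7 (.x 7) (.w 12 (.x 12) (.w 10 (.x 10) (.w 9 (.w 8 (.x 2) (.w 3 (.x 2) (.w 1 (.w 13
  (.x 6) (.w 14 (.x 6) (.d 65537))) (.w 15 (.w 13 (.x 6) (.w 14 (.x 6) (.d 65537))) (.d 65600))))) (.w 1 (.w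
  13 (.x 6) (.w 14 (.x 6) (.w 11 (.w 3 (.x 2) (.w 8 (.x 2) (.d 65537))) (.d 5)))) (.w 11 (.w 8 (.x 2) (.w 3
  (.x 2) (.w 15 (.w 13 (.x 6) (.w 14 (.x 6) (.d 65537))) (.d 65600)))) (.w 15 (.w 13 (.x 6) (.w 14 (.x 6) (.d
  5))) (.d 68)))))))))) (.w 1 (.w 5 (.x 5) (.w 13 (.x 13) (.w 4 (.x 4) (.w 10 (.x 10) (.w 12 (.x 12) (.w 14
  (.x 14) (.w 9 (.w 3 (.x 2) (.w 8 (.x 2) (.w 15 (.w 7 (.x 1) (.d 65537)) (.d 65538)))) (.w 11 (.w 3 (.x 2)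
  (.w 8 (.x 2) (.w 15 (.w 7 (.x 1) (.d 65537)) (.d 65538)))) (.w 15 (.w 7 (.x 1) (.d 5)) (.d 6)))))))))) (.w
  15 (.w 4 (.x 4) (.w 13 (.x 13) (.w 7 (.x 7) (.w 10 (.x 10) (.w 12 (.x 12) (.w 14 (.x 14) (.w 9 (.w 3 (.x 2)
  (.w 8 (.x 2) (.d 98304))) (.w 11 (.w 3 (.x 2) (.w 8 (.x 2) (.d 98304))) (.d 32772))))))))) (.p 0)))) c34))))

def c36 : Tr := .t 1 (.t 2 (.t 3 (.t 4 (.t 5 .z (.t 10 .z (.s 4))) (.t 5 (.t 11 .z (.t 15 .z (.s 5))) (.t 6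
  (.t 7 .z (.t 8 .z (.t 9 .z (.t 10 .z (.t 11 .z (.t 12 .z (.t 13 .z (.t 14 .z (.t 15 .z (.t 16 .z (.w 8 (.w 9
  (.w 15 (.w 7 (.w 13 (.w 4 (.x 4) (.w 11 (.x 11) (.w 10 (.x 10) (.w 14 (.w 12 (.x 12) (.d 32846)) (.d
  40971))))) (.w 14 (.w 4 (.x 4) (.w 11 (.x 11) (.w 10 (.x 10) (.w 12 (.x 12) (.d 32846))))) (.p 6))) (.p 1))
  (.p 0)) (.p 3)) (.p 2)))))))))))) (.t 7 (.p 1) (.t 8 (.p 2) (.t 9 (.p 3) (.t 10 (.s 10) (.t 11 (.t 16 .z (.s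
  11)) (.t 12 (.t 13 .z (.s 12)) (.t 13 (.p 2) (.t 14 (.s 14) (.t 15 (.t 16 .z (.w 5 (.w 6 (.w 8 (.w 9 (.w 7
  (.w 10 (.x 10) (.w 12 (.x 12) (.d 110))) (.p 1)) (.p 3)) (.p 2)) (.p 0)) (.p 15))) (.t 16 (.p 3) (.w 8 (.w 9
  (.w 7 (.w 6 (.w 5 (.x 5) (.w 4 (.x 4) (.w 11 (.x 11) (.w 12 (.x 12) (.w 10 (.x 10) (.w 15 (.w 14 (.x 6) (.d
  267)) (.d 78))))))) (.w 15 (.w 4 (.x 4) (.w 11 (.x 11) (.w 12 (.x 12) (.w 10 (.x 10) (.w 14 (.x 14) (.d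
  33538)))))) (.p 0))) (.p 1)) (.p 3)) (.p 2))))))))))))))) c2) (.t 3 (.t 9 (.p 9) (.s 3)) c9)) (.t 6 (.t 2
  c12 (.t 3 (.t 9 (.p 9) (.s 3)) c25)) (.t 15 (.t 2 c27 (.t 3 (.t 9 (.p 9) (.s 3)) c29)) (.t 16 (.t 2 (.t 3
  (.p 3) (.t 4 (.t 5 (.p 5) (.t 10 (.p 10) (.s 4))) (.t 5 (.t 11 (.p 11) (.s 5)) (.t 7 (.s 7) c32)))) (.t 3
  (.t 9 (.p 3) (.s 3)) (.t 4 (.t 5 (.p 5) (.t 10 (.p 10) (.s 4))) (.t 5 (.t 11 (.p 11) (.s 5)) (.t 7 (.s 7)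
  (.t 8 (.t 13 (.p 8) (.s 8)) (.t 9 (.t 10 (.s 10) (.t 11 (.t 12 (.t 13 .z (.s 12)) (.t 13 (.s 13) (.t 14 (.s
  14) (.w 2 (.w 5 (.w 3 (.w 6 (.w 7 (.x 7) (.w 10 (.x 10) (.w 12 (.x 12) (.w 1 (.w 8 (.w 14 (.x 6) (.d 297))
  (.d 105)) (.d 108))))) (.w 1 (.w 13 (.x 13) (.w 10 (.x 10) (.w 12 (.x 12) (.w 14 (.x 14) (.d 46))))) (.w 15
  (.w 13 (.x 13) (.w 10 (.x 10) (.w 7 (.x 7) (.w 12 (.x 12) (.w 14 (.x 14) (.d 45)))))) (.p 0)))) (.p 9)) (.p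
  11)) (.p 16))))) (.t 12 (.t 13 (.p 12) (.s 12)) c33))) (.t 10 (.s 10) c35)))))))) (.s 0))))

def c37 : Tr := .t 8 (.t 9 .z (.t 10 .z (.t 11 .z (.t 12 .z (.t 13 .z (.t 14 .z (.t 15 .z (.t 16 .z (.w 16 (.w
  13 (.w 9 (.w 10 (.w 15 (.w 1 (.x 1) (.w 14 (.x 14) (.w 7 (.x 7) (.d 106516)))) (.w 11 (.w 1 (.x 1) (.w 14
  (.x 14) (.w 7 (.x 7) (.d 73748)))) (.p 5))) (.p 4)) (.p 3)) (.p 8)) (.p 2)))))))))) (.t 9 (.p 3) (.t 10 (.p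
  4) (.t 11 (.p 11) (.t 12 (.t 13 .z (.s 12)) (.t 13 (.s 13) (.t 14 (.s 14) (.t 15 (.t 16 .z (.w 0 (.w 9 (.w
  11 (.w 10 (.w 8 (.w 7 (.x 7) (.w 12 (.x 12) (.w 14 (.x 14) (.d 313)))) (.w 16 (.w 13 (.x 13) (.w 7 (.x 7)
  (.w 14 (.x 14) (.w 12 (.x 12) (.d 61))))) (.p 2))) (.p 4)) (.p 5)) (.p 3)) (.p 15))) (.t 16 (.p 3) (.w 9 (.w
  10 (.w 16 (.w 8 (.w 15 (.w 6 (.x 6) (.w 1 (.x 1) (.w 12 (.x 12) (.w 7 (.x 7) (.w 13 (.x 8) (.w 14 (.x 14)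
  (.d 98324))))))) (.w 11 (.w 6 (.x 6) (.w 1 (.x 1) (.w 12 (.x 12) (.w 0 (.x 0) (.w 7 (.x 7) (.w 14 (.x 14)
  (.d 65812))))))) (.p 5))) (.w 15 (.w 6 (.x 6) (.w 1 (.x 1) (.w 12 (.x 12) (.w 7 (.x 7) (.w 13 (.x 13) (.w 14
  (.x 14) (.d 98324))))))) (.w 11 (.w 6 (.x 6) (.w 1 (.x 1) (.w 12 (.x 12) (.w 7 (.x 7) (.w 13 (.x 13) (.w 14
  (.x 14) (.d 65556))))))) (.p 5)))) (.w 8 (.w 15 (.w 6 (.x 6) (.w 1 (.x 1) (.w 12 (.x 12) (.w 7 (.x 7) (.w 14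
  (.x 14) (.w 11 (.w 0 (.x 0) (.d 312)) (.d 33048))))))) (.w 11 (.w 6 (.x 6) (.w 1 (.x 1) (.w 12 (.x 12) (.w 0
  (.x 0) (.w 7 (.x 7) (.w 14 (.x 14) (.d 312))))))) (.p 5))) (.p 2))) (.p 4)) (.p 3))))))))))

def c38 : Tr := .t 6 (.t 13 (.t 7 (.s 7) (.t 8 (.p 8) (.t 9 (.p 2) (.t 10 (.s 10) (.t 11 (.p 2) (.t 12 (.p 12)
  (.t 14 (.p 14) (.t 15 (.s 15) (.t 16 (.p 2) (.w 16 (.w 9 (.w 12 (.w 0 (.w 5 (.x 5) (.w 4 (.x 4) (.w 7 (.x 7)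
  (.w 10 (.x 10) (.w 14 (.w 1 (.x 1) (.w 15 (.x 15) (.d 69700))) (.d 69637)))))) (.w 14 (.w 5 (.x 5) (.w 1 (.x
  1) (.w 4 (.x 4) (.w 7 (.x 7) (.w 10 (.x 10) (.w 15 (.x 15) (.d 69700))))))) (.p 6))) (.p 13)) (.p 3)) (.p
  2))))))))))) (.t 14 (.p 14) (.s 6))) (.t 7 (.s 7) (.t 8 (.t 9 (.p 2) (.t 10 (.s 10) (.t 11 (.p 2) (.t 12 (.p
  8) (.t 13 (.p 8) (.t 14 (.s 14) (.t 15 (.s 15) (.t 16 (.p 2) (.w 16 (.w 13 (.w 9 (.w 5 (.x 5) (.w 1 (.x 1)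
  (.w 4 (.x 4) (.w 14 (.x 14) (.w 15 (.x 15) (.w 7 (.x 7) (.w 10 (.x 10) (.d 73732)))))))) (.p 3)) (.p 8)) (.p
  2)))))))))) (.t 9 (.p 3) (.t 10 (.s 10) (.t 11 (.t 16 (.p 3) (.s 11)) (.t 12 (.t 13 (.p 12) (.s 12)) (.t 13
  (.s 13) (.t 14 (.s 14) (.t 15 (.s 15) (.t 16 (.p 3) (.w 9 (.w 16 (.w 5 (.x 5) (.w 6 (.x 6) (.w 1 (.x 1) (.w
  13 (.x 13) (.w 4 (.x 4) (.w 15 (.x 15) (.w 7 (.x 7) (.w 10 (.x 10) (.w 12 (.x 12) (.w 14 (.x 14) (.d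
  65540))))))))))) (.w 8 (.w 0 (.x 0) (.w 5 (.x 5) (.w 6 (.x 6) (.w 1 (.x 1) (.w 4 (.x 4) (.w 12 (.x 12) (.w 7
  (.x 7) (.w 10 (.x 10) (.w 11 (.x 11) (.w 14 (.x 14) (.w 15 (.x 15) (.d 264)))))))))))) (.p 2))) (.p
  3))))))))))))

def c39 : Tr := .t 7 (.s 7) (.t 9 (.p 2) (.t 10 (.s 10) (.t 11 (.t 16 (.t 12 (.p 8) (.t 13 (.p 8) (.t 14 (.s
  14) (.t 15 (.p 11) (.w 5 (.w 13 (.w 3 (.w 0 (.w 7 (.x 7) (.w 10 (.x 10) (.w 14 (.x 14) (.d 8233)))) (.w 9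
  (.w 1 (.x 1) (.w 10 (.x 10) (.w 14 (.x 14) (.w 7 (.x 7) (.d 8236))))) (.p 16))) (.p 2)) (.p 8)) (.p 11))))))
  (.s 11)) (.t 12 (.p 8) (.t 13 (.p 8) (.t 14 (.s 14) (.t 15 (.s 15) (.t 16 (.w 13 (.w 3 (.w 0 (.w 5 (.x 5)
  (.w 4 (.x 4) (.w 7 (.x 7) (.w 14 (.x 14) (.w 10 (.x 10) (.w 11 (.w 1 (.x 0) (.w 15 (.x 0) (.d 73732))) (.d
  8201))))))) (.w 11 (.w 4 (.x 4) (.w 1 (.x 1) (.w 14 (.x 14) (.w 15 (.x 15) (.w 7 (.x 7) (.w 10 (.x 10) (.d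
  10248))))))) (.w 9 (.w 4 (.x 4) (.w 1 (.x 1) (.w 5 (.x 5) (.w 14 (.x 14) (.w 7 (.x 7) (.w 10 (.x 10) (.w 15
  (.x 15) (.d 8204)))))))) (.p 16)))) (.p 2)) (.p 8)) (.w 13 (.w 16 (.w 5 (.x 5) (.w 1 (.x 1) (.w 4 (.x 4) (.w
  14 (.x 14) (.w 15 (.x 15) (.w 7 (.x 7) (.w 10 (.x 10) (.w 3 (.w 0 (.x 0) (.w 9 (.x 3) (.w 11 (.x 11) (.d
  8196)))) (.d 73728))))))))) (.w 3 (.w 0 (.x 0) (.w 5 (.x 5) (.w 1 (.x 1) (.w 4 (.x 4) (.w 14 (.x 14) (.w 7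
  (.x 7) (.w 10 (.x 10) (.w 11 (.x 11) (.w 15 (.x 15) (.d 8200)))))))))) (.p 2))) (.p 8))))))))))

def c40 : Tr := .t 4 (.t 5 (.t 6 (.p 8) (.t 7 (.s 7) (.t 9 (.p 2) (.t 10 (.p 4) (.t 11 (.p 11) (.t 12 (.p 8)
  (.t 13 (.p 8) (.t 14 (.s 14) (.t 15 (.t 16 .z (.w 0 (.w 13 (.w 11 (.w 10 (.w 3 (.w 7 (.x 7) (.w 14 (.x 14)
  (.d 8249))) (.w 16 (.w 7 (.x 7) (.w 14 (.x 14) (.d 73745))) (.p 2))) (.p 4)) (.p 5)) (.p 8)) (.p 15))) (.t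
  16 (.w 13 (.w 3 (.w 15 (.w 10 (.w 0 (.w 7 (.x 7) (.w 14 (.x 14) (.d 73749))) (.w 9 (.w 1 (.x 1) (.w 14 (.x
  14) (.w 7 (.x 7) (.d 8252)))) (.p 16))) (.p 4)) (.p 5)) (.p 2)) (.p 8)) (.w 13 (.w 10 (.w 16 (.w 3 (.w 15
  (.w 0 (.x 16) (.w 1 (.x 1) (.w 14 (.x 14) (.w 7 (.x 7) (.w 9 (.x 3) (.d 8244)))))) (.w 11 (.w 0 (.x 0) (.w 1
  (.x 1) (.w 14 (.x 14) (.w 7 (.x 7) (.d 73748))))) (.p 5))) (.w 15 (.w 1 (.x 1) (.w 14 (.x 14) (.w 7 (.x 7)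
  (.d 73776)))) (.w 11 (.w 1 (.x 1) (.w 14 (.x 14) (.w 7 (.x 7) (.d 73744)))) (.p 5)))) (.w 3 (.w 15 (.w 1 (.x
  1) (.w 14 (.x 14) (.w 7 (.x 7) (.w 11 (.w 0 (.x 0) (.d 8248)) (.d 40984))))) (.w 11 (.w 0 (.x 0) (.w 1 (.x
  1) (.w 14 (.x 14) (.w 7 (.x 7) (.d 8248))))) (.p 5))) (.p 2))) (.p 4)) (.p 8)))))))))))) (.t 10 (.p 10) (.s
  4))) (.t 5 (.t 11 (.p 11) (.t 15 (.t 6 (.p 8) (.t 7 (.s 7) (.t 9 (.p 2) (.t 10 (.s 10) (.t 12 (.p 8) (.t 13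
  (.p 8) (.t 14 (.s 14) (.t 16 (.p 15) (.w 0 (.w 13 (.w 16 (.w 3 (.w 4 (.w 7 (.x 7) (.w 14 (.x 14) (.w 11 (.w
  10 (.x 4) (.d 8233)) (.d 8217)))) (.w 11 (.w 7 (.x 7) (.w 14 (.x 14) (.w 10 (.x 10) (.d 8233)))) (.p 5)))
  (.w 4 (.w 7 (.x 7) (.w 14 (.x 14) (.d 73745))) (.w 11 (.w 7 (.x 7) (.w 14 (.x 14) (.w 10 (.x 10) (.d
  73761)))) (.p 5)))) (.w 3 (.w 4 (.w 7 (.x 7) (.w 14 (.x 14) (.w 11 (.w 10 (.x 4) (.d 8233)) (.d 8217)))) (.w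
  11 (.w 7 (.x 7) (.w 14 (.x 14) (.w 10 (.x 10) (.d 8233)))) (.p 5))) (.p 2))) (.p 8)) (.p 15)))))))))) (.s
  5))) (.t 6 (.p 8) c39))

def c41 : Tr := .w 0 (.w 3 (.w 5 (.x 5) (.w 13 (.x 13) (.w 4 (.x 4) (.w 7 (.x 7) (.w 14 (.x 14) (.w 10 (.x 10)
  (.w 12 (.x 12) (.w 8 (.w 9 (.w 1 (.x 0) (.w 6 (.x 0) (.w 15 (.x 0) (.d 65540)))) (.w 11 (.w 1 (.x 0) (.w 6
  (.x 0) (.w 15 (.x 0) (.d 65540)))) (.d 5))) (.w 11 (.w 1 (.x 0) (.w 6 (.x 0) (.w 15 (.x 0) (.d 65540)))) (.d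
  9)))))))))) (.w 8 (.w 5 (.x 5) (.w 4 (.x 4) (.w 7 (.x 7) (.w 12 (.x 12) (.w 14 (.x 14) (.w 10 (.x 10) (.w 9
  (.w 6 (.x 0) (.w 1 (.x 0) (.w 15 (.x 0) (.d 65792)))) (.w 11 (.w 6 (.x 0) (.w 1 (.x 0) (.w 15 (.x 0) (.d
  65792)))) (.d 257))))))))) (.p 2))) (.w 3 (.w 8 (.w 11 (.w 4 (.x 4) (.w 6 (.x 6) (.w 1 (.x 1) (.w 12 (.x 12)
  (.w 15 (.x 15) (.w 7 (.x 7) (.w 10 (.x 10) (.w 13 (.x 8) (.w 14 (.x 14) (.w 9 (.w 5 (.x 5) (.d 65540)) (.d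
  2052))))))))))) (.w 9 (.w 4 (.x 4) (.w 6 (.x 6) (.w 1 (.x 1) (.w 5 (.x 5) (.w 12 (.x 12) (.w 7 (.x 7) (.w 10
  (.x 10) (.w 13 (.x 8) (.w 14 (.x 14) (.w 15 (.x 15) (.d 12))))))))))) (.p 16))) (.w 11 (.w 4 (.x 4) (.w 6
  (.x 6) (.w 1 (.x 1) (.w 12 (.x 12) (.w 15 (.x 15) (.w 7 (.x 7) (.w 10 (.x 10) (.w 13 (.x 13) (.w 14 (.x 14)
  (.d 2056)))))))))) (.w 9 (.w 4 (.x 4) (.w 6 (.x 6) (.w 1 (.x 1) (.w 5 (.x 5) (.w 12 (.x 12) (.w 7 (.x 7) (.w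
  10 (.x 10) (.w 13 (.x 13) (.w 14 (.x 14) (.w 15 (.x 15) (.d 12))))))))))) (.p 16)))) (.w 8 (.w 11 (.w 4 (.x
  4) (.w 6 (.x 6) (.w 1 (.x 1) (.w 12 (.x 12) (.w 15 (.x 15) (.w 7 (.x 7) (.w 10 (.x 10) (.w 14 (.x 14) (.w 9
  (.w 5 (.x 5) (.d 65792)) (.d 2304)))))))))) (.w 9 (.w 4 (.x 4) (.w 6 (.x 6) (.w 1 (.x 1) (.w 5 (.x 5) (.w 12
  (.x 12) (.w 7 (.x 7) (.w 10 (.x 10) (.w 14 (.x 14) (.w 15 (.x 15) (.d 768)))))))))) (.p 16))) (.p 2)))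

def c42 : Tr := .t 6 (.t 13 (.t 7 (.s 7) (.t 9 (.p 2) (.t 10 (.s 10) (.t 11 (.t 12 .z (.t 14 .z (.t 15 .z (.w
  5 (.w 3 (.w 9 (.w 12 (.w 14 (.w 1 (.x 1) (.w 10 (.x 10) (.w 7 (.x 7) (.d 4204)))) (.p 6)) (.p 13)) (.p 16))
  (.p 2)) (.p 11))))) (.t 12 (.p 12) (.t 14 (.p 6) (.t 15 (.s 15) (.w 3 (.w 12 (.w 14 (.w 11 (.w 1 (.x 1) (.w
  4 (.x 4) (.w 15 (.x 15) (.w 7 (.x 7) (.w 10 (.x 10) (.d 10312)))))) (.w 9 (.w 1 (.x 1) (.w 4 (.x 4) (.w 15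
  (.x 15) (.w 5 (.x 5) (.w 7 (.x 7) (.w 10 (.x 10) (.d 4172))))))) (.p 16))) (.p 6)) (.p 13)) (.p 2)))))))))
  (.t 14 (.p 14) (.s 6))) (.t 7 (.s 7) (.t 9 (.p 9) (.t 10 (.s 10) (.t 11 (.t 12 (.t 13 (.p 12) (.s 12)) (.t
  13 (.s 13) (.t 14 (.s 14) (.t 15 (.p 11) (.w 5 (.w 0 (.w 3 (.w 13 (.x 13) (.w 7 (.x 7) (.w 10 (.x 10) (.w 14
  (.x 14) (.w 12 (.x 12) (.w 8 (.w 9 (.w 1 (.x 0) (.w 6 (.x 0) (.d 65572))) (.d 37)) (.d 41))))))) (.w 8 (.w 7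
  (.x 7) (.w 10 (.x 10) (.w 12 (.x 12) (.w 14 (.x 14) (.w 9 (.w 6 (.x 0) (.w 1 (.x 0) (.d 65824))) (.d
  289)))))) (.p 2))) (.w 9 (.w 8 (.w 6 (.x 6) (.w 1 (.x 1) (.w 10 (.x 10) (.w 12 (.x 12) (.w 7 (.x 7) (.w 14
  (.x 14) (.d 800))))))) (.w 3 (.w 6 (.x 6) (.w 1 (.x 1) (.w 10 (.x 10) (.w 12 (.x 12) (.w 7 (.x 7) (.w 13 (.x
  13) (.w 14 (.x 14) (.d 44)))))))) (.p 2))) (.p 16))) (.p 11)))))) (.t 12 (.t 13 (.p 12) (.s 12)) (.t 13 (.s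
  13) (.t 14 (.s 14) (.t 15 (.s 15) c41))))))))

def c43 : Tr := .t 3 (.t 4 (.t 5 (.t 6 (.t 13 .z (.t 14 .z (.s 6))) (.t 7 (.s 7) c37)) (.t 10 (.p 10) (.s 4)))
  (.t 5 (.t 11 (.p 11) (.t 15 (.t 6 (.p 15) (.t 7 (.s 7) (.t 8 (.t 9 .z (.t 10 .z (.t 12 .z (.t 13 .z (.t 14
  .z (.t 16 .z (.w 0 (.w 13 (.w 16 (.w 9 (.w 4 (.w 7 (.x 7) (.w 14 (.x 14) (.d 8249))) (.w 11 (.w 7 (.x 7) (.w
  14 (.x 14) (.w 10 (.x 10) (.d 8237)))) (.p 5))) (.p 3)) (.p 2)) (.p 8)) (.p 15)))))))) (.t 9 (.p 3) (.t 10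
  (.s 10) (.t 12 (.t 13 .z (.s 12)) (.t 13 (.s 13) (.t 14 (.s 14) (.t 16 (.p 3) (.w 0 (.w 9 (.w 4 (.w 8 (.w 7
  (.x 7) (.w 12 (.x 12) (.w 14 (.x 14) (.w 11 (.w 10 (.x 4) (.d 297)) (.d 281))))) (.w 16 (.w 13 (.x 13) (.w 7
  (.x 7) (.w 14 (.x 14) (.w 12 (.x 12) (.d 57))))) (.p 2))) (.w 11 (.w 8 (.w 7 (.x 7) (.w 12 (.x 12) (.w 14
  (.x 14) (.w 10 (.x 10) (.d 297))))) (.w 16 (.w 13 (.x 13) (.w 7 (.x 7) (.w 14 (.x 14) (.w 10 (.x 10) (.w 12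
  (.x 12) (.d 45)))))) (.p 2))) (.p 5))) (.p 3)) (.p 15))))))))))) (.s 5))) c38)) (.t 8 c40 (.t 16 (.t 4 (.t 5
  (.t 6 (.t 13 .z (.t 14 .z (.s 6))) (.t 7 (.s 7) (.t 9 (.p 9) (.t 10 (.p 4) (.t 11 (.p 11) (.t 12 (.t 13 .z
  (.s 12)) (.t 13 (.s 13) (.t 14 (.s 14) (.t 15 (.p 5) (.w 15 (.w 10 (.w 0 (.w 3 (.w 13 (.x 13) (.w 7 (.x 7)
  (.w 14 (.x 14) (.w 12 (.x 12) (.d 65557))))) (.w 8 (.w 7 (.x 7) (.w 12 (.x 12) (.w 14 (.x 14) (.d 65809))))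
  (.p 2))) (.w 9 (.w 8 (.w 6 (.x 6) (.w 1 (.x 1) (.w 12 (.x 12) (.w 7 (.x 7) (.w 14 (.x 14) (.d 816)))))) (.w
  3 (.w 6 (.x 6) (.w 1 (.x 1) (.w 12 (.x 12) (.w 7 (.x 7) (.w 13 (.x 13) (.w 14 (.x 14) (.d 60))))))) (.p 2)))
  (.p 16))) (.p 4)) (.p 5))))))))))) (.t 10 (.p 10) (.s 4))) (.t 5 (.t 11 (.p 11) (.t 15 (.p 15) (.s 5)))
  c42)) (.s 2)))

def c44 : Tr := .t 5 (.t 11 (.p 9) (.t 15 (.t 6 (.p 15) (.t 7 (.s 7) (.t 8 (.p 3) (.t 10 (.s 10) (.t 12 (.t 13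
  .z (.s 12)) (.t 13 (.s 13) (.t 14 (.s 14) (.t 16 (.p 3) (.w 0 (.w 2 (.w 16 (.w 4 (.w 13 (.x 13) (.w 7 (.x 7)
  (.w 14 (.x 14) (.w 12 (.x 12) (.d 65557))))) (.w 11 (.w 13 (.x 13) (.w 7 (.x 7) (.w 14 (.x 14) (.w 10 (.x
  10) (.w 12 (.x 12) (.d 45)))))) (.p 5))) (.p 9)) (.p 3)) (.p 15)))))))))) (.s 5))) (.t 6 (.t 13 (.t 7 (.s 7)
  (.t 8 (.p 3) (.t 10 (.s 10) (.t 11 (.p 9) (.t 12 (.p 12) (.t 14 (.p 14) (.t 15 (.s 15) (.t 16 (.p 3) (.w 16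
  (.w 2 (.w 0 (.w 8 (.w 5 (.x 5) (.w 4 (.x 4) (.w 7 (.x 7) (.w 10 (.x 10) (.w 12 (.w 14 (.w 1 (.x 1) (.w 15
  (.x 15) (.d 69700))) (.d 69637)) (.d 65605)))))) (.w 12 (.w 5 (.x 5) (.w 4 (.x 4) (.w 7 (.x 7) (.w 10 (.x
  10) (.w 14 (.w 1 (.x 1) (.w 15 (.x 15) (.d 69700))) (.d 69637)))))) (.p 13))) (.w 14 (.w 8 (.w 5 (.x 5) (.w
  1 (.x 1) (.w 4 (.x 4) (.w 7 (.x 7) (.w 10 (.x 10) (.w 15 (.x 15) (.d 73796))))))) (.w 12 (.w 5 (.x 5) (.w 1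
  (.x 1) (.w 4 (.x 4) (.w 7 (.x 7) (.w 10 (.x 10) (.w 15 (.x 15) (.d 69700))))))) (.p 13))) (.p 6))) (.p 3))
  (.p 9)))))))))) (.t 14 (.p 14) (.s 6))) (.t 7 (.s 7) (.t 8 (.p 3) (.t 10 (.s 10) (.t 11 (.p 9) (.t 12 (.t 13
  (.p 12) (.s 12)) (.t 13 (.s 13) (.t 14 (.s 14) (.t 15 (.s 15) (.t 16 (.p 3) (.w 16 (.w 2 (.w 5 (.x 5) (.w 6
  (.x 6) (.w 1 (.x 1) (.w 13 (.x 13) (.w 4 (.x 4) (.w 15 (.x 15) (.w 7 (.x 7) (.w 10 (.x 10) (.w 12 (.x 12)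
  (.w 14 (.x 14) (.d 65540))))))))))) (.p 3)) (.p 9))))))))))))

def c45 : Tr := .t 14 (.p 14) (.t 15 (.p 15) (.t 16 (.s 16) (.w 10 (.w 0 (.w 8 (.w 11 (.w 3 (.x 3) (.w 7 (.x
  7) (.w 9 (.x 9) (.w 12 (.w 2 (.x 2) (.w 14 (.w 1 (.x 0) (.w 16 (.x 0) (.d 8304))) (.d 8241))) (.w 14 (.w 16
  (.x 0) (.w 1 (.x 0) (.d 368))) (.d 305)))))) (.w 15 (.w 3 (.x 3) (.w 7 (.x 7) (.w 9 (.x 9) (.w 12 (.w 2 (.x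
  2) (.d 8273)) (.d 337))))) (.p 5))) (.w 12 (.w 11 (.w 2 (.x 2) (.w 9 (.x 9) (.w 7 (.x 7) (.w 3 (.x 3) (.w 14
  (.w 1 (.x 0) (.w 16 (.x 0) (.d 4208))) (.d 4145)))))) (.w 15 (.w 2 (.x 2) (.w 9 (.x 9) (.w 7 (.x 7) (.w 3
  (.x 3) (.d 4177))))) (.p 5))) (.p 13))) (.w 14 (.w 8 (.w 11 (.w 3 (.x 3) (.w 1 (.x 1) (.w 9 (.x 9) (.w 7 (.x
  7) (.w 12 (.w 2 (.x 2) (.w 15 (.w 16 (.x 11) (.d 8304)) (.d 10320))) (.w 15 (.w 16 (.x 11) (.d 368)) (.d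
  2384))))))) (.w 15 (.w 3 (.x 3) (.w 16 (.x 16) (.w 1 (.x 1) (.w 7 (.x 7) (.w 9 (.x 9) (.w 12 (.w 2 (.x 2)
  (.d 8304)) (.d 368))))))) (.p 5))) (.w 12 (.w 11 (.w 2 (.x 2) (.w 9 (.x 9) (.w 1 (.x 1) (.w 3 (.x 3) (.w 7
  (.x 7) (.w 15 (.w 16 (.x 11) (.d 4208)) (.d 6224))))))) (.w 15 (.w 2 (.x 2) (.w 9 (.x 9) (.w 1 (.x 1) (.w 3
  (.x 3) (.w 7 (.x 7) (.w 16 (.x 16) (.d 4208))))))) (.p 5))) (.p 13))) (.p 6))) (.p 4))))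

def c46 : Tr := .t 9 (.t 16 (.t 10 (.p 4) (.t 11 (.p 11) (.t 12 (.t 13 .z (.s 12)) (.t 13 (.s 13) (.t 14 (.s
  14) (.t 15 (.p 5) (.w 3 (.w 15 (.w 10 (.w 0 (.w 13 (.x 13) (.w 7 (.x 7) (.w 8 (.x 8) (.w 14 (.x 14) (.w 12
  (.x 12) (.d 57)))))) (.w 2 (.w 13 (.x 13) (.w 1 (.x 1) (.w 6 (.x 6) (.w 7 (.x 7) (.w 12 (.x 12) (.w 14 (.x
  14) (.d 60))))))) (.p 16))) (.p 4)) (.p 5)) (.p 9)))))))) (.s 9)) (.t 10 (.p 4) (.t 11 (.t 12 (.t 13 (.p 12)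
  (.s 12)) (.t 13 (.s 13) (.t 14 (.s 14) (.t 15 (.p 5) (.t 16 (.p 11) (.w 16 (.w 15 (.w 10 (.w 6 (.x 6) (.w 1
  (.x 1) (.w 3 (.x 3) (.w 8 (.x 8) (.w 12 (.x 12) (.w 7 (.x 7) (.w 13 (.x 13) (.w 14 (.x 14) (.d
  65584))))))))) (.p 4)) (.p 5)) (.p 11))))))) (.t 12 (.t 13 (.p 12) (.s 12)) (.t 13 (.s 13) (.t 14 (.s 14)
  (.t 15 (.t 16 (.p 5) (.w 0 (.w 11 (.w 10 (.w 2 (.x 2) (.w 13 (.x 13) (.w 9 (.x 9) (.w 7 (.x 7) (.w 14 (.x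
  14) (.w 3 (.x 3) (.w 8 (.x 8) (.w 12 (.x 12) (.d 49))))))))) (.p 4)) (.p 5)) (.p 15))) (.t 16 (.s 16) (.w 10
  (.w 11 (.w 0 (.x 0) (.w 2 (.x 2) (.w 13 (.x 13) (.w 9 (.x 9) (.w 1 (.x 1) (.w 6 (.x 6) (.w 3 (.x 3) (.w 7
  (.x 7) (.w 8 (.x 8) (.w 12 (.x 12) (.w 14 (.x 14) (.w 15 (.w 16 (.x 11) (.d 48)) (.d 2064))))))))))))) (.w
  15 (.w 2 (.x 2) (.w 6 (.x 6) (.w 1 (.x 1) (.w 9 (.x 9) (.w 13 (.x 13) (.w 16 (.x 16) (.w 3 (.x 3) (.w 7 (.x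
  7) (.w 8 (.x 8) (.w 12 (.x 12) (.w 14 (.x 14) (.d 32784)))))))))))) (.p 5))) (.p 4)))))))))

def c47 : Tr := .t 6 (.t 13 (.t 7 (.s 7) (.t 8 (.t 9 .z (.t 10 .z (.t 11 .z (.t 12 .z (.t 14 .z (.t 15 .z (.t
  16 .z (.w 2 (.w 10 (.w 12 (.w 0 (.w 11 (.w 9 (.x 9) (.w 7 (.x 7) (.w 14 (.w 1 (.x 0) (.d 4212)) (.d 4149))))
  (.w 15 (.w 9 (.x 9) (.w 7 (.x 7) (.d 4181))) (.p 5))) (.w 14 (.w 11 (.w 9 (.x 9) (.w 1 (.x 1) (.w 7 (.x 7)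
  (.d 4212)))) (.w 15 (.w 9 (.x 9) (.w 1 (.x 1) (.w 7 (.x 7) (.d 4212)))) (.p 5))) (.p 6))) (.p 13)) (.p 4))
  (.p 8))))))))) (.t 9 (.t 16 .z (.s 9)) (.t 10 (.p 4) (.t 11 (.t 12 .z (.t 14 .z (.t 15 .z (.t 16 .z (.w 16
  (.w 15 (.w 10 (.w 0 (.w 8 (.w 3 (.x 3) (.w 7 (.x 7) (.d 73809))) (.w 12 (.w 3 (.x 3) (.w 7 (.x 7) (.d
  69713))) (.p 13))) (.w 14 (.w 8 (.w 3 (.x 3) (.w 1 (.x 1) (.w 7 (.x 7) (.d 73840)))) (.w 12 (.w 3 (.x 3) (.w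
  1 (.x 1) (.w 7 (.x 7) (.d 69744)))) (.p 13))) (.p 6))) (.p 4)) (.p 5)) (.p 11)))))) (.t 12 (.p 12) c45))))))
  (.t 14 (.p 14) (.s 6))) (.t 7 (.s 7) (.t 8 (.t 13 (.t 9 (.t 16 .z (.s 9)) (.t 10 (.p 4) (.t 11 (.t 12 .z (.t
  14 .z (.t 15 .z (.t 16 .z (.w 16 (.w 2 (.w 15 (.w 10 (.w 6 (.w 1 (.x 1) (.w 7 (.x 7) (.w 12 (.w 14 (.x 6)
  (.d 73780)) (.d 65652)))) (.w 12 (.w 1 (.x 1) (.w 7 (.x 7) (.w 14 (.x 14) (.d 69684)))) (.p 13))) (.p 4))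
  (.p 5)) (.p 8)) (.p 11)))))) (.t 12 (.p 12) (.t 14 (.s 14) (.t 15 (.t 16 .z (.w 0 (.w 2 (.w 11 (.w 10 (.w 6
  (.w 9 (.x 9) (.w 7 (.x 7) (.w 12 (.w 14 (.x 14) (.d 4149)) (.d 117)))) (.w 12 (.w 9 (.x 9) (.w 7 (.x 7) (.w
  14 (.x 14) (.d 4149)))) (.p 13))) (.p 4)) (.p 5)) (.p 8)) (.p 15))) (.t 16 (.p 8) (.w 2 (.w 10 (.w 6 (.w 11
  (.w 1 (.x 1) (.w 9 (.x 9) (.w 7 (.x 7) (.w 12 (.w 0 (.x 0) (.w 14 (.x 6) (.d 8244))) (.d 116))))) (.w 15 (.w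
  1 (.x 1) (.w 9 (.x 9) (.w 7 (.x 7) (.w 12 (.w 14 (.x 6) (.d 40980)) (.d 116))))) (.p 5))) (.w 12 (.w 11 (.w
  0 (.x 0) (.w 9 (.x 9) (.w 1 (.x 1) (.w 7 (.x 7) (.w 14 (.x 14) (.d 4148)))))) (.w 15 (.w 1 (.x 1) (.w 9 (.x
  9) (.w 7 (.x 7) (.w 14 (.x 14) (.d 36884))))) (.p 5))) (.p 13))) (.p 4)) (.p 8))))))))) (.s 8)) c46))

def c48 : Tr := .t 8 (.t 9 .z (.t 10 .z (.t 12 .z (.t 14 .z (.t 15 .z (.t 16 .z (.w 16 (.w 2 (.w 12 (.w 0 (.w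
  4 (.w 7 (.x 7) (.w 14 (.w 3 (.w 1 (.x 1) (.w 15 (.w 10 (.x 4) (.d 4204)) (.d 69716))) (.d 73809)) (.d
  69653))) (.w 15 (.w 7 (.x 7) (.w 10 (.x 10) (.w 3 (.d 8297) (.d 73825)))) (.p 5))) (.w 14 (.w 4 (.w 1 (.x 1)
  (.w 7 (.x 7) (.w 15 (.w 10 (.x 4) (.d 69732)) (.d 69716)))) (.w 15 (.w 1 (.x 1) (.w 7 (.x 7) (.w 10 (.x 10)
  (.d 69732)))) (.p 5))) (.p 6))) (.p 13)) (.p 8)) (.p 11)))))))) (.t 9 (.p 11) (.t 10 (.s 10) (.t 12 (.p 12)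
  (.t 14 (.p 14) (.t 15 (.p 15) (.t 16 (.p 11) (.w 16 (.w 0 (.w 4 (.w 8 (.w 3 (.x 3) (.w 7 (.x 7) (.w 14 (.w 1
  (.x 1) (.w 15 (.w 10 (.x 4) (.d 73824)) (.d 73808))) (.d 73745)))) (.w 12 (.w 3 (.x 3) (.w 7 (.x 7) (.w 14
  (.w 1 (.x 1) (.w 15 (.w 10 (.x 4) (.d 69728)) (.d 69712))) (.d 69649)))) (.p 13))) (.w 15 (.w 8 (.w 3 (.x 3)
  (.w 7 (.x 7) (.w 10 (.x 10) (.w 14 (.w 1 (.x 1) (.d 73824)) (.d 73761))))) (.w 12 (.w 3 (.x 3) (.w 7 (.x 7)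
  (.w 10 (.x 10) (.w 14 (.w 1 (.x 1) (.d 69728)) (.d 69665))))) (.p 13))) (.p 5))) (.w 14 (.w 4 (.w 8 (.w 3
  (.x 3) (.w 1 (.x 1) (.w 7 (.x 7) (.w 15 (.w 10 (.x 4) (.d 73824)) (.d 73808))))) (.w 12 (.w 3 (.x 3) (.w 1
  (.x 1) (.w 7 (.x 7) (.w 15 (.w 10 (.x 4) (.d 69728)) (.d 69712))))) (.p 13))) (.w 15 (.w 8 (.w 3 (.x 3) (.w
  1 (.x 1) (.w 7 (.x 7) (.w 10 (.x 10) (.d 73824))))) (.w 12 (.w 3 (.x 3) (.w 1 (.x 1) (.w 7 (.x 7) (.w 10 (.x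
  10) (.d 69728))))) (.p 13))) (.p 5))) (.p 6))) (.p 11))))))))

def c49 : Tr := .t 8 (.t 13 (.t 9 (.p 11) (.t 10 (.s 10) (.t 12 (.p 12) (.t 14 (.s 14) (.t 15 (.t 16 .z (.w 0
  (.w 2 (.w 4 (.w 16 (.w 6 (.w 7 (.x 7) (.w 12 (.w 14 (.x 14) (.d 69653)) (.d 65621))) (.w 12 (.w 7 (.x 7) (.w
  14 (.x 14) (.d 69653))) (.p 13))) (.p 11)) (.p 5)) (.p 8)) (.p 15))) (.t 16 (.p 8) (.w 16 (.w 2 (.w 6 (.w 4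
  (.w 1 (.x 1) (.w 7 (.x 7) (.w 15 (.w 0 (.x 15) (.w 10 (.x 4) (.w 12 (.w 14 (.x 6) (.d 73764)) (.d 65636))))
  (.w 12 (.w 14 (.x 6) (.d 73748)) (.d 65620))))) (.w 15 (.w 1 (.x 1) (.w 7 (.x 7) (.w 10 (.x 10) (.w 12 (.w
  14 (.x 6) (.d 73764)) (.d 65636))))) (.p 5))) (.w 12 (.w 4 (.w 1 (.x 1) (.w 7 (.x 7) (.w 14 (.x 14) (.w 15
  (.w 10 (.x 4) (.d 69668)) (.d 69652))))) (.w 15 (.w 1 (.x 1) (.w 7 (.x 7) (.w 10 (.x 10) (.w 14 (.x 14) (.d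
  69668))))) (.p 5))) (.p 13))) (.p 8)) (.p 11)))))))) (.s 8)) (.t 9 (.p 11) (.t 10 (.s 10) (.t 12 (.t 13 (.p
  12) (.s 12)) (.t 13 (.s 13) (.t 14 (.s 14) (.t 15 (.t 16 (.p 11) (.w 0 (.w 16 (.w 4 (.w 13 (.x 13) (.w 3 (.x
  3) (.w 7 (.x 7) (.w 8 (.x 8) (.w 14 (.x 14) (.w 12 (.x 12) (.d 65553))))))) (.p 5)) (.p 11)) (.p 15))) (.t
  16 (.p 11) (.w 16 (.w 4 (.w 6 (.x 6) (.w 1 (.x 1) (.w 3 (.x 3) (.w 8 (.x 8) (.w 12 (.x 12) (.w 7 (.x 7) (.w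
  13 (.x 13) (.w 14 (.x 14) (.w 15 (.w 10 (.x 4) (.d 65568)) (.d 65552)))))))))) (.w 15 (.w 6 (.x 6) (.w 1 (.x
  1) (.w 3 (.x 3) (.w 8 (.x 8) (.w 12 (.x 12) (.w 7 (.x 7) (.w 10 (.x 10) (.w 13 (.x 13) (.w 14 (.x 14) (.d
  65568)))))))))) (.p 5))) (.p 11)))))))))

def c50 : Tr := .t 11 (.t 6 (.t 13 (.t 7 (.s 7) c48) (.t 14 (.p 14) (.s 6))) (.t 7 (.s 7) c49)) (.t 15 (.t 6
  (.p 15) (.t 7 (.s 7) (.t 8 (.t 13 (.t 9 (.t 16 .z (.s 9)) (.t 10 (.s 10) (.t 12 (.p 12) (.t 14 (.s 14) (.t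
  16 (.p 8) (.w 0 (.w 2 (.w 4 (.w 6 (.w 9 (.x 9) (.w 7 (.x 7) (.w 11 (.w 10 (.x 4) (.w 12 (.w 14 (.x 14) (.d
  4133)) (.d 101))) (.w 12 (.w 14 (.x 14) (.d 4117)) (.d 85))))) (.w 12 (.w 9 (.x 9) (.w 7 (.x 7) (.w 14 (.x
  14) (.w 11 (.w 10 (.x 4) (.d 4133)) (.d 4117))))) (.p 13))) (.w 11 (.w 6 (.w 9 (.x 9) (.w 7 (.x 7) (.w 10
  (.x 10) (.w 12 (.w 14 (.x 14) (.d 4133)) (.d 101))))) (.w 12 (.w 9 (.x 9) (.w 7 (.x 7) (.w 10 (.x 10) (.w 14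
  (.x 14) (.d 4133))))) (.p 13))) (.p 5))) (.p 8)) (.p 15))))))) (.s 8)) (.t 9 (.t 16 (.p 15) (.s 9)) (.t 10
  (.s 10) (.t 12 (.t 13 (.p 12) (.s 12)) (.t 13 (.s 13) (.t 14 (.s 14) (.t 16 (.p 15) (.w 0 (.w 4 (.w 2 (.x 2)
  (.w 13 (.x 13) (.w 9 (.x 9) (.w 7 (.x 7) (.w 14 (.x 14) (.w 3 (.x 3) (.w 8 (.x 8) (.w 12 (.x 12) (.w 11 (.w
  10 (.x 4) (.d 33)) (.d 17)))))))))) (.w 11 (.w 2 (.x 2) (.w 13 (.x 13) (.w 9 (.x 9) (.w 7 (.x 7) (.w 14 (.x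
  14) (.w 3 (.x 3) (.w 8 (.x 8) (.w 10 (.x 10) (.w 12 (.x 12) (.d 33)))))))))) (.p 5))) (.p 15))))))))))) (.s
  5))

def c51 : Tr := .t 11 (.t 16 (.t 12 (.p 12) (.t 14 (.p 6) (.t 15 (.p 11) (.w 5 (.w 14 (.w 2 (.w 9 (.w 8 (.w 1
  (.x 1) (.w 10 (.x 10) (.w 3 (.x 9) (.w 7 (.x 7) (.d 73824))))) (.w 12 (.w 1 (.x 1) (.w 10 (.x 10) (.w 3 (.x
  2) (.w 7 (.x 7) (.d 69728))))) (.p 13))) (.w 8 (.w 1 (.x 1) (.w 10 (.x 10) (.w 7 (.x 7) (.d 8292)))) (.w 12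
  (.w 1 (.x 1) (.w 10 (.x 10) (.w 7 (.x 7) (.d 4196)))) (.p 13)))) (.w 9 (.w 8 (.w 1 (.x 1) (.w 10 (.x 10) (.w
  7 (.x 7) (.d 8800)))) (.w 12 (.w 1 (.x 1) (.w 10 (.x 10) (.w 7 (.x 7) (.d 4704)))) (.p 13))) (.p 16))) (.p
  6)) (.p 11))))) (.s 11)) (.t 12 (.p 12) (.t 14 (.p 14) (.t 15 (.s 15) (.t 16 (.s 16) (.w 0 (.w 8 (.w 5 (.x
  5) (.w 3 (.x 3) (.w 4 (.x 4) (.w 7 (.x 7) (.w 9 (.x 9) (.w 11 (.x 11) (.w 10 (.x 10) (.w 12 (.w 2 (.x 2) (.w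
  14 (.w 1 (.x 0) (.w 15 (.x 0) (.w 16 (.x 0) (.d 8256)))) (.d 8193))) (.w 14 (.w 16 (.x 0) (.w 1 (.x 0) (.w
  15 (.x 0) (.d 320)))) (.d 257)))))))))) (.w 12 (.w 5 (.x 5) (.w 2 (.x 2) (.w 9 (.x 9) (.w 4 (.x 4) (.w 7 (.x
  7) (.w 11 (.x 11) (.w 3 (.x 3) (.w 10 (.x 10) (.w 14 (.w 1 (.x 0) (.w 15 (.x 0) (.w 16 (.x 0) (.d 4160))))
  (.d 4097)))))))))) (.p 13))) (.w 14 (.w 8 (.w 5 (.x 5) (.w 16 (.x 16) (.w 3 (.x 3) (.w 1 (.x 1) (.w 4 (.x 4)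
  (.w 7 (.x 7) (.w 9 (.x 9) (.w 10 (.x 10) (.w 11 (.x 11) (.w 15 (.x 15) (.w 12 (.w 2 (.x 2) (.d 8256)) (.d
  320)))))))))))) (.w 12 (.w 5 (.x 5) (.w 16 (.x 16) (.w 3 (.x 3) (.w 1 (.x 1) (.w 4 (.x 4) (.w 2 (.x 2) (.w 7
  (.x 7) (.w 9 (.x 9) (.w 10 (.x 10) (.w 11 (.x 11) (.w 15 (.x 15) (.d 4160)))))))))))) (.p 13))) (.p 6)))))))

def c52 : Tr := .t 8 (.t 9 (.t 16 (.p 8) (.s 9)) (.t 10 (.s 10) (.t 11 (.t 16 (.p 8) (.s 11)) (.t 12 (.p 12)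
  (.t 14 (.p 14) (.t 15 (.s 15) (.t 16 (.p 8) (.w 2 (.w 12 (.w 0 (.w 5 (.x 5) (.w 9 (.x 9) (.w 4 (.x 4) (.w 7
  (.x 7) (.w 11 (.x 11) (.w 10 (.x 10) (.w 14 (.w 1 (.x 0) (.w 15 (.x 0) (.d 4164))) (.d 4101)))))))) (.w 14
  (.w 5 (.x 5) (.w 9 (.x 9) (.w 1 (.x 1) (.w 4 (.x 4) (.w 11 (.x 11) (.w 7 (.x 7) (.w 10 (.x 10) (.w 15 (.x
  15) (.d 4164))))))))) (.p 6))) (.p 13)) (.p 8))))))))) (.t 9 (.t 16 (.t 10 (.s 10) (.t 11 (.t 12 .z (.t 14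
  .z (.t 15 .z (.w 2 (.w 5 (.w 3 (.w 14 (.w 8 (.w 1 (.x 1) (.w 10 (.x 10) (.w 7 (.x 7) (.d 8300)))) (.w 12 (.w
  1 (.x 1) (.w 10 (.x 10) (.w 7 (.x 7) (.d 4204)))) (.p 13))) (.p 6)) (.p 9)) (.p 11)) (.p 16))))) (.t 12 (.p
  12) (.t 14 (.p 6) (.t 15 (.s 15) (.w 3 (.w 14 (.w 2 (.w 11 (.w 8 (.w 1 (.x 1) (.w 4 (.x 4) (.w 15 (.x 15)
  (.w 5 (.x 5) (.w 7 (.x 7) (.w 10 (.x 10) (.d 10312))))))) (.w 12 (.w 1 (.x 1) (.w 4 (.x 4) (.w 15 (.x 15)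
  (.w 5 (.x 5) (.w 7 (.x 7) (.w 10 (.x 10) (.d 6216))))))) (.p 13))) (.w 8 (.w 1 (.x 1) (.w 4 (.x 4) (.w 15
  (.x 15) (.w 5 (.x 5) (.w 7 (.x 7) (.w 10 (.x 10) (.d 8268))))))) (.w 12 (.w 1 (.x 1) (.w 4 (.x 4) (.w 15 (.x
  15) (.w 5 (.x 5) (.w 7 (.x 7) (.w 10 (.x 10) (.d 4172))))))) (.p 13)))) (.w 11 (.w 8 (.w 1 (.x 1) (.w 4 (.x
  4) (.w 15 (.x 15) (.w 7 (.x 7) (.w 10 (.x 10) (.d 10312)))))) (.w 12 (.w 1 (.x 1) (.w 4 (.x 4) (.w 15 (.x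
  15) (.w 7 (.x 7) (.w 10 (.x 10) (.d 6216)))))) (.p 13))) (.p 16))) (.p 6)) (.p 9))))))) (.s 9)) (.t 10 (.s
  10) c51))

def c53 : Tr := .t 9 (.t 16 (.t 10 (.s 10) (.t 11 (.t 12 (.t 13 (.p 12) (.s 12)) (.t 13 (.s 13) (.t 14 (.s 14)
  (.t 15 (.p 11) (.w 5 (.w 3 (.w 0 (.w 13 (.x 13) (.w 7 (.x 7) (.w 8 (.x 8) (.w 10 (.x 10) (.w 14 (.x 14) (.w
  12 (.x 12) (.d 41))))))) (.w 2 (.w 13 (.x 13) (.w 1 (.x 1) (.w 6 (.x 6) (.w 10 (.x 10) (.w 7 (.x 7) (.w 12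
  (.x 12) (.w 14 (.x 14) (.d 44)))))))) (.p 16))) (.p 9)) (.p 11)))))) (.t 12 (.t 13 (.p 12) (.s 12)) (.t 13
  (.s 13) (.t 14 (.s 14) (.t 15 (.s 15) (.w 3 (.w 0 (.w 5 (.x 5) (.w 13 (.x 13) (.w 4 (.x 4) (.w 7 (.x 7) (.w
  8 (.x 8) (.w 14 (.x 14) (.w 10 (.x 10) (.w 12 (.x 12) (.w 11 (.w 1 (.x 0) (.w 6 (.x 0) (.w 15 (.x 0) (.d
  65544)))) (.d 9)))))))))) (.w 2 (.w 5 (.x 5) (.w 13 (.x 13) (.w 1 (.x 1) (.w 4 (.x 4) (.w 6 (.x 6) (.w 7 (.x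
  7) (.w 10 (.x 10) (.w 12 (.x 12) (.w 14 (.x 14) (.w 15 (.x 15) (.d 65540))))))))))) (.w 11 (.w 13 (.x 13)
  (.w 4 (.x 4) (.w 1 (.x 1) (.w 6 (.x 6) (.w 15 (.x 15) (.w 7 (.x 7) (.w 8 (.x 8) (.w 10 (.x 10) (.w 12 (.x
  12) (.w 14 (.x 14) (.d 2056))))))))))) (.p 16)))) (.p 9)))))))) (.s 9)) (.t 10 (.s 10) (.t 11 (.t 16 (.t 12
  (.t 13 (.p 12) (.s 12)) (.t 13 (.s 13) (.t 14 (.s 14) (.t 15 (.p 11) (.w 5 (.w 0 (.w 13 (.x 13) (.w 3 (.x 3)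
  (.w 7 (.x 7) (.w 8 (.x 8) (.w 10 (.x 10) (.w 14 (.x 14) (.w 12 (.x 12) (.w 2 (.w 1 (.x 0) (.w 6 (.x 0) (.d
  65568))) (.w 9 (.w 1 (.x 0) (.w 6 (.x 0) (.d 65568))) (.d 33)))))))))) (.w 2 (.w 13 (.x 13) (.w 1 (.x 1) (.w
  6 (.x 6) (.w 10 (.x 10) (.w 7 (.x 7) (.w 12 (.x 12) (.w 14 (.x 14) (.w 9 (.w 3 (.x 2) (.w 8 (.x 2) (.d
  65568))) (.d 36))))))))) (.w 9 (.w 13 (.x 13) (.w 1 (.x 1) (.w 6 (.x 6) (.w 10 (.x 10) (.w 7 (.x 7) (.w 8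
  (.x 8) (.w 12 (.x 12) (.w 14 (.x 14) (.d 544))))))))) (.p 16)))) (.p 11)))))) (.s 11)) (.t 12 (.t 13 (.p 12)
  (.s 12)) (.t 13 (.s 13) (.t 14 (.s 14) (.t 15 (.s 15) (.t 16 (.s 16) (.w 0 (.x 0) (.w 2 (.x 2) (.w 5 (.x 5)
  (.w 13 (.x 13) (.w 9 (.x 9) (.w 1 (.x 1) (.w 4 (.x 4) (.w 6 (.x 6) (.w 11 (.x 11) (.w 3 (.x 3) (.w 7 (.x 7)
  (.w 8 (.x 8) (.w 10 (.x 10) (.w 12 (.x 12) (.w 14 (.x 14) (.w 15 (.x 15) (.w 16 (.x 16) (.d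
  0)))))))))))))))))))))))))

def c54 : Tr := .t 3 (.t 9 (.t 4 (.t 5 (.t 6 (.t 13 .z (.t 14 .z (.s 6))) (.t 7 (.s 7) (.t 8 (.p 3) (.t 10 (.p
  4) (.t 11 (.p 9) (.t 12 (.t 13 .z (.s 12)) (.t 13 (.s 13) (.t 14 (.s 14) (.t 15 (.t 16 .z (.w 0 (.w 2 (.w 11
  (.w 10 (.w 16 (.w 13 (.x 13) (.w 7 (.x 7) (.w 14 (.x 14) (.w 12 (.x 12) (.d 61))))) (.p 9)) (.p 4)) (.p 5))
  (.p 3)) (.p 15))) (.t 16 (.p 3) (.w 16 (.w 2 (.w 10 (.w 15 (.w 6 (.x 6) (.w 1 (.x 1) (.w 13 (.x 13) (.w 7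
  (.x 7) (.w 12 (.x 12) (.w 14 (.x 14) (.d 98324))))))) (.w 11 (.w 6 (.x 6) (.w 1 (.x 1) (.w 13 (.x 13) (.w 7
  (.x 7) (.w 12 (.x 12) (.w 14 (.x 14) (.d 65556))))))) (.p 5))) (.p 4)) (.p 3)) (.p 9)))))))))))) (.t 10 (.p
  10) (.s 4))) c44) (.s 3)) (.t 4 (.t 5 c47 (.t 10 (.p 10) (.s 4))) (.t 5 c50 (.t 6 (.t 13 (.t 7 (.s 7) c52)
  (.t 14 (.p 14) (.s 6))) (.t 7 (.s 7) (.t 8 (.t 13 (.t 9 (.t 16 (.p 8) (.s 9)) (.t 10 (.s 10) (.t 11 (.t 16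
  (.p 8) (.s 11)) (.t 12 (.p 12) (.t 14 (.s 14) (.t 15 (.s 15) (.t 16 (.p 8) (.w 2 (.w 6 (.w 5 (.x 5) (.w 1
  (.x 1) (.w 9 (.x 9) (.w 4 (.x 4) (.w 11 (.x 11) (.w 15 (.x 15) (.w 7 (.x 7) (.w 10 (.x 10) (.w 12 (.w 0 (.x
  0) (.w 14 (.x 6) (.d 8196))) (.d 68)))))))))) (.w 12 (.w 0 (.x 0) (.w 5 (.x 5) (.w 9 (.x 9) (.w 1 (.x 1) (.w
  4 (.x 4) (.w 11 (.x 11) (.w 7 (.x 7) (.w 10 (.x 10) (.w 14 (.x 14) (.w 15 (.x 15) (.d 4100))))))))))) (.p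
  13))) (.p 8))))))))) (.s 8)) c53)))))

def cert : Tr := .t 0 c36 (.t 1 (.t 7 (.p 7) (.s 1)) (.t 2 c43 c54))


theorem cert_ok : chk cert 0 0 0 0 0 = true := by decide +kernel

abbrev V := Fin 17

def adjB (a b : V) : Bool := (!(decide (a = b))) && (nb a.val).testBit b.val

theorem sym_tab : ∀ a b : V, adjB a b = adjB b a := by decide +kernel
theorem self_tab : ∀ a : V, (nb a.val).testBit a.val = true := by decide +kernel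

def G : SimpleGraph V where
  Adj a b := adjB a b = true
  symm := ⟨fun a b h => by rw [← sym_tab a b]; exact h⟩
  loopless := ⟨fun a h => by simp [adjB] at h⟩

theorem nb_iff (v w : V) : (nb v.val).testBit w.val = true ↔ (w = v ∨ G.Adj w v) := by
  constructor
  · intro h
    by_cases hwv : w = v
    · exact Or.inl hwv
    · right
      show adjB w v = true
      rw [sym_tab]
      unfold adjB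
      rw [h, Bool.and_true, Bool.not_eq_true', decide_eq_false_iff_not]
      exact fun hh => hwv hh.symm
  · rintro (h | h)
    · rw [h]; exact self_tab v
    · have h' : adjB w v = true := h
      rw [sym_tab] at h'
      unfold adjB at h'
      rw [Bool.and_eq_true] at h'
      exact h'.2

theorem nl_tab : ∀ i : V, ∀ u ∈ nl i.val, u < 17 ∧ (nb i.val).testBit u = true := by
  decide +kernel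

theorem sub_spec {a b : Nat} (h : sub a b = true) (j : Nat) (hj : a.testBit j = true) :
    b.testBit j = true := by
  have h1 : a &&& b = a := Nat.eq_of_beq_eq_true h
  have h2 : (a &&& b).testBit j = true := by rw [h1]; exact hj
  rw [Nat.testBit_and, Bool.and_eq_true] at h2
  exact h2.2

theorem unionEx_spec (Ti i j : Nat) (h : (unionEx Ti i).testBit j = true) :
    ∃ v, v < 17 ∧ v ≠ i ∧ Ti.testBit v = true ∧ (nb v).testBit j = true := by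
  unfold unionEx at h
  have gen : ∀ L : List Nat, (∀ v ∈ L, v < 17) →
      (L.foldr (fun j acc => if j != i && Ti.testBit j then nb j ||| acc else acc) 0).testBit j = true →
      ∃ v, v < 17 ∧ v ≠ i ∧ Ti.testBit v = true ∧ (nb v).testBit j = true := by
    intro L
    induction L with
    | nil => intro _ h0; simp at h0
    | cons a L ih =>
      intro hL h0
      rw [List.foldr_cons] at h0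
      split at h0
      · rename_i hc
        rw [Bool.and_eq_true, bne_iff_ne] at hc
        rw [Nat.testBit_or, Bool.or_eq_true] at h0
        rcases h0 with h1 | h1
        · exact ⟨a, hL a List.mem_cons_self, hc.1, hc.2, h1⟩
        · exact ih (fun v hv => hL v (List.mem_cons_of_mem _ hv)) h1
      · exact ih (fun v hv => hL v (List.mem_cons_of_mem _ hv)) h0
  exact gen (List.range 17) (fun v hv => List.mem_range.1 hv) h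

/-- the finset of a mask -/
def fs (D : Nat) : Finset V := Finset.univ.filter (fun v : V => D.testBit v.val = true)

theorem mem_fs (D : Nat) (v : V) : v ∈ fs D ↔ D.testBit v.val = true := by
  simp [fs]

theorem pop_spec (D : Nat) : pop D = (fs D).card := by
  have gen : ∀ L : List Nat, L.foldr (fun j acc => if D.testBit j then acc + 1 else acc) 0 =
      (L.map (fun j => if D.testBit j = true then 1 else 0)).sum := by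
    intro L
    induction L with
    | nil => rfl
    | cons a L ih =>
      rw [List.foldr_cons, ih, List.map_cons, List.sum_cons]
      split <;> omega
  unfold pop
  rw [gen, fs, Finset.card_filter, ← Finset.sum_range (fun j => if D.testBit j = true then 1 else 0)]
  rfl

theorem testBit_or_pow (m : Nat) (v w : Nat) :
    (m ||| 2 ^ v).testBit w = true ↔ (m.testBit w = true ∨ v = w) := by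
  rw [Nat.testBit_or, Bool.or_eq_true, Nat.testBit_two_pow, decide_eq_true_iff]

theorem fs_insert (m : Nat) (v : V) : fs (m ||| 2 ^ v.val) = insert v (fs m) := by
  ext w
  rw [mem_fs, testBit_or_pow, Finset.mem_insert, mem_fs]
  constructor
  · rintro (h | h)
    · exact Or.inr h
    · exact Or.inl (Fin.ext h.symm)
  · rintro (h | h)
    · right; rw [h]
    · exact Or.inl h

theorem chk_sound (c : Tr) : ∀ (Ti To Wi Wo k : Nat), chk c Ti To Wi Wo k = true →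
    ∀ T W : Finset V, MX G W T → (∀ t ∈ T, ∃ s ∈ T, s ≠ t ∧ G.Adj s t) → T.card ≤ 5 →
    (∀ v : V, Ti.testBit v.val = true → v ∈ T) → (∀ v : V, To.testBit v.val = true → v ∉ T) →
    (∀ v : V, Wi.testBit v.val = true → v ∈ W) → (∀ v : V, Wo.testBit v.val = true → v ∉ W) →
    (fs Ti).card = k → ∃ D, DM G W D ∧ D.card ≤ T.card := by
  induction c with
  | z =>
    intro Ti To Wi Wo k h T W hT hno hK hTi hTo hWi hWo hk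
    exfalso
    have h1 : 6 ≤ k := Nat.le_of_ble_eq_true h
    have h2 : (fs Ti).card ≤ T.card := Finset.card_le_card (fun v hv => hTi v ((mem_fs Ti v).1 hv))
    omega
  | s i =>
    intro Ti To Wi Wo k h T W hT hno hK hTi hTo hWi hWo hk
    exfalso
    simp only [chk, Bool.and_eq_true] at h
    obtain ⟨⟨h1, h2⟩, h3⟩ := h
    have hi : i < 17 := Nat.le_of_ble_eq_true h1
    obtain ⟨s, hs, hsi, hadj⟩ := hno ⟨i, hi⟩ (hTi ⟨i, hi⟩ h2)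
    have h4 := sub_spec h3 s.val ((nb_iff ⟨i, hi⟩ s).2 (Or.inr hadj))
    rw [testBit_or_pow] at h4
    rcases h4 with h4 | h4
    · exact hTo s h4 hs
    · exact hsi (Fin.ext h4.symm)
  | p i =>
    intro Ti To Wi Wo k h T W hT hno hK hTi hTo hWi hWo hk
    exfalso
    simp only [chk, Bool.and_eq_true] at h
    obtain ⟨⟨h1, h2⟩, h3⟩ := h
    have hi : i < 17 := Nat.le_of_ble_eq_true h1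
    obtain ⟨u, hu, hui, hp⟩ := hT.1.2 ⟨i, hi⟩ (hTi ⟨i, hi⟩ h2)
    have h4 := sub_spec h3 u.val ((nb_iff ⟨i, hi⟩ u).2 hui)
    rw [Nat.testBit_or, Bool.or_eq_true] at h4
    rcases h4 with h4 | h4
    · exact hWo u h4 hu
    · obtain ⟨v, hv, hvi, hvT, hvu⟩ := unionEx_spec _ _ _ h4
      have hvT' : (⟨v, hv⟩ : V) ∈ T := hTi ⟨v, hv⟩ hvT
      exact hp ⟨v, hv⟩ hvT' (fun hh => hvi (congrArg Fin.val hh)) ((nb_iff ⟨v, hv⟩ u).1 hvu)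
  | x i =>
    intro Ti To Wi Wo k h T W hT hno hK hTi hTo hWi hWo hk
    exfalso
    simp only [chk, Bool.and_eq_true, List.any_eq_true, List.all_eq_true, Bool.or_eq_true,
      Bool.not_eq_true', List.mem_range] at h
    obtain ⟨⟨⟨⟨h1, h2⟩, h3⟩, h4⟩, h5⟩ := h
    have hi : i < 17 := Nat.le_of_ble_eq_true h1
    have hxT : (⟨i, hi⟩ : V) ∉ T := hTo ⟨i, hi⟩ h3
    have hxW : (⟨i, hi⟩ : V) ∈ W := hWi ⟨i, hi⟩ h2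
    apply hT.2 ⟨i, hi⟩ hxW hxT
    refine ⟨Finset.insert_subset hxW hT.1.1, ?_⟩
    intro v hv
    by_cases hvx : v = ⟨i, hi⟩
    · subst hvx
      obtain ⟨u, hul, huW, hus⟩ := h4
      obtain ⟨hu17, hub⟩ := nl_tab ⟨i, hi⟩ u hul
      refine ⟨⟨u, hu17⟩, hWi ⟨u, hu17⟩ huW, (nb_iff ⟨i, hi⟩ ⟨u, hu17⟩).1 hub, ?_⟩
      intro w hw hwx hcl
      rcases Finset.mem_insert.1 hw with h6 | h6
      · exact hwx h6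
      · have h7 : (nb u).testBit w.val = true := by
          apply (nb_iff ⟨u, hu17⟩ w).2
          rcases hcl with h8 | h8
          · exact Or.inl h8.symm
          · exact Or.inr h8.symm
        exact hTo w (sub_spec hus w.val h7) h6
    · have hvT : v ∈ T := by
        rcases Finset.mem_insert.1 hv with h6 | h6
        · exact absurd h6 hvx
        · exact h6
      rcases h5 v.val v.isLt with h6 | h6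
      · exact absurd hvT (hTo v h6)
      · obtain ⟨q, hql, ⟨hqW, hqi⟩, hqs⟩ := h6
        obtain ⟨hq17, hqb⟩ := nl_tab v q hql
        refine ⟨⟨q, hq17⟩, hWi ⟨q, hq17⟩ hqW, (nb_iff v ⟨q, hq17⟩).1 hqb, ?_⟩
        intro w hw hwv hcl
        rcases Finset.mem_insert.1 hw with h7 | h7
        · subst h7
          have h8 := (nb_iff ⟨i, hi⟩ ⟨q, hq17⟩).2 hcl
          rw [hqi] at h8
          exact Bool.false_ne_true h8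
        · have h8 : (nb q).testBit w.val = true := by
            apply (nb_iff ⟨q, hq17⟩ w).2
            rcases hcl with h9 | h9
            · exact Or.inl h9.symm
            · exact Or.inr h9.symm
          have h9 := sub_spec hqs w.val h8
          rw [testBit_or_pow] at h9
          rcases h9 with h9 | h9
          · exact hTo w h9 h7
          · exact hwv (Fin.ext h9.symm)
  | d D =>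
    intro Ti To Wi Wo k h T W hT hno hK hTi hTo hWi hWo hk
    simp only [chk, Bool.and_eq_true, List.all_eq_true, Bool.or_eq_true,
      Bool.not_eq_true', List.mem_range] at h
    obtain ⟨⟨h1, h2⟩, h3⟩ := h
    refine ⟨fs D, ⟨?_, ?_⟩, ?_⟩
    · intro v hv
      exact hWi v (sub_spec h1 v.val ((mem_fs D v).1 hv))
    · intro v hv
      rcases h3 v.val v.isLt with h4 | h4
      · exact absurd hv (hWo v h4)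
      · have h5 : nb v.val &&& D ≠ 0 := by
          intro h6
          rw [h6] at h4
          exact absurd h4 (by decide)
        obtain ⟨j, hj⟩ := Nat.exists_testBit_of_ne_zero h5
        rw [Nat.testBit_and, Bool.and_eq_true] at hj
        have hj17 : j < 17 := by
          by_contra hge
          have hlt : nb v.val < 2 ^ 17 := by
            have : ∀ a : V, nb a.val < 2 ^ 17 := by decide +kernel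
            exact this v
          have : nb v.val < 2 ^ j := lt_of_lt_of_le hlt (Nat.pow_le_pow_right (by norm_num) (not_lt.1 hge))
          rw [Nat.testBit_lt_two_pow this] at hj
          exact Bool.false_ne_true hj.1
        have hcl := (nb_iff v ⟨j, hj17⟩).1 hj.1
        have hjD : (⟨j, hj17⟩ : V) ∈ fs D := (mem_fs D ⟨j, hj17⟩).2 hj.2
        rcases hcl with h6 | h6
        · left; rw [← h6]; exact hjD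
        · right; exact ⟨⟨j, hj17⟩, hjD, h6.symm⟩
    · have h4 : pop D ≤ k := Nat.le_of_ble_eq_true h2
      rw [pop_spec] at h4
      have h5 : (fs Ti).card ≤ T.card := Finset.card_le_card (fun v hv => hTi v ((mem_fs Ti v).1 hv))
      omega
  | t v a b iha ihb =>
    intro Ti To Wi Wo k h T W hT hno hK hTi hTo hWi hWo hk
    simp only [chk, Bool.and_eq_true, Bool.not_eq_true'] at h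
    obtain ⟨⟨⟨h1, h2⟩, h3⟩, h4⟩ := h
    have hi : v < 17 := Nat.le_of_ble_eq_true h1
    by_cases hv : (⟨v, hi⟩ : V) ∈ T
    · refine iha _ _ _ _ _ h3 T W hT hno hK ?_ hTo ?_ hWo ?_
      · intro w hw
        rw [testBit_or_pow] at hw
        rcases hw with hw | hw
        · exact hTi w hw
        · have : w = ⟨v, hi⟩ := Fin.ext hw.symm
          rw [this]; exact hv
      · intro w hw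
        rw [testBit_or_pow] at hw
        rcases hw with hw | hw
        · exact hWi w hw
        · have : w = ⟨v, hi⟩ := Fin.ext hw.symm
          rw [this]; exact hT.1.1 hv
      · have h5 := fs_insert Ti ⟨v, hi⟩
        have h6 : (⟨v, hi⟩ : V) ∉ fs Ti := by
          rw [mem_fs]
          show ¬ (Ti.testBit v = true)
          rw [h2]; exact Bool.false_ne_true
        have h7 : (fs (Ti ||| 2 ^ v)).card = (fs Ti).card + 1 := by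
          have h8 : fs (Ti ||| 2 ^ v) = insert ⟨v, hi⟩ (fs Ti) := h5
          rw [h8, Finset.card_insert_of_notMem h6]
        rw [h7, hk]
    · refine ihb _ _ _ _ _ h4 T W hT hno hK hTi ?_ hWi hWo hk
      intro w hw
      rw [testBit_or_pow] at hw
      rcases hw with hw | hw
      · exact hTo w hw
      · have : w = ⟨v, hi⟩ := Fin.ext hw.symm
        rw [this]; exact hv
  | w v a b iha ihb =>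
    intro Ti To Wi Wo k h T W hT hno hK hTi hTo hWi hWo hk
    simp only [chk, Bool.and_eq_true] at h
    obtain ⟨⟨h1, h3⟩, h4⟩ := h
    have hi : v < 17 := Nat.le_of_ble_eq_true h1
    by_cases hv : (⟨v, hi⟩ : V) ∈ W
    · refine iha _ _ _ _ _ h3 T W hT hno hK hTi hTo ?_ hWo hk
      intro w hw
      rw [testBit_or_pow] at hw
      rcases hw with hw | hw
      · exact hWi w hw
      · have : w = ⟨v, hi⟩ := Fin.ext hw.symm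
        rw [this]; exact hv
    · refine ihb _ _ _ _ _ h4 T W hT hno hK hTi hTo hWi ?_ hk
      intro w hw
      rw [testBit_or_pow] at hw
      rcases hw with hw | hw
      · exact hWo w hw
      · have : w = ⟨v, hi⟩ := Fin.ext hw.symm
        rw [this]; exact hv

/-- every maximal irredundant set with at most 5 vertices of an induced subgraph of `G`
is at least as large as some dominating set -/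
theorem good5 : ∀ T W : Finset V, MX G W T → T.card ≤ 5 → ∃ D, DM G W D ∧ D.card ≤ T.card := by
  apply good_of_noiso G 5
  intro T W hT hno hK
  refine chk_sound cert 0 0 0 0 0 cert_ok T W hT hno hK ?_ ?_ ?_ ?_ ?_
  · intro v hv; simp at hv
  · intro v hv; simp at hv
  · intro v hv; simp at hv
  · intro v hv; simp at hv
  · have : fs 0 = ∅ := by ext v; simp [mem_fs]
    rw [this]; rfl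

/-- proof search for: no set with at most `k` vertices covers the mask `un`;
the vertices to be covered are taken in the order of the list -/
def noDom : List Nat → Nat → Nat → Bool
  | [], _, _ => false
  | v :: L, k, un =>
    if un.testBit v then
      (match k with
        | 0 => true
        | k + 1 => (nl v).all fun u => noDom L k (un &&& (131071 ^^^ nb u)))
    else noDom L k un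

def order : List Nat := [7, 10, 12, 14, 1, 4, 13, 3, 5, 15, 8, 6, 11, 9, 2, 0, 16]

theorem noDom_ok : noDom order 6 131071 = true := by decide +kernel

theorem nl_full : ∀ i u : V, (nb i.val).testBit u.val = true → u.val ∈ nl i.val := by
  decide +kernel

theorem noDom_sound (L : List Nat) (hL : ∀ v ∈ L, v < 17) : ∀ (k un : Nat), noDom L k un = true →
    ∀ D : Finset V, (∀ v : V, un.testBit v.val = true → ∃ d ∈ D, v = d ∨ G.Adj v d) →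
    k < D.card := by
  induction L with
  | nil => intro k un h; simp [noDom] at h
  | cons v L ih =>
    intro k un h D hD
    have hv : v < 17 := hL v List.mem_cons_self
    have ih' := ih (fun w hw => hL w (List.mem_cons_of_mem _ hw))
    unfold noDom at h
    by_cases hb : un.testBit v = true
    · rw [if_pos hb] at h
      obtain ⟨d, hd, hvd⟩ := hD ⟨v, hv⟩ hb
      cases k with
      | zero => exact Finset.card_pos.2 ⟨d, hd⟩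
      | succ k =>
        simp only [List.all_eq_true] at h
        have hmem : d.val ∈ nl v := by
          apply nl_full ⟨v, hv⟩ d
          apply (nb_iff ⟨v, hv⟩ d).2
          rcases hvd with h1 | h1
          · exact Or.inl h1.symm
          · exact Or.inr h1.symm
        have h2 := ih' k _ (h d.val hmem) (D.erase d) ?_
        · have h3 := Finset.card_erase_add_one hd
          omega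
        · intro w hw
          rw [Nat.testBit_and, Bool.and_eq_true, Nat.testBit_xor] at hw
          obtain ⟨e, he, hwe⟩ := hD w hw.1
          refine ⟨e, Finset.mem_erase.2 ⟨?_, he⟩, hwe⟩
          intro hed
          subst hed
          have h4 : (nb e.val).testBit w.val = true := (nb_iff e w).2 hwe
          have h5 : (131071 : Nat).testBit w.val = true := by
            have : ∀ w : V, (131071 : Nat).testBit w.val = true := by decide +kernel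
            exact this w
          rw [h4, h5] at hw
          exact absurd hw.2 (by decide)
    · rw [if_neg hb] at h
      exact ih' k un h D hD

/-- no set with at most six vertices dominates `G` -/
theorem gam_lower (D : Finset V) (hD : DM G Finset.univ D) : 7 ≤ D.card := by
  have h := noDom_sound order (by decide) 6 131071 noDom_ok D
    (fun v _ => DM_cl G hD (Finset.mem_univ v))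
  omega

instance : DecidableRel G.Adj := fun a b => inferInstanceAs (Decidable (adjB a b = true))

instance decIR (W S : Finset V) : Decidable (IR G W S) := by
  unfold IR
  infer_instance

instance decMX (W S : Finset V) : Decidable (MX G W S) := by
  unfold MX
  infer_instance

/-- a maximal irredundant set with six vertices -/
theorem six : MX G Finset.univ ({0, 1, 2, 4, 5, 8} : Finset V) := by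
  decide +kernel

end Pool.Agent.Helper590.Irr17
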